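import Mathlib

/-! # The modulus lemma: phase and width of the cell disappear

`P` is the primitive of the indicator of a union of intervals (`0 ≤ P' ≤ 1`).  The flux of a
two-slope density around a triangle, three arcs of a circle of circumference `h`, is bounded by an
expression which does not depend on the position of the intervals. -/

namespace Pool.Agent.Strip051.LC.Line

open MeasureTheory intervalIntegral

/-- The mean of `f` over the segment from `a` to `b`. -/
noncomputable def mn (f : ℝ → ℝ) (a b : ℝ) : ℝ := ∫ u in (0 : ℝ)..1, f (a + u * (b - a))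

/-- The integral of the positive part of an affine function. -/
noncomputable def phi (p q : ℝ) : ℝ :=
  if p = q then max p 0 else (max p 0 ^ 2 - max q 0 ^ 2) / (2 * (p - q))

theorem phi_nonneg_nonneg {p q : ℝ} (hp : 0 ≤ p) (hq : 0 ≤ q) : phi p q = (p + q) / 2 := by
  unfold phi
  split_ifs with h
  · subst h
    rw [max_eq_left hp]
    ring
  · have : p - q ≠ 0 := sub_ne_zero.2 h
    rw [max_eq_left hp, max_eq_left hq]
    field_simp
    ring

theorem phi_nonpos_nonpos {p q : ℝ} (hp : p ≤ 0) (hq : q ≤ 0) : phi p q = 0 := by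
  unfold phi
  rw [max_eq_right hp, max_eq_right hq]
  simp

theorem phi_pos_neg {p q : ℝ} (hp : 0 ≤ p) (hq : q ≤ 0) : phi p q = p ^ 2 / (2 * (p - q)) := by
  unfold phi
  rw [max_eq_left hp, max_eq_right hq]
  split_ifs with h
  · have hp0 : p = 0 := le_antisymm (h ▸ hq) hp
    subst hp0
    simp
  · ring

theorem phi_comm (p q : ℝ) : phi p q = phi q p := by
  unfold phi
  by_cases h : p = q
  · subst h; rfl
  · rw [if_neg h, if_neg (Ne.symm h), ← neg_div_neg_eq]
    congr 1 <;> ring

theorem phi_neg_pos {p q : ℝ} (hp : p ≤ 0) (hq : 0 ≤ q) : phi p q = q ^ 2 / (2 * (q - p)) := by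
  rw [phi_comm, phi_pos_neg hq hp]

theorem phi_smul {t : ℝ} (ht : 0 ≤ t) (p q : ℝ) : phi (t * p) (t * q) = t * phi p q := by
  rcases ht.eq_or_lt with rfl | ht
  · simp [phi]
  unfold phi
  have e1 : max (t * p) 0 = t * max p 0 := by
    rw [mul_max_of_nonneg _ _ ht.le, mul_zero]
  have e2 : max (t * q) 0 = t * max q 0 := by
    rw [mul_max_of_nonneg _ _ ht.le, mul_zero]
  by_cases h : p = q
  · subst h
    rw [if_pos rfl, if_pos rfl, e1]
  · rw [if_neg h, if_neg (by simpa [ht.ne'] using h), e1, e2]
    have : p - q ≠ 0 := sub_ne_zero.2 h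
    have h2 : t * p - t * q ≠ 0 := by
      rw [← mul_sub]; exact mul_ne_zero ht.ne' this
    field_simp

/-- `phi` is monotone. -/
theorem phi_mono {p q p' q' : ℝ} (hp : p ≤ p') (hq : q ≤ q') : phi p q ≤ phi p' q' := by
  have key : ∀ {p p' q : ℝ}, p ≤ p' → phi p q ≤ phi p' q := by
    intro p p' q h
    rcases le_total 0 p with h1 | h1
    · have h2 := h1.trans h
      rcases le_total 0 q with h3 | h3
      · rw [phi_nonneg_nonneg h1 h3, phi_nonneg_nonneg h2 h3]; linarith
      · rw [phi_pos_neg h1 h3, phi_pos_neg h2 h3]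
        rcases h2.eq_or_lt with h4 | h4
        · have : p = 0 := le_antisymm (h4 ▸ h) h1
          simp [this, ← h4]
        rcases h1.eq_or_lt with h5 | h5
        · rw [← h5]; simp only [ne_eq, OfNat.ofNat_ne_zero, not_false_eq_true, zero_pow, zero_div]
          exact div_nonneg (sq_nonneg _) (by linarith)
        rw [div_le_div_iff₀ (by linarith) (by linarith)]
        nlinarith [mul_nonneg h1 h2, mul_nonneg (mul_nonneg h1 h2) (sub_nonneg.2 h),
          mul_nonneg (neg_nonneg.2 h3) (mul_nonneg (sub_nonneg.2 h) (add_nonneg h1 h2))]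
    · rcases le_total 0 p' with h2 | h2
      · rcases le_total 0 q with h3 | h3
        · rw [phi_neg_pos h1 h3, phi_nonneg_nonneg h2 h3]
          rcases h3.eq_or_lt with h4 | h4
          · rw [← h4]; simp; linarith
          rw [div_le_div_iff₀ (by linarith) (by norm_num)]
          nlinarith [mul_nonneg h2 h3, mul_nonneg (neg_nonneg.2 h1) h3,
            mul_nonneg (neg_nonneg.2 h1) h2]
        · rw [phi_nonpos_nonpos h1 h3, phi_pos_neg h2 h3]
          exact div_nonneg (sq_nonneg _) (by linarith)
      · rcases le_total 0 q with h3 | h3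
        · rw [phi_neg_pos h1 h3, phi_neg_pos h2 h3]
          rcases h3.eq_or_lt with h4 | h4
          · rw [← h4]; simp
          exact div_le_div_of_nonneg_left (sq_nonneg _) (by linarith) (by linarith)
        · rw [phi_nonpos_nonpos h1 h3, phi_nonpos_nonpos h2 h3]
  calc phi p q ≤ phi p' q := key hp
    _ = phi q p' := phi_comm _ _
    _ ≤ phi q' p' := key hq
    _ = phi p' q' := phi_comm _ _

theorem phi_le_half (p q : ℝ) : phi p q ≤ (max p 0 + max q 0) / 2 := by
  have h : phi p q ≤ phi (max p 0) (max q 0) := phi_mono (le_max_left _ _) (le_max_left _ _)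
  rwa [phi_nonneg_nonneg (le_max_right _ _) (le_max_right _ _)] at h

theorem phi_nonneg (p q : ℝ) : 0 ≤ phi p q := by
  have h : phi (min p 0) (min q 0) ≤ phi p q := phi_mono (min_le_left _ _) (min_le_left _ _)
  rwa [phi_nonpos_nonpos (min_le_right _ _) (min_le_right _ _)] at h

section arc

variable {P : ℝ → ℝ}

theorem mn_le {f g : ℝ → ℝ} {a b : ℝ} (hf : IntervalIntegrable (fun u => f (a + u * (b - a)))
    volume 0 1) (hg : IntervalIntegrable g volume 0 1)
    (h : ∀ u, 0 ≤ u → u ≤ 1 → f (a + u * (b - a)) ≤ g u) :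
    mn f a b ≤ ∫ u in (0 : ℝ)..1, g u := by
  unfold mn
  apply intervalIntegral.integral_mono_on (by norm_num) hf hg
  intro u hu
  exact h u hu.1 hu.2

theorem integrable_of_monotone (hm : Monotone P) {a b : ℝ} (hab : a ≤ b) (c d : ℝ) :
    IntervalIntegrable (fun u => P (a + u * (b - a))) volume c d := by
  apply Monotone.intervalIntegrable
  intro x y hxy
  apply hm
  have : 0 ≤ (y - x) * (b - a) := mul_nonneg (by linarith) (by linarith)
  linarith

/-- One arc. -/
theorem arc (hm : Monotone P) (hl : ∀ x y, x ≤ y → P y - P x ≤ y - x) {a b : ℝ} (hab : a ≤ b)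
    (p q : ℝ) : q * P b - p * P a + (p - q) * mn P a b ≤ (b - a) * phi p q := by
  have hI := fun c d => integrable_of_monotone hm hab c d
  have ha : ∀ u : ℝ, 0 ≤ u → a ≤ a + u * (b - a) := fun u hu => by
    have := mul_nonneg hu (sub_nonneg.2 hab); linarith
  have hb : ∀ u : ℝ, u ≤ 1 → a + u * (b - a) ≤ b := fun u hu => by
    have := mul_nonneg (sub_nonneg.2 hu) (sub_nonneg.2 hab); linarith
  -- the four bounds of the mean
  have m1 : mn P a b ≤ P a + (b - a) / 2 := by
    have h := mn_le (g := fun u => P a + u * (b - a)) (hI 0 1)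
      (Continuous.intervalIntegrable (by fun_prop) _ _) (fun u h0 h1 => by
        have := hl _ _ (ha u h0); linarith)
    refine h.trans (le_of_eq ?_)
    rw [intervalIntegral.integral_add (by simp) (Continuous.intervalIntegrable (by fun_prop) _ _)]
    simp
    ring
  have m2 : mn P a b ≤ P b := by
    have h := mn_le (g := fun _ => P b) (hI 0 1) (by simp) (fun u h0 h1 => hm (hb u h1))
    simpa using h
  have m3 : P a ≤ mn P a b := by
    have h : ∫ u in (0 : ℝ)..1, P a ≤ mn P a b := by
      unfold mn
      exact intervalIntegral.integral_mono_on (by norm_num) (by simp) (hI 0 1)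
        (fun u hu => hm (ha u hu.1))
    simpa using h
  have m4 : P b - (b - a) / 2 ≤ mn P a b := by
    have h : ∫ u in (0 : ℝ)..1, ((P b - (b - a)) + u * (b - a)) ≤ mn P a b := by
      unfold mn
      refine intervalIntegral.integral_mono_on (by norm_num)
        (Continuous.intervalIntegrable (by fun_prop) _ _) (hI 0 1) (fun u hu => ?_)
      have := hl _ _ (hb u hu.2)
      linarith
    refine le_trans (le_of_eq ?_) h
    rw [intervalIntegral.integral_add (by simp) (Continuous.intervalIntegrable (by fun_prop) _ _)]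
    simp
    ring
  have hPab : P a ≤ P b := hm hab
  have hPab' : P b - P a ≤ b - a := hl _ _ hab
  -- the mixed bounds
  have mix : ∀ t : ℝ, 0 ≤ t → t ≤ 1 →
      mn P a b ≤ t * P a + (b - a) * t ^ 2 / 2 + (1 - t) * P b ∧
      (1 - t) * P b - (b - a) * (1 - t) ^ 2 / 2 + t * P a ≤ mn P a b := by
    intro t h0 h1
    have hs : mn P a b = (∫ u in (0 : ℝ)..t, P (a + u * (b - a))) +
        ∫ u in t..1, P (a + u * (b - a)) := by
      unfold mn
      rw [intervalIntegral.integral_add_adjacent_intervals (hI _ _) (hI _ _)]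
    constructor
    · have k1 : ∫ u in (0 : ℝ)..t, P (a + u * (b - a)) ≤
          ∫ u in (0 : ℝ)..t, (P a + u * (b - a)) := by
        refine intervalIntegral.integral_mono_on h0 (hI _ _)
          (Continuous.intervalIntegrable (by fun_prop) _ _) (fun u hu => ?_)
        have := hl _ _ (ha u hu.1); linarith
      have k2 : ∫ u in t..1, P (a + u * (b - a)) ≤ ∫ u in t..1, P b := by
        refine intervalIntegral.integral_mono_on h1 (hI _ _) (by simp) (fun u hu => ?_)
        exact hm (hb u hu.2)
      have e1 : ∫ u in (0 : ℝ)..t, (P a + u * (b - a)) = t * P a + (b - a) * t ^ 2 / 2 := by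
        rw [intervalIntegral.integral_add (by simp)
          (Continuous.intervalIntegrable (by fun_prop) _ _)]
        simp
        ring
      have e2 : ∫ u in t..1, P b = (1 - t) * P b := by simp
      rw [hs, ← e1, ← e2]
      linarith
    · have k1 : ∫ u in (0 : ℝ)..t, P a ≤ ∫ u in (0 : ℝ)..t, P (a + u * (b - a)) := by
        refine intervalIntegral.integral_mono_on h0 (by simp) (hI _ _) (fun u hu => ?_)
        exact hm (ha u hu.1)
      have k2 : ∫ u in t..1, ((P b - (b - a)) + u * (b - a)) ≤
          ∫ u in t..1, P (a + u * (b - a)) := by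
        refine intervalIntegral.integral_mono_on h1
          (Continuous.intervalIntegrable (by fun_prop) _ _) (hI _ _) (fun u hu => ?_)
        have := hl _ _ (hb u hu.2)
        linarith
      have e1 : ∫ u in (0 : ℝ)..t, P a = t * P a := by simp
      have e2 : ∫ u in t..1, ((P b - (b - a)) + u * (b - a)) =
          (1 - t) * P b - (b - a) * (1 - t) ^ 2 / 2 := by
        rw [intervalIntegral.integral_add (by simp)
          (Continuous.intervalIntegrable (by fun_prop) _ _)]
        simp
        ring
      rw [hs, ← e1, ← e2]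
      linarith
  rcases le_total 0 p with hp | hp <;> rcases le_total 0 q with hq | hq
  · rw [phi_nonneg_nonneg hp hq]
    rcases le_total q p with h | h
    · nlinarith [mul_nonneg hq (sub_nonneg.2 hPab'), mul_nonneg (sub_nonneg.2 h) (sub_nonneg.2 m1)]
    · nlinarith [mul_nonneg hp (sub_nonneg.2 hPab'), mul_nonneg (sub_nonneg.2 h) (sub_nonneg.2 m4)]
  · rw [phi_pos_neg hp hq]
    rcases (sub_nonneg.2 (hq.trans hp)).eq_or_lt with h | h
    · have e1 : p = 0 := le_antisymm (by linarith) hp
      have e2 : q = 0 := le_antisymm hq (by linarith)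
      simp [e1, e2]
    have hpq : 0 < p - q := h
    have ht0 : 0 ≤ p / (p - q) := div_nonneg hp hpq.le
    have ht1 : p / (p - q) ≤ 1 := by rw [div_le_one hpq]; linarith
    have h1 := (mix _ ht0 ht1).1
    have h2 := mul_le_mul_of_nonneg_left h1 hpq.le
    have e3 : (p - q) * (p / (p - q) * P a + (b - a) * (p / (p - q)) ^ 2 / 2 +
        (1 - p / (p - q)) * P b) = p * P a + (b - a) * (p ^ 2 / (2 * (p - q))) - q * P b := by
      field_simp
      ring
    rw [e3] at h2
    linarith
  · rw [phi_neg_pos hp hq]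
    rcases (sub_nonneg.2 (hp.trans hq)).eq_or_lt with h | h
    · have e1 : p = 0 := le_antisymm hp (by linarith)
      have e2 : q = 0 := le_antisymm (by linarith) hq
      simp [e1, e2]
    have hpq : 0 < q - p := h
    have ht0 : 0 ≤ -p / (q - p) := div_nonneg (by linarith) hpq.le
    have ht1 : -p / (q - p) ≤ 1 := by rw [div_le_one hpq]; linarith
    have h1 := (mix _ ht0 ht1).2
    have h2 := mul_le_mul_of_nonneg_left h1 hpq.le
    have e3 : (q - p) * ((1 - -p / (q - p)) * P b - (b - a) * (1 - -p / (q - p)) ^ 2 / 2 +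
        -p / (q - p) * P a) = q * P b - (b - a) * (q ^ 2 / (2 * (q - p))) - p * P a := by
      field_simp
      ring
    rw [e3] at h2
    linarith
  · rw [phi_nonpos_nonpos hp hq]
    rcases le_total q p with h | h
    · nlinarith [mul_nonneg (neg_nonneg.2 hp) (sub_nonneg.2 hPab),
        mul_nonneg (sub_nonneg.2 h) (sub_nonneg.2 m2)]
    · nlinarith [mul_nonneg (neg_nonneg.2 hq) (sub_nonneg.2 hPab),
        mul_nonneg (sub_nonneg.2 h) (sub_nonneg.2 m3)]

end arc

/-- The potential at the node between arc three and arc one, the arcs have lengths `l₁ l₂ l₃` and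
carry the coefficients `A₁ A₂ A₃` (flux = sum of `Aᵢ` times the mean over the arc). -/
noncomputable def pot (h A1 A2 A3 l1 l2 l3 : ℝ) : ℝ :=
  (A1 * (l2 + l3) - A3 * (l1 + l2) + A2 * (l3 - l1)) / (2 * h)

theorem mn_affine {P : ℝ → ℝ} (hm : Monotone P) {a b : ℝ} (hab : a ≤ b) (k s d : ℝ) :
    mn (fun z => k * (P z - s * z - d)) a b = k * (mn P a b - s * ((a + b) / 2) - d) := by
  unfold mn
  have h1 := integrable_of_monotone hm hab 0 1
  have e : (fun u : ℝ => k * (P (a + u * (b - a)) - s * (a + u * (b - a)) - d)) =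
      fun u => k * (P (a + u * (b - a)) - ((s * a + d) + u * (s * (b - a)))) := by
    funext u; ring
  rw [e, intervalIntegral.integral_const_mul, intervalIntegral.integral_sub h1
    (Continuous.intervalIntegrable (by fun_prop) _ _),
    intervalIntegral.integral_add (by simp) (Continuous.intervalIntegrable (by fun_prop) _ _)]
  have e2 : ∫ u in (0 : ℝ)..1, u * (s * (b - a)) = s * (b - a) / 2 := by
    rw [intervalIntegral.integral_mul_const]
    simp
    ring
  rw [e2]
  simp only [intervalIntegral.integral_const, smul_eq_mul, sub_zero, one_mul]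
  ring

theorem mul_mn (f : ℝ → ℝ) (a b : ℝ) : (b - a) * mn f a b = ∫ x in a..b, f x := by
  unfold mn
  have := intervalIntegral.smul_integral_comp_add_mul (f := f) (a := 0) (b := 1) (b - a) a
  simp only [smul_eq_mul, mul_zero, add_zero, mul_one] at this
  rw [show (fun u => f (a + u * (b - a))) = fun u => f (a + (b - a) * u) by
    funext u; ring_nf]
  rw [this]
  congr 1
  ring

/-- **Modulus lemma.** -/
theorem flux_le {P D : ℝ → ℝ} {h s κ d : ℝ} (hh : 0 < h) (hκ : 0 ≤ κ) (hm : Monotone P)
    (hl : ∀ x y, x ≤ y → P y - P x ≤ y - x) (hP : ∀ x, P (x + h) = P x + s)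
    (hD : ∀ x, D x = κ * (P x - s / h * x - d)) {a b c : ℝ} (hab : a ≤ b) (hbc : b ≤ c)
    (hca : c ≤ a + h) (hD0 : ∫ x in a..(a + h), D x = 0) (A1 A2 A3 γ : ℝ) :
    A1 * mn D a b + A2 * mn D b c + A3 * mn D c (a + h) ≤
      κ * ((b - a) * phi (pot h A1 A2 A3 (b - a) (c - b) (a + h - c) - γ)
              (pot h A2 A3 A1 (c - b) (a + h - c) (b - a) - γ) +
           (c - b) * phi (pot h A2 A3 A1 (c - b) (a + h - c) (b - a) - γ)
              (pot h A3 A1 A2 (a + h - c) (b - a) (c - b) - γ) +
           (a + h - c) * phi (pot h A3 A1 A2 (a + h - c) (b - a) (c - b) - γ)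
              (pot h A1 A2 A3 (b - a) (c - b) (a + h - c) - γ) + γ * s) := by
  have hD' : D = fun x => κ * (P x - s / h * x - d) := funext hD
  have hI : ∀ x y : ℝ, IntervalIntegrable D volume x y := by
    intro x y
    rw [hD']
    exact ((hm.intervalIntegrable.sub (Continuous.intervalIntegrable (by fun_prop) _ _)).sub
      (Continuous.intervalIntegrable (by fun_prop) _ _)).const_mul _
  set W1 := pot h A1 A2 A3 (b - a) (c - b) (a + h - c) with hW1
  set W2 := pot h A2 A3 A1 (c - b) (a + h - c) (b - a) with hW2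
  set W3 := pot h A3 A1 A2 (a + h - c) (b - a) (c - b) with hW3
  have a1 := arc hm hl hab (W1 - γ) (W2 - γ)
  have a2 := arc hm hl hbc (W2 - γ) (W3 - γ)
  have a3 := arc hm hl hca (W3 - γ) (W1 - γ)
  rw [hP] at a3
  -- the mean of `D`
  have z : (b - a) * mn D a b + (c - b) * mn D b c + (a + h - c) * mn D c (a + h) = 0 := by
    rw [mul_mn, mul_mn, mul_mn, intervalIntegral.integral_add_adjacent_intervals (hI _ _) (hI _ _),
      intervalIntegral.integral_add_adjacent_intervals (hI _ _) (hI _ _), hD0]
  have e12 : W1 - W2 = A1 - (b - a) * ((A1 + A2 + A3) / h) := by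
    rw [hW1, hW2]; unfold pot; field_simp; ring
  have e23 : W2 - W3 = A2 - (c - b) * ((A1 + A2 + A3) / h) := by
    rw [hW2, hW3]; unfold pot; field_simp; ring
  have e31 : W3 - W1 = A3 - (a + h - c) * ((A1 + A2 + A3) / h) := by
    rw [hW3, hW1]; unfold pot; field_simp; ring
  have zero : W1 * ((b - a) + (a + h - c)) + W2 * ((b - a) + (c - b)) +
      W3 * ((c - b) + (a + h - c)) = 0 := by
    rw [hW1, hW2, hW3]; unfold pot; field_simp; ring
  have lhs : A1 * mn D a b + A2 * mn D b c + A3 * mn D c (a + h) =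
      (W1 - W2) * mn D a b + (W2 - W3) * mn D b c + (W3 - W1) * mn D c (a + h) := by
    rw [e12, e23, e31]
    linear_combination ((A1 + A2 + A3) / h) * z
  rw [lhs, hD', mn_affine hm hab, mn_affine hm hbc, mn_affine hm hca]
  have key : (W1 - W2) * (mn P a b - s / h * ((a + b) / 2) - d) +
      (W2 - W3) * (mn P b c - s / h * ((b + c) / 2) - d) +
      (W3 - W1) * (mn P c (a + h) - s / h * ((c + (a + h)) / 2) - d) ≤
      (b - a) * phi (W1 - γ) (W2 - γ) + (c - b) * phi (W2 - γ) (W3 - γ) +
        (a + h - c) * phi (W3 - γ) (W1 - γ) + γ * s := by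
    have e4 : (W1 - W2) * ((a + b) / 2) + (W2 - W3) * ((b + c) / 2) +
        (W3 - W1) * ((c + (a + h)) / 2) = -(W1 * h) := by
      linear_combination zero / 2
    have e5 : s / h * (W1 * h) = s * W1 := by field_simp
    have e6 : (W1 - W2) * (mn P a b - s / h * ((a + b) / 2) - d) +
      (W2 - W3) * (mn P b c - s / h * ((b + c) / 2) - d) +
      (W3 - W1) * (mn P c (a + h) - s / h * ((c + (a + h)) / 2) - d) =
      (W1 - W2) * mn P a b + (W2 - W3) * mn P b c + (W3 - W1) * mn P c (a + h) + s * W1 := by
      rw [← e5]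
      linear_combination (-(s / h)) * e4
    rw [e6]
    linarith
  nlinarith [mul_le_mul_of_nonneg_left key hκ]

end Pool.Agent.Strip051.LC.Line
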