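import Pool.Agent.Strip051.LC.Line.Main

/-! # The floor: reduction to a lower disc which touches the floor, and to the nodes

The slack of a floor pair with the lower disc at the height `y` is nondecreasing in `y` if the
kernel is not too large (`MonoAt`), and the displacement of the pair stays admissible when the
lower disc is put on the floor.  For `y = 0` the slack is affine in the horizontal displacement
between the nodes. -/

namespace Pool.Agent.Strip051.LC.Line

open Pool.Agent.StripNear Pool.Agent.StripSquare Pool.Agent.Strip051.Sweep MeasureTheory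
  intervalIntegral

/-- The geometry of a floor pair. -/
theorem floor_geo {p q : Pt} {m : ℝ} (hx : p.1 ≤ q.1) (hp : 0 ≤ p.2) (hq : 0 ≤ q.2)
    (hd : 1 ≤ ds p q) (hc : (p.1 - m) ^ 2 + p.2 ^ 2 = (q.1 - m) ^ 2 + q.2 ^ 2)
    (hr : (p.1 - m) ^ 2 + p.2 ^ 2 ≤ 1) :
    0 ≤ q.1 - p.1 ∧ 1 ≤ (q.1 - p.1) ^ 2 + |q.2 - p.2| ^ 2 ∧
      (q.1 - p.1) ^ 2 + |q.2 - p.2| ^ 2 ≤ 2 * (q.1 - p.1) := by
  have hX : 0 ≤ q.1 - p.1 := by linarith
  refine ⟨hX, ?_, ?_⟩
  · rw [sq_abs]
    unfold ds at hd
    linarith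
  · rw [sq_abs]
    have h1 : |p.1 - m| ≤ 1 := by
      rw [← sq_le_one_iff_abs_le_one]
      nlinarith [sq_nonneg p.2]
    have h2 : |q.1 - m| ≤ 1 := by
      rw [← sq_le_one_iff_abs_le_one]
      nlinarith [sq_nonneg q.2]
    rw [abs_le] at h1 h2
    rcases le_total p.2 q.2 with h | h
    · nlinarith [mul_nonneg hp (sub_nonneg.2 h), mul_nonneg hX (by linarith : 0 ≤ p.1 - m + 1)]
    · nlinarith [mul_nonneg hq (sub_nonneg.2 h), mul_nonneg hX (by linarith : 0 ≤ 1 - (q.1 - m))]

/-- The slopes of the density. -/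
theorem D_slope {s κ : ℝ} (hs0 : 0 ≤ s) (hs1 : s < h0) (hκ : 0 ≤ κ) {x y : ℝ} (hxy : x ≤ y) :
    -(κ * s / h0 * (y - x)) ≤ D s κ y - D s κ x ∧
      D s κ y - D s κ x ≤ κ * (h0 - s) / h0 * (y - x) := by
  have hp := h0_pos
  have h1 := Pp_monotone hp hs0 hxy
  have h2 := Pp_lip hp hs1.le x y hxy
  have e : D s κ y - D s κ x = κ * (Pp h0 s y - Pp h0 s x - s / h0 * (y - x)) := by
    unfold D Dd
    ring
  have e1 : κ * s / h0 * (y - x) = κ * (s / h0 * (y - x)) := by ring
  have e2 : κ * (h0 - s) / h0 * (y - x) = κ * ((y - x) - s / h0 * (y - x)) := by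
    field_simp
  rw [e, e1, e2]
  constructor
  · have := mul_nonneg hκ (sub_nonneg.2 h1)
    nlinarith
  · have := mul_nonneg hκ (sub_nonneg.2 h2)
    nlinarith

/-- The mean of the density when both ends are moved upwards. -/
theorem mn_slope {s κ : ℝ} (hs0 : 0 ≤ s) (hs1 : s < h0) (hκ : 0 ≤ κ) {y : ℝ} (hy : 0 ≤ y)
    (t : ℝ) :
    -(κ * s / h0 * y) ≤ mn (D s κ) y (y + t) - mn (D s κ) 0 t ∧
      mn (D s κ) y (y + t) - mn (D s κ) 0 t ≤ κ * (h0 - s) / h0 * y := by
  have hp := h0_pos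
  have hD : Continuous (D s κ) := Dd_continuous hp hs0 hs1.le
  have e : mn (D s κ) y (y + t) - mn (D s κ) 0 t =
      ∫ u in (0 : ℝ)..1, (D s κ (y + u * t) - D s κ (u * t)) := by
    unfold mn
    rw [← intervalIntegral.integral_sub]
    · congr 1
      funext u
      rw [show y + u * (y + t - y) = y + u * t by ring, show (0 : ℝ) + u * (t - 0) = u * t by ring]
    · exact Continuous.intervalIntegrable (hD.comp (by fun_prop)) _ _
    · exact Continuous.intervalIntegrable (hD.comp (by fun_prop)) _ _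
  have hI : IntervalIntegrable (fun u => D s κ (y + u * t) - D s κ (u * t)) volume 0 1 :=
    Continuous.intervalIntegrable ((hD.comp (by fun_prop)).sub (hD.comp (by fun_prop))) _ _
  rw [e]
  have hs : ∀ u : ℝ, -(κ * s / h0 * y) ≤ D s κ (y + u * t) - D s κ (u * t) ∧
      D s κ (y + u * t) - D s κ (u * t) ≤ κ * (h0 - s) / h0 * y := by
    intro u
    have := D_slope hs0 hs1 hκ (x := u * t) (y := y + u * t) (by linarith)
    rw [show y + u * t - u * t = y by ring] at this
    exact this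
  constructor
  · have h := intervalIntegral.integral_mono_on (μ := volume) (a := 0) (b := 1) (by norm_num)
      (f := fun _ => -(κ * s / h0 * y)) (g := fun u => D s κ (y + u * t) - D s κ (u * t))
      (by simp) hI (fun u _ => (hs u).1)
    simpa using h
  · have h := intervalIntegral.integral_mono_on (μ := volume) (a := 0) (b := 1) (by norm_num)
      (f := fun u => D s κ (y + u * t) - D s κ (u * t)) (g := fun _ => κ * (h0 - s) / h0 * y)
      hI (by simp) (fun u _ => (hs u).2)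
    simpa using h

/-- The kernel is not too large. -/
def MonoAt (s κ X A C : ℝ) : Prop := κ * (h0 - s) * max A 0 + κ * s * max (-A) 0 ≤ X + h0 * C

/-- The slack of a pair with the lower disc at the height `y` is at least the one for `y = 0`. -/
theorem slack_mono {s κ : ℝ} (hs0 : 0 ≤ s) (hs1 : s < h0) (hκ : 0 ≤ κ) {X A C : ℝ}
    (hM : MonoAt s κ X A C) {y : ℝ} (hy : 0 ≤ y) (t : ℝ) :
    A * mn (D s κ) y (y + t) ≤ A * mn (D s κ) 0 t + (X / h0 + C) * y := by
  have hp := h0_pos
  obtain ⟨h1, h2⟩ := mn_slope hs0 hs1 hκ hy t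
  set M := mn (D s κ) y (y + t) - mn (D s κ) 0 t with hMd
  have e : A * mn (D s κ) y (y + t) = A * mn (D s κ) 0 t + A * M := by
    rw [hMd]
    ring
  rw [e]
  have hA : A = max A 0 - max (-A) 0 := by
    rcases le_total 0 A with h | h
    · rw [max_eq_left h, max_eq_right (by linarith)]; ring
    · rw [max_eq_right h, max_eq_left (by linarith)]; ring
  have a1 : 0 ≤ max A 0 := le_max_right _ _
  have a2 : 0 ≤ max (-A) 0 := le_max_right _ _
  have b1 : max A 0 * M ≤ max A 0 * (κ * (h0 - s) / h0 * y) := mul_le_mul_of_nonneg_left h2 a1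
  have b2 : max (-A) 0 * -(κ * s / h0 * y) ≤ max (-A) 0 * M := mul_le_mul_of_nonneg_left h1 a2
  have b3 : A * M ≤ (κ * (h0 - s) * max A 0 + κ * s * max (-A) 0) / h0 * y := by
    have e3 : A * M = max A 0 * M - max (-A) 0 * M := by
      nth_rewrite 1 [hA]
      ring
    have e4 : (κ * (h0 - s) * max A 0 + κ * s * max (-A) 0) / h0 * y =
        max A 0 * (κ * (h0 - s) / h0 * y) - max (-A) 0 * -(κ * s / h0 * y) := by
      field_simp
      ring
    rw [e3, e4]
    linarith
  have b4 : (κ * (h0 - s) * max A 0 + κ * s * max (-A) 0) / h0 ≤ X / h0 + C := by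
    unfold MonoAt at hM
    rw [div_le_iff₀ hp]
    have : (X / h0 + C) * h0 = X + h0 * C := by
      field_simp
    linarith
  have := mul_le_mul_of_nonneg_right b4 hy
  linarith

/-- The slack of the pair with the displacement `(X, T)` and the lower disc on the floor. -/
noncomputable def S0 (s κ w X T A B : ℝ) : ℝ :=
  X * (w + T / (2 * h0)) - A * mn (D s κ) 0 (tau T) - B - 1 / 2

/-- **Reduction to `y = 0`.**  A general flux: the density part with the factor `A`, a part `B`
without density, and a part which grows with the height of the lower disc. -/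
theorem floor_red {s κ w : ℝ} (hs0 : 0 ≤ s) (hs1 : s < h0) (hκ : 0 ≤ κ) {A B C : ℝ → ℝ → ℝ}
    (hM : ∀ X T, 0 ≤ T → 1 ≤ X ^ 2 + T ^ 2 → X ^ 2 + T ^ 2 ≤ 2 * X →
      MonoAt s κ X (A X T) (C X T))
    (hS : ∀ X T, 0 ≤ T → 1 ≤ X ^ 2 + T ^ 2 → X ^ 2 + T ^ 2 ≤ 2 * X →
      0 ≤ S0 s κ w X T (A X T) (B X T))
    {p q : Pt} {m : ℝ} (hx : p.1 ≤ q.1) (hp : 0 ≤ p.2) (hq : 0 ≤ q.2)
    (hd : 1 ≤ ds p q) (hc : (p.1 - m) ^ 2 + p.2 ^ 2 = (q.1 - m) ^ 2 + q.2 ^ 2)
    (hr : (p.1 - m) ^ 2 + p.2 ^ 2 ≤ 1) :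
    1 / 2 ≤ (q.1 - p.1) * (w + (p.2 + q.2) / (2 * h0)) -
      (ed (Qd A (D s κ)) p q + B (q.1 - p.1) |q.2 - p.2| -
        C (q.1 - p.1) |q.2 - p.2| * min p.2 q.2) := by
  have hh := h0_pos
  obtain ⟨g1, g2, g3⟩ := floor_geo hx hp hq hd hc hr
  set X := q.1 - p.1 with hX
  set T := |q.2 - p.2| with hT
  set y := min p.2 q.2 with hy
  have hy0 : 0 ≤ y := le_min hp hq
  have hT0 : 0 ≤ T := abs_nonneg _
  have hmax : max p.2 q.2 = y + T := by
    rcases le_total p.2 q.2 with h | h
    · rw [hy, hT, min_eq_left h, max_eq_right h, abs_of_nonneg (by linarith)]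
      ring
    · rw [hy, hT, min_eq_right h, max_eq_left h, abs_of_nonpos (by linarith)]
      ring
  have hsum : p.2 + q.2 = 2 * y + T := by
    have := min_add_max p.2 q.2
    linarith
  have hQ : ed (Qd A (D s κ)) p q = A X T * mn (D s κ) y (y + tau T) := by
    unfold ed Qd tau
    rw [← hX, ← hT, ← hy, hmax]
    congr 2
    ring
  have h1 := slack_mono hs0 hs1 hκ (hM X T hT0 g2 g3) hy0 (tau T)
  have h2 := hS X T hT0 g2 g3
  unfold S0 at h2
  rw [hQ, hsum]
  have e : X * (w + (2 * y + T) / (2 * h0)) = X * (w + T / (2 * h0)) + X / h0 * y := by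
    field_simp
    ring
  rw [e]
  nlinarith

/-! ### The mean of the density from the floor -/

theorem mn_of_integral {f : ℝ → ℝ} {t v : ℝ} (ht : t ≠ 0) (h : ∫ x in (0 : ℝ)..t, f x = t * v) :
    mn f 0 t = v := by
  have h1 := mul_mn f 0 t
  rw [h, sub_zero] at h1
  exact mul_left_cancel₀ ht h1

/-- The mean over a part of the cell. -/
theorem mn_low {s κ t : ℝ} (hs1 : s < h0) (ht0 : 0 ≤ t) (hts : t ≤ s) :
    mn (D s κ) 0 t = κ * ((h0 - s) / (2 * h0) * (t - s)) := by
  have hp := h0_pos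
  rcases ht0.eq_or_lt with h | h
  · subst h
    rw [mn_self, D_low le_rfl hts hs1]
    ring
  · apply mn_of_integral h.ne'
    rw [intervalIntegral.integral_congr (g := fun x => κ * ((h0 - s) / (2 * h0) * (2 * x - s)))]
    · simp only [intervalIntegral.integral_const_mul]
      rw [intervalIntegral.integral_sub (by apply Continuous.intervalIntegrable; fun_prop)
        (by simp), intervalIntegral.integral_const_mul, integral_id]
      simp
      ring
    · intro x hx
      rw [Set.uIcc_of_le ht0] at hx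
      exact D_low hx.1 (hx.2.trans hts) hs1

/-- The integral over the cell vanishes. -/
theorem int_cell {s κ : ℝ} (hs0 : 0 ≤ s) (hs1 : s < h0) : ∫ x in (0 : ℝ)..s, D s κ x = 0 := by
  have h1 := mul_mn (D s κ) 0 s
  rw [mn_low hs1 hs0 le_rfl] at h1
  rw [← h1]
  ring

/-- The mean over the cell and a part of the gap. -/
theorem mn_high {s κ t : ℝ} (hs0 : 0 ≤ s) (hs1 : s < h0) (hst : s ≤ t) (ht : t ≤ h0)
    (ht0 : 0 < t) :
    mn (D s κ) 0 t = κ * (s / (2 * h0) * ((t - s) * (h0 - t) / t)) := by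
  have hp := h0_pos
  apply mn_of_integral ht0.ne'
  rw [← intervalIntegral.integral_add_adjacent_intervals (b := s) (D_integrable κ hs0 _ _)
    (D_integrable κ hs0 _ _), int_cell hs0 hs1, zero_add,
    intervalIntegral.integral_congr (g := fun x => κ * (s / (2 * h0) * (h0 + s - 2 * x)))]
  · simp only [intervalIntegral.integral_const_mul]
    rw [intervalIntegral.integral_sub (by simp) (by apply Continuous.intervalIntegrable; fun_prop),
      intervalIntegral.integral_const_mul, integral_id]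
    simp
    field_simp
    ring
  · intro x hx
    rw [Set.uIcc_of_le hst] at hx
    exact D_high hx.1 (hx.2.trans ht) hs0

/-- The mean over a part of the gap below the floor. -/
theorem mn_neg {s κ t : ℝ} (hs0 : 0 ≤ s) (ht0 : t ≤ 0) (hst : s - h0 ≤ t) :
    mn (D s κ) 0 t = κ * (s / (2 * h0) * (s - h0 - t)) := by
  have hp := h0_pos
  have hD : ∀ x, s - h0 ≤ x → x ≤ 0 → D s κ x = κ * (s / (2 * h0) * (s - h0 - 2 * x)) := by
    intro x h1 h2
    rw [← D_add, D_high (by linarith) (by linarith) hs0]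
    ring
  rcases ht0.eq_or_lt with h | h
  · subst h
    rw [mn_self, hD 0 hst le_rfl]
    ring
  · apply mn_of_integral h.ne
    rw [intervalIntegral.integral_congr (g := fun x => κ * (s / (2 * h0) * (s - h0 - 2 * x)))]
    · simp only [intervalIntegral.integral_const_mul]
      rw [intervalIntegral.integral_sub (by simp) (by apply Continuous.intervalIntegrable; fun_prop),
        intervalIntegral.integral_const_mul, integral_id]
      simp
      ring
    · intro x hx
      rw [Set.uIcc_of_ge ht0] at hx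
      exact hD x (hst.trans hx.1) hx.2

/-- The mean over the gap below the floor and a part of the cell below. -/
theorem mn_neg2 {s κ t : ℝ} (hs0 : 0 ≤ s) (hs1 : s < h0) (ht : -h0 ≤ t) (hst : t ≤ s - h0) :
    mn (D s κ) 0 t = κ * ((h0 - s) / (2 * h0) * ((t + h0) * (s - h0 - t) / (-t))) := by
  have hp := h0_pos
  have ht0 : t < 0 := by linarith
  have hD : ∀ x, t ≤ x → x ≤ s - h0 →
      D s κ x = κ * ((h0 - s) / (2 * h0) * (2 * (x + h0) - s)) := by
    intro x h1 h2
    rw [← D_add, D_low (by linarith) (by linarith) hs1]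
  have hgap : ∫ x in (0 : ℝ)..(s - h0), D s κ x = 0 := by
    have h1 := mul_mn (D s κ) 0 (s - h0)
    rw [mn_neg hs0 (by linarith) le_rfl] at h1
    rw [← h1]
    ring
  apply mn_of_integral ht0.ne
  rw [← intervalIntegral.integral_add_adjacent_intervals (b := s - h0) (D_integrable κ hs0 _ _)
    (D_integrable κ hs0 _ _), hgap, zero_add,
    intervalIntegral.integral_congr
      (g := fun x => κ * ((h0 - s) / (2 * h0) * (2 * (x + h0) - s)))]
  · simp only [intervalIntegral.integral_const_mul]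
    rw [intervalIntegral.integral_sub (by apply Continuous.intervalIntegrable; fun_prop) (by simp),
      intervalIntegral.integral_const_mul, intervalIntegral.integral_add
      (by apply Continuous.intervalIntegrable; fun_prop) (by simp), integral_id]
    have ht0' := ht0.ne
    simp
    field_simp
    ring
  · intro x hx
    rw [Set.uIcc_of_ge hst] at hx
    exact hD x hx.1 hx.2

/-! ### Reduction to the nodes -/

/-- An affine function which is nonnegative at two points. -/
theorem affine_nonneg {a b x α β : ℝ} (h1 : a ≤ x) (h2 : x ≤ b) (ha : 0 ≤ α * a + β)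
    (hb : 0 ≤ α * b + β) : 0 ≤ α * x + β := by
  rcases le_total 0 α with h | h
  · nlinarith [mul_nonneg h (sub_nonneg.2 h1)]
  · nlinarith [mul_nonneg_of_nonpos_of_nonpos h (sub_nonpos.2 h2)]

/-- **Reduction to the nodes.** -/
theorem floor_nodes {s κ w : ℝ} {A B : ℝ → ℝ → ℝ} {Nd : ℝ → ℝ → Prop}
    (pieces : ∀ X T : ℝ, 0 ≤ T → 1 ≤ X ^ 2 + T ^ 2 → X ^ 2 + T ^ 2 ≤ 3 →
      ∃ a b : ℝ, a ≤ X ∧ X ≤ b ∧ Nd a T ∧ Nd b T ∧
        (∀ u, a ≤ u → u ≤ b → 1 ≤ u ^ 2 + T ^ 2 ∧ u ^ 2 + T ^ 2 ≤ 3) ∧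
        ∃ α β α' β' : ℝ, ∀ u, a ≤ u → u ≤ b → A u T = α * u + β ∧ B u T = α' * u + β')
    (node : ∀ X T, 0 ≤ T → T ≤ 1 → 0 < X → 1 ≤ X ^ 2 + T ^ 2 → X ^ 2 + T ^ 2 ≤ 3 → Nd X T →
      (T ≤ h0 ∨ 1 - Real.sqrt (1 - T ^ 2) ≤ X) → 0 ≤ S0 s κ w X T (A X T) (B X T))
    (steep : ∀ T, h0 ≤ T → T ≤ 1 → 0 ≤ S0 s κ w (1 - Real.sqrt (1 - T ^ 2)) T
      (A (1 - Real.sqrt (1 - T ^ 2)) T) (B (1 - Real.sqrt (1 - T ^ 2)) T))
    (long : ∀ X T, 0 ≤ T → 3 / 2 ≤ X → 3 ≤ X ^ 2 + T ^ 2 → X ^ 2 + T ^ 2 ≤ 2 * X →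
      0 ≤ S0 s κ w X T (A X T) (B X T)) :
    ∀ X T, 0 ≤ T → 1 ≤ X ^ 2 + T ^ 2 → X ^ 2 + T ^ 2 ≤ 2 * X →
      0 ≤ S0 s κ w X T (A X T) (B X T) := by
  intro X T hT h1 h2
  have hX : 1 / 2 ≤ X := by linarith
  have hT1 : T ^ 2 ≤ 1 := by nlinarith [sq_nonneg (X - 1)]
  have hT1' : T ≤ 1 := by nlinarith
  rcases le_total 3 (X ^ 2 + T ^ 2) with h3 | h3
  · exact long X T hT (by linarith) h3 h2
  obtain ⟨a, b, h4, h5, h6, h7, h8, α, β, α', β', h9⟩ := pieces X T hT h1 h3
  have hb := h8 b (h4.trans h5) le_rfl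
  have hb0 : 0 < b := by linarith
  have hr := Real.sqrt_nonneg (1 - T ^ 2)
  have hr2 := Real.sq_sqrt (show 0 ≤ 1 - T ^ 2 by linarith)
  set r := Real.sqrt (1 - T ^ 2) with hrd
  -- the lower end of the admissible displacements
  have hlo : 1 - r ≤ X := by
    rcases le_total 1 X with h | h
    · linarith
    · have : (1 - X) ^ 2 ≤ r ^ 2 := by rw [hr2]; nlinarith
      have := abs_le_of_sq_le_sq' this hr
      linarith [this.2]
  set M := mn (D s κ) 0 (tau T) with hM
  have hA : ∀ u, a ≤ u → u ≤ b → S0 s κ w u T (A u T) (B u T) =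
      (w + T / (2 * h0) - α * M - α') * u + (-(β * M) - β' - 1 / 2) := by
    intro u hu1 hu2
    obtain ⟨e1, e2⟩ := h9 u hu1 hu2
    unfold S0
    rw [e1, e2, ← hM]
    ring
  have hbS : 0 ≤ S0 s κ w b T (A b T) (B b T) :=
    node b T hT hT1' hb0 hb.1 hb.2 h7 (Or.inr (hlo.trans h5))
  rw [hA X h4 h5]
  rw [hA b (h4.trans h5) le_rfl] at hbS
  -- the interval `[a, b]` does not contain a point with `|u| < r`
  have ha1 := h8 a le_rfl (h4.trans h5)
  rcases le_or_gt T h0 with h10 | h10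
  · -- flat
    have ha0 : 0 < a := by
      by_contra hneg
      have h11 := h8 0 (not_lt.1 hneg) (by linarith)
      have h12 := h0_sq
      have hp := h0_pos
      nlinarith [h11.1]
    have haS := node a T hT hT1' ha0 ha1.1 ha1.2 h6 (Or.inl h10)
    rw [hA a le_rfl (h4.trans h5)] at haS
    exact affine_nonneg h4 h5 haS hbS
  · rcases le_total a (1 - r) with h11 | h11
    · have h12 := steep T h10.le hT1'
      rw [← hrd, hA (1 - r) h11 (hlo.trans h5)] at h12
      exact affine_nonneg hlo h5 h12 hbS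
    · rcases lt_or_ge 0 a with h12 | h12
      · have haS := node a T hT hT1' h12 ha1.1 ha1.2 h6 (Or.inr h11)
        rw [hA a le_rfl (h4.trans h5)] at haS
        exact affine_nonneg h4 h5 haS hbS
      · -- then `T = 1`, `r = 0`: impossible since `1 - r ≤ a ≤ 0`
        have h13 : 1 ≤ r := by linarith
        have hp := h0_pos
        nlinarith [h0_sq]

end Pool.Agent.Strip051.LC.Line
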