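import Pool.Agent.Strip051.LC.Line.Wire

/-! # The density bound from a kernel and finitely many families of triangles -/

namespace Pool.Agent.Strip051.LC.Line

open Pool.Agent.StripNear Pool.Agent.StripSquare Pool.Agent.Strip051.Sweep

/-- The amplitude of the two-slope density. -/
noncomputable def amp (θ s : ℝ) : ℝ := kap θ s * (s * (h0 - s) / (2 * h0))

/-- The flux with the kernel `R` and the cell width `s`. -/
noncomputable def QL (θ : ℝ) (R : ℝ → ℝ → ℝ) (s : ℝ) : ℝ → ℝ → ℝ → ℝ := Qd R (D s (kap θ s))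

/-- The certificate. -/
structure Cert (θ : ℝ) (R : ℝ → ℝ → ℝ) (Nd : ℝ → ℝ → Prop) : Prop where
  pos : 0 < θ
  odd : ∀ X T, R (-X) T = -R X T
  bdd : ∃ K, ∀ X T, |X| ≤ 2 → 0 ≤ T → |R X T| ≤ K
  even : ∀ X T, Nd X T → Nd (-X) T
  pieces : ∀ X T : ℝ, 0 ≤ T → 1 ≤ X ^ 2 + T ^ 2 → X ^ 2 + T ^ 2 ≤ 3 →
    ∃ a b : ℝ, a ≤ X ∧ X ≤ b ∧ Nd a T ∧ Nd b T ∧
      (∀ u, a ≤ u → u ≤ b → 1 ≤ u ^ 2 + T ^ 2 ∧ u ^ 2 + T ^ 2 ≤ 3) ∧
      ∃ α β : ℝ, ∀ u, a ≤ u → u ≤ b → R u T = α * u + β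
  fam : Families θ R Nd
  half : ∀ s, 0 ≤ s → s < h0 → ∀ p q b : Pt, ds p b = 1 → ds q b = 1 → 3 ≤ ds p q →
    ds p q ≤ 4 → 0 ≤ cr q p b → cr q p b / (2 * h0) + fl (QL θ R s) q p b ≤ 1 / 2
  acute : ∀ s, 0 ≤ s → s < h0 → ∀ p q r : Pt, 0 ≤ cr p q r → 1 ≤ ds p r → 1 ≤ ds q r →
    3 ≤ ds p q → ds p q ≤ 4 → ds p r ≤ ds p q → ds q r ≤ ds p q → ds p q ≤ ds p r + ds q r →
    1 / 2 ≤ cr p q r / (2 * h0) + fl (QL θ R s) p q r
  wall : ∀ s, 0 ≤ s → s < h0 → ∀ (p q : Pt) (m : ℝ), p.1 ≤ q.1 → 0 ≤ p.2 → 0 ≤ q.2 →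
    1 ≤ ds p q → (p.1 - m) ^ 2 + p.2 ^ 2 = (q.1 - m) ^ 2 + q.2 ^ 2 →
    (p.1 - m) ^ 2 + p.2 ^ 2 ≤ 1 →
    1 / 2 ≤ (q.1 - p.1) * (1 / 2 - amp θ s + (p.2 + q.2) / (2 * h0)) - ed (QL θ R s) p q

variable {θ : ℝ} {R : ℝ → ℝ → ℝ} {Nd : ℝ → ℝ → Prop}

theorem Cert.bulk (h : Cert θ R Nd) {s : ℝ} (hs0 : 0 ≤ s) (hs1 : s < h0) : Bulk (QL θ R s) := by
  refine ⟨Qd_anti h.odd _, ?_, h.half s hs0 hs1, h.acute s hs0 hs1⟩
  apply bulk_tri_of_corners (N := Node Nd)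
  · intro X y z h1 h2
    obtain ⟨a, b, h3, h4, h5, h6, h7, α, β, h8⟩ := h.pieces X |z - y| (abs_nonneg _)
      (by rwa [sq_abs]) (by rwa [sq_abs])
    refine ⟨a, b, h3, h4, h5, h6, ?_, α * mn (D s (kap θ s)) (min y z)
      (max y z - jn |z - y| * h0), β * mn (D s (kap θ s)) (min y z)
      (max y z - jn |z - y| * h0), ?_⟩
    · intro u h9 h10
      have := h7 u h9 h10
      rwa [sq_abs] at this
    · intro u h9 h10
      unfold QL Qd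
      rw [h8 u h9 h10]
      ring
  · intro p q r h0 h1 h2 h3 h4 h5 h6 h7 h8
    exact tri_all h.pos hs0 hs1 h.odd h.even h.fam h0 h1 h2 h3 h4 h5 h6 (Or.inl ⟨h7, h8⟩)

theorem Cert.floor (h : Cert θ R Nd) {s : ℝ} (hs0 : 0 ≤ s) (hs1 : s < h0) (n : ℕ) :
    Floor (n * h0 + s) ((n * h0 + s) / (2 * h0) + 1 / 2 - amp θ s) (QL θ R s) := by
  refine ⟨?_, ?_⟩
  · intro X y z
    exact Qd_mirror (fun x => D_mirror _ hs0 hs1 n x) (fun x k => D_add_nat _ _ x k) R X y z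
  · intro p q m h1 h2 h3 h4 h5 h6
    have h7 := h.wall s hs0 hs1 p q m h1 h2 h3 h4 h5 h6
    have e : (n * h0 + s) / (2 * h0) + 1 / 2 - amp θ s + (p.2 + q.2 - (n * h0 + s)) / (2 * h0) =
        1 / 2 - amp θ s + (p.2 + q.2) / (2 * h0) := by
      have hp := h0_pos
      field_simp
      ring
    rw [e]
    exact h7

/-- The gain in terms of the fractional part of the number of rows. -/
theorem amp_eq (θ : ℝ) {x : ℝ} :
    2 * amp θ (h0 * x) = θ * (2 * x * (1 - x) / (1 + 2 / Real.sqrt 3 - x)) := by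
  have h3 : 0 < Real.sqrt 3 := Real.sqrt_pos.2 (by norm_num)
  have h4 : Real.sqrt 3 ^ 2 = 3 := Real.sq_sqrt (by norm_num)
  have e : h0 = Real.sqrt 3 / 2 := rfl
  unfold amp kap L0
  rw [e]
  have e1 : (2 + Real.sqrt 3) / 4 - Real.sqrt 3 / 2 * x / 2 =
      Real.sqrt 3 / 4 * (1 + 2 / Real.sqrt 3 - x) := by
    field_simp
    ring
  rw [e1]
  by_cases h5 : 1 + 2 / Real.sqrt 3 - x = 0
  · rw [h5]
    simp
  · field_simp
    ring

/-- **The density bound** from the certificate. -/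
theorem Cert.density (h : Cert θ R Nd) {W : ℝ} (hW : 2 ≤ W) {C : Set E2}
    (hC : IsStripPacking W C) {O : E2} {d : ℝ} (hd : HasDensity W C O d) :
    d ≤ Real.pi / (2 * W) * (1 + (W - 2) / Real.sqrt 3 -
      θ * (2 * Int.fract ((W - 2) / Real.sqrt 3) * (1 - Int.fract ((W - 2) / Real.sqrt 3)) /
        (1 + 2 / Real.sqrt 3 - Int.fract ((W - 2) / Real.sqrt 3)))) := by
  have hp := h0_pos
  have h3 : 0 < Real.sqrt 3 := Real.sqrt_pos.2 (by norm_num)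
  set ξ := (W - 2) / Real.sqrt 3 with hξ
  have hξ0 : 0 ≤ ξ := div_nonneg (by linarith) h3.le
  set x := Int.fract ξ with hx
  have hx0 : 0 ≤ x := Int.fract_nonneg ξ
  have hx1 : x < 1 := Int.fract_lt_one ξ
  have hn : ((⌊ξ⌋₊ : ℕ) : ℝ) = ⌊ξ⌋ := natCast_floor_eq_intCast_floor hξ0
  have hH : (W - 2) / 2 = (⌊ξ⌋₊ : ℕ) * h0 + h0 * x := by
    have e1 : ξ = ⌊ξ⌋ + x := by
      rw [hx]
      exact (Int.floor_add_fract ξ).symm
    have e2 : (W - 2) / 2 = ξ * h0 := by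
      rw [hξ]
      unfold h0
      field_simp
    rw [hn, e2]
    nlinarith
  have hs0 : 0 ≤ h0 * x := mul_nonneg hp.le hx0
  have hs1 : h0 * x < h0 := by nlinarith
  obtain ⟨K, hK⟩ := h.bdd
  have key := density_of (W := W) (δ := amp θ (h0 * x)) (K := K * amp θ (h0 * x)) hW
    (h.bulk hs0 hs1) (by
      rw [hH]
      exact h.floor hs0 hs1 _) (fun X y z hX _ _ _ _ => Qd_abs hK (fun x' => D_abs hs0 hs1
        (div_pos h.pos (L0_pos hs1)).le x') hX y z) hC hd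
  rw [amp_eq] at key
  exact key

end Pool.Agent.Strip051.LC.Line
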