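import Pool.Agent.Strip051.LC.Three
import Pool.Agent.Strip051.LC.Line.Main

/-! # The kernel with the nodes `1`, `√2`, `√3`

`R3 A1 A2 A3 B` interpolates the node values `A1 T`, `A2 T`, `A3 T`; the value of edges longer than
`√3` is `B X T`.  The node values are the coefficient times the pole factor. -/

namespace Pool.Agent.Strip051.LC.Line

open Pool.Agent.StripNear Pool.Agent.StripSquare Pool.Agent.Strip051.Sweep

/-- The kernel. -/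
noncomputable def R3 (A1 A2 A3 : ℝ → ℝ) (B : ℝ → ℝ → ℝ) (X T : ℝ) : ℝ :=
  Q3 (fun _ z => A1 z) (fun _ z => A2 z) (fun _ z => A3 z) (fun X _ z => B X z) X 0 T

/-- The nodes. -/
def Nd3 (X T : ℝ) : Prop := X ^ 2 + T ^ 2 = 1 ∨ X ^ 2 + T ^ 2 = 2 ∨ X ^ 2 + T ^ 2 = 3

variable {A1 A2 A3 : ℝ → ℝ} {B : ℝ → ℝ → ℝ}

theorem R3_odd (hB : ∀ T, B 0 T = 0) (X T : ℝ) : R3 A1 A2 A3 B (-X) T = -R3 A1 A2 A3 B X T :=
  Q3_odd (fun _ z => hB z) X 0 T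

theorem R3_even (X T : ℝ) (h : Nd3 X T) : Nd3 (-X) T := by
  unfold Nd3 at *
  rwa [neg_sq]

theorem R3_pieces (hB : ∀ T, B 0 T = 0) (X T : ℝ) (_ : 0 ≤ T) (h1 : 1 ≤ X ^ 2 + T ^ 2)
    (h2 : X ^ 2 + T ^ 2 ≤ 3) :
    ∃ a b : ℝ, a ≤ X ∧ X ≤ b ∧ Nd3 a T ∧ Nd3 b T ∧
      (∀ u, a ≤ u → u ≤ b → 1 ≤ u ^ 2 + T ^ 2 ∧ u ^ 2 + T ^ 2 ≤ 3) ∧
      ∃ α β : ℝ, ∀ u, a ≤ u → u ≤ b → R3 A1 A2 A3 B u T = α * u + β := by
  have key := QPieces_Q3 (a1 := fun _ z => A1 z) (a2 := fun _ z => A2 z) (a3 := fun _ z => A3 z)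
    (b := fun X _ z => B X z) (fun _ z => hB z) X 0 T (by rwa [sub_zero]) (by rwa [sub_zero])
  obtain ⟨a, b, h3, h4, h5, h6, h7, α, β, h8⟩ := key
  unfold N3 at h5 h6
  rw [sub_zero] at h5 h6
  refine ⟨a, b, h3, h4, h5, h6, ?_, α, β, h8⟩
  intro u h9 h10
  have := h7 u h9 h10
  rwa [sub_zero] at this

theorem R3_abs {K : ℝ} (h1 : ∀ T, 0 ≤ T → T < 1 → |A1 T| ≤ K)
    (h2 : ∀ T, 0 ≤ T → T ^ 2 < 2 → |A2 T| ≤ K) (h3 : ∀ T, 0 ≤ T → T ^ 2 ≤ 3 → |A3 T| ≤ K)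
    (h4 : ∀ X T, 0 ≤ X → X ≤ 2 → 0 ≤ T → 3 < X ^ 2 + T ^ 2 → |B X T| ≤ K) (X T : ℝ)
    (hX : |X| ≤ 2) (hT : 0 ≤ T) : |R3 A1 A2 A3 B X T| ≤ K := by
  have hK : 0 ≤ K := (abs_nonneg _).trans (h1 0 le_rfl one_pos)
  refine Q3_abs (fun h => h1 T hT ?_) (fun h => h2 T hT ?_) (fun h => h3 T hT ?_)
    (fun h => h4 |X| T (abs_nonneg X) hX hT ?_) hK
  · rw [sub_zero] at h
    nlinarith
  · rwa [sub_zero] at h
  · rwa [sub_zero] at h
  · rw [sub_zero] at h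
    rwa [sq_abs]

/-! ### The values -/

theorem R3_one {X T : ℝ} (hX : 0 < X) (h : X ^ 2 + T ^ 2 = 1) : R3 A1 A2 A3 B X T = A1 T := by
  have h1 : √(1 - T ^ 2) = X := by
    rw [show 1 - T ^ 2 = X ^ 2 by linarith]
    exact Real.sqrt_sq hX.le
  have h2 : 0 < X ^ 2 := by positivity
  unfold R3 Q3 P3
  simp only [sub_zero]
  rw [if_neg hX.not_gt, if_neg (by linarith), if_neg (by linarith), if_neg (by linarith),
    if_neg (by linarith), if_pos h.ge, h1]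
  simp

theorem R3_two {X T : ℝ} (hX : 0 < X) (h : X ^ 2 + T ^ 2 = 2) : R3 A1 A2 A3 B X T = A2 T := by
  have h1 : √(2 - T ^ 2) = X := by
    rw [show 2 - T ^ 2 = X ^ 2 by linarith]
    exact Real.sqrt_sq hX.le
  have h2 : 0 < X ^ 2 := by positivity
  unfold R3 Q3 P3
  simp only [sub_zero]
  rw [if_neg hX.not_gt, if_neg (by linarith), if_neg (by linarith), if_pos h.ge, h1]
  simp

theorem R3_three {X T : ℝ} (hX : 0 < X) (h : X ^ 2 + T ^ 2 = 3) : R3 A1 A2 A3 B X T = A3 T := by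
  have h1 : √(3 - T ^ 2) = X := by
    rw [show 3 - T ^ 2 = X ^ 2 by linarith]
    exact Real.sqrt_sq hX.le
  have h2 : 0 < X ^ 2 := by positivity
  unfold R3 Q3 P3
  simp only [sub_zero]
  rw [if_neg hX.not_gt, if_neg (by linarith)]
  split_ifs with h3 h4
  · rw [h1, div_self hX.ne', mul_one]
  · rw [h1]
    have h5 : √(2 - T ^ 2) < X := by
      rw [← h1]
      exact Real.sqrt_lt_sqrt (by linarith) (by linarith)
    rw [div_self (by linarith), mul_one]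
    ring
  all_goals exact absurd (by linarith : 2 ≤ X ^ 2 + T ^ 2) h4

theorem R3_long {X T : ℝ} (hX : 0 ≤ X) (h : 3 < X ^ 2 + T ^ 2) : R3 A1 A2 A3 B X T = B X T := by
  unfold R3 Q3 P3
  simp only [sub_zero]
  rw [if_neg hX.not_gt, if_pos h]

theorem R3_zero (hB : ∀ T, B 0 T = 0) (T : ℝ) : R3 A1 A2 A3 B 0 T = 0 := by
  have := R3_odd (A1 := A1) (A2 := A2) (A3 := A3) hB 0 T
  rw [neg_zero] at this
  linarith

/-- Between the nodes `√2` and `√3`. -/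
theorem R3_mid23 {X T : ℝ} (hX : 0 ≤ X) (hT : T ^ 2 < 2) (h2 : 2 ≤ X ^ 2 + T ^ 2)
    (h3 : X ^ 2 + T ^ 2 ≤ 3) : R3 A1 A2 A3 B X T =
      A2 T + (A3 T - A2 T) * ((X - √(2 - T ^ 2)) / (√(3 - T ^ 2) - √(2 - T ^ 2))) := by
  unfold R3 Q3 P3
  simp only [sub_zero]
  rw [if_neg hX.not_gt, if_neg h3.not_gt, if_neg hT.not_ge, if_pos h2]

/-- Between the nodes `1` and `√2`. -/
theorem R3_mid12 {X T : ℝ} (hX : 0 ≤ X) (hT : T ^ 2 < 1) (h1 : 1 ≤ X ^ 2 + T ^ 2)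
    (h2 : X ^ 2 + T ^ 2 ≤ 2) : R3 A1 A2 A3 B X T =
      A1 T + (A2 T - A1 T) * ((X - √(1 - T ^ 2)) / (√(2 - T ^ 2) - √(1 - T ^ 2))) := by
  rcases h2.eq_or_lt with h | h
  · have h0 : 0 < X := by
      rcases hX.eq_or_lt with h3 | h3
      · rw [← h3] at h
        nlinarith
      · exact h3
    rw [R3_two h0 h]
    have e2 : √(2 - T ^ 2) = X := by
      rw [show 2 - T ^ 2 = X ^ 2 by linarith]
      exact Real.sqrt_sq hX
    have h5 : √(1 - T ^ 2) < X := by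
      rw [← e2]
      exact Real.sqrt_lt_sqrt (by linarith) (by linarith)
    rw [e2, div_self (by linarith), mul_one]
    ring
  · unfold R3 Q3 P3
    simp only [sub_zero]
    rw [if_neg hX.not_gt, if_neg (by linarith), if_neg (by linarith), if_neg h.not_ge,
      if_neg hT.not_ge, if_pos h1]

/-- Steep edges: through `0`, up to the node `√2`. -/
theorem R3_steep2 {X T : ℝ} (hB : ∀ T, B 0 T = 0) (hT : 1 ≤ T ^ 2) (hT2 : T ^ 2 < 2)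
    (h2 : X ^ 2 + T ^ 2 ≤ 2) : R3 A1 A2 A3 B X T = A2 T * (X / √(2 - T ^ 2)) := by
  have hp : 0 < √(2 - T ^ 2) := Real.sqrt_pos.2 (by linarith)
  have pos : ∀ X : ℝ, 0 ≤ X → X ^ 2 + T ^ 2 ≤ 2 →
      R3 A1 A2 A3 B X T = A2 T * (X / √(2 - T ^ 2)) := by
    intro X hX h2
    rcases h2.eq_or_lt with h | h
    · have h0 : 0 < X := by
        rcases hX.eq_or_lt with h3 | h3
        · rw [← h3] at h
          nlinarith
        · exact h3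
      rw [R3_two h0 h]
      have e2 : √(2 - T ^ 2) = X := by
        rw [show 2 - T ^ 2 = X ^ 2 by linarith]
        exact Real.sqrt_sq hX
      rw [e2, div_self h0.ne', mul_one]
    · unfold R3 Q3 P3
      simp only [sub_zero]
      rw [if_neg hX.not_gt, if_neg (by linarith), if_neg (by linarith), if_neg h.not_ge, if_pos hT]
  rcases le_total 0 X with hX | hX
  · exact pos X hX h2
  · have := pos (-X) (by linarith) (by rwa [neg_sq])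
    rw [R3_odd hB] at this
    rw [neg_eq_iff_eq_neg.1 this]
    ring

/-- Very steep edges: through `0`, up to the node `√3`. -/
theorem R3_steep3 {X T : ℝ} (hB : ∀ T, B 0 T = 0) (hT : 2 ≤ T ^ 2)
    (h3 : X ^ 2 + T ^ 2 ≤ 3) : R3 A1 A2 A3 B X T = A3 T * (X / √(3 - T ^ 2)) := by
  have pos : ∀ X : ℝ, 0 ≤ X → X ^ 2 + T ^ 2 ≤ 3 →
      R3 A1 A2 A3 B X T = A3 T * (X / √(3 - T ^ 2)) := by
    intro X hX h2
    unfold R3 Q3 P3
    simp only [sub_zero]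
    rw [if_neg hX.not_gt, if_neg (by linarith), if_pos hT]
  rcases le_total 0 X with hX | hX
  · exact pos X hX h3
  · have := pos (-X) (by linarith) (by rwa [neg_sq])
    rw [R3_odd hB] at this
    rw [neg_eq_iff_eq_neg.1 this]
    ring

/-- **The certificate from node values.** -/
theorem cert_three {θ K : ℝ} (hθ : 0 < θ) (hB : ∀ T, B 0 T = 0)
    (h1 : ∀ T, 0 ≤ T → T < 1 → |A1 T| ≤ K)
    (h2 : ∀ T, 0 ≤ T → T ^ 2 < 2 → |A2 T| ≤ K) (h3 : ∀ T, 0 ≤ T → T ^ 2 ≤ 3 → |A3 T| ≤ K)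
    (h4 : ∀ X T, 0 ≤ X → X ≤ 2 → 0 ≤ T → 3 < X ^ 2 + T ^ 2 → |B X T| ≤ K)
    (hF : Families θ (R3 A1 A2 A3 B) Nd3)
    (half : ∀ s, 0 ≤ s → s < h0 → ∀ p q b : Pt, ds p b = 1 → ds q b = 1 → 3 ≤ ds p q →
      ds p q ≤ 4 → 0 ≤ cr q p b →
      cr q p b / (2 * h0) + fl (QL θ (R3 A1 A2 A3 B) s) q p b ≤ 1 / 2)
    (acute : ∀ s, 0 ≤ s → s < h0 → ∀ p q r : Pt, 0 ≤ cr p q r → 1 ≤ ds p r → 1 ≤ ds q r →
      3 ≤ ds p q → ds p q ≤ 4 → ds p r ≤ ds p q → ds q r ≤ ds p q → ds p q ≤ ds p r + ds q r →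
      1 / 2 ≤ cr p q r / (2 * h0) + fl (QL θ (R3 A1 A2 A3 B) s) p q r)
    (wall : ∀ s, 0 ≤ s → s < h0 → ∀ (p q : Pt) (m : ℝ), p.1 ≤ q.1 → 0 ≤ p.2 → 0 ≤ q.2 →
      1 ≤ ds p q → (p.1 - m) ^ 2 + p.2 ^ 2 = (q.1 - m) ^ 2 + q.2 ^ 2 →
      (p.1 - m) ^ 2 + p.2 ^ 2 ≤ 1 →
      1 / 2 ≤ (q.1 - p.1) * (1 / 2 - amp θ s + (p.2 + q.2) / (2 * h0)) -
        ed (QL θ (R3 A1 A2 A3 B) s) p q) :
    Cert θ (R3 A1 A2 A3 B) Nd3 where
  pos := hθ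
  odd := R3_odd hB
  bdd := ⟨K, R3_abs h1 h2 h3 h4⟩
  even := R3_even
  pieces := R3_pieces hB
  fam := hF
  half := half
  acute := acute
  wall := wall

end Pool.Agent.Strip051.LC.Line
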