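import Pool.Agent.Strip051.LC.Apex
import Pool.Agent.Strip051.LC.Line.Three

/-! # The certificate with an arbitrary flux on long edges

`BL s X y z` is the flux of an edge longer than `√3`. -/

namespace Pool.Agent.Strip051.LC.Line

open Pool.Agent.StripNear Pool.Agent.StripSquare Pool.Agent.Strip051.Sweep

/-- The flux: the kernel up to `√3`, `B` beyond. -/
noncomputable def QB (U B : ℝ → ℝ → ℝ → ℝ) (X y z : ℝ) : ℝ :=
  if X ^ 2 + (z - y) ^ 2 ≤ 3 then U X y z else B X y z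

section

variable {U B : ℝ → ℝ → ℝ → ℝ}

theorem QB_short {X y z : ℝ} (h : X ^ 2 + (z - y) ^ 2 ≤ 3) : QB U B X y z = U X y z := by
  unfold QB
  rw [if_pos h]

theorem QB_long {X y z : ℝ} (h : 3 < X ^ 2 + (z - y) ^ 2) : QB U B X y z = B X y z := by
  unfold QB
  rw [if_neg h.not_ge]

theorem QB_anti (hU : ∀ X y z, U (-X) z y = -U X y z) (hB : ∀ X y z, B (-X) z y = -B X y z)
    (X y z : ℝ) : QB U B (-X) z y = -QB U B X y z := by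
  unfold QB
  rw [neg_sq, show (y - z) ^ 2 = (z - y) ^ 2 by ring, hU, hB]
  split_ifs <;> rfl

theorem QB_mirror {H : ℝ} (hU : ∀ X y z, U X (H - y) (H - z) = -U X y z)
    (hB : ∀ X y z, B X (H - y) (H - z) = -B X y z) (X y z : ℝ) :
    QB U B X (H - y) (H - z) = -QB U B X y z := by
  unfold QB
  rw [show (H - z - (H - y)) ^ 2 = (z - y) ^ 2 by ring, hU, hB]
  split_ifs <;> rfl

theorem ed_short {p q : Pt} (h : ds p q ≤ 3) : ed (QB U B) p q = ed U p q := QB_short h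

theorem ed_long {p q : Pt} (h : 3 < ds p q) : ed (QB U B) p q = ed B p q := QB_long h

end

/-- The certificate: `B s` is the flux of the long edges. -/
structure CertB (θ : ℝ) (R : ℝ → ℝ → ℝ) (B : ℝ → ℝ → ℝ → ℝ → ℝ) (Nd : ℝ → ℝ → Prop) : Prop where
  pos : 0 < θ
  odd : ∀ X T, R (-X) T = -R X T
  bdd : ∃ K, ∀ X T, |X| ≤ 2 → 0 ≤ T → |R X T| ≤ K
  even : ∀ X T, Nd X T → Nd (-X) T
  pieces : ∀ X T : ℝ, 0 ≤ T → 1 ≤ X ^ 2 + T ^ 2 → X ^ 2 + T ^ 2 ≤ 3 →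
    ∃ a b : ℝ, a ≤ X ∧ X ≤ b ∧ Nd a T ∧ Nd b T ∧
      (∀ u, a ≤ u → u ≤ b → 1 ≤ u ^ 2 + T ^ 2 ∧ u ^ 2 + T ^ 2 ≤ 3) ∧
      ∃ α β : ℝ, ∀ u, a ≤ u → u ≤ b → R u T = α * u + β
  fam : Families θ R Nd
  banti : ∀ s, 0 ≤ s → s < h0 → ∀ X y z, B s (-X) z y = -B s X y z
  bmirror : ∀ s, 0 ≤ s → s < h0 → ∀ (n : ℕ) (X y z : ℝ),
    B s X (n * h0 + s - y) (n * h0 + s - z) = -B s X y z
  bbdd : ∀ s, 0 ≤ s → s < h0 → ∃ K, ∀ X y z, |X| ≤ 2 → |B s X y z| ≤ K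
  half : ∀ s, 0 ≤ s → s < h0 → ∀ p q b : Pt, ds p b = 1 → ds q b = 1 → 3 < ds p q →
    ds p q ≤ 4 → 0 ≤ cr q p b →
    cr q p b / (2 * h0) + fl (QB (QL θ R s) (B s)) q p b ≤ 1 / 2
  acute : ∀ s, 0 ≤ s → s < h0 → ∀ (p q r o : Pt) (R0 : ℝ), 0 ≤ cr p q r → 1 ≤ ds p r →
    1 ≤ ds q r → 3 < ds p q → ds p q ≤ 4 → ds p r ≤ ds p q → ds q r ≤ ds p q →
    ds p q ≤ ds p r + ds q r → ds p o = R0 → ds q o = R0 → ds r o = R0 → R0 ≤ 1 →
    1 / 2 ≤ cr p q r / (2 * h0) + fl (QB (QL θ R s) (B s)) p q r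
  wall : ∀ s, 0 ≤ s → s < h0 → ∀ (p q : Pt) (m : ℝ), p.1 ≤ q.1 → 0 ≤ p.2 → 0 ≤ q.2 →
    1 ≤ ds p q → (p.1 - m) ^ 2 + p.2 ^ 2 = (q.1 - m) ^ 2 + q.2 ^ 2 →
    (p.1 - m) ^ 2 + p.2 ^ 2 ≤ 1 →
    1 / 2 ≤ (q.1 - p.1) * (1 / 2 - amp θ s + (p.2 + q.2) / (2 * h0)) -
      ed (QB (QL θ R s) (B s)) p q

variable {θ : ℝ} {R : ℝ → ℝ → ℝ} {B : ℝ → ℝ → ℝ → ℝ → ℝ} {Nd : ℝ → ℝ → Prop}

/-- The triangles with sides in `[1, √3]`. -/
theorem CertB.tri (h : CertB θ R B Nd) {s : ℝ} (hs0 : 0 ≤ s) (hs1 : s < h0) {p q r : Pt}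
    (h0c : 0 ≤ cr p q r) (h1 : 1 ≤ ds p q) (h2 : 1 ≤ ds q r) (h3 : 1 ≤ ds p r)
    (h4 : ds p q ≤ 3) (h5 : ds q r ≤ 3) (h6 : ds p r ≤ 3) :
    1 / 2 ≤ cr p q r / (2 * h0) + fl (QL θ R s) p q r := by
  refine bulk_tri_of_corners (N := Node Nd) ?_ ?_ p q r h0c h1 h2 h3 h4 h5 h6
  · intro X y z h1 h2
    obtain ⟨a, b, h3, h4, h5, h6, h7, α, β, h8⟩ := h.pieces X |z - y| (abs_nonneg _)
      (by rwa [sq_abs]) (by rwa [sq_abs])
    refine ⟨a, b, h3, h4, h5, h6, ?_, α * mn (D s (kap θ s)) (min y z)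
      (max y z - jn |z - y| * h0), β * mn (D s (kap θ s)) (min y z)
      (max y z - jn |z - y| * h0), ?_⟩
    · intro u h9 h10
      have := h7 u h9 h10
      rwa [sq_abs] at this
    · intro u h9 h10
      unfold QL Qd
      rw [h8 u h9 h10]
      ring
  · intro p q r h0 h1 h2 h3 h4 h5 h6 h7 h8
    exact tri_all h.pos hs0 hs1 h.odd h.even h.fam h0 h1 h2 h3 h4 h5 h6 (Or.inl ⟨h7, h8⟩)

theorem CertB.bulk (h : CertB θ R B Nd) {s : ℝ} (hs0 : 0 ≤ s) (hs1 : s < h0) :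
    BulkS (QB (QL θ R s) (B s)) := by
  refine ⟨QB_anti (Qd_anti h.odd _) (h.banti s hs0 hs1), ?_, h.half s hs0 hs1,
    h.acute s hs0 hs1⟩
  intro p q r h0c h1 h2 h3 h4 h5 h6
  have h7 : ds r p ≤ 3 := by rwa [ds_symm]
  have := h.tri hs0 hs1 h0c h1 h2 h3 h4 h5 h6
  unfold fl at this ⊢
  rwa [ed_short h4, ed_short h5, ed_short h7]

theorem CertB.floor (h : CertB θ R B Nd) {s : ℝ} (hs0 : 0 ≤ s) (hs1 : s < h0) (n : ℕ) :
    Floor (n * h0 + s) ((n * h0 + s) / (2 * h0) + 1 / 2 - amp θ s)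
      (QB (QL θ R s) (B s)) := by
  refine ⟨?_, ?_⟩
  · exact QB_mirror (Qd_mirror (fun x => D_mirror _ hs0 hs1 n x) (fun x k => D_add_nat _ _ x k) R)
      (h.bmirror s hs0 hs1 n)
  · intro p q m h1 h2 h3 h4 h5 h6
    have h7 := h.wall s hs0 hs1 p q m h1 h2 h3 h4 h5 h6
    have e : (n * h0 + s) / (2 * h0) + 1 / 2 - amp θ s + (p.2 + q.2 - (n * h0 + s)) / (2 * h0) =
        1 / 2 - amp θ s + (p.2 + q.2) / (2 * h0) := by
      have hp := h0_pos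
      field_simp
      ring
    rw [e]
    exact h7

/-- **The density bound** from the certificate. -/
theorem CertB.density (h : CertB θ R B Nd) {W : ℝ} (hW : 2 ≤ W) {C : Set E2}
    (hC : IsStripPacking W C) {O : E2} {d : ℝ} (hd : HasDensity W C O d) :
    d ≤ Real.pi / (2 * W) * (1 + (W - 2) / Real.sqrt 3 -
      θ * (2 * Int.fract ((W - 2) / Real.sqrt 3) * (1 - Int.fract ((W - 2) / Real.sqrt 3)) /
        (1 + 2 / Real.sqrt 3 - Int.fract ((W - 2) / Real.sqrt 3)))) := by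
  have hp := h0_pos
  have h3 : 0 < Real.sqrt 3 := Real.sqrt_pos.2 (by norm_num)
  set ξ := (W - 2) / Real.sqrt 3 with hξ
  have hξ0 : 0 ≤ ξ := div_nonneg (by linarith) h3.le
  set x := Int.fract ξ with hx
  have hx0 : 0 ≤ x := Int.fract_nonneg ξ
  have hx1 : x < 1 := Int.fract_lt_one ξ
  have hn : ((⌊ξ⌋₊ : ℕ) : ℝ) = ⌊ξ⌋ := natCast_floor_eq_intCast_floor hξ0
  have hH : (W - 2) / 2 = (⌊ξ⌋₊ : ℕ) * h0 + h0 * x := by
    have e1 : ξ = ⌊ξ⌋ + x := by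
      rw [hx]
      exact (Int.floor_add_fract ξ).symm
    have e2 : (W - 2) / 2 = ξ * h0 := by
      rw [hξ]
      unfold h0
      field_simp
    rw [hn, e2]
    nlinarith
  have hs0 : 0 ≤ h0 * x := mul_nonneg hp.le hx0
  have hs1 : h0 * x < h0 := by nlinarith
  obtain ⟨K, hK⟩ := h.bdd
  obtain ⟨K', hK'⟩ := h.bbdd _ hs0 hs1
  have key := (h.bulk hs0 hs1).density_of (W := W) (δ := amp θ (h0 * x))
    (K := max (K * amp θ (h0 * x)) K') hW (by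
      rw [hH]
      exact h.floor hs0 hs1 _) (fun X y z hX _ _ _ _ => by
      unfold QB
      split_ifs
      · exact (Qd_abs hK (fun x' => D_abs hs0 hs1
          (div_pos h.pos (L0_pos hs1)).le x') hX y z).trans (le_max_left _ _)
      · exact (hK' X y z hX).trans (le_max_right _ _)) hC hd
  rw [amp_eq] at key
  exact key

/-! ### The average over the two apexes -/

/-- The average, cut off beyond the length two. -/
noncomputable def AvC (U : ℝ → ℝ → ℝ → ℝ) (X y z : ℝ) : ℝ :=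
  if 3 < X ^ 2 + (z - y) ^ 2 ∧ X ^ 2 + (z - y) ^ 2 ≤ 4 then Av U X y z else 0

/-- The flux of the certificate with averages. -/
noncomputable def QA (θ : ℝ) (R : ℝ → ℝ → ℝ) (s : ℝ) : ℝ → ℝ → ℝ → ℝ :=
  QB (QL θ R s) (AvC (QL θ R s))

theorem QA_short {s : ℝ} {p q : Pt} (h : ds p q ≤ 3) : ed (QA θ R s) p q = ed (QL θ R s) p q :=
  ed_short h

theorem QA_long {s : ℝ} {p q : Pt} (h3 : 3 < ds p q) (h4 : ds p q ≤ 4) :
    ed (QA θ R s) p q = ed (Av (QL θ R s)) p q := by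
  unfold QA
  rw [ed_long h3]
  unfold ed AvC
  exact if_pos ⟨h3, h4⟩

theorem QL_mirror {s : ℝ} (hs0 : 0 ≤ s) (hs1 : s < h0) (n : ℕ)
    (X y z : ℝ) : QL θ R s X (n * h0 + s - y) (n * h0 + s - z) = -QL θ R s X y z :=
  Qd_mirror (fun x => D_mirror _ hs0 hs1 n x) (fun x k => D_add_nat _ _ x k) R X y z

/-- **The certificate with two-apex averages**: the node functions `A1 A2 A3`, the six families, the
reversed rhombus, the acute triangles and the floor. -/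
theorem certAv {A1 A2 A3 : ℝ → ℝ} {K : ℝ} (hθ : 0 < θ)
    (h1 : ∀ T, 0 ≤ T → T < 1 → |A1 T| ≤ K)
    (h2 : ∀ T, 0 ≤ T → T ^ 2 < 2 → |A2 T| ≤ K) (h3 : ∀ T, 0 ≤ T → T ^ 2 ≤ 3 → |A3 T| ≤ K)
    (hF : Families θ (R3 A1 A2 A3 fun _ _ => 0) Nd3)
    (rhomb : ∀ s, 0 ≤ s → s < h0 → Rhomb (QL θ (R3 A1 A2 A3 fun _ _ => 0) s))
    (acute : ∀ s, 0 ≤ s → s < h0 → ∀ (p q r o : Pt) (R0 : ℝ), 0 ≤ cr p q r → 1 ≤ ds p r →
      1 ≤ ds q r → 3 < ds p q → ds p q ≤ 4 → ds p r ≤ ds p q → ds q r ≤ ds p q →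
      ds p q ≤ ds p r + ds q r → ds p o = R0 → ds q o = R0 → ds r o = R0 → R0 ≤ 1 →
      1 / 2 ≤ cr p q r / (2 * h0) + fl (QA θ (R3 A1 A2 A3 fun _ _ => 0) s) p q r)
    (wall : ∀ s, 0 ≤ s → s < h0 → ∀ (p q : Pt) (m : ℝ), p.1 ≤ q.1 → 0 ≤ p.2 → 0 ≤ q.2 →
      1 ≤ ds p q → (p.1 - m) ^ 2 + p.2 ^ 2 = (q.1 - m) ^ 2 + q.2 ^ 2 →
      (p.1 - m) ^ 2 + p.2 ^ 2 ≤ 1 →
      1 / 2 ≤ (q.1 - p.1) * (1 / 2 - amp θ s + (p.2 + q.2) / (2 * h0)) -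
        ed (QA θ (R3 A1 A2 A3 fun _ _ => 0) s) p q) :
    CertB θ (R3 A1 A2 A3 fun _ _ => 0)
      (fun s => AvC (QL θ (R3 A1 A2 A3 fun _ _ => 0) s)) Nd3 := by
  set R := R3 A1 A2 A3 fun _ _ => 0 with hR
  have hodd : ∀ X T, R (-X) T = -R X T := R3_odd (fun _ => rfl)
  have hK : 0 ≤ K := (abs_nonneg _).trans (h1 0 le_rfl one_pos)
  have hbd : ∀ X T, |X| ≤ 2 → 0 ≤ T → |R X T| ≤ K :=
    R3_abs h1 h2 h3 (fun _ _ _ _ _ _ => by rwa [abs_zero])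
  refine ⟨hθ, hodd, ⟨K, hbd⟩, R3_even, R3_pieces (fun _ => rfl), hF, ?_, ?_, ?_, ?_, ?_, wall⟩
  · intro s hs0 hs1 X y z
    unfold AvC
    rw [neg_sq, show (y - z) ^ 2 = (z - y) ^ 2 by ring,
      Av_anti (U := QL θ R s) (Qd_anti hodd _)]
    split_ifs
    · rfl
    · exact neg_zero.symm
  · intro s hs0 hs1 n X y z
    unfold AvC
    rw [show (n * h0 + s - z - (n * h0 + s - y)) ^ 2 = (z - y) ^ 2 by ring,
      Av_mirror (QL_mirror hs0 hs1 n)]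
    split_ifs
    · rfl
    · exact neg_zero.symm
  · intro s hs0 hs1
    have hk : 0 ≤ kap θ s := (div_pos hθ (L0_pos hs1)).le
    have hE : 0 ≤ kap θ s * (s * (h0 - s) / (2 * h0)) :=
      mul_nonneg hk (div_nonneg (mul_nonneg hs0 (by linarith)) (by linarith [h0_pos]))
    refine ⟨2 * (K * (kap θ s * (s * (h0 - s) / (2 * h0)))), fun X y z hX => ?_⟩
    unfold AvC
    split_ifs with h
    · exact Av_abs (fun X y z hX => Qd_abs hbd (fun x' => D_abs hs0 hs1 hk x') hX y z)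
        (by linarith [h.1]) h.2
    · rw [abs_zero]
      positivity
  · intro s hs0 hs1 p q b k1 k2 k3 k4 k5
    have k6 : 3 < ds q p := by rwa [ds_symm]
    refine half_of_rhomb (U := QL θ R s) (Qd_anti hodd _) (rhomb s hs0 hs1) k1 k2 k3 k4 k5 ?_ ?_ ?_
    · exact QA_long k6 (by rwa [ds_symm])
    · exact QA_short (by rw [k1]; norm_num)
    · exact QA_short (by rw [ds_symm, k2]; norm_num)
  · exact acute

end Pool.Agent.Strip051.LC.Line
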