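import Pool.Agent.Strip051.LC.Line.WallRed
import Pool.Agent.Strip051.LC.Line.Long

/-! # The floor row on the unit circle for the kernel `e'/e`

With `a = √3 tan (b/2)` and `z = √3 tan (φ/2)` (`T = sin b`, `s = sin φ`) everything is rational and
the slack of the row factors. -/

namespace Pool.Agent.Strip051.LC.Line

open Pool.Agent.StripNear Pool.Agent.StripSquare Pool.Agent.Strip051.Sweep MeasureTheory
  intervalIntegral

/-- The node function on the unit circle: the kernel `e'/e` times the pole factor. -/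
noncomputable def A1u (T : ℝ) : ℝ :=
  if T < h0 / 2 then
    (√(1 - T ^ 2) - √3 * T) * (1 + √(1 - T ^ 2)) / (1 + √(1 - T ^ 2) - √3 * T)
  else if T ≤ h0 then
    (1 + 2 * √(1 - T ^ 2)) * (√3 * T - √(1 - T ^ 2)) / (2 * (1 + √3 * T - √(1 - T ^ 2)))
  else √(1 - T ^ 2)

/-- Half angles. -/
theorem half_angle {T : ℝ} (h0T : 0 ≤ T) (hT : T ≤ h0) :
    ∃ a : ℝ, 0 ≤ a ∧ a ≤ 1 ∧ T = 2 * √3 * a / (3 + a ^ 2) ∧
      √(1 - T ^ 2) = (3 - a ^ 2) / (3 + a ^ 2) := by
  have w2 : √3 ^ 2 = 3 := Real.sq_sqrt (by norm_num)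
  have w0 : 0 < √3 := Real.sqrt_pos.2 (by norm_num)
  have hh : h0 = √3 / 2 := rfl
  have hTT : T ^ 2 ≤ 3 / 4 := by
    rw [← h0_sq]
    exact pow_le_pow_left₀ h0T hT 2
  have hX2 : √(1 - T ^ 2) ^ 2 = 1 - T ^ 2 := Real.sq_sqrt (by linarith)
  have hX0 : 0 ≤ √(1 - T ^ 2) := Real.sqrt_nonneg _
  have hX : 1 / 2 ≤ √(1 - T ^ 2) := Real.le_sqrt_of_sq_le (by linarith)
  set X := √(1 - T ^ 2)
  have h1 : 0 < 1 + X := by linarith
  have ha : (√3 * T / (1 + X)) ^ 2 = 3 * (1 - X) / (1 + X) := by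
    rw [div_pow, div_eq_div_iff (by positivity) h1.ne', mul_pow, w2]
    have : T ^ 2 = (1 - X) * (1 + X) := by nlinarith
    rw [this]
    ring
  have h3 : 3 + (√3 * T / (1 + X)) ^ 2 = 6 / (1 + X) := by
    rw [ha]
    field_simp
    ring
  refine ⟨√3 * T / (1 + X), by positivity, ?_, ?_, ?_⟩
  · rw [div_le_one h1]
    rw [hh] at hT
    nlinarith
  · rw [h3]
    field_simp
    rw [w2]
    ring
  · rw [h3, ha]
    field_simp
    ring

/-- The amplitude function of the exact bound. -/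
noncomputable def ee (s : ℝ) : ℝ := s / (2 * h0) - 1 + √(1 - s ^ 2)

theorem ee_half {z : ℝ} : 2 * √3 * z / (3 + z ^ 2) / (2 * h0) - 1 + (3 - z ^ 2) / (3 + z ^ 2) =
    2 * z * (1 - z) / (3 + z ^ 2) := by
  have w0 : 0 < √3 := Real.sqrt_pos.2 (by norm_num)
  have hh : h0 = √3 / 2 := rfl
  have hz : 0 < 3 + z ^ 2 := by positivity
  rw [hh]
  field_simp
  ring

/-- **The tangent line.** -/
theorem amp_le {θ s : ℝ} (hθ0 : 0 ≤ θ) (hθ : θ ≤ 1) (hs0 : 0 ≤ s) (hs1 : s < h0) :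
    0 ≤ amp θ s ∧ amp θ s ≤ ee s := by
  have w2 : √3 ^ 2 = 3 := Real.sq_sqrt (by norm_num)
  have w0 : 0 < √3 := Real.sqrt_pos.2 (by norm_num)
  have hh : h0 = √3 / 2 := rfl
  have hL := L0_pos hs1
  have hp := h0_pos
  have hq : 0 ≤ s * (h0 - s) / (2 * h0) :=
    div_nonneg (mul_nonneg hs0 (by linarith)) (by linarith)
  refine ⟨mul_nonneg (div_nonneg hθ0 hL.le) hq, ?_⟩
  have h1 : amp θ s ≤ s * (h0 - s) / (2 * h0) / (L0 - s / 2) := by
    unfold amp kap
    rw [div_mul_eq_mul_div]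
    apply div_le_div_of_nonneg_right _ hL.le
    nlinarith
  refine h1.trans ?_
  obtain ⟨z, hz0, hz1, e1, e2⟩ := half_angle hs0 hs1.le
  have hz3 : 0 < 3 + z ^ 2 := by positivity
  unfold ee
  rw [div_le_iff₀ hL, e2]
  have k : (s / (2 * h0) - 1 + (3 - z ^ 2) / (3 + z ^ 2)) = 2 * z * (1 - z) / (3 + z ^ 2) := by
    rw [e1]
    exact ee_half
  rw [k]
  have k2 : 2 * z * (1 - z) / (3 + z ^ 2) * (L0 - s / 2) - s * (h0 - s) / (2 * h0) =
      2 * z * (1 - z) / (3 + z ^ 2) * ((2 + √3) / 4 / (3 + z ^ 2) *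
        (z - √3 * (2 - √3)) ^ 2) := by
    unfold L0
    rw [e1, hh]
    field_simp
    ring_nf
    have w3 : √3 ^ 3 = 3 * √3 := by rw [pow_succ, w2]
    have w4 : √3 ^ 4 = 9 := by nlinarith
    have w5 : √3 ^ 5 = 9 * √3 := by rw [pow_succ, w4]
    simp only [w2, w3, w4, w5]
    ring
  have k3 : 0 ≤ 2 * z * (1 - z) / (3 + z ^ 2) * ((2 + √3) / 4 / (3 + z ^ 2) *
        (z - √3 * (2 - √3)) ^ 2) := by
    have : 0 ≤ 1 - z := by linarith
    positivity
  linarith

/-- The primitive on the cell. -/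
theorem int_low {s κ T : ℝ} (hT : 0 ≤ T) (hTs : T ≤ s) (hs1 : s < h0) :
    ∫ x in (0 : ℝ)..T, D s κ x = -(κ * ((h0 - s) / (2 * h0)) * (T * (s - T))) := by
  have e : ∫ x in (0 : ℝ)..T, D s κ x =
      ∫ x in (0 : ℝ)..T, κ * ((h0 - s) / (2 * h0)) * (2 * x - s) := by
    apply intervalIntegral.integral_congr
    intro x hx
    rw [Set.uIcc_of_le hT] at hx
    show D s κ x = _
    rw [D_low hx.1 (hx.2.trans hTs) hs1]
    ring
  rw [e, intervalIntegral.integral_const_mul, intervalIntegral.integral_sub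
    (Continuous.intervalIntegrable (by fun_prop) _ _)
    (Continuous.intervalIntegrable (by fun_prop) _ _), intervalIntegral.integral_const_mul,
    integral_id]
  simp only [intervalIntegral.integral_const, smul_eq_mul]
  ring

/-- The primitive on the gap. -/
theorem int_high {s κ T : ℝ} (hs0 : 0 ≤ s) (hTs : s ≤ T) (hT : T ≤ h0) (hs1 : s < h0) :
    ∫ x in (0 : ℝ)..T, D s κ x = κ * (s / (2 * h0)) * ((T - s) * (h0 - T)) := by
  have hI : ∀ a b : ℝ, IntervalIntegrable (D s κ) volume a b := D_integrable κ hs0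
  have e0 : ∫ x in (0 : ℝ)..T, D s κ x = (∫ x in (0 : ℝ)..s, D s κ x) + ∫ x in s..T, D s κ x :=
    (intervalIntegral.integral_add_adjacent_intervals (hI _ _) (hI _ _)).symm
  have e : ∫ x in s..T, D s κ x = ∫ x in s..T, κ * (s / (2 * h0)) * (h0 + s - 2 * x) := by
    apply intervalIntegral.integral_congr
    intro x hx
    rw [Set.uIcc_of_le hTs] at hx
    show D s κ x = _
    rw [D_high hx.1 (hx.2.trans hT) hs0]
    ring
  rw [e0, int_low hs0 le_rfl hs1, e, intervalIntegral.integral_const_mul,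
    intervalIntegral.integral_sub (Continuous.intervalIntegrable (by fun_prop) _ _)
    (Continuous.intervalIntegrable (by fun_prop) _ _), intervalIntegral.integral_const_mul,
    integral_id]
  simp only [intervalIntegral.integral_const, smul_eq_mul]
  field_simp
  ring

/-- The mean over the segment shifted to the nearest period. -/
theorem tau_mul_mn {s κ T : ℝ} (hs0 : 0 ≤ s) (hs1 : s < h0) (hT : T < 3 * h0 / 2) :
    tau T * mn (D s κ) 0 (tau T) = ∫ x in (0 : ℝ)..T, D s κ x := by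
  have h := mul_mn (D s κ) 0 (tau T)
  rw [sub_zero] at h
  rw [h]
  have hI : ∀ a b : ℝ, IntervalIntegrable (D s κ) volume a b := D_integrable κ hs0
  unfold tau jn
  split_ifs with h1
  · simp
  · push_cast
    rw [one_mul]
    have e0 : ∫ x in (0 : ℝ)..T, D s κ x =
        (∫ x in (0 : ℝ)..(T - h0), D s κ x) + ∫ x in (T - h0)..T, D s κ x :=
      (intervalIntegral.integral_add_adjacent_intervals (hI _ _) (hI _ _)).symm
    have e1 := D_integral κ hs0 hs1 (T - h0)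
    rw [sub_add_cancel] at e1
    rw [e0, e1, add_zero]

/-- The node function is the kernel times the pole factor. -/
theorem A1u_eq {a T : ℝ} (ha0 : 0 < a) (ha1 : a < 1) (hT : T = 2 * √3 * a / (3 + a ^ 2))
    (hX : √(1 - T ^ 2) = (3 - a ^ 2) / (3 + a ^ 2)) :
    A1u T = (3 - 6 * a - a ^ 2) / (2 * √3 * a * (1 - a)) * tau T := by
  have w2 : √3 ^ 2 = 3 := Real.sq_sqrt (by norm_num)
  have w0 : 0 < √3 := Real.sqrt_pos.2 (by norm_num)
  have hh : h0 = √3 / 2 := rfl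
  have ha3 : 0 < 3 + a ^ 2 := by positivity
  have hb : 0 < 1 - a := by linarith
  have e3 : √3 * T = 6 * a / (3 + a ^ 2) := by
    rw [hT]
    field_simp
    rw [w2]
    ring
  have hTh : T ≤ h0 := by
    rw [hT, hh, div_le_div_iff₀ ha3 two_pos]
    have : 0 ≤ (1 - a) * (3 - a) := mul_nonneg hb.le (by linarith)
    nlinarith
  have hTh' : T < 3 * h0 / 2 := by linarith [h0_pos]
  unfold A1u tau jn
  rw [e3, hX]
  split_ifs with h1
  · have d1 : 1 + (3 - a ^ 2) / (3 + a ^ 2) - 6 * a / (3 + a ^ 2) = 6 * (1 - a) / (3 + a ^ 2) := by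
      field_simp
      ring
    rw [d1, hT]
    push_cast
    field_simp
    ring
  · have d1 : 2 * (1 + 6 * a / (3 + a ^ 2) - (3 - a ^ 2) / (3 + a ^ 2)) =
        4 * (a * (a + 3)) / (3 + a ^ 2) := by
      field_simp
      ring
    have d2 : 0 < a * (a + 3) := by positivity
    rw [d1, hT, hh]
    push_cast
    field_simp
    ring

/-- The slack at `E = 0`. -/
theorem base_nonneg {a T X : ℝ} (ha0 : 0 ≤ a) (ha1 : a ≤ 1) (hT : T = 2 * √3 * a / (3 + a ^ 2))
    (hX : X = (3 - a ^ 2) / (3 + a ^ 2)) : 0 ≤ X * (1 / 2 + T / (2 * h0)) - 1 / 2 := by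
  have w0 : 0 < √3 := Real.sqrt_pos.2 (by norm_num)
  have hh : h0 = √3 / 2 := rfl
  have ha3 : 0 < 3 + a ^ 2 := by positivity
  have e : X * (1 / 2 + T / (2 * h0)) - 1 / 2 =
      a * (1 - a) * (6 + 3 * a + a ^ 2) / (3 + a ^ 2) ^ 2 := by
    rw [hT, hX, hh]
    field_simp
    ring
  rw [e]
  have : 0 ≤ 1 - a := by linarith
  positivity

/-- The slack of the unit row, small direction. -/
theorem unit_low {a z T s X e : ℝ} (ha0 : 0 < a) (haz : a ≤ z) (hz : z < 1)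
    (hT : T = 2 * √3 * a / (3 + a ^ 2)) (hX : X = (3 - a ^ 2) / (3 + a ^ 2))
    (hs : s = 2 * √3 * z / (3 + z ^ 2)) (he : e = 2 * z * (1 - z) / (3 + z ^ 2)) :
    0 ≤ X * (1 / 2 + T / (2 * h0)) - 1 / 2 -
      e * (X - (3 - 6 * a - a ^ 2) / (2 * √3 * a * (1 - a)) * (T * (s - T) / s)) := by
  have w2 : √3 ^ 2 = 3 := Real.sq_sqrt (by norm_num)
  have w0 : 0 < √3 := Real.sqrt_pos.2 (by norm_num)
  have hh : h0 = √3 / 2 := rfl
  have hz0 : 0 < z := ha0.trans_le haz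
  have ha3 : 0 < 3 + a ^ 2 := by positivity
  have hz3 : 0 < 3 + z ^ 2 := by positivity
  have hb : 0 < 1 - a := by linarith
  have key : X * (1 / 2 + T / (2 * h0)) - 1 / 2 -
      e * (X - (3 - 6 * a - a ^ 2) / (2 * √3 * a * (1 - a)) * (T * (s - T) / s)) =
      (2 * a * (z - a) ^ 2 * (9 + 3 * z + 6 * a - 6 * a * z - 3 * a ^ 2 - a ^ 2 * z) +
        3 * a ^ 2 * (1 - a) ^ 2 * (1 + a) * (3 + z ^ 2)) /
        ((3 + a ^ 2) ^ 2 * (3 + z ^ 2) * (1 - a)) := by
    rw [hT, hX, hh, hs, he]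
    field_simp
    ring
  rw [key]
  have h1 : 0 ≤ 9 + 3 * z + 6 * a - 6 * a * z - 3 * a ^ 2 - a ^ 2 * z := by
    nlinarith [mul_nonneg ha0.le (by linarith : 0 ≤ 1 - z), mul_nonneg hb.le ha0.le,
      mul_nonneg (mul_nonneg hb.le ha0.le) hz0.le]
  positivity

/-- The slack of the unit row, large direction. -/
theorem unit_high {a z T s X e : ℝ} (hz0 : 0 < z) (haz : z ≤ a) (ha1 : a < 1)
    (hT : T = 2 * √3 * a / (3 + a ^ 2)) (hX : X = (3 - a ^ 2) / (3 + a ^ 2))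
    (hs : s = 2 * √3 * z / (3 + z ^ 2)) (he : e = 2 * z * (1 - z) / (3 + z ^ 2)) :
    0 ≤ X * (1 / 2 + T / (2 * h0)) - 1 / 2 -
      e * (X + (3 - 6 * a - a ^ 2) / (2 * √3 * a * (1 - a)) *
        ((T - s) * (h0 - T) / (h0 - s))) := by
  have w2 : √3 ^ 2 = 3 := Real.sq_sqrt (by norm_num)
  have w0 : 0 < √3 := Real.sqrt_pos.2 (by norm_num)
  have hh : h0 = √3 / 2 := rfl
  have ha0 : 0 < a := hz0.trans_le haz
  have ha3 : 0 < 3 + a ^ 2 := by positivity
  have hz3 : 0 < 3 + z ^ 2 := by positivity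
  have hb : 0 < 1 - a := by linarith
  have hz1 : 0 < 1 - z := by linarith
  have h3z : 0 < 3 - z := by linarith
  have d1 : h0 - s = √3 / 2 * ((1 - z) * (3 - z)) / (3 + z ^ 2) := by
    rw [hh, hs]
    field_simp
    ring
  have d2 : h0 - T = √3 / 2 * ((1 - a) * (3 - a)) / (3 + a ^ 2) := by
    rw [hh, hT]
    field_simp
    ring
  have key : X * (1 / 2 + T / (2 * h0)) - 1 / 2 -
      e * (X + (3 - 6 * a - a ^ 2) / (2 * √3 * a * (1 - a)) *
        ((T - s) * (h0 - T) / (h0 - s))) =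
      (1 - a) * (18 * (a - z) ^ 2 * (3 - 2 * a * z - a ^ 2) +
        3 * a ^ 3 * (1 + a) * (3 - z) * (3 + z ^ 2)) /
        ((3 + a ^ 2) ^ 2 * (3 + z ^ 2) * (a * (3 - z))) := by
    rw [d1, d2, hT, hX, hh, hs, he]
    field_simp
    ring
  rw [key]
  have h1 : 0 ≤ 3 - 2 * a * z - a ^ 2 := by
    nlinarith [mul_nonneg hb.le ha0.le, mul_nonneg ha0.le hz1.le]
  positivity

theorem affine_E {W E e c : ℝ} (h0W : 0 ≤ W) (hE0 : 0 ≤ E) (hEe : E ≤ e) (h : 0 ≤ W - e * c) :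
    0 ≤ W - E * c := by
  rcases le_total 0 c with hc | hc
  · nlinarith
  · nlinarith

/-! ### The row -/

theorem lt_of_half {a z : ℝ} (ha0 : 0 ≤ a) (hz0 : 0 ≤ z) (ha1 : a ≤ 1) (hz1 : z ≤ 1)
    (h : 2 * √3 * a / (3 + a ^ 2) ≤ 2 * √3 * z / (3 + z ^ 2)) : a ≤ z := by
  have w0 : 0 < √3 := Real.sqrt_pos.2 (by norm_num)
  by_contra hlt
  rw [not_le] at hlt
  rw [div_le_div_iff₀ (by positivity) (by positivity)] at h
  have h1 : 0 < (a - z) * (3 - a * z) := by
    apply mul_pos (by linarith)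
    nlinarith [mul_nonneg ha0 hz0]
  have h2 : 0 < 2 * √3 * ((a - z) * (3 - a * z)) := by positivity
  nlinarith

theorem A1u_zero : A1u 0 = 1 := by
  have hp := h0_pos
  unfold A1u
  rw [if_pos (by linarith)]
  simp

theorem A1u_h0 : A1u h0 = 1 / 2 := by
  have hp := h0_pos
  have w2 : √3 ^ 2 = 3 := Real.sq_sqrt (by norm_num)
  have e : √(1 - h0 ^ 2) = 1 / 2 := by
    rw [h0_sq, show (1 : ℝ) - 3 / 4 = (1 / 2) ^ 2 by norm_num]
    exact Real.sqrt_sq (by norm_num)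
  have e3 : √3 * h0 = 3 / 2 := by
    unfold h0
    nlinarith
  unfold A1u
  rw [if_neg (by linarith), if_pos le_rfl, e, e3]
  norm_num

/-- **The row of the unit circle**, lower disc on the floor. -/
theorem S0_unit {θ s T : ℝ} (hθ0 : 0 < θ) (hθ : θ ≤ 1) (hs0 : 0 ≤ s) (hs1 : s < h0) (hT0 : 0 ≤ T)
    (hT : T ≤ h0) :
    0 ≤ S0 s (kap θ s) (1 / 2 - amp θ s) √(1 - T ^ 2) T (A1u T) 0 := by
  have w2 : √3 ^ 2 = 3 := Real.sq_sqrt (by norm_num)
  have w0 : 0 < √3 := Real.sqrt_pos.2 (by norm_num)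
  have hh : h0 = √3 / 2 := rfl
  have hp := h0_pos
  have hκ : 0 ≤ kap θ s := (div_pos hθ0 (L0_pos hs1)).le
  obtain ⟨hE0, hEe⟩ := amp_le hθ0.le hθ hs0 hs1
  obtain ⟨a, ha0, ha1, e1, e2⟩ := half_angle hT0 hT
  have ha3 : 0 < 3 + a ^ 2 := by positivity
  have hb := base_nonneg ha0 ha1 e1 e2
  have hmn : ∀ t, |mn (D s (kap θ s)) 0 t| ≤ amp θ s := fun t =>
    mn_abs (fun z => D_abs hs0 hs1 hκ z) 0 t
  have hS : S0 s (kap θ s) (1 / 2 - amp θ s) √(1 - T ^ 2) T (A1u T) 0 =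
      √(1 - T ^ 2) * (1 / 2 + T / (2 * h0)) - 1 / 2 - amp θ s * √(1 - T ^ 2) -
        A1u T * mn (D s (kap θ s)) 0 (tau T) := by
    unfold S0
    ring
  rcases hs0.eq_or_lt with hs | hs
  · have hz : amp θ s = 0 := by
      unfold amp
      rw [← hs]
      simp
    have h1 := hmn (tau T)
    rw [hz] at h1
    have h2 : mn (D s (kap θ s)) 0 (tau T) = 0 := abs_nonpos_iff.1 h1
    rw [hS, hz, h2]
    linarith
  rcases ha0.eq_or_lt with ha | ha
  · have hT' : T = 0 := by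
      rw [e1, ← ha]
      simp
    have h1 : tau 0 = 0 := by
      unfold tau jn
      rw [if_pos (by linarith)]
      simp
    rw [hS, hT', A1u_zero, h1, mn_self, D_low le_rfl hs0 hs1]
    unfold amp
    simp only [ne_eq, OfNat.ofNat_ne_zero, not_false_eq_true, zero_pow, sub_zero, Real.sqrt_one]
    apply le_of_eq
    field_simp
    ring
  rcases ha1.eq_or_lt with ha' | ha'
  · have hT' : T = h0 := by
      rw [e1, ha', hh]
      ring
    have h1 : tau h0 = 0 := by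
      unfold tau jn
      rw [if_neg (by linarith), if_pos (by linarith)]
      simp
    have e : √(1 - h0 ^ 2) = 1 / 2 := by
      rw [h0_sq, show (1 : ℝ) - 3 / 4 = (1 / 2) ^ 2 by norm_num]
      exact Real.sqrt_sq (by norm_num)
    rw [hS, hT', A1u_h0, h1, mn_self, D_low le_rfl hs0 hs1, e]
    unfold amp
    apply le_of_eq
    field_simp
    ring
  obtain ⟨z, hz0, hz1, f1, f2⟩ := half_angle hs0 hs1.le
  have hz0' : 0 < z := by
    rcases hz0.eq_or_lt with h | h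
    · rw [f1, ← h] at hs
      simp at hs
    · exact h
  have hz1' : z < 1 := by
    rcases hz1.eq_or_lt with h | h
    · rw [f1, h, hh] at hs1
      exfalso
      linarith
    · exact h
  have he : ee s = 2 * z * (1 - z) / (3 + z ^ 2) := by
    unfold ee
    rw [f2, f1]
    exact ee_half
  have hF : A1u T * mn (D s (kap θ s)) 0 (tau T) =
      (3 - 6 * a - a ^ 2) / (2 * √3 * a * (1 - a)) * ∫ x in (0 : ℝ)..T, D s (kap θ s) x := by
    rw [A1u_eq ha ha' e1 e2, mul_assoc, tau_mul_mn hs0 hs1 (by linarith)]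
  have hampl : amp θ s = kap θ s * ((h0 - s) / (2 * h0)) * s := by
    unfold amp
    ring
  rw [hS, hF]
  rcases le_total T s with hTs | hTs
  · have haz : a ≤ z := lt_of_half ha0 hz0 ha1 hz1 (by rw [← e1, ← f1]; exact hTs)
    have key := affine_E hb hE0 hEe (by
      rw [he]
      exact unit_low ha haz hz1' e1 e2 f1 rfl)
    rw [int_low hT0 hTs hs1]
    have e : amp θ s * (√(1 - T ^ 2) - (3 - 6 * a - a ^ 2) / (2 * √3 * a * (1 - a)) *
        (T * (s - T) / s)) = amp θ s * √(1 - T ^ 2) -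
        (3 - 6 * a - a ^ 2) / (2 * √3 * a * (1 - a)) * (kap θ s * ((h0 - s) / (2 * h0)) *
          (T * (s - T))) := by
      rw [hampl]
      field_simp
    rw [e] at key
    linarith
  · have haz : z ≤ a := lt_of_half hz0 ha0 hz1 ha1 (by rw [← e1, ← f1]; exact hTs)
    have key := affine_E hb hE0 hEe (by
      rw [he]
      exact unit_high hz0' haz ha' e1 e2 f1 rfl)
    rw [int_high hs0 hTs hT hs1]
    have hd : 0 < h0 - s := by linarith
    have hampl' : amp θ s = kap θ s * (s / (2 * h0)) * (h0 - s) := by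
      unfold amp
      ring
    have e : amp θ s * (√(1 - T ^ 2) + (3 - 6 * a - a ^ 2) / (2 * √3 * a * (1 - a)) *
        ((T - s) * (h0 - T) / (h0 - s))) = amp θ s * √(1 - T ^ 2) +
        (3 - 6 * a - a ^ 2) / (2 * √3 * a * (1 - a)) * (kap θ s * (s / (2 * h0)) *
          ((T - s) * (h0 - T))) := by
      rw [mul_add]
      congr 1
      rw [hampl']
      field_simp
    rw [e] at key
    linarith

end Pool.Agent.Strip051.LC.Line
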