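import Pool.Agent.Strip051.LC.Line.Three

/-! # The mirror symmetry of the star inequality and the fifteen families

The reflection in a horizontal line exchanges the bottom and the top vertex.  The families with two
nodes are reduced to six families `FamA` (nodes on the two short sides of the normal form) and nine
families `FamB` (nodes on the side from the bottom to the middle and on the side from the bottom to
the top). -/

namespace Pool.Agent.Strip051.LC.Line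

open Pool.Agent.StripNear Pool.Agent.StripSquare Pool.Agent.Strip051.Sweep

variable {θ : ℝ} {R : ℝ → ℝ → ℝ}

theorem Star.rev {e l1 l2 l3 W1 W2 W3 : ℝ} (h : Star θ e l1 l2 l3 W1 W2 W3) :
    Star θ e l2 l1 l3 W3 W2 W1 := by
  unfold Star at *
  rw [phi_comm (W3 + e / (2 * θ)) (W2 + e / (2 * θ)),
    phi_comm (W2 + e / (2 * θ)) (W1 + e / (2 * θ)),
    phi_comm (W1 + e / (2 * θ)) (W3 + e / (2 * θ))]
  linarith

theorem StarN.rev {e l1 l2 A1 A2 A3 : ℝ} (h : StarN θ e l2 l1 (-A2) (-A1) (-A3)) :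
    StarN θ e l1 l2 A1 A2 A3 := by
  unfold StarN at *
  have := h.rev
  rw [show h0 - l2 - l1 = h0 - l1 - l2 by ring, show l2 + l1 = l1 + l2 by ring] at this
  convert this using 1 <;> ring

theorem StarW.rev {e l1 l2 l3 A1 A2 A3 : ℝ} (h : StarW θ e l2 l1 l3 (-A2) (-A1) (-A3)) :
    StarW θ e l1 l2 l3 A1 A2 A3 := by
  unfold StarW at *
  have := h.rev
  unfold pot at *
  convert this using 1 <;> ring

theorem StarW.rev' {e l1 l2 l3 A1 A2 A3 : ℝ} (h : StarW θ e l1 l3 l2 (-A1) (-A3) (-A2)) :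
    StarW θ e l1 l2 l3 A1 A2 A3 := by
  unfold StarW Star pot at *
  rw [show (A1 * (l2 + l3) - A3 * (l1 + l2) + A2 * (l3 - l1)) / (2 * h0) =
      (-A3 * (l2 + l1) - -A1 * (l3 + l2) + -A2 * (l1 - l3)) / (2 * h0) by ring,
    show (A2 * (l3 + l1) - A1 * (l2 + l3) + A3 * (l1 - l2)) / (2 * h0) =
      (-A1 * (l3 + l2) - -A2 * (l1 + l3) + -A3 * (l2 - l1)) / (2 * h0) by ring,
    show (A3 * (l1 + l2) - A2 * (l3 + l1) + A1 * (l2 - l3)) / (2 * h0) =
      (-A2 * (l1 + l3) - -A3 * (l2 + l1) + -A1 * (l3 - l2)) / (2 * h0) by ring]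
  set V1 := (-A1 * (l3 + l2) - -A2 * (l1 + l3) + -A3 * (l2 - l1)) / (2 * h0) + e / (2 * θ)
  set V2 := (-A3 * (l2 + l1) - -A1 * (l3 + l2) + -A2 * (l1 - l3)) / (2 * h0) + e / (2 * θ)
  set V3 := (-A2 * (l1 + l3) - -A3 * (l2 + l1) + -A1 * (l3 - l2)) / (2 * h0) + e / (2 * θ)
  rw [phi_comm V2 V1, phi_comm V1 V3, phi_comm V3 V2]
  linarith

/-- The reflection in a horizontal line. -/
theorem NF.mirror (hR : ∀ X T, R (-X) T = -R X T) {X12 X13 t t' : ℝ}
    (h : NF θ R (X12 - X13) (-X13) t' t) : NF θ R X12 X13 t t' := by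
  have e0 : exc (X12 - X13) (-X13) t' t = exc X12 X13 t t' := by
    unfold exc
    ring
  have e1 : R (X12 - X13) t' = -R (X13 - X12) t' := by
    rw [← hR]
    congr 1
    ring
  have e2 : R (-X13 - (X12 - X13)) t = -R X12 t := by
    rw [← hR]
    congr 1
    ring
  have e4 : t' + t = t + t' := add_comm _ _
  rcases h with ⟨hj, h1, h2, a⟩ | ⟨hj, h1, h2, a⟩ | ⟨hj, h1, h2, h3, a⟩ | ⟨hj, h1, h2, h3, a⟩ |
    ⟨hj, h1, h2, h3, a⟩ | ⟨hj, h1, h2, h3, a⟩ | ⟨hj, a⟩ | ⟨hj, a⟩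
  all_goals simp only [e0, e1, e2, e4, hR] at hj a
  · refine .pp (by omega) h2 h1 (StarN.rev ?_)
    simpa using a
  · refine .nn (by omega) h2 h1 (StarN.rev ?_)
    simpa using a
  · refine .npp (by omega) h2 h1 (e4 ▸ h3) (StarN.rev ?_)
    simpa using a
  · refine .npn (by omega) h2 h1 (e4 ▸ h3) (StarN.rev ?_)
    simpa using a
  · refine .pnp (by omega) h2 h1 (e4 ▸ h3) (StarN.rev ?_)
    simpa using a
  · refine .pnn (by omega) h2 h1 (e4 ▸ h3) (StarN.rev ?_)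
    simpa using a
  · refine .up (by omega) (StarW.rev ?_)
    simpa using a
  · refine .dn (by omega) (StarW.rev' ?_)
    simpa using a

/-- Nodes on the sides from the bottom to the middle and from the middle to the top. -/
def FamA (θ : ℝ) (R : ℝ → ℝ → ℝ) (j k : ℝ) : Prop :=
  ∀ X12 X23 t t' : ℝ, 0 ≤ t → 0 ≤ t' → X12 ^ 2 + t ^ 2 = j → X23 ^ 2 + t' ^ 2 = k →
    0 ≤ X12 * t' - X23 * t → 1 ≤ (X12 + X23) ^ 2 + (t + t') ^ 2 →
    (X12 + X23) ^ 2 + (t + t') ^ 2 ≤ 3 → NF θ R X12 (X12 + X23) t t'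

/-- Nodes on the sides from the bottom to the middle and from the bottom to the top. -/
def FamB (θ : ℝ) (R : ℝ → ℝ → ℝ) (j k : ℝ) : Prop :=
  ∀ X12 X13 t t' : ℝ, 0 ≤ t → 0 ≤ t' → X12 ^ 2 + t ^ 2 = j → X13 ^ 2 + (t + t') ^ 2 = k →
    0 ≤ X12 * (t + t') - X13 * t → 1 ≤ (X13 - X12) ^ 2 + t' ^ 2 →
    (X13 - X12) ^ 2 + t' ^ 2 ≤ 3 → NF θ R X12 X13 t t'

theorem FamA.swap (hR : ∀ X T, R (-X) T = -R X T) {j k : ℝ} (h : FamA θ R j k) :
    FamA θ R k j := by
  intro X12 X23 t t' h1 h2 h3 h4 h5 h6 h7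
  apply NF.mirror hR
  have := h (-X23) (-X12) t' t h2 h1 (by rw [neg_sq]; exact h4) (by rw [neg_sq]; exact h3)
    (by linarith) (by
      have : (-X23 + -X12) ^ 2 + (t' + t) ^ 2 = (X12 + X23) ^ 2 + (t + t') ^ 2 := by ring
      rw [this]
      exact h6) (by
      have : (-X23 + -X12) ^ 2 + (t' + t) ^ 2 = (X12 + X23) ^ 2 + (t + t') ^ 2 := by ring
      rw [this]
      exact h7)
  rw [show -X23 + -X12 = -(X12 + X23) by ring] at this
  rwa [show X12 - (X12 + X23) = -X23 by ring]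

/-- The six families `FamA` and the nine families `FamB` give all families. -/
theorem families_of (hR : ∀ X T, R (-X) T = -R X T)
    (a11 : FamA θ R 1 1) (a12 : FamA θ R 1 2) (a13 : FamA θ R 1 3) (a22 : FamA θ R 2 2)
    (a23 : FamA θ R 2 3) (a33 : FamA θ R 3 3)
    (b11 : FamB θ R 1 1) (b12 : FamB θ R 1 2) (b13 : FamB θ R 1 3)
    (b21 : FamB θ R 2 1) (b22 : FamB θ R 2 2) (b23 : FamB θ R 2 3)
    (b31 : FamB θ R 3 1) (b32 : FamB θ R 3 2) (b33 : FamB θ R 3 3) : Families θ R Nd3 := by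
  intro X12 X13 t t' ht ht' hc g1 g2 g3 g4 g5 g6 hN
  -- two sides of the first kind
  have kA : ∀ j k : ℝ, FamA θ R j k → X12 ^ 2 + t ^ 2 = j → (X13 - X12) ^ 2 + t' ^ 2 = k →
      NF θ R X12 X13 t t' := by
    intro j k hF e1 e2
    have := hF X12 (X13 - X12) t t' ht ht' e1 e2 (by linarith) (by
      rw [show X12 + (X13 - X12) = X13 by ring]
      exact g5) (by
      rw [show X12 + (X13 - X12) = X13 by ring]
      exact g6)
    rwa [show X12 + (X13 - X12) = X13 by ring] at this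
  have kB : ∀ j k : ℝ, FamB θ R j k → X12 ^ 2 + t ^ 2 = j → X13 ^ 2 + (t + t') ^ 2 = k →
      NF θ R X12 X13 t t' := by
    intro j k hF e1 e2
    exact hF X12 X13 t t' ht ht' e1 e2 hc g3 g4
  have kC : ∀ j k : ℝ, FamB θ R j k → (X13 - X12) ^ 2 + t' ^ 2 = j →
      X13 ^ 2 + (t + t') ^ 2 = k → NF θ R X12 X13 t t' := by
    intro j k hF e1 e2
    apply NF.mirror hR
    have i1 : (X12 - X13) ^ 2 = (X13 - X12) ^ 2 := by ring
    exact hF (X12 - X13) (-X13) t' t ht' ht (by rw [i1]; exact e1)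
      (by rw [neg_sq, add_comm t' t]; exact e2) (by linarith)
      (by rw [show -X13 - (X12 - X13) = -X12 by ring, neg_sq]; exact g1)
      (by rw [show -X13 - (X12 - X13) = -X12 by ring, neg_sq]; exact g2)
  unfold Nd3 at hN
  rcases hN with ⟨n1, n2⟩ | ⟨n1, n2⟩ | ⟨n1, n2⟩
  · rcases n1 with e1 | e1 | e1 <;> rcases n2 with e2 | e2 | e2
    · exact kA 1 1 a11 e1 e2
    · exact kA 1 2 a12 e1 e2
    · exact kA 1 3 a13 e1 e2
    · exact kA 2 1 (a12.swap hR) e1 e2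
    · exact kA 2 2 a22 e1 e2
    · exact kA 2 3 a23 e1 e2
    · exact kA 3 1 (a13.swap hR) e1 e2
    · exact kA 3 2 (a23.swap hR) e1 e2
    · exact kA 3 3 a33 e1 e2
  · rcases n1 with e1 | e1 | e1 <;> rcases n2 with e2 | e2 | e2
    · exact kB 1 1 b11 e1 e2
    · exact kB 1 2 b12 e1 e2
    · exact kB 1 3 b13 e1 e2
    · exact kB 2 1 b21 e1 e2
    · exact kB 2 2 b22 e1 e2
    · exact kB 2 3 b23 e1 e2
    · exact kB 3 1 b31 e1 e2
    · exact kB 3 2 b32 e1 e2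
    · exact kB 3 3 b33 e1 e2
  · rcases n1 with e1 | e1 | e1 <;> rcases n2 with e2 | e2 | e2
    · exact kC 1 1 b11 e1 e2
    · exact kC 1 2 b12 e1 e2
    · exact kC 1 3 b13 e1 e2
    · exact kC 2 1 b21 e1 e2
    · exact kC 2 2 b22 e1 e2
    · exact kC 2 3 b23 e1 e2
    · exact kC 3 1 b31 e1 e2
    · exact kC 3 2 b32 e1 e2
    · exact kC 3 3 b33 e1 e2

end Pool.Agent.Strip051.LC.Line
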