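import Pool.Agent.Strip051.LC.Line.Base
import Pool.Agent.Strip051.LC.Corner

/-! # The flux of an edge and the star inequality

`R X T` is the kernel times the distance of the height difference `T ≥ 0` to the nearest multiple of
`h0`; the flux of an edge is `R` times a mean of the density, also at the poles of the kernel. -/

namespace Pool.Agent.Strip051.LC.Line

open Pool.Agent.StripNear Pool.Agent.StripSquare Pool.Agent.Strip051.Sweep

/-- The nearest multiple of `h0`. -/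
noncomputable def jn (T : ℝ) : ℕ := if T < h0 / 2 then 0 else if T < 3 * h0 / 2 then 1 else 2

/-- The flux of an edge. -/
noncomputable def Qd (R : ℝ → ℝ → ℝ) (D : ℝ → ℝ) (X y z : ℝ) : ℝ :=
  R X |z - y| * mn D (min y z) (max y z - jn |z - y| * h0)

theorem Qd_odd {R : ℝ → ℝ → ℝ} (hR : ∀ X T, R (-X) T = -R X T) (D : ℝ → ℝ) (X y z : ℝ) :
    Qd R D (-X) y z = -Qd R D X y z := by
  unfold Qd
  rw [hR]
  ring

theorem Qd_comm (R : ℝ → ℝ → ℝ) (D : ℝ → ℝ) (X y z : ℝ) : Qd R D X z y = Qd R D X y z := by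
  unfold Qd
  rw [abs_sub_comm, min_comm, max_comm]

theorem Qd_anti {R : ℝ → ℝ → ℝ} (hR : ∀ X T, R (-X) T = -R X T) (D : ℝ → ℝ) (X y z : ℝ) :
    Qd R D (-X) z y = -Qd R D X y z := by
  rw [Qd_odd hR, Qd_comm]

theorem Qd_mirror {D : ℝ → ℝ} {H : ℝ} (h1 : ∀ x, D (H - x) = -D x)
    (h2 : ∀ (x : ℝ) (k : ℕ), D (x + k * h0) = D x) (R : ℝ → ℝ → ℝ) (X y z : ℝ) :
    Qd R D X (H - y) (H - z) = -Qd R D X y z := by
  unfold Qd
  have e1 : |H - z - (H - y)| = |z - y| := by
    rw [show H - z - (H - y) = -(z - y) by ring, abs_neg]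
  have e2 : min (H - y) (H - z) = H - max y z := by
    rcases le_total y z with h | h
    · rw [max_eq_right h, min_eq_right (by linarith)]
    · rw [max_eq_left h, min_eq_left (by linarith)]
  have e3 : max (H - y) (H - z) = H - min y z := by
    rcases le_total y z with h | h
    · rw [min_eq_left h, max_eq_left (by linarith)]
    · rw [min_eq_right h, max_eq_right (by linarith)]
  rw [e1, e2, e3]
  set k := jn |z - y|
  have e4 : H - min y z - k * h0 = H - (min y z + k * h0) := by ring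
  have e5 := mn_shift (f := D) (c := k * h0) (fun x => h2 x k) (min y z) (max y z - k * h0)
  rw [sub_add_cancel] at e5
  rw [e4, mn_mirror h1, mn_symm, e5]
  ring

theorem Qd_abs {R : ℝ → ℝ → ℝ} {D : ℝ → ℝ} {K E : ℝ}
    (hR : ∀ X T, |X| ≤ 2 → 0 ≤ T → |R X T| ≤ K) (hD : ∀ x, |D x| ≤ E) {X : ℝ} (hX : |X| ≤ 2)
    (y z : ℝ) : |Qd R D X y z| ≤ K * E := by
  unfold Qd
  rw [abs_mul]
  have h1 := hR X |z - y| hX (abs_nonneg _)
  exact mul_le_mul h1 (mn_abs hD _ _) (abs_nonneg _) ((abs_nonneg _).trans h1)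

/-! ### The star inequality -/

/-- The slope of the line. -/
noncomputable def L0 : ℝ := (2 + Real.sqrt 3) / 4

/-- The amplitude factor: the density is `D s (kap θ s)`. -/
noncomputable def kap (θ s : ℝ) : ℝ := θ / (L0 - s / 2)

/-- The inequality without phase and without cell width. `W1 W2 W3` are the values of the
potential at the three nodes, `l1 l2 l3` the lengths of the arcs. -/
def Star (θ exc l1 l2 l3 W1 W2 W3 : ℝ) : Prop :=
  θ * (l1 * phi (W1 + exc / (2 * θ)) (W2 + exc / (2 * θ)) +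
    l2 * phi (W2 + exc / (2 * θ)) (W3 + exc / (2 * θ)) +
    l3 * phi (W3 + exc / (2 * θ)) (W1 + exc / (2 * θ))) ≤ exc * L0

theorem L0_pos {s : ℝ} (hs1 : s < h0) : 0 < L0 - s / 2 := by
  have h3 : Real.sqrt 3 ^ 2 = 3 := Real.sq_sqrt (by norm_num)
  have h4 := Real.sqrt_nonneg 3
  unfold L0
  have : h0 = Real.sqrt 3 / 2 := rfl
  rw [this] at hs1
  nlinarith

/-- The three short arcs cover the circle. -/
theorem wrap {θ s exc : ℝ} (hθ : 0 < θ) (hs0 : 0 ≤ s) (hs1 : s < h0) {a l1 l2 l3 A1 A2 A3 : ℝ}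
    (h1 : 0 ≤ l1) (h2 : 0 ≤ l2) (h3 : 0 ≤ l3) (hl : l1 + l2 + l3 = h0)
    (hS : Star θ exc l1 l2 l3 (pot h0 A1 A2 A3 l1 l2 l3) (pot h0 A2 A3 A1 l2 l3 l1)
      (pot h0 A3 A1 A2 l3 l1 l2)) :
    A1 * mn (D s (kap θ s)) a (a + l1) + A2 * mn (D s (kap θ s)) (a + l1) (a + l1 + l2) +
      A3 * mn (D s (kap θ s)) (a + l1 + l2) (a + h0) ≤ exc := by
  have hp := h0_pos
  have hL := L0_pos hs1
  have hκ : 0 ≤ kap θ s := (div_pos hθ hL).le
  have key := flux_two (κ := kap θ s) hp hs0 hs1 hκ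
    (a := a) (b := a + l1) (c := a + l1 + l2) (by linarith) (by linarith) (by linarith)
    A1 A2 A3 (-(exc / (2 * θ)))
  have e1 : a + l1 - a = l1 := by ring
  have e2 : a + l1 + l2 - (a + l1) = l2 := by ring
  have e3 : a + h0 - (a + l1 + l2) = l3 := by linarith
  rw [e1, e2, e3] at key
  simp only [sub_neg_eq_add] at key
  have key' := key
  refine le_trans key' ?_
  unfold Star at hS
  set Φ := l1 * phi (pot h0 A1 A2 A3 l1 l2 l3 + exc / (2 * θ))
      (pot h0 A2 A3 A1 l2 l3 l1 + exc / (2 * θ)) +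
    l2 * phi (pot h0 A2 A3 A1 l2 l3 l1 + exc / (2 * θ))
      (pot h0 A3 A1 A2 l3 l1 l2 + exc / (2 * θ)) +
    l3 * phi (pot h0 A3 A1 A2 l3 l1 l2 + exc / (2 * θ))
      (pot h0 A1 A2 A3 l1 l2 l3 + exc / (2 * θ)) with hΦ
  have e4 : kap θ s * (Φ + -(exc / (2 * θ)) * s) = (θ * Φ - exc * s / 2) / (L0 - s / 2) := by
    unfold kap
    field_simp
    ring
  rw [e4, div_le_iff₀ hL]
  linarith

/-- The longest short arc is the union of the two other ones. -/
theorem nonwrap {θ s exc : ℝ} (hθ : 0 < θ) (hs0 : 0 ≤ s) (hs1 : s < h0) {a l1 l2 A1 A2 A3 : ℝ}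
    (h1 : 0 ≤ l1) (h2 : 0 ≤ l2) (hl : l1 + l2 ≤ h0)
    (hS : Star θ exc l1 l2 (h0 - l1 - l2)
      ((A1 * (h0 - l1) + A2 * (h0 - 2 * l1 - l2) - A3 * (h0 - l1 - l2)) / (2 * h0))
      ((-A1 * (h0 - l1) + A2 * (h0 - l2) +
        A3 * (l1 - l2) / (l1 + l2) * (h0 - l1 - l2)) / (2 * h0))
      ((-A1 * (h0 - l1 - 2 * l2) - A2 * (h0 - l2) + A3 * (h0 - l1 - l2)) / (2 * h0))) :
    A1 * mn (D s (kap θ s)) a (a + l1) + A2 * mn (D s (kap θ s)) (a + l1) (a + l1 + l2) -
      A3 * mn (D s (kap θ s)) a (a + l1 + l2) ≤ exc := by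
  have hp := h0_pos
  set f := D s (kap θ s) with hf
  rcases eq_or_lt_of_le (add_nonneg h1 h2) with h3 | h3
  · -- all three heights are congruent
    have z1 : l1 = 0 := by linarith
    have z2 : l2 = 0 := by linarith
    subst z1
    subst z2
    simp only [add_zero, mn_self]
    have hw := wrap (a := a) (l1 := 0) (l2 := 0) (l3 := h0) (A1 := A1 + A2 - A3) (A2 := 0)
      (A3 := 0) (exc := exc) hθ hs0 hs1 le_rfl le_rfl hp.le (by ring) (by
        unfold Star at hS ⊢
        unfold pot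
        have e1 : ((A1 + A2 - A3) * (0 + h0) - 0 * (0 + 0) + 0 * (h0 - 0)) / (2 * h0) =
            (A1 * (h0 - 0) + A2 * (h0 - 2 * 0 - 0) - A3 * (h0 - 0 - 0)) / (2 * h0) := by
          ring
        have e2 : (0 * (0 + 0) - 0 * (h0 + 0) + (A1 + A2 - A3) * (0 - h0)) / (2 * h0) =
            (-A1 * (h0 - 0 - 2 * 0) - A2 * (h0 - 0) + A3 * (h0 - 0 - 0)) / (2 * h0) := by
          ring
        rw [e1, e2]
        simp only [zero_mul, zero_add] at hS ⊢
        simpa using hS)
    rw [← hf] at hw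
    simp only [add_zero, mn_self, zero_mul] at hw
    linarith
  · -- the complement of the longest arc
    have e0 : (l1 + l2) * mn f a (a + l1 + l2) = -((h0 - l1 - l2) * mn f (a + l1 + l2) (a + h0)) := by
      have i1 := mul_mn f a (a + l1 + l2)
      have i2 := mul_mn f (a + l1 + l2) (a + h0)
      have hI : ∀ x y : ℝ, IntervalIntegrable f MeasureTheory.volume x y :=
        fun x y => D_integrable (kap θ s) hs0 x y
      have i3 := intervalIntegral.integral_add_adjacent_intervals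
        (hI a (a + l1 + l2)) (hI (a + l1 + l2) (a + h0))
      have i4 : ∫ x in a..(a + h0), f x = 0 := D_integral (kap θ s) hs0 hs1 a
      rw [show a + l1 + l2 - a = l1 + l2 by ring] at i1
      rw [show a + h0 - (a + l1 + l2) = h0 - l1 - l2 by ring] at i2
      linarith
    have hw := wrap (a := a) (l1 := l1) (l2 := l2) (l3 := h0 - l1 - l2) (A1 := A1) (A2 := A2)
      (A3 := A3 / (l1 + l2) * (h0 - l1 - l2)) (exc := exc) hθ hs0 hs1 h1 h2 (by linarith)
      (by ring) (by
        have e1 : pot h0 A1 A2 (A3 / (l1 + l2) * (h0 - l1 - l2)) l1 l2 (h0 - l1 - l2) =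
            (A1 * (h0 - l1) + A2 * (h0 - 2 * l1 - l2) - A3 * (h0 - l1 - l2)) / (2 * h0) := by
          unfold pot
          field_simp
          ring
        have e2 : pot h0 A2 (A3 / (l1 + l2) * (h0 - l1 - l2)) A1 l2 (h0 - l1 - l2) l1 =
            (-A1 * (h0 - l1) + A2 * (h0 - l2) +
              A3 * (l1 - l2) / (l1 + l2) * (h0 - l1 - l2)) / (2 * h0) := by
          unfold pot
          field_simp
          ring
        have e3 : pot h0 (A3 / (l1 + l2) * (h0 - l1 - l2)) A1 A2 (h0 - l1 - l2) l1 l2 =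
            (-A1 * (h0 - l1 - 2 * l2) - A2 * (h0 - l2) + A3 * (h0 - l1 - l2)) / (2 * h0) := by
          unfold pot
          field_simp
          ring
        rw [e1, e2, e3]
        exact hS)
    have e5 : A3 * mn f a (a + l1 + l2) = -(A3 / (l1 + l2) * (h0 - l1 - l2) *
        mn f (a + l1 + l2) (a + h0)) := by
      have : A3 * mn f a (a + l1 + l2) = A3 / (l1 + l2) * ((l1 + l2) * mn f a (a + l1 + l2)) := by
        field_simp
      rw [this, e0]
      ring
    rw [e5]
    linarith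

end Pool.Agent.Strip051.LC.Line
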