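import Pool.Agent.Strip051.LC.Line.GlueA

/-! # Strips which do not occur

For some sign patterns and quarters the strip around the tight curve is empty. -/

set_option linter.all false

namespace Pool.Agent.Strip051.LC.Line.Glue.Emp

open Pool.Agent.StripNear Pool.Agent.Strip051.LB.Fn Pool.Agent.Strip051.LC
  Pool.Agent.Strip051.LC.Line Pool.Agent.Strip051

theorem c1nn (t : ℝ) : 0 ≤ c1f_v t := by
  rw [c1f_eq]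
  exact Real.sqrt_nonneg _

theorem c3nn (t : ℝ) : 0 ≤ c3f_v t := by
  rw [c3f_eq]
  exact Real.sqrt_nonneg _

theorem c1sq {t : ℝ} (h : 0 ≤ t) (h' : t ≤ 1) : c1f_v t ^ 2 = 1 - t ^ 2 := by
  rw [c1f_eq]
  unfold c1
  rw [Real.sq_sqrt (by nlinarith)]

theorem c3sq {t : ℝ} (h : 0 ≤ t) (h' : t ≤ 2 * h0) : c3f_v t ^ 2 = 3 - t ^ 2 := by
  have hs := h0_sq
  have hp := h0_pos
  rw [c3f_eq]
  unfold c3
  rw [Real.sq_sqrt (by nlinarith)]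

theorem c1lo {t : ℝ} (h : 0 ≤ t) (h' : t ≤ 1 / 2 * h0) : 9 / 10 ≤ c1f_v t := by
  have h1 := h0_lt
  have h2 := c1sq h (by linarith)
  have h3 := c1nn t
  have hs := h0_sq
  have h4 : t ^ 2 ≤ 3 / 16 := by nlinarith
  nlinarith

theorem c1half {t : ℝ} (h : 0 ≤ t) (h' : t ≤ h0) : 1 / 2 ≤ c1f_v t := by
  have h1 := h0_lt
  have h2 := c1sq h (by linarith)
  have h3 := c1nn t
  have hs := h0_sq
  have h4 : t ^ 2 ≤ 3 / 4 := by nlinarith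
  nlinarith

theorem c1up {t : ℝ} (h : h0 ≤ t) (h' : t ≤ 1) : c1f_v t ≤ 1 / 2 := by
  have h1 := h0_pos
  have h2 := c1sq (h1.le.trans h) h'
  have hs := h0_sq
  have h4 : 3 / 4 ≤ t ^ 2 := by nlinarith
  nlinarith

theorem c3lo {t : ℝ} (h : 0 ≤ t) (h' : t ≤ h0) : 3 / 2 ≤ c3f_v t := by
  have h1 := h0_pos
  have h2 := c3sq h (by linarith)
  have h3 := c3nn t
  have hs := h0_sq
  have h4 : t ^ 2 ≤ 3 / 4 := by nlinarith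
  nlinarith

theorem c3up {t : ℝ} (h : h0 ≤ t) (h' : t ≤ 2 * h0) : c3f_v t ≤ 3 / 2 := by
  have h1 := h0_pos
  have h2 := c3sq (h1.le.trans h) h'
  have hs := h0_sq
  have h4 : 3 / 4 ≤ t ^ 2 := by nlinarith
  nlinarith

theorem c3up' {t : ℝ} (h : 3 / 2 * h0 ≤ t) (h' : t ≤ 2 * h0) : c3f_v t ≤ 23 / 20 := by
  have h1 := h0_pos
  have h2 := c3sq (by linarith) h'
  have hs := h0_sq
  have h4 : 27 / 16 ≤ t ^ 2 := by nlinarith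
  nlinarith

theorem c3lo' {t : ℝ} (h : 0 ≤ t) (h' : t ≤ 1 + 1 / 2 * h0) : 97 / 100 ≤ c3f_v t := by
  have h1 := h0_gt
  have h2 := h0_lt
  have h3 := c3sq h (by linarith)
  have h4 := c3nn t
  have hs := h0_sq
  have h5 : t ^ 2 ≤ (1 + 1 / 2 * h0) ^ 2 := by nlinarith
  have h6 : (1 + 1 / 2 * h0) ^ 2 = 19 / 16 + h0 := by
    linear_combination (1 / 4) * hs
  nlinarith

theorem hoval {X Y t u : ℝ} (h : 0 ≤ exf_v X Y t u + 1 / 2) : Y * t ≤ X * u := by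
  rw [exf_eq, sub_add_cancel] at h
  have hp := h0_pos
  have h2 : 0 ≤ X * u - Y * t := by
    by_contra hc
    push Not at hc
    have := div_neg_of_neg_of_pos hc (show 0 < 2 * h0 by linarith)
    linarith
  linarith


theorem eA0m0p_mm_022 {t t2 : ℝ} (h1 : 0 * h0 ≤ t) (h1' : t ≤ 1 / 2 * h0) (h2 : 1 * h0 ≤ t2) (h2' : t2 ≤ 3 / 2 * h0) (h3 : 1 * h0 ≤ t + t2) (h3' : t + t2 ≤ 3 / 2 * h0) (h5 : t2 ≤ 1) (h6 : t + t2 ≤ 2 * h0) (ho : 0 ≤ exf_v (-(c1f_v t)) (-(c1f_v t2)) t t2 + 1 / 2) (hq1 : 1 ≤ q3f_v (-(c1f_v t) + -(c1f_v t2)) (t + t2)) (hq3 : q3f_v (-(c1f_v t) + -(c1f_v t2)) (t + t2) ≤ 3)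
    (k1 : 0 ≤ 1 / 16 - ((-(c1f_v t) / 2 - h0 * t) - -(c1f_v t2)))
    (k2 : 0 ≤ 1 / 16 + ((-(c1f_v t) / 2 - h0 * t) - -(c1f_v t2))) : False := by
  have hp := h0_pos
  have g1 := h0_gt
  have g2 := h0_lt
  have hs := h0_sq
  have a1 := c1lo (t := t) (by linarith) (by linarith)
  have a2 := c1up (t := t2) (by linarith) (by linarith)
  have a3 := c1nn t2
  have a4 := hoval ho
  have a5 : 9 / 10 * (433 / 500) ≤ c1f_v t * t2 :=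
    mul_le_mul a1 (by linarith) (by norm_num) (by linarith)
  have a6 : c1f_v t2 * t ≤ 1 / 2 * (1 / 2 * h0) :=
    mul_le_mul a2 (by linarith) (by linarith) (by norm_num)
  linarith


theorem eA0m0p_mm_023 {t t2 : ℝ} (h1 : 0 * h0 ≤ t) (h1' : t ≤ 1 / 2 * h0) (h2 : 1 * h0 ≤ t2) (h2' : t2 ≤ 3 / 2 * h0) (h3 : 3 / 2 * h0 ≤ t + t2) (h3' : t + t2 ≤ 2 * h0) (h5 : t2 ≤ 1) (h6 : t + t2 ≤ 2 * h0) (ho : 0 ≤ exf_v (-(c1f_v t)) (-(c1f_v t2)) t t2 + 1 / 2) (hq1 : 1 ≤ q3f_v (-(c1f_v t) + -(c1f_v t2)) (t + t2)) (hq3 : q3f_v (-(c1f_v t) + -(c1f_v t2)) (t + t2) ≤ 3)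
    (k1 : 0 ≤ 1 / 16 - ((-(c1f_v t) / 2 - h0 * t) - -(c1f_v t2)))
    (k2 : 0 ≤ 1 / 16 + ((-(c1f_v t) / 2 - h0 * t) - -(c1f_v t2))) : False := by
  have hp := h0_pos
  have g1 := h0_gt
  have g2 := h0_lt
  have hs := h0_sq
  have a1 := c1lo (t := t) (by linarith) (by linarith)
  have a2 := c1up (t := t2) (by linarith) (by linarith)
  have a3 := c1nn t2
  have a4 := hoval ho
  have a5 : 9 / 10 * (433 / 500) ≤ c1f_v t * t2 :=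
    mul_le_mul a1 (by linarith) (by norm_num) (by linarith)
  have a6 : c1f_v t2 * t ≤ 1 / 2 * (1 / 2 * h0) :=
    mul_le_mul a2 (by linarith) (by linarith) (by norm_num)
  linarith


theorem eA0m0p_mm_123 {t t2 : ℝ} (h1 : 1 / 2 * h0 ≤ t) (h1' : t ≤ 1 * h0) (h2 : 1 * h0 ≤ t2) (h2' : t2 ≤ 3 / 2 * h0) (h3 : 3 / 2 * h0 ≤ t + t2) (h3' : t + t2 ≤ 2 * h0) (h5 : t2 ≤ 1) (h6 : t + t2 ≤ 2 * h0) (ho : 0 ≤ exf_v (-(c1f_v t)) (-(c1f_v t2)) t t2 + 1 / 2) (hq1 : 1 ≤ q3f_v (-(c1f_v t) + -(c1f_v t2)) (t + t2)) (hq3 : q3f_v (-(c1f_v t) + -(c1f_v t2)) (t + t2) ≤ 3)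
    (k1 : 0 ≤ 1 / 16 - ((-(c1f_v t) / 2 - h0 * t) - -(c1f_v t2)))
    (k2 : 0 ≤ 1 / 16 + ((-(c1f_v t) / 2 - h0 * t) - -(c1f_v t2))) : False := by
  have hp := h0_pos
  have g1 := h0_gt
  have g2 := h0_lt
  have hs := h0_sq
  have a1 := c1half (t := t) (by linarith) (by linarith)
  have a2 := c1up (t := t2) (by linarith) (by linarith)
  have a5 : h0 * (1 / 2 * h0) ≤ h0 * t := mul_le_mul_of_nonneg_left (by linarith) hp.le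
  have a6 : h0 * (1 / 2 * h0) = 3 / 8 := by linear_combination (1 / 2) * hs
  linarith


theorem eA0m0p_pm_022 {t t2 : ℝ} (h1 : 0 * h0 ≤ t) (h1' : t ≤ 1 / 2 * h0) (h2 : 1 * h0 ≤ t2) (h2' : t2 ≤ 3 / 2 * h0) (h3 : 1 * h0 ≤ t + t2) (h3' : t + t2 ≤ 3 / 2 * h0) (h5 : t2 ≤ 1) (h6 : t + t2 ≤ 2 * h0) (ho : 0 ≤ exf_v (c1f_v t) (-(c1f_v t2)) t t2 + 1 / 2) (hq1 : 1 ≤ q3f_v (c1f_v t + -(c1f_v t2)) (t + t2)) (hq3 : q3f_v (c1f_v t + -(c1f_v t2)) (t + t2) ≤ 3)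
    (k1 : 0 ≤ 1 / 16 - ((c1f_v t / 2 - h0 * t) - -(c1f_v t2)))
    (k2 : 0 ≤ 1 / 16 + ((c1f_v t / 2 - h0 * t) - -(c1f_v t2))) : False := by
  have hp := h0_pos
  have g1 := h0_gt
  have g2 := h0_lt
  have hs := h0_sq
  have a1 := c1lo (t := t) (by linarith) (by linarith)
  have a2 := c1nn t2
  have a5 : h0 * t ≤ h0 * (1 / 2 * h0) := mul_le_mul_of_nonneg_left (by linarith) hp.le
  have a6 : h0 * (1 / 2 * h0) = 3 / 8 := by linear_combination (1 / 2) * hs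
  linarith


theorem eA0m0p_pm_023 {t t2 : ℝ} (h1 : 0 * h0 ≤ t) (h1' : t ≤ 1 / 2 * h0) (h2 : 1 * h0 ≤ t2) (h2' : t2 ≤ 3 / 2 * h0) (h3 : 3 / 2 * h0 ≤ t + t2) (h3' : t + t2 ≤ 2 * h0) (h5 : t2 ≤ 1) (h6 : t + t2 ≤ 2 * h0) (ho : 0 ≤ exf_v (c1f_v t) (-(c1f_v t2)) t t2 + 1 / 2) (hq1 : 1 ≤ q3f_v (c1f_v t + -(c1f_v t2)) (t + t2)) (hq3 : q3f_v (c1f_v t + -(c1f_v t2)) (t + t2) ≤ 3)
    (k1 : 0 ≤ 1 / 16 - ((c1f_v t / 2 - h0 * t) - -(c1f_v t2)))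
    (k2 : 0 ≤ 1 / 16 + ((c1f_v t / 2 - h0 * t) - -(c1f_v t2))) : False := by
  have hp := h0_pos
  have g1 := h0_gt
  have g2 := h0_lt
  have hs := h0_sq
  have a1 := c1lo (t := t) (by linarith) (by linarith)
  have a2 := c1nn t2
  have a5 : h0 * t ≤ h0 * (1 / 2 * h0) := mul_le_mul_of_nonneg_left (by linarith) hp.le
  have a6 : h0 * (1 / 2 * h0) = 3 / 8 := by linear_combination (1 / 2) * hs
  linarith


theorem eA0m3m_mm_001 {t t2 : ℝ} (h1 : 0 * h0 ≤ t) (h1' : t ≤ 1 / 2 * h0) (h2 : 0 * h0 ≤ t2) (h2' : t2 ≤ 1 / 2 * h0) (h3 : 1 / 2 * h0 ≤ t + t2) (h3' : t + t2 ≤ 1 * h0) (h6 : t + t2 ≤ 2 * h0) (ho : 0 ≤ exf_v (-(c1f_v t)) (-(c3f_v t2)) t t2 + 1 / 2) (hq1 : 1 ≤ q3f_v (-(c1f_v t) + -(c3f_v t2)) (t + t2)) (hq3 : q3f_v (-(c1f_v t) + -(c3f_v t2)) (t + t2) ≤ 3)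
    (k1 : 0 ≤ 1 / 16 - (t2 - (h0 * -(c1f_v t) - 3 / 2 * t)))
    (k2 : 0 ≤ 1 / 16 + (t2 - (h0 * -(c1f_v t) - 3 / 2 * t))) : False := by
  have hp := h0_pos
  have g1 := h0_gt
  have g2 := h0_lt
  have hs := h0_sq
  have a1 := c1half (t := t) (by linarith) (by linarith)
  have a5 : h0 * (1 / 2) ≤ h0 * c1f_v t := mul_le_mul_of_nonneg_left a1 hp.le
  linarith


theorem eA0m3m_mm_011 {t t2 : ℝ} (h1 : 0 * h0 ≤ t) (h1' : t ≤ 1 / 2 * h0) (h2 : 1 / 2 * h0 ≤ t2) (h2' : t2 ≤ 1 * h0) (h3 : 1 / 2 * h0 ≤ t + t2) (h3' : t + t2 ≤ 1 * h0) (h6 : t + t2 ≤ 2 * h0) (ho : 0 ≤ exf_v (-(c1f_v t)) (-(c3f_v t2)) t t2 + 1 / 2) (hq1 : 1 ≤ q3f_v (-(c1f_v t) + -(c3f_v t2)) (t + t2)) (hq3 : q3f_v (-(c1f_v t) + -(c3f_v t2)) (t + t2) ≤ 3)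
    (k1 : 0 ≤ 1 / 16 - (t2 - (h0 * -(c1f_v t) - 3 / 2 * t)))
    (k2 : 0 ≤ 1 / 16 + (t2 - (h0 * -(c1f_v t) - 3 / 2 * t))) : False := by
  have hp := h0_pos
  have g1 := h0_gt
  have g2 := h0_lt
  have hs := h0_sq
  have a1 := c1half (t := t) (by linarith) (by linarith)
  have a5 : h0 * (1 / 2) ≤ h0 * c1f_v t := mul_le_mul_of_nonneg_left a1 hp.le
  linarith


theorem eA0m3m_mm_101 {t t2 : ℝ} (h1 : 1 / 2 * h0 ≤ t) (h1' : t ≤ 1 * h0) (h2 : 0 * h0 ≤ t2) (h2' : t2 ≤ 1 / 2 * h0) (h3 : 1 / 2 * h0 ≤ t + t2) (h3' : t + t2 ≤ 1 * h0) (h6 : t + t2 ≤ 2 * h0) (ho : 0 ≤ exf_v (-(c1f_v t)) (-(c3f_v t2)) t t2 + 1 / 2) (hq1 : 1 ≤ q3f_v (-(c1f_v t) + -(c3f_v t2)) (t + t2)) (hq3 : q3f_v (-(c1f_v t) + -(c3f_v t2)) (t + t2) ≤ 3)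
    (k1 : 0 ≤ 1 / 16 - (t2 - (h0 * -(c1f_v t) - 3 / 2 * t)))
    (k2 : 0 ≤ 1 / 16 + (t2 - (h0 * -(c1f_v t) - 3 / 2 * t))) : False := by
  have hp := h0_pos
  have g1 := h0_gt
  have g2 := h0_lt
  have hs := h0_sq
  have a1 := c1half (t := t) (by linarith) (by linarith)
  have a5 : h0 * (1 / 2) ≤ h0 * c1f_v t := mul_le_mul_of_nonneg_left a1 hp.le
  linarith


theorem eA0m3m_pp_001 {t t2 : ℝ} (h1 : 0 * h0 ≤ t) (h1' : t ≤ 1 / 2 * h0) (h2 : 0 * h0 ≤ t2) (h2' : t2 ≤ 1 / 2 * h0) (h3 : 1 / 2 * h0 ≤ t + t2) (h3' : t + t2 ≤ 1 * h0) (h6 : t + t2 ≤ 2 * h0) (ho : 0 ≤ exf_v (c1f_v t) (c3f_v t2) t t2 + 1 / 2) (hq1 : 1 ≤ q3f_v (c1f_v t + c3f_v t2) (t + t2)) (hq3 : q3f_v (c1f_v t + c3f_v t2) (t + t2) ≤ 3)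
    (k1 : 0 ≤ 1 / 16 - (t2 - (h0 * c1f_v t - 3 / 2 * t)))
    (k2 : 0 ≤ 1 / 16 + (t2 - (h0 * c1f_v t - 3 / 2 * t))) : False := by
  have hp := h0_pos
  have g1 := h0_gt
  have g2 := h0_lt
  have hs := h0_sq
  have a1 := c1half (t := t) (by linarith) (by linarith)
  have a2 := c3lo (t := t2) (by linarith) (by linarith)
  rw [q3f_eq] at hq3
  nlinarith [sq_nonneg (t + t2)]


theorem eA0m3m_pp_011 {t t2 : ℝ} (h1 : 0 * h0 ≤ t) (h1' : t ≤ 1 / 2 * h0) (h2 : 1 / 2 * h0 ≤ t2) (h2' : t2 ≤ 1 * h0) (h3 : 1 / 2 * h0 ≤ t + t2) (h3' : t + t2 ≤ 1 * h0) (h6 : t + t2 ≤ 2 * h0) (ho : 0 ≤ exf_v (c1f_v t) (c3f_v t2) t t2 + 1 / 2) (hq1 : 1 ≤ q3f_v (c1f_v t + c3f_v t2) (t + t2)) (hq3 : q3f_v (c1f_v t + c3f_v t2) (t + t2) ≤ 3)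
    (k1 : 0 ≤ 1 / 16 - (t2 - (h0 * c1f_v t - 3 / 2 * t)))
    (k2 : 0 ≤ 1 / 16 + (t2 - (h0 * c1f_v t - 3 / 2 * t))) : False := by
  have hp := h0_pos
  have g1 := h0_gt
  have g2 := h0_lt
  have hs := h0_sq
  have a1 := c1half (t := t) (by linarith) (by linarith)
  have a2 := c3lo (t := t2) (by linarith) (by linarith)
  rw [q3f_eq] at hq3
  nlinarith [sq_nonneg (t + t2)]


theorem eA0m3m_pp_101 {t t2 : ℝ} (h1 : 1 / 2 * h0 ≤ t) (h1' : t ≤ 1 * h0) (h2 : 0 * h0 ≤ t2) (h2' : t2 ≤ 1 / 2 * h0) (h3 : 1 / 2 * h0 ≤ t + t2) (h3' : t + t2 ≤ 1 * h0) (h6 : t + t2 ≤ 2 * h0) (ho : 0 ≤ exf_v (c1f_v t) (c3f_v t2) t t2 + 1 / 2) (hq1 : 1 ≤ q3f_v (c1f_v t + c3f_v t2) (t + t2)) (hq3 : q3f_v (c1f_v t + c3f_v t2) (t + t2) ≤ 3)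
    (k1 : 0 ≤ 1 / 16 - (t2 - (h0 * c1f_v t - 3 / 2 * t)))
    (k2 : 0 ≤ 1 / 16 + (t2 - (h0 * c1f_v t - 3 / 2 * t))) : False := by
  have hp := h0_pos
  have g1 := h0_gt
  have g2 := h0_lt
  have hs := h0_sq
  have a1 := c1half (t := t) (by linarith) (by linarith)
  have a2 := c3lo (t := t2) (by linarith) (by linarith)
  rw [q3f_eq] at hq3
  nlinarith [sq_nonneg (t + t2)]


theorem eA0p0m_pm_202 {t t2 : ℝ} (h1 : 1 * h0 ≤ t) (h1' : t ≤ 3 / 2 * h0) (h2 : 0 * h0 ≤ t2) (h2' : t2 ≤ 1 / 2 * h0) (h3 : 1 * h0 ≤ t + t2) (h3' : t + t2 ≤ 3 / 2 * h0) (h4 : t ≤ 1) (h6 : t + t2 ≤ 2 * h0) (ho : 0 ≤ exf_v (c1f_v t) (-(c1f_v t2)) t t2 + 1 / 2) (hq1 : 1 ≤ q3f_v (c1f_v t + -(c1f_v t2)) (t + t2)) (hq3 : q3f_v (c1f_v t + -(c1f_v t2)) (t + t2) ≤ 3)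
    (k1 : 0 ≤ 1 / 16 - ((-(-(c1f_v t2)) / 2 - h0 * t2) + c1f_v t))
    (k2 : 0 ≤ 1 / 16 + ((-(-(c1f_v t2)) / 2 - h0 * t2) + c1f_v t)) : False := by
  have hp := h0_pos
  have g1 := h0_gt
  have g2 := h0_lt
  have hs := h0_sq
  have a1 := c1lo (t := t2) (by linarith) (by linarith)
  have a2 := c1nn t
  have a5 : h0 * t2 ≤ h0 * (1 / 2 * h0) := mul_le_mul_of_nonneg_left (by linarith) hp.le
  have a6 : h0 * (1 / 2 * h0) = 3 / 8 := by linear_combination (1 / 2) * hs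
  linarith


theorem eA0p0m_pm_203 {t t2 : ℝ} (h1 : 1 * h0 ≤ t) (h1' : t ≤ 3 / 2 * h0) (h2 : 0 * h0 ≤ t2) (h2' : t2 ≤ 1 / 2 * h0) (h3 : 3 / 2 * h0 ≤ t + t2) (h3' : t + t2 ≤ 2 * h0) (h4 : t ≤ 1) (h6 : t + t2 ≤ 2 * h0) (ho : 0 ≤ exf_v (c1f_v t) (-(c1f_v t2)) t t2 + 1 / 2) (hq1 : 1 ≤ q3f_v (c1f_v t + -(c1f_v t2)) (t + t2)) (hq3 : q3f_v (c1f_v t + -(c1f_v t2)) (t + t2) ≤ 3)
    (k1 : 0 ≤ 1 / 16 - ((-(-(c1f_v t2)) / 2 - h0 * t2) + c1f_v t))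
    (k2 : 0 ≤ 1 / 16 + ((-(-(c1f_v t2)) / 2 - h0 * t2) + c1f_v t)) : False := by
  have hp := h0_pos
  have g1 := h0_gt
  have g2 := h0_lt
  have hs := h0_sq
  have a1 := c1lo (t := t2) (by linarith) (by linarith)
  have a2 := c1nn t
  have a5 : h0 * t2 ≤ h0 * (1 / 2 * h0) := mul_le_mul_of_nonneg_left (by linarith) hp.le
  have a6 : h0 * (1 / 2 * h0) = 3 / 8 := by linear_combination (1 / 2) * hs
  linarith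


theorem eA0p0m_pp_202 {t t2 : ℝ} (h1 : 1 * h0 ≤ t) (h1' : t ≤ 3 / 2 * h0) (h2 : 0 * h0 ≤ t2) (h2' : t2 ≤ 1 / 2 * h0) (h3 : 1 * h0 ≤ t + t2) (h3' : t + t2 ≤ 3 / 2 * h0) (h4 : t ≤ 1) (h6 : t + t2 ≤ 2 * h0) (ho : 0 ≤ exf_v (c1f_v t) (c1f_v t2) t t2 + 1 / 2) (hq1 : 1 ≤ q3f_v (c1f_v t + c1f_v t2) (t + t2)) (hq3 : q3f_v (c1f_v t + c1f_v t2) (t + t2) ≤ 3)
    (k1 : 0 ≤ 1 / 16 - ((-c1f_v t2 / 2 - h0 * t2) + c1f_v t))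
    (k2 : 0 ≤ 1 / 16 + ((-c1f_v t2 / 2 - h0 * t2) + c1f_v t)) : False := by
  have hp := h0_pos
  have g1 := h0_gt
  have g2 := h0_lt
  have hs := h0_sq
  have a1 := c1lo (t := t2) (by linarith) (by linarith)
  have a2 := c1up (t := t) (by linarith) (by linarith)
  have a3 := c1nn t
  have a4 := hoval ho
  have a5 : 9 / 10 * (433 / 500) ≤ c1f_v t2 * t :=
    mul_le_mul a1 (by linarith) (by norm_num) (by linarith)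
  have a6 : c1f_v t * t2 ≤ 1 / 2 * (1 / 2 * h0) :=
    mul_le_mul a2 (by linarith) (by linarith) (by norm_num)
  linarith


theorem eA0p0m_pp_203 {t t2 : ℝ} (h1 : 1 * h0 ≤ t) (h1' : t ≤ 3 / 2 * h0) (h2 : 0 * h0 ≤ t2) (h2' : t2 ≤ 1 / 2 * h0) (h3 : 3 / 2 * h0 ≤ t + t2) (h3' : t + t2 ≤ 2 * h0) (h4 : t ≤ 1) (h6 : t + t2 ≤ 2 * h0) (ho : 0 ≤ exf_v (c1f_v t) (c1f_v t2) t t2 + 1 / 2) (hq1 : 1 ≤ q3f_v (c1f_v t + c1f_v t2) (t + t2)) (hq3 : q3f_v (c1f_v t + c1f_v t2) (t + t2) ≤ 3)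
    (k1 : 0 ≤ 1 / 16 - ((-c1f_v t2 / 2 - h0 * t2) + c1f_v t))
    (k2 : 0 ≤ 1 / 16 + ((-c1f_v t2 / 2 - h0 * t2) + c1f_v t)) : False := by
  have hp := h0_pos
  have g1 := h0_gt
  have g2 := h0_lt
  have hs := h0_sq
  have a1 := c1lo (t := t2) (by linarith) (by linarith)
  have a2 := c1up (t := t) (by linarith) (by linarith)
  have a3 := c1nn t
  have a4 := hoval ho
  have a5 : 9 / 10 * (433 / 500) ≤ c1f_v t2 * t :=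
    mul_le_mul a1 (by linarith) (by norm_num) (by linarith)
  have a6 : c1f_v t * t2 ≤ 1 / 2 * (1 / 2 * h0) :=
    mul_le_mul a2 (by linarith) (by linarith) (by norm_num)
  linarith


theorem eA0p0m_pp_213 {t t2 : ℝ} (h1 : 1 * h0 ≤ t) (h1' : t ≤ 3 / 2 * h0) (h2 : 1 / 2 * h0 ≤ t2) (h2' : t2 ≤ 1 * h0) (h3 : 3 / 2 * h0 ≤ t + t2) (h3' : t + t2 ≤ 2 * h0) (h4 : t ≤ 1) (h6 : t + t2 ≤ 2 * h0) (ho : 0 ≤ exf_v (c1f_v t) (c1f_v t2) t t2 + 1 / 2) (hq1 : 1 ≤ q3f_v (c1f_v t + c1f_v t2) (t + t2)) (hq3 : q3f_v (c1f_v t + c1f_v t2) (t + t2) ≤ 3)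
    (k1 : 0 ≤ 1 / 16 - ((-c1f_v t2 / 2 - h0 * t2) + c1f_v t))
    (k2 : 0 ≤ 1 / 16 + ((-c1f_v t2 / 2 - h0 * t2) + c1f_v t)) : False := by
  have hp := h0_pos
  have g1 := h0_gt
  have g2 := h0_lt
  have hs := h0_sq
  have a1 := c1half (t := t2) (by linarith) (by linarith)
  have a2 := c1up (t := t) (by linarith) (by linarith)
  have a5 : h0 * (1 / 2 * h0) ≤ h0 * t2 := mul_le_mul_of_nonneg_left (by linarith) hp.le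
  have a6 : h0 * (1 / 2 * h0) = 3 / 8 := by linear_combination (1 / 2) * hs
  linarith


theorem eB0m0m_mm_001 {t T : ℝ} (h1 : 0 * h0 ≤ t) (h1' : t ≤ 1 / 2 * h0) (h2 : 1 / 2 * h0 ≤ T) (h2' : T ≤ 1 * h0) (h3 : 0 * h0 ≤ T - t) (h3' : T - t ≤ 1 / 2 * h0) (h6 : t ≤ T) (ho : 0 ≤ exf_v (-(c1f_v t)) (-(c1f_v T)) t T + 1 / 2) (hq1 : 1 ≤ q3f_v (-(c1f_v T) - -(c1f_v t)) (T - t)) (hq3 : q3f_v (-(c1f_v T) - -(c1f_v t)) (T - t) ≤ 3)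
    (k1 : 0 ≤ 1 / 16 - (T - (h0 * -(c1f_v t) - t / 2)))
    (k2 : 0 ≤ 1 / 16 + (T - (h0 * -(c1f_v t) - t / 2))) : False := by
  have hp := h0_pos
  have g1 := h0_gt
  have g2 := h0_lt
  have hs := h0_sq
  have a1 := c1half (t := t) (by linarith) (by linarith)
  have a5 : h0 * (1 / 2) ≤ h0 * c1f_v t := mul_le_mul_of_nonneg_left a1 hp.le
  linarith


theorem eB0m0m_mm_011 {t T : ℝ} (h1 : 0 * h0 ≤ t) (h1' : t ≤ 1 / 2 * h0) (h2 : 1 / 2 * h0 ≤ T) (h2' : T ≤ 1 * h0) (h3 : 1 / 2 * h0 ≤ T - t) (h3' : T - t ≤ 1 * h0) (h6 : t ≤ T) (ho : 0 ≤ exf_v (-(c1f_v t)) (-(c1f_v T)) t T + 1 / 2) (hq1 : 1 ≤ q3f_v (-(c1f_v T) - -(c1f_v t)) (T - t)) (hq3 : q3f_v (-(c1f_v T) - -(c1f_v t)) (T - t) ≤ 3)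
    (k1 : 0 ≤ 1 / 16 - (T - (h0 * -(c1f_v t) - t / 2)))
    (k2 : 0 ≤ 1 / 16 + (T - (h0 * -(c1f_v t) - t / 2))) : False := by
  have hp := h0_pos
  have g1 := h0_gt
  have g2 := h0_lt
  have hs := h0_sq
  have a1 := c1half (t := t) (by linarith) (by linarith)
  have a5 : h0 * (1 / 2) ≤ h0 * c1f_v t := mul_le_mul_of_nonneg_left a1 hp.le
  linarith


theorem eB0m0m_mm_101 {t T : ℝ} (h1 : 1 / 2 * h0 ≤ t) (h1' : t ≤ 1 * h0) (h2 : 1 / 2 * h0 ≤ T) (h2' : T ≤ 1 * h0) (h3 : 0 * h0 ≤ T - t) (h3' : T - t ≤ 1 / 2 * h0) (h6 : t ≤ T) (ho : 0 ≤ exf_v (-(c1f_v t)) (-(c1f_v T)) t T + 1 / 2) (hq1 : 1 ≤ q3f_v (-(c1f_v T) - -(c1f_v t)) (T - t)) (hq3 : q3f_v (-(c1f_v T) - -(c1f_v t)) (T - t) ≤ 3)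
    (k1 : 0 ≤ 1 / 16 - (T - (h0 * -(c1f_v t) - t / 2)))
    (k2 : 0 ≤ 1 / 16 + (T - (h0 * -(c1f_v t) - t / 2))) : False := by
  have hp := h0_pos
  have g1 := h0_gt
  have g2 := h0_lt
  have hs := h0_sq
  have a1 := c1half (t := t) (by linarith) (by linarith)
  have a5 : h0 * (1 / 2) ≤ h0 * c1f_v t := mul_le_mul_of_nonneg_left a1 hp.le
  linarith


theorem eB0m0p_mm_012 {t T : ℝ} (h1 : 0 * h0 ≤ t) (h1' : t ≤ 1 / 2 * h0) (h2 : 1 * h0 ≤ T) (h2' : T ≤ 3 / 2 * h0) (h3 : 1 / 2 * h0 ≤ T - t) (h3' : T - t ≤ 1 * h0) (h5 : T ≤ 1) (h6 : t ≤ T) (ho : 0 ≤ exf_v (-(c1f_v t)) (-(c1f_v T)) t T + 1 / 2) (hq1 : 1 ≤ q3f_v (-(c1f_v T) - -(c1f_v t)) (T - t)) (hq3 : q3f_v (-(c1f_v T) - -(c1f_v t)) (T - t) ≤ 3)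
    (k1 : 0 ≤ 1 / 16 - ((-(c1f_v t) / 2 - h0 * t) - -(c1f_v T)))
    (k2 : 0 ≤ 1 / 16 + ((-(c1f_v t) / 2 - h0 * t) - -(c1f_v T))) : False := by
  have hp := h0_pos
  have g1 := h0_gt
  have g2 := h0_lt
  have hs := h0_sq
  have a1 := c1lo (t := t) (by linarith) (by linarith)
  have a2 := c1up (t := T) (by linarith) (by linarith)
  have a3 := c1nn T
  have a4 := hoval ho
  have a5 : 9 / 10 * (433 / 500) ≤ c1f_v t * T :=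
    mul_le_mul a1 (by linarith) (by norm_num) (by linarith)
  have a6 : c1f_v T * t ≤ 1 / 2 * (1 / 2 * h0) :=
    mul_le_mul a2 (by linarith) (by linarith) (by norm_num)
  linarith


theorem eB0m0p_mm_102 {t T : ℝ} (h1 : 1 / 2 * h0 ≤ t) (h1' : t ≤ 1 * h0) (h2 : 1 * h0 ≤ T) (h2' : T ≤ 3 / 2 * h0) (h3 : 0 * h0 ≤ T - t) (h3' : T - t ≤ 1 / 2 * h0) (h5 : T ≤ 1) (h6 : t ≤ T) (ho : 0 ≤ exf_v (-(c1f_v t)) (-(c1f_v T)) t T + 1 / 2) (hq1 : 1 ≤ q3f_v (-(c1f_v T) - -(c1f_v t)) (T - t)) (hq3 : q3f_v (-(c1f_v T) - -(c1f_v t)) (T - t) ≤ 3)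
    (k1 : 0 ≤ 1 / 16 - ((-(c1f_v t) / 2 - h0 * t) - -(c1f_v T)))
    (k2 : 0 ≤ 1 / 16 + ((-(c1f_v t) / 2 - h0 * t) - -(c1f_v T))) : False := by
  have hp := h0_pos
  have g1 := h0_gt
  have g2 := h0_lt
  have hs := h0_sq
  have a1 := c1half (t := t) (by linarith) (by linarith)
  have a2 := c1up (t := T) (by linarith) (by linarith)
  have a5 : h0 * (1 / 2 * h0) ≤ h0 * t := mul_le_mul_of_nonneg_left (by linarith) hp.le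
  have a6 : h0 * (1 / 2 * h0) = 3 / 8 := by linear_combination (1 / 2) * hs
  linarith


theorem eB0m0p_mm_112 {t T : ℝ} (h1 : 1 / 2 * h0 ≤ t) (h1' : t ≤ 1 * h0) (h2 : 1 * h0 ≤ T) (h2' : T ≤ 3 / 2 * h0) (h3 : 1 / 2 * h0 ≤ T - t) (h3' : T - t ≤ 1 * h0) (h5 : T ≤ 1) (h6 : t ≤ T) (ho : 0 ≤ exf_v (-(c1f_v t)) (-(c1f_v T)) t T + 1 / 2) (hq1 : 1 ≤ q3f_v (-(c1f_v T) - -(c1f_v t)) (T - t)) (hq3 : q3f_v (-(c1f_v T) - -(c1f_v t)) (T - t) ≤ 3)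
    (k1 : 0 ≤ 1 / 16 - ((-(c1f_v t) / 2 - h0 * t) - -(c1f_v T)))
    (k2 : 0 ≤ 1 / 16 + ((-(c1f_v t) / 2 - h0 * t) - -(c1f_v T))) : False := by
  have hp := h0_pos
  have g1 := h0_gt
  have g2 := h0_lt
  have hs := h0_sq
  have a1 := c1half (t := t) (by linarith) (by linarith)
  have a2 := c1up (t := T) (by linarith) (by linarith)
  have a5 : h0 * (1 / 2 * h0) ≤ h0 * t := mul_le_mul_of_nonneg_left (by linarith) hp.le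
  have a6 : h0 * (1 / 2 * h0) = 3 / 8 := by linear_combination (1 / 2) * hs
  linarith


theorem eB0m0p_pm_012 {t T : ℝ} (h1 : 0 * h0 ≤ t) (h1' : t ≤ 1 / 2 * h0) (h2 : 1 * h0 ≤ T) (h2' : T ≤ 3 / 2 * h0) (h3 : 1 / 2 * h0 ≤ T - t) (h3' : T - t ≤ 1 * h0) (h5 : T ≤ 1) (h6 : t ≤ T) (ho : 0 ≤ exf_v (c1f_v t) (-(c1f_v T)) t T + 1 / 2) (hq1 : 1 ≤ q3f_v (-(c1f_v T) - c1f_v t) (T - t)) (hq3 : q3f_v (-(c1f_v T) - c1f_v t) (T - t) ≤ 3)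
    (k1 : 0 ≤ 1 / 16 - ((c1f_v t / 2 - h0 * t) - -(c1f_v T)))
    (k2 : 0 ≤ 1 / 16 + ((c1f_v t / 2 - h0 * t) - -(c1f_v T))) : False := by
  have hp := h0_pos
  have g1 := h0_gt
  have g2 := h0_lt
  have hs := h0_sq
  have a1 := c1lo (t := t) (by linarith) (by linarith)
  have a2 := c1nn T
  have a5 : h0 * t ≤ h0 * (1 / 2 * h0) := mul_le_mul_of_nonneg_left (by linarith) hp.le
  have a6 : h0 * (1 / 2 * h0) = 3 / 8 := by linear_combination (1 / 2) * hs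
  linarith


theorem eB0m0p_pp_102 {t T : ℝ} (h1 : 1 / 2 * h0 ≤ t) (h1' : t ≤ 1 * h0) (h2 : 1 * h0 ≤ T) (h2' : T ≤ 3 / 2 * h0) (h3 : 0 * h0 ≤ T - t) (h3' : T - t ≤ 1 / 2 * h0) (h5 : T ≤ 1) (h6 : t ≤ T) (ho : 0 ≤ exf_v (c1f_v t) (c1f_v T) t T + 1 / 2) (hq1 : 1 ≤ q3f_v (c1f_v T - c1f_v t) (T - t)) (hq3 : q3f_v (c1f_v T - c1f_v t) (T - t) ≤ 3)
    (k1 : 0 ≤ 1 / 16 - ((c1f_v t / 2 - h0 * t) - c1f_v T))
    (k2 : 0 ≤ 1 / 16 + ((c1f_v t / 2 - h0 * t) - c1f_v T)) : False := by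
  have hp := h0_pos
  have g1 := h0_gt
  have g2 := h0_lt
  have hs := h0_sq
  have a1 := c1half (t := t) (by linarith) (by linarith)
  have a2 := c1nn T
  have a3 := c1sq (t := t) (by linarith) (by linarith)
  have a4 := c1sq (t := T) (by linarith) (by linarith)
  rw [q3f_eq] at hq1
  have b1 : c1f_v t * c1f_v T + t * T ≤ 1 / 2 := by nlinarith
  have b2 : 0 ≤ c1f_v t * c1f_v T := mul_nonneg (by linarith) a2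
  have b3 : (T - t) ^ 2 ≤ 3 / 16 := by nlinarith
  have b4 : 0 ≤ 1 / 2 - t * T := by linarith
  have b5 : (c1f_v t * c1f_v T) ^ 2 ≤ (1 / 2 - t * T) ^ 2 := by nlinarith
  have b6 : (c1f_v t * c1f_v T) ^ 2 = (1 - t ^ 2) * (1 - T ^ 2) := by
    rw [mul_pow, a3, a4]
  nlinarith


theorem eB0m3p_mm_022 {t T : ℝ} (h1 : 0 * h0 ≤ t) (h1' : t ≤ 1 / 2 * h0) (h2 : 1 * h0 ≤ T) (h2' : T ≤ 3 / 2 * h0) (h3 : 1 * h0 ≤ T - t) (h3' : T - t ≤ 3 / 2 * h0) (h6 : t ≤ T) (ho : 0 ≤ exf_v (-(c1f_v t)) (-(c3f_v T)) t T + 1 / 2) (hq1 : 1 ≤ q3f_v (-(c3f_v T) - -(c1f_v t)) (T - t)) (hq3 : q3f_v (-(c3f_v T) - -(c1f_v t)) (T - t) ≤ 3)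
    (k1 : 0 ≤ 1 / 16 - ((3 / 2 * -(c1f_v t) - h0 * t) - -(c3f_v T)))
    (k2 : 0 ≤ 1 / 16 + ((3 / 2 * -(c1f_v t) - h0 * t) - -(c3f_v T))) : False := by
  have hp := h0_pos
  have g1 := h0_gt
  have g2 := h0_lt
  have hs := h0_sq
  have a1 := c1lo (t := t) (by linarith) (by linarith)
  have a2 := c3up (t := T) (by linarith) (by linarith)
  have a3 := c3nn T
  have a4 := hoval ho
  have a5 : 9 / 10 * (433 / 500) ≤ c1f_v t * T :=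
    mul_le_mul a1 (by linarith) (by norm_num) (by linarith)
  have a6 : c3f_v T * t ≤ 3 / 2 * (1 / 2 * h0) :=
    mul_le_mul a2 (by linarith) (by linarith) (by norm_num)
  linarith


theorem eB0m3p_mm_023 {t T : ℝ} (h1 : 0 * h0 ≤ t) (h1' : t ≤ 1 / 2 * h0) (h2 : 3 / 2 * h0 ≤ T) (h2' : T ≤ 2 * h0) (h3 : 1 * h0 ≤ T - t) (h3' : T - t ≤ 3 / 2 * h0) (h6 : t ≤ T) (ho : 0 ≤ exf_v (-(c1f_v t)) (-(c3f_v T)) t T + 1 / 2) (hq1 : 1 ≤ q3f_v (-(c3f_v T) - -(c1f_v t)) (T - t)) (hq3 : q3f_v (-(c3f_v T) - -(c1f_v t)) (T - t) ≤ 3)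
    (k1 : 0 ≤ 1 / 16 - ((3 / 2 * -(c1f_v t) - h0 * t) - -(c3f_v T)))
    (k2 : 0 ≤ 1 / 16 + ((3 / 2 * -(c1f_v t) - h0 * t) - -(c3f_v T))) : False := by
  have hp := h0_pos
  have g1 := h0_gt
  have g2 := h0_lt
  have hs := h0_sq
  have a1 := c1lo (t := t) (by linarith) (by linarith)
  have a2 := c3up (t := T) (by linarith) (by linarith)
  have a3 := c3nn T
  have a4 := hoval ho
  have a5 : 9 / 10 * (433 / 500) ≤ c1f_v t * T :=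
    mul_le_mul a1 (by linarith) (by norm_num) (by linarith)
  have a6 : c3f_v T * t ≤ 3 / 2 * (1 / 2 * h0) :=
    mul_le_mul a2 (by linarith) (by linarith) (by norm_num)
  linarith


theorem eB0m3p_mm_123 {t T : ℝ} (h1 : 1 / 2 * h0 ≤ t) (h1' : t ≤ 1 * h0) (h2 : 3 / 2 * h0 ≤ T) (h2' : T ≤ 2 * h0) (h3 : 1 * h0 ≤ T - t) (h3' : T - t ≤ 3 / 2 * h0) (h6 : t ≤ T) (ho : 0 ≤ exf_v (-(c1f_v t)) (-(c3f_v T)) t T + 1 / 2) (hq1 : 1 ≤ q3f_v (-(c3f_v T) - -(c1f_v t)) (T - t)) (hq3 : q3f_v (-(c3f_v T) - -(c1f_v t)) (T - t) ≤ 3)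
    (k1 : 0 ≤ 1 / 16 - ((3 / 2 * -(c1f_v t) - h0 * t) - -(c3f_v T)))
    (k2 : 0 ≤ 1 / 16 + ((3 / 2 * -(c1f_v t) - h0 * t) - -(c3f_v T))) : False := by
  have hp := h0_pos
  have g1 := h0_gt
  have g2 := h0_lt
  have hs := h0_sq
  have a1 := c1half (t := t) (by linarith) (by linarith)
  have a2 := c3up' (t := T) (by linarith) (by linarith)
  have a3 := c1sq (t := t) (by linarith) (by linarith)
  have b1 : (c1f_v t - 1 / 2) * (c1f_v t + 1 / 2) = (h0 - t) * (h0 + t) := by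
    linear_combination a3 - hs
  have b2 : c1f_v t ≤ 1 := by nlinarith
  have b3 : (h0 - t) * (3 / 2 * h0) ≤ (c1f_v t - 1 / 2) * (3 / 2) := by nlinarith
  have b4 : h0 * (h0 - t) ≤ c1f_v t - 1 / 2 := by linarith
  nlinarith


theorem eB0m3p_pm_022 {t T : ℝ} (h1 : 0 * h0 ≤ t) (h1' : t ≤ 1 / 2 * h0) (h2 : 1 * h0 ≤ T) (h2' : T ≤ 3 / 2 * h0) (h3 : 1 * h0 ≤ T - t) (h3' : T - t ≤ 3 / 2 * h0) (h6 : t ≤ T) (ho : 0 ≤ exf_v (c1f_v t) (-(c3f_v T)) t T + 1 / 2) (hq1 : 1 ≤ q3f_v (-(c3f_v T) - c1f_v t) (T - t)) (hq3 : q3f_v (-(c3f_v T) - c1f_v t) (T - t) ≤ 3)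
    (k1 : 0 ≤ 1 / 16 - ((3 / 2 * c1f_v t - h0 * t) - -(c3f_v T)))
    (k2 : 0 ≤ 1 / 16 + ((3 / 2 * c1f_v t - h0 * t) - -(c3f_v T))) : False := by
  have hp := h0_pos
  have g1 := h0_gt
  have g2 := h0_lt
  have hs := h0_sq
  have a1 := c1lo (t := t) (by linarith) (by linarith)
  have a2 := c3nn T
  have a5 : h0 * t ≤ h0 * (1 / 2 * h0) := mul_le_mul_of_nonneg_left (by linarith) hp.le
  have a6 : h0 * (1 / 2 * h0) = 3 / 8 := by linear_combination (1 / 2) * hs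
  linarith


theorem eB0m3p_pm_023 {t T : ℝ} (h1 : 0 * h0 ≤ t) (h1' : t ≤ 1 / 2 * h0) (h2 : 3 / 2 * h0 ≤ T) (h2' : T ≤ 2 * h0) (h3 : 1 * h0 ≤ T - t) (h3' : T - t ≤ 3 / 2 * h0) (h6 : t ≤ T) (ho : 0 ≤ exf_v (c1f_v t) (-(c3f_v T)) t T + 1 / 2) (hq1 : 1 ≤ q3f_v (-(c3f_v T) - c1f_v t) (T - t)) (hq3 : q3f_v (-(c3f_v T) - c1f_v t) (T - t) ≤ 3)
    (k1 : 0 ≤ 1 / 16 - ((3 / 2 * c1f_v t - h0 * t) - -(c3f_v T)))
    (k2 : 0 ≤ 1 / 16 + ((3 / 2 * c1f_v t - h0 * t) - -(c3f_v T))) : False := by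
  have hp := h0_pos
  have g1 := h0_gt
  have g2 := h0_lt
  have hs := h0_sq
  have a1 := c1lo (t := t) (by linarith) (by linarith)
  have a2 := c3nn T
  have a5 : h0 * t ≤ h0 * (1 / 2 * h0) := mul_le_mul_of_nonneg_left (by linarith) hp.le
  have a6 : h0 * (1 / 2 * h0) = 3 / 8 := by linear_combination (1 / 2) * hs
  linarith


theorem eB0p3p_pm_202 {t T : ℝ} (h1 : 1 * h0 ≤ t) (h1' : t ≤ 3 / 2 * h0) (h2 : 1 * h0 ≤ T) (h2' : T ≤ 3 / 2 * h0) (h3 : 0 * h0 ≤ T - t) (h3' : T - t ≤ 1 / 2 * h0) (h4 : t ≤ 1) (h6 : t ≤ T) (ho : 0 ≤ exf_v (c1f_v t) (-(c3f_v T)) t T + 1 / 2) (hq1 : 1 ≤ q3f_v (-(c3f_v T) - c1f_v t) (T - t)) (hq3 : q3f_v (-(c3f_v T) - c1f_v t) (T - t) ≤ 3)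
    (k1 : 0 ≤ 1 / 16 - ((3 / 2 * c1f_v t - h0 * t) - -(c3f_v T)))
    (k2 : 0 ≤ 1 / 16 + ((3 / 2 * c1f_v t - h0 * t) - -(c3f_v T))) : False := by
  have hp := h0_pos
  have g1 := h0_gt
  have g2 := h0_lt
  have hs := h0_sq
  have a1 := c1nn t
  have a2 := c3lo' (t := T) (by linarith) (by linarith)
  have a5 : h0 * t ≤ h0 * 1 := mul_le_mul_of_nonneg_left (by linarith) hp.le
  linarith


theorem eB0p3p_pm_203 {t T : ℝ} (h1 : 1 * h0 ≤ t) (h1' : t ≤ 3 / 2 * h0) (h2 : 3 / 2 * h0 ≤ T) (h2' : T ≤ 2 * h0) (h3 : 0 * h0 ≤ T - t) (h3' : T - t ≤ 1 / 2 * h0) (h4 : t ≤ 1) (h6 : t ≤ T) (ho : 0 ≤ exf_v (c1f_v t) (-(c3f_v T)) t T + 1 / 2) (hq1 : 1 ≤ q3f_v (-(c3f_v T) - c1f_v t) (T - t)) (hq3 : q3f_v (-(c3f_v T) - c1f_v t) (T - t) ≤ 3)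
    (k1 : 0 ≤ 1 / 16 - ((3 / 2 * c1f_v t - h0 * t) - -(c3f_v T)))
    (k2 : 0 ≤ 1 / 16 + ((3 / 2 * c1f_v t - h0 * t) - -(c3f_v T))) : False := by
  have hp := h0_pos
  have g1 := h0_gt
  have g2 := h0_lt
  have hs := h0_sq
  have a1 := c1nn t
  have a2 := c3lo' (t := T) (by linarith) (by linarith)
  have a5 : h0 * t ≤ h0 * 1 := mul_le_mul_of_nonneg_left (by linarith) hp.le
  linarith


theorem eB0p3p_pp_202 {t T : ℝ} (h1 : 1 * h0 ≤ t) (h1' : t ≤ 3 / 2 * h0) (h2 : 1 * h0 ≤ T) (h2' : T ≤ 3 / 2 * h0) (h3 : 0 * h0 ≤ T - t) (h3' : T - t ≤ 1 / 2 * h0) (h4 : t ≤ 1) (h6 : t ≤ T) (ho : 0 ≤ exf_v (c1f_v t) (c3f_v T) t T + 1 / 2) (hq1 : 1 ≤ q3f_v (c3f_v T - c1f_v t) (T - t)) (hq3 : q3f_v (c3f_v T - c1f_v t) (T - t) ≤ 3)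
    (k1 : 0 ≤ 1 / 16 - ((3 / 2 * c1f_v t - h0 * t) - c3f_v T))
    (k2 : 0 ≤ 1 / 16 + ((3 / 2 * c1f_v t - h0 * t) - c3f_v T)) : False := by
  have hp := h0_pos
  have g1 := h0_gt
  have g2 := h0_lt
  have hs := h0_sq
  have a1 := c1up (t := t) (by linarith) (by linarith)
  have a2 := c3lo' (t := T) (by linarith) (by linarith)
  have a5 : h0 * h0 ≤ h0 * t := mul_le_mul_of_nonneg_left (by linarith) hp.le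
  linarith


theorem eB0p3p_pp_203 {t T : ℝ} (h1 : 1 * h0 ≤ t) (h1' : t ≤ 3 / 2 * h0) (h2 : 3 / 2 * h0 ≤ T) (h2' : T ≤ 2 * h0) (h3 : 0 * h0 ≤ T - t) (h3' : T - t ≤ 1 / 2 * h0) (h4 : t ≤ 1) (h6 : t ≤ T) (ho : 0 ≤ exf_v (c1f_v t) (c3f_v T) t T + 1 / 2) (hq1 : 1 ≤ q3f_v (c3f_v T - c1f_v t) (T - t)) (hq3 : q3f_v (c3f_v T - c1f_v t) (T - t) ≤ 3)
    (k1 : 0 ≤ 1 / 16 - ((3 / 2 * c1f_v t - h0 * t) - c3f_v T))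
    (k2 : 0 ≤ 1 / 16 + ((3 / 2 * c1f_v t - h0 * t) - c3f_v T)) : False := by
  have hp := h0_pos
  have g1 := h0_gt
  have g2 := h0_lt
  have hs := h0_sq
  have a1 := c1up (t := t) (by linarith) (by linarith)
  have a2 := c3lo' (t := T) (by linarith) (by linarith)
  have a5 : h0 * h0 ≤ h0 * t := mul_le_mul_of_nonneg_left (by linarith) hp.le
  linarith


theorem eB3m0m_mm_001 {t T : ℝ} (h1 : 0 * h0 ≤ t) (h1' : t ≤ 1 / 2 * h0) (h2 : 1 / 2 * h0 ≤ T) (h2' : T ≤ 1 * h0) (h3 : 0 * h0 ≤ T - t) (h3' : T - t ≤ 1 / 2 * h0) (h6 : t ≤ T) (ho : 0 ≤ exf_v (-(c3f_v t)) (-(c1f_v T)) t T + 1 / 2) (hq1 : 1 ≤ q3f_v (-(c1f_v T) - -(c3f_v t)) (T - t)) (hq3 : q3f_v (-(c1f_v T) - -(c3f_v t)) (T - t) ≤ 3)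
    (k1 : 0 ≤ 1 / 16 - (T - (t / 2 + -(c3f_v t) / (4 * h0))))
    (k2 : 0 ≤ 1 / 16 + (T - (t / 2 + -(c3f_v t) / (4 * h0)))) : False := by
  have hp := h0_pos
  have g1 := h0_gt
  have g2 := h0_lt
  have hs := h0_sq
  have a1 := c3lo (t := t) (by linarith) (by linarith)
  have a5 : 3 / 8 ≤ c3f_v t / (4 * h0) := by
    rw [le_div_iff₀ (by linarith)]
    linarith
  rw [neg_div] at k1
  linarith


theorem eB3m0m_mm_011 {t T : ℝ} (h1 : 0 * h0 ≤ t) (h1' : t ≤ 1 / 2 * h0) (h2 : 1 / 2 * h0 ≤ T) (h2' : T ≤ 1 * h0) (h3 : 1 / 2 * h0 ≤ T - t) (h3' : T - t ≤ 1 * h0) (h6 : t ≤ T) (ho : 0 ≤ exf_v (-(c3f_v t)) (-(c1f_v T)) t T + 1 / 2) (hq1 : 1 ≤ q3f_v (-(c1f_v T) - -(c3f_v t)) (T - t)) (hq3 : q3f_v (-(c1f_v T) - -(c3f_v t)) (T - t) ≤ 3)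
    (k1 : 0 ≤ 1 / 16 - (T - (t / 2 + -(c3f_v t) / (4 * h0))))
    (k2 : 0 ≤ 1 / 16 + (T - (t / 2 + -(c3f_v t) / (4 * h0)))) : False := by
  have hp := h0_pos
  have g1 := h0_gt
  have g2 := h0_lt
  have hs := h0_sq
  have a1 := c3lo (t := t) (by linarith) (by linarith)
  have a5 : 3 / 8 ≤ c3f_v t / (4 * h0) := by
    rw [le_div_iff₀ (by linarith)]
    linarith
  rw [neg_div] at k1
  linarith


theorem eB3m0m_mm_101 {t T : ℝ} (h1 : 1 / 2 * h0 ≤ t) (h1' : t ≤ 1 * h0) (h2 : 1 / 2 * h0 ≤ T) (h2' : T ≤ 1 * h0) (h3 : 0 * h0 ≤ T - t) (h3' : T - t ≤ 1 / 2 * h0) (h6 : t ≤ T) (ho : 0 ≤ exf_v (-(c3f_v t)) (-(c1f_v T)) t T + 1 / 2) (hq1 : 1 ≤ q3f_v (-(c1f_v T) - -(c3f_v t)) (T - t)) (hq3 : q3f_v (-(c1f_v T) - -(c3f_v t)) (T - t) ≤ 3)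
    (k1 : 0 ≤ 1 / 16 - (T - (t / 2 + -(c3f_v t) / (4 * h0))))
    (k2 : 0 ≤ 1 / 16 + (T - (t / 2 + -(c3f_v t) / (4 * h0)))) : False := by
  have hp := h0_pos
  have g1 := h0_gt
  have g2 := h0_lt
  have hs := h0_sq
  have a1 := c3lo (t := t) (by linarith) (by linarith)
  have a5 : 3 / 8 ≤ c3f_v t / (4 * h0) := by
    rw [le_div_iff₀ (by linarith)]
    linarith
  rw [neg_div] at k1
  linarith


theorem eB3m0m_pm_001 {t T : ℝ} (h1 : 0 * h0 ≤ t) (h1' : t ≤ 1 / 2 * h0) (h2 : 1 / 2 * h0 ≤ T) (h2' : T ≤ 1 * h0) (h3 : 0 * h0 ≤ T - t) (h3' : T - t ≤ 1 / 2 * h0) (h6 : t ≤ T) (ho : 0 ≤ exf_v (c3f_v t) (-(c1f_v T)) t T + 1 / 2) (hq1 : 1 ≤ q3f_v (-(c1f_v T) - c3f_v t) (T - t)) (hq3 : q3f_v (-(c1f_v T) - c3f_v t) (T - t) ≤ 3)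
    (k1 : 0 ≤ 1 / 16 - (T - (t / 2 + c3f_v t / (4 * h0))))
    (k2 : 0 ≤ 1 / 16 + (T - (t / 2 + c3f_v t / (4 * h0)))) : False := by
  have hp := h0_pos
  have g1 := h0_gt
  have g2 := h0_lt
  have hs := h0_sq
  have a1 := c1half (t := T) (by linarith) (by linarith)
  have a2 := c3lo (t := t) (by linarith) (by linarith)
  rw [q3f_eq] at hq3
  nlinarith [sq_nonneg (T - t)]


theorem eB3m0m_pm_011 {t T : ℝ} (h1 : 0 * h0 ≤ t) (h1' : t ≤ 1 / 2 * h0) (h2 : 1 / 2 * h0 ≤ T) (h2' : T ≤ 1 * h0) (h3 : 1 / 2 * h0 ≤ T - t) (h3' : T - t ≤ 1 * h0) (h6 : t ≤ T) (ho : 0 ≤ exf_v (c3f_v t) (-(c1f_v T)) t T + 1 / 2) (hq1 : 1 ≤ q3f_v (-(c1f_v T) - c3f_v t) (T - t)) (hq3 : q3f_v (-(c1f_v T) - c3f_v t) (T - t) ≤ 3)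
    (k1 : 0 ≤ 1 / 16 - (T - (t / 2 + c3f_v t / (4 * h0))))
    (k2 : 0 ≤ 1 / 16 + (T - (t / 2 + c3f_v t / (4 * h0)))) : False := by
  have hp := h0_pos
  have g1 := h0_gt
  have g2 := h0_lt
  have hs := h0_sq
  have a1 := c1half (t := T) (by linarith) (by linarith)
  have a2 := c3lo (t := t) (by linarith) (by linarith)
  rw [q3f_eq] at hq3
  nlinarith [sq_nonneg (T - t)]


theorem eB3m0m_pm_101 {t T : ℝ} (h1 : 1 / 2 * h0 ≤ t) (h1' : t ≤ 1 * h0) (h2 : 1 / 2 * h0 ≤ T) (h2' : T ≤ 1 * h0) (h3 : 0 * h0 ≤ T - t) (h3' : T - t ≤ 1 / 2 * h0) (h6 : t ≤ T) (ho : 0 ≤ exf_v (c3f_v t) (-(c1f_v T)) t T + 1 / 2) (hq1 : 1 ≤ q3f_v (-(c1f_v T) - c3f_v t) (T - t)) (hq3 : q3f_v (-(c1f_v T) - c3f_v t) (T - t) ≤ 3)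
    (k1 : 0 ≤ 1 / 16 - (T - (t / 2 + c3f_v t / (4 * h0))))
    (k2 : 0 ≤ 1 / 16 + (T - (t / 2 + c3f_v t / (4 * h0)))) : False := by
  have hp := h0_pos
  have g1 := h0_gt
  have g2 := h0_lt
  have hs := h0_sq
  have a1 := c1half (t := T) (by linarith) (by linarith)
  have a2 := c3lo (t := t) (by linarith) (by linarith)
  rw [q3f_eq] at hq3
  nlinarith [sq_nonneg (T - t)]


theorem nB0m3p_pm_123 {t T : ℝ} (h1 : 1 / 2 * h0 ≤ t) (h1' : t ≤ 1 * h0) (h2 : 3 / 2 * h0 ≤ T) (h2' : T ≤ 2 * h0) (h3 : 1 * h0 ≤ T - t) (h3' : T - t ≤ 3 / 2 * h0) (h6 : t ≤ T) (ho : 0 ≤ exf_v (c1f_v t) (-(c3f_v T)) t T + 1 / 2) (hq1 : 1 ≤ q3f_v (-(c3f_v T) - c1f_v t) (T - t)) (hq3 : q3f_v (-(c3f_v T) - c1f_v t) (T - t) ≤ 3)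
    (k1 : 0 ≤ 1 / 16 - ((3 / 2 * c1f_v t - h0 * t) - -(c3f_v T)))
    (k2 : 0 ≤ 1 / 16 + ((3 / 2 * c1f_v t - h0 * t) - -(c3f_v T))) :
    (0 < 1/10 - (1 * h0 - t) ∧ 0 < 1/10 - ((T - t) - 1 * h0) ∧ 0 < 1/10 - (2 * h0 - T)) := by
  have hp := h0_pos
  have g1 := h0_gt
  have g2 := h0_lt
  have hs := h0_sq
  have a1 := c1half (t := t) (by linarith) (by linarith)
  have a2 := c3nn T
  have a3 := c1sq (t := t) (by linarith) (by linarith)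
  have a4 := c3sq (t := T) (by linarith) (by linarith)
  have b1 : (c1f_v t - 1 / 2) * (c1f_v t + 1 / 2) = (h0 - t) * (h0 + t) := by
    linear_combination a3 - hs
  have b2 : c1f_v t ≤ 1 := by nlinarith
  have b3 : (h0 - t) * (3 / 2 * h0) ≤ (c1f_v t - 1 / 2) * (3 / 2) := by nlinarith
  have b4 : h0 * (h0 - t) ≤ c1f_v t - 1 / 2 := by linarith
  have b5 : 5 / 2 * (h0 * (h0 - t)) ≤ 3 / 2 * c1f_v t - h0 * t := by nlinarith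
  have b6 : 0 ≤ h0 * (h0 - t) := mul_nonneg hp.le (by linarith)
  have b7 : c3f_v T ≤ 1 / 16 := by linarith
  have b8 : h0 * (h0 - t) ≤ 1 / 40 := by linarith
  have b9 : h0 - t < 1 / 20 := by nlinarith
  have b10 : c3f_v T ^ 2 ≤ 1 / 256 := by nlinarith
  have b11 : 2 * h0 - T < 1 / 20 := by nlinarith
  exact ⟨by linarith, by linarith, by linarith⟩


theorem eB0p3p_pp_213 {t T : ℝ} (h1 : 1 * h0 ≤ t) (h1' : t ≤ 3 / 2 * h0) (h2 : 3 / 2 * h0 ≤ T) (h2' : T ≤ 2 * h0) (h3 : 1 / 2 * h0 ≤ T - t) (h3' : T - t ≤ 1 * h0) (h4 : t ≤ 1) (h6 : t ≤ T) (ho : 0 ≤ exf_v (c1f_v t) (c3f_v T) t T + 1 / 2) (hq1 : 1 ≤ q3f_v (c3f_v T - c1f_v t) (T - t)) (hq3 : q3f_v (c3f_v T - c1f_v t) (T - t) ≤ 3)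
    (k1 : 0 ≤ 1 / 16 - ((3 / 2 * c1f_v t - h0 * t) - c3f_v T))
    (k2 : 0 ≤ 1 / 16 + ((3 / 2 * c1f_v t - h0 * t) - c3f_v T)) (hlt : T - t < h0) : False := by
  have hp := h0_pos
  have g1 := h0_gt
  have g2 := h0_lt
  have hs := h0_sq
  have a1 := c1up (t := t) (by linarith) (by linarith)
  have a2 := c3nn T
  have a3 := c1nn t
  have a5 : h0 * h0 ≤ h0 * t := mul_le_mul_of_nonneg_left (by linarith) hp.le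
  have a6 : c3f_v T ≤ 1 / 16 := by linarith
  rw [q3f_eq] at hq1
  have a7 : (c3f_v T - c1f_v t) ^ 2 ≤ 1 / 4 := by nlinarith
  have a8 : (T - t) ^ 2 < 3 / 4 := by nlinarith
  linarith


end Pool.Agent.Strip051.LC.Line.Glue.Emp
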