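import Pool.Agent.Strip051.LC.Line.GlueC

/-! # The assembly of the triples -/

namespace Pool.Agent.Strip051.LC.Line.Glue

open Pool.Agent.StripNear Pool.Agent.StripSquare Pool.Agent.Strip051.Sweep
  Pool.Agent.Strip051.LC Pool.Agent.Strip051.LC.Line Pool.Agent.Strip051.LB.Fn

theorem node_lo (j : Fin 4) {T : ℝ} (h0T : 0 ≤ T) (h : T < h0 / 2) : 9 / 10 < cv j T := by
  have hp := h0_pos
  have hq := h0_sq'
  have h3 : T ^ 2 ≤ 3 := by nlinarith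
  refine lt_of_lt_of_le ?_ (c1_le_cv j h0T h3)
  unfold c1
  apply Real.lt_sqrt_of_sq_lt
  nlinarith

theorem node_hi (j : Fin 4) {T : ℝ} (h0T : 0 ≤ T) (h : T < h0 / 2) : cv j T < 17321 / 10000 := by
  have hp := h0_pos
  have hq := h0_sq'
  have h3 : T ^ 2 ≤ 3 := by nlinarith
  refine lt_of_le_of_lt (cv_le_c3 j h0T h3) ?_
  unfold c3
  rw [Real.sqrt_lt' (by norm_num)]
  nlinarith [sq_nonneg T]

theorem len_lo {X T : ℝ} (h0T : 0 ≤ T) (h : T < h0 / 2) (h1 : 1 ≤ X ^ 2 + T ^ 2) :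
    8 / 10 < X ^ 2 := by
  have hp := h0_pos
  have hq := h0_sq'
  nlinarith

theorem no000 {p q X : ℝ} (hp : 9 / 10 < p) (hp' : p < 17321 / 10000) (hq : 9 / 10 < q)
    (hq' : q < 17321 / 10000) (h1 : 8 / 10 < X ^ 2) (h3 : X ^ 2 ≤ 3)
    (h : X = p + q ∨ X = -(p + q) ∨ X = p - q ∨ X = q - p) : False := by
  rcases h with rfl | rfl | rfl | rfl <;> nlinarith

theorem triA_000 {j k : Fin 4} {σ σ' : ℝ} (hσ : σ = 1 ∨ σ = -1) (hσ' : σ' = 1 ∨ σ' = -1) :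
    TriA 0 0 0 j k σ σ' := by
  intro t t' H
  exfalso
  obtain ⟨a1, a2⟩ := Q0.1 H.q1
  obtain ⟨b1, b2⟩ := Q0.1 H.q2
  obtain ⟨g1, g2⟩ := Q0.1 H.q3
  refine no000 (node_lo j a1 a2) (node_hi j a1 a2) (node_lo k b1 b2) (node_hi k b1 b2)
    (len_lo g1 g2 H.h1) (le_trans (by nlinarith) H.h3) ?_
  rcases hσ with rfl | rfl <;> rcases hσ' with rfl | rfl
  · exact Or.inl (by ring)
  · exact Or.inr (Or.inr (Or.inl (by ring)))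
  · exact Or.inr (Or.inr (Or.inr (by ring)))
  · exact Or.inr (Or.inl (by ring))

theorem triB_000 {j k : Fin 4} {σ σ' : ℝ} (hσ : σ = 1 ∨ σ = -1) (hσ' : σ' = 1 ∨ σ' = -1) :
    TriB 0 0 0 j k σ σ' := by
  intro t t' H
  exfalso
  obtain ⟨a1, a2⟩ := Q0.1 H.q1
  obtain ⟨b1, b2⟩ := Q0.1 H.q2
  obtain ⟨g1, g2⟩ := Q0.1 H.q3
  refine no000 (node_lo j a1 a2) (node_hi j a1 a2) (node_lo k g1 g2) (node_hi k g1 g2)
    (len_lo b1 b2 H.h1) (le_trans (by nlinarith) H.h3) ?_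
  rcases hσ with rfl | rfl <;> rcases hσ' with rfl | rfl
  · exact Or.inr (Or.inr (Or.inr (by ring)))
  · exact Or.inr (Or.inl (by ring))
  · exact Or.inl (by ring)
  · exact Or.inr (Or.inr (Or.inl (by ring)))

theorem nfv_223 {X12 t t' : ℝ} {r : ℝ × ℝ × ℝ} (h1 : t = h0) (h2 : t' = h0) (hX : 1 / 2 ≤ X12)
    (hr : r.1 + r.2.1 = 0) (hr3 : r.2.2 = 0) : NFV (19 / 20) X12 0 t t' r := by
  have hp := h0_pos
  have j1 : jn t = 1 := jn_1 (by linarith) (by linarith)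
  have j2 : jn t' = 1 := jn_1 (by linarith) (by linarith)
  have j3 : jn (t + t') = 2 := jn_2 (by linarith)
  have t1 := tau_of j1
  have t2 := tau_of j2
  push_cast at t1 t2
  refine .pp (by rw [j1, j2, j3]) (by linarith) (by linarith) ?_
  have z1 : tau t = 0 := by linarith
  have z2 : tau t' = 0 := by linarith
  have e : exc X12 0 t t' = X12 - 1 / 2 := by
    unfold exc
    rw [h1, h2]
    field_simp
    ring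
  rw [z1, z2, e, hr3]
  unfold StarN Star
  have w1 : (-r.1 * (h0 - 0) + -r.2.1 * (h0 - 2 * 0 - 0) - -0 * (h0 - 0 - 0)) / (2 * h0) +
      (X12 - 1 / 2) / (2 * (19 / 20)) = (X12 - 1 / 2) / (2 * (19 / 20)) := by
    rw [show -r.1 * (h0 - 0) + -r.2.1 * (h0 - 2 * 0 - 0) - -0 * (h0 - 0 - 0) =
      -(r.1 + r.2.1) * h0 by ring, hr]
    simp
  set W2 := (- -r.1 * (h0 - 0) + -r.2.1 * (h0 - 0) + -0 * (0 - 0) / (0 + 0) * (h0 - 0 - 0)) /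
    (2 * h0) + (X12 - 1 / 2) / (2 * (19 / 20))
  have w3 : (- -r.1 * (h0 - 0 - 2 * 0) - -r.2.1 * (h0 - 0) + -0 * (h0 - 0 - 0)) / (2 * h0) +
      (X12 - 1 / 2) / (2 * (19 / 20)) = (X12 - 1 / 2) / (2 * (19 / 20)) := by
    rw [show - -r.1 * (h0 - 0 - 2 * 0) - -r.2.1 * (h0 - 0) + -0 * (h0 - 0 - 0) =
      (r.1 + r.2.1) * h0 by ring, hr]
    simp
  have hc : 0 ≤ (X12 - 1 / 2) / (2 * (19 / 20)) := div_nonneg (by linarith) (by norm_num)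
  rw [w1, w3, zero_mul, zero_mul, phi_nonneg_nonneg hc hc]
  have hL : h0 / 2 ≤ L0 := by
    unfold L0
    rw [← two_h0]
    linarith
  have key := mul_le_mul_of_nonneg_left hL (show 0 ≤ X12 - 1 / 2 by linarith)
  refine le_trans (le_of_eq ?_) key
  ring

theorem cv_h0 (j : Fin 4) : 1 / 2 ≤ cv j h0 := by
  have hp := h0_pos
  have hq := h0_sq'
  rw [← c1_h0]
  exact c1_le_cv j hp.le (by linarith)

theorem pair_h0 {t t' : ℝ} (h1 : Q 2 t) (h2 : Q 2 t') (h3 : Q 3 (t + t')) :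
    t = h0 ∧ t' = h0 := by
  obtain ⟨a1, a2⟩ := Q2.1 h1
  obtain ⟨b1, b2⟩ := Q2.1 h2
  obtain ⟨g1, g2⟩ := Q3.1 h3
  constructor <;> linarith

theorem top_zero {X : ℝ} (h : X ^ 2 + (h0 + h0) ^ 2 ≤ 3) : X = 0 := by
  have hq := h0_sq'
  have : X ^ 2 = 0 := by nlinarith [sq_nonneg X]
  simpa using this

theorem sgn_node {j : Fin 4} {σ : ℝ} (hσ : σ = 1 ∨ σ = -1) (h : 0 ≤ σ * cv j h0) :
    1 / 2 ≤ σ * cv j h0 := by
  have := cv_h0 j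
  rcases hσ with rfl | rfl
  · linarith
  · linarith

theorem triA_223 {j k : Fin 4} {σ σ' : ℝ} (hσ : σ = 1 ∨ σ = -1) :
    TriA 2 2 3 j k σ σ' := by
  intro t t' H
  have hp := h0_pos
  obtain ⟨e, e'⟩ := pair_h0 H.q1 H.q2 H.q3
  have ho := H.ho
  have h3 := H.h3
  rw [e, e'] at ho h3
  have hX := top_zero h3
  have e2 : σ' * cv k h0 = -(σ * cv j h0) := by linarith
  have hX0 : 0 ≤ σ * cv j h0 := by
    rw [e2] at ho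
    by_contra hc
    have : σ * cv j h0 < 0 := by linarith
    nlinarith
  show NFV (19 / 20) _ _ t t' (valK _ _ t t' vF)
  have hX' : σ * cv j t + σ' * cv k t' = 0 := by rw [e, e']; exact hX
  rw [hX']
  refine nfv_223 e e' ?_ ?_ ?_
  · rw [e]
    exact sgn_node hσ hX0
  · unfold valK
    simp only
    rw [e, e', zero_sub, ker_odd (isNodesW false) (fun _ => rfl)]
    ring
  · exact kerW_zero vF _

theorem triB_223 {j k : Fin 4} {σ σ' : ℝ} (hσ : σ = 1 ∨ σ = -1) :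
    TriB 2 2 3 j k σ σ' := by
  intro t t' H
  have hp := h0_pos
  have hq := h0_sq'
  obtain ⟨e, e'⟩ := pair_h0 H.q1 H.q2 H.q3
  have hT3 : (t + t') ^ 2 = 3 := by
    rw [e, e']
    nlinarith
  have hk : cv k (t + t') = 0 := by
    refine le_antisymm ((cv_le_c3 k ?_ hT3.le).trans (c3_top hT3).le) (cv_nonneg k ?_ hT3.le) <;>
      linarith
  have ho := H.ho
  rw [hk, mul_zero, zero_mul, sub_zero] at ho
  show NFV (19 / 20) _ _ t t' (valK _ _ t t' vF)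
  rw [hk, mul_zero]
  rw [e, e'] at ho
  have hX0 : 0 ≤ σ * cv j h0 := by
    by_contra hc
    have : σ * cv j h0 < 0 := by linarith
    nlinarith
  refine nfv_223 e e' ?_ ?_ ?_
  · rw [e]
    exact sgn_node hσ hX0
  · unfold valK
    simp only
    rw [e, e', zero_sub, ker_odd (isNodesW false) (fun _ => rfl)]
    ring
  · exact kerW_zero vF _

theorem no_c1 {T : ℝ} (h : Q 3 T) (hd : dm 0 T) : False := by
  obtain ⟨n1, n2⟩ := h0_num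
  obtain ⟨g1, g2⟩ := Q3.1 h
  have : T < 1 := hd
  linarith

/-- All triples of quarters, family `A`. -/
structure AllTriA (j k : Fin 4) (σ σ' : ℝ) : Prop where
  t001 : TriA 0 0 1 j k σ σ'
  t011 : TriA 0 1 1 j k σ σ'
  t012 : TriA 0 1 2 j k σ σ'
  t022 : TriA 0 2 2 j k σ σ'
  t023 : TriA 0 2 3 j k σ σ'
  t033 : TriA 0 3 3 j k σ σ'
  t101 : TriA 1 0 1 j k σ σ'
  t102 : TriA 1 0 2 j k σ σ'
  t112 : TriA 1 1 2 j k σ σ'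
  t113 : TriA 1 1 3 j k σ σ'
  t123 : TriA 1 2 3 j k σ σ'
  t133 : TriA 1 3 3 j k σ σ'
  t202 : TriA 2 0 2 j k σ σ'
  t203 : TriA 2 0 3 j k σ σ'
  t213 : TriA 2 1 3 j k σ σ'
  t303 : TriA 3 0 3 j k σ σ'
  t313 : TriA 3 1 3 j k σ σ'

theorem AllTriA.fam {j k : Fin 4} {σ σ' : ℝ} (hσ : σ = 1 ∨ σ = -1) (hσ' : σ' = 1 ∨ σ' = -1)
    (A : AllTriA j k σ σ') : FamWA PF j k σ σ' := by
  intro t t' h1 h2 h3 h4 h5 h6 h7
  have hp := h0_pos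
  have hq := h0_sq'
  have hT3 : (t + t') ^ 2 ≤ 3 := by nlinarith [sq_nonneg (σ * cv j t + σ' * cv k t')]
  have hT : t + t' ≤ 2 * h0 := by nlinarith
  rcases triple_cases h1 h2 hT with ⟨a, b, c⟩ | ⟨a, b, c⟩ | ⟨a, b, c⟩ | ⟨a, b, c⟩ | ⟨a, b, c⟩ | ⟨a, b, c⟩ | ⟨a, b, c⟩ | ⟨a, b, c⟩ | ⟨a, b, c⟩ | ⟨a, b, c⟩ | ⟨a, b, c⟩ | ⟨a, b, c⟩ | ⟨a, b, c⟩ | ⟨a, b, c⟩ | ⟨a, b, c⟩ | ⟨a, b, c⟩ | ⟨a, b, c⟩ | ⟨a, b, c⟩ | ⟨a, b, c⟩
  · exact (triA_000 hσ hσ') t t' ⟨a, b, c, h1, h2, h3, h4, h5, h6, h7⟩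
  · exact A.t001 t t' ⟨a, b, c, h1, h2, h3, h4, h5, h6, h7⟩
  · exact A.t011 t t' ⟨a, b, c, h1, h2, h3, h4, h5, h6, h7⟩
  · exact A.t012 t t' ⟨a, b, c, h1, h2, h3, h4, h5, h6, h7⟩
  · exact A.t022 t t' ⟨a, b, c, h1, h2, h3, h4, h5, h6, h7⟩
  · exact A.t023 t t' ⟨a, b, c, h1, h2, h3, h4, h5, h6, h7⟩
  · exact A.t033 t t' ⟨a, b, c, h1, h2, h3, h4, h5, h6, h7⟩
  · exact A.t101 t t' ⟨a, b, c, h1, h2, h3, h4, h5, h6, h7⟩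
  · exact A.t102 t t' ⟨a, b, c, h1, h2, h3, h4, h5, h6, h7⟩
  · exact A.t112 t t' ⟨a, b, c, h1, h2, h3, h4, h5, h6, h7⟩
  · exact A.t113 t t' ⟨a, b, c, h1, h2, h3, h4, h5, h6, h7⟩
  · exact A.t123 t t' ⟨a, b, c, h1, h2, h3, h4, h5, h6, h7⟩
  · exact A.t133 t t' ⟨a, b, c, h1, h2, h3, h4, h5, h6, h7⟩
  · exact A.t202 t t' ⟨a, b, c, h1, h2, h3, h4, h5, h6, h7⟩
  · exact A.t203 t t' ⟨a, b, c, h1, h2, h3, h4, h5, h6, h7⟩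
  · exact A.t213 t t' ⟨a, b, c, h1, h2, h3, h4, h5, h6, h7⟩
  · exact A.t303 t t' ⟨a, b, c, h1, h2, h3, h4, h5, h6, h7⟩
  · exact A.t313 t t' ⟨a, b, c, h1, h2, h3, h4, h5, h6, h7⟩
  · exact (triA_223 hσ) t t' ⟨a, b, c, h1, h2, h3, h4, h5, h6, h7⟩

/-- All triples of quarters, family `B`. -/
structure AllTriB (j k : Fin 4) (σ σ' : ℝ) : Prop where
  t001 : TriB 0 0 1 j k σ σ'
  t011 : TriB 0 1 1 j k σ σ'
  t012 : TriB 0 1 2 j k σ σ'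
  t022 : TriB 0 2 2 j k σ σ'
  t023 : TriB 0 2 3 j k σ σ'
  t033 : TriB 0 3 3 j k σ σ'
  t101 : TriB 1 0 1 j k σ σ'
  t102 : TriB 1 0 2 j k σ σ'
  t112 : TriB 1 1 2 j k σ σ'
  t113 : TriB 1 1 3 j k σ σ'
  t123 : TriB 1 2 3 j k σ σ'
  t133 : TriB 1 3 3 j k σ σ'
  t202 : TriB 2 0 2 j k σ σ'
  t203 : TriB 2 0 3 j k σ σ'
  t213 : TriB 2 1 3 j k σ σ'
  t303 : TriB 3 0 3 j k σ σ'
  t313 : TriB 3 1 3 j k σ σ'

theorem AllTriB.fam {j k : Fin 4} {σ σ' : ℝ} (hσ : σ = 1 ∨ σ = -1) (hσ' : σ' = 1 ∨ σ' = -1)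
    (A : AllTriB j k σ σ') : FamWB PF j k σ σ' := by
  intro t t' h1 h2 h3 h4 h5 h6 h7
  have hp := h0_pos
  have hq := h0_sq'
  have hT3 : (t + t') ^ 2 ≤ 3 := dm_sq (by linarith) h4
  have hT : t + t' ≤ 2 * h0 := by nlinarith
  rcases triple_cases h1 h2 hT with ⟨a, b, c⟩ | ⟨a, b, c⟩ | ⟨a, b, c⟩ | ⟨a, b, c⟩ | ⟨a, b, c⟩ | ⟨a, b, c⟩ | ⟨a, b, c⟩ | ⟨a, b, c⟩ | ⟨a, b, c⟩ | ⟨a, b, c⟩ | ⟨a, b, c⟩ | ⟨a, b, c⟩ | ⟨a, b, c⟩ | ⟨a, b, c⟩ | ⟨a, b, c⟩ | ⟨a, b, c⟩ | ⟨a, b, c⟩ | ⟨a, b, c⟩ | ⟨a, b, c⟩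
  · exact (triB_000 hσ hσ') t t' ⟨a, b, c, h1, h2, h3, h4, h5, h6, h7⟩
  · exact A.t001 t t' ⟨a, b, c, h1, h2, h3, h4, h5, h6, h7⟩
  · exact A.t011 t t' ⟨a, b, c, h1, h2, h3, h4, h5, h6, h7⟩
  · exact A.t012 t t' ⟨a, b, c, h1, h2, h3, h4, h5, h6, h7⟩
  · exact A.t022 t t' ⟨a, b, c, h1, h2, h3, h4, h5, h6, h7⟩
  · exact A.t023 t t' ⟨a, b, c, h1, h2, h3, h4, h5, h6, h7⟩
  · exact A.t033 t t' ⟨a, b, c, h1, h2, h3, h4, h5, h6, h7⟩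
  · exact A.t101 t t' ⟨a, b, c, h1, h2, h3, h4, h5, h6, h7⟩
  · exact A.t102 t t' ⟨a, b, c, h1, h2, h3, h4, h5, h6, h7⟩
  · exact A.t112 t t' ⟨a, b, c, h1, h2, h3, h4, h5, h6, h7⟩
  · exact A.t113 t t' ⟨a, b, c, h1, h2, h3, h4, h5, h6, h7⟩
  · exact A.t123 t t' ⟨a, b, c, h1, h2, h3, h4, h5, h6, h7⟩
  · exact A.t133 t t' ⟨a, b, c, h1, h2, h3, h4, h5, h6, h7⟩
  · exact A.t202 t t' ⟨a, b, c, h1, h2, h3, h4, h5, h6, h7⟩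
  · exact A.t203 t t' ⟨a, b, c, h1, h2, h3, h4, h5, h6, h7⟩
  · exact A.t213 t t' ⟨a, b, c, h1, h2, h3, h4, h5, h6, h7⟩
  · exact A.t303 t t' ⟨a, b, c, h1, h2, h3, h4, h5, h6, h7⟩
  · exact A.t313 t t' ⟨a, b, c, h1, h2, h3, h4, h5, h6, h7⟩
  · exact (triB_223 hσ) t t' ⟨a, b, c, h1, h2, h3, h4, h5, h6, h7⟩

end Pool.Agent.Strip051.LC.Line.Glue
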