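import Pool.Agent.Strip051.LC.Line.Corn.UseV
import Pool.Agent.Strip051.LC.Line.Corn.VB02pma213
import Pool.Agent.Strip051.LC.Line.Corn.VB02pmb123
import Pool.Agent.Strip051.LC.Line.Corn.VB02pmz113
import Pool.Agent.Strip051.LC.Line.Corn.VB02pmz123
import Pool.Agent.Strip051.LC.Line.Corn.VB02ppa213
import Pool.Agent.Strip051.LC.Line.Corn.VB02ppb123
import Pool.Agent.Strip051.LC.Line.Corn.VB02ppz113
import Pool.Agent.Strip051.LC.Line.Corn.VB02ppz213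
import Pool.Agent.Strip051.LC.Line.Corn.VB03pmb123
import Pool.Agent.Strip051.LC.Line.Corn.VB03pmz113
import Pool.Agent.Strip051.LC.Line.Corn.VB03pmz123
import Pool.Agent.Strip051.LC.Line.Corn.VB03ppb123
import Pool.Agent.Strip051.LC.Line.Corn.VB03ppz113
import Pool.Agent.Strip051.LC.Line.Corn.VB03ppz123
import Pool.Agent.Strip051.LC.Line.Corn.VB12pma213
import Pool.Agent.Strip051.LC.Line.Corn.VB12pmz213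
import Pool.Agent.Strip051.LC.Line.Corn.VB12ppa213
import Pool.Agent.Strip051.LC.Line.Corn.VB12ppz213
import Pool.Agent.Strip051.LC.Line.Corn.VB13pma213
import Pool.Agent.Strip051.LC.Line.Corn.VB13pmz213
import Pool.Agent.Strip051.LC.Line.Corn.VB13ppa213
import Pool.Agent.Strip051.LC.Line.Corn.VB13ppz213
import Pool.Agent.Strip051.LC.Line.Corn.WA00pm113
import Pool.Agent.Strip051.LC.Line.Corn.WA01pm123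
import Pool.Agent.Strip051.LC.Line.Corn.WB02pmz213
import Pool.Agent.Strip051.LC.Line.Corn.WB02ppz123

/-! # The vertical corner -/

namespace Pool.Agent.Strip051.LC.Line.Corn

open Pool.Agent.StripNear Pool.Agent.StripSquare Pool.Agent.Strip051.Sweep
  Pool.Agent.Strip051.LC Pool.Agent.Strip051.LC.Line.Glue

theorem cubeA_113_00_pm : CubeA 1 1 3 0 0 1 (-1) := by
  refine cubeA_of (Or.inl rfl) (Or.inr rfl) ?_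
  intro ε hε i t t' hI hN H
  obtain ⟨ρ, a, h1, h2, h3, h4, e1, e2⟩ := par_113 hI.q1 hI.q2 hI.q3 hN
  exact main_A00pm113 ctv_vF h1 h2 h3 h4 e1 e2 (Q1.1 hI.q1).2 (Q1.1 hI.q2).2 hε H

theorem cubeA_123_01_pm : CubeA 1 2 3 0 1 1 (-1) := by
  refine cubeA_of (Or.inl rfl) (Or.inr rfl) ?_
  intro ε hε i t t' hI hN H
  obtain ⟨ρ, a, h1, h2, h3, h4, e1, e2⟩ := par_123 hI.q1 hI.q2 hI.q3 hN
  obtain ⟨k2, k3, k4, k5⟩ := bd_123 hI.q1 hN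
  exact main_A01pm123 ctv_vF h1 h2 h3 h4 e1 e2 k3 (Q2.1 hI.q2).1 k2 k5 hε H

theorem cubeB_113_02_pp : CubeB 1 1 3 0 2 1 1 := by
  refine cubeB_of (Or.inl rfl) (Or.inl rfl) ?_
  intro ε hε i t t' hI hN H
  obtain ⟨x, y, h1, h2, h3, e1, e2⟩ := par_v113 hI.q1 hI.q2 hI.q3
  exact main_B02ppz113 ctv_vF h1 h2 h3 e1 e2 (Q1.1 hI.q1).2 (Q1.1 hI.q2).2 (bd_113 hN) hε H

theorem cubeB_123_02_pp : CubeB 1 2 3 0 2 1 1 := by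
  refine cubeB_of (Or.inl rfl) (Or.inl rfl) ?_
  intro ε hε i t t' hI hN H
  obtain ⟨k2, k3, k4, k5⟩ := bd_123 hI.q1 hN
  obtain ⟨x, y, h1, h2, h3, ⟨e1, e2⟩ | ⟨h4, e1, e2⟩⟩ := par_v123 hI.q1 hI.q2 hI.q3 hN
  · exact main_B02ppz123 ctv_vF h1 h2 h3 e1 e2 k2 k3 k4 k5 hε H
  · exact main_B02ppb123 ctv_vF h1 h2 h3 h4 e1 e2 k3 k4 k5 hε H

theorem cubeB_213_02_pp : CubeB 2 1 3 0 2 1 1 := by
  refine cubeB_of (Or.inl rfl) (Or.inl rfl) ?_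
  intro ε hε i t t' hI hN H
  obtain ⟨k2, k3, k4, k5⟩ := bd_213 hI.q2 hN
  obtain ⟨x, y, h1, h2, h3, ⟨e1, e2⟩ | ⟨h4, e1, e2⟩⟩ := par_v213 hI.q1 hI.q2 hI.q3 hN
  · exact main_B02ppz213 ctv_vF h1 h2 h3 e1 e2 k2 k3 k4 k5 hε H
  · exact main_B02ppa213 ctv_vF h1 h2 h3 h4 e1 e2 k3 k4 k5 hε H

theorem cubeB_213_12_pp : CubeB 2 1 3 1 2 1 1 := by
  refine cubeB_of (Or.inl rfl) (Or.inl rfl) ?_
  intro ε hε i t t' hI hN H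
  obtain ⟨k2, k3, k4, k5⟩ := bd_213 hI.q2 hN
  obtain ⟨x, y, h1, h2, h3, ⟨e1, e2⟩ | ⟨h4, e1, e2⟩⟩ := par_v213 hI.q1 hI.q2 hI.q3 hN
  · exact main_B12ppz213 ctv_vF h1 h2 h3 e1 e2 k2 k3 k4 k5 hε H
  · exact main_B12ppa213 ctv_vF h1 h2 h3 h4 e1 e2 k3 k4 k5 hε H

theorem cubeB_213_13_pp : CubeB 2 1 3 1 3 1 1 := by
  refine cubeB_of (Or.inl rfl) (Or.inl rfl) ?_
  intro ε hε i t t' hI hN H
  obtain ⟨k2, k3, k4, k5⟩ := bd_213 hI.q2 hN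
  obtain ⟨x, y, h1, h2, h3, ⟨e1, e2⟩ | ⟨h4, e1, e2⟩⟩ := par_v213 hI.q1 hI.q2 hI.q3 hN
  · exact main_B13ppz213 ctv_vF h1 h2 h3 e1 e2 k2 k3 k4 k5 hε H
  · exact main_B13ppa213 ctv_vF h1 h2 h3 h4 e1 e2 k3 k4 k5 hε H

theorem cubeB_113_03_pp : CubeB 1 1 3 0 3 1 1 := by
  refine cubeB_of (Or.inl rfl) (Or.inl rfl) ?_
  intro ε hε i t t' hI hN H
  obtain ⟨x, y, h1, h2, h3, e1, e2⟩ := par_v113 hI.q1 hI.q2 hI.q3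
  exact main_B03ppz113 ctv_vF h1 h2 h3 e1 e2 (Q1.1 hI.q1).2 (Q1.1 hI.q2).2 (bd_113 hN) hε H

theorem cubeB_113_02_pm : CubeB 1 1 3 0 2 1 (-1) := by
  refine cubeB_of (Or.inl rfl) (Or.inr rfl) ?_
  intro ε hε i t t' hI hN H
  obtain ⟨x, y, h1, h2, h3, e1, e2⟩ := par_v113 hI.q1 hI.q2 hI.q3
  exact main_B02pmz113 ctv_vF h1 h2 h3 e1 e2 (Q1.1 hI.q1).2 (Q1.1 hI.q2).2 (bd_113 hN) hε H

theorem cubeB_123_02_pm : CubeB 1 2 3 0 2 1 (-1) := by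
  refine cubeB_of (Or.inl rfl) (Or.inr rfl) ?_
  intro ε hε i t t' hI hN H
  obtain ⟨k2, k3, k4, k5⟩ := bd_123 hI.q1 hN
  obtain ⟨x, y, h1, h2, h3, ⟨e1, e2⟩ | ⟨h4, e1, e2⟩⟩ := par_v123 hI.q1 hI.q2 hI.q3 hN
  · exact main_B02pmz123 ctv_vF h1 h2 h3 e1 e2 k2 k3 k4 k5 hε H
  · exact main_B02pmb123 ctv_vF h1 h2 h3 h4 e1 e2 k3 k4 k5 hε H

theorem cubeB_213_02_pm : CubeB 2 1 3 0 2 1 (-1) := by
  refine cubeB_of (Or.inl rfl) (Or.inr rfl) ?_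
  intro ε hε i t t' hI hN H
  obtain ⟨k2, k3, k4, k5⟩ := bd_213 hI.q2 hN
  obtain ⟨x, y, h1, h2, h3, ⟨e1, e2⟩ | ⟨h4, e1, e2⟩⟩ := par_v213 hI.q1 hI.q2 hI.q3 hN
  · exact main_B02pmz213 ctv_vF h1 h2 h3 e1 e2 k2 k3 k4 k5 hε H
  · exact main_B02pma213 ctv_vF h1 h2 h3 h4 e1 e2 k3 k4 k5 hε H

theorem cubeB_213_12_pm : CubeB 2 1 3 1 2 1 (-1) := by
  refine cubeB_of (Or.inl rfl) (Or.inr rfl) ?_
  intro ε hε i t t' hI hN H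
  obtain ⟨k2, k3, k4, k5⟩ := bd_213 hI.q2 hN
  obtain ⟨x, y, h1, h2, h3, ⟨e1, e2⟩ | ⟨h4, e1, e2⟩⟩ := par_v213 hI.q1 hI.q2 hI.q3 hN
  · exact main_B12pmz213 ctv_vF h1 h2 h3 e1 e2 k2 k3 k4 k5 hε H
  · exact main_B12pma213 ctv_vF h1 h2 h3 h4 e1 e2 k3 k4 k5 hε H

theorem cubeB_213_13_pm : CubeB 2 1 3 1 3 1 (-1) := by
  refine cubeB_of (Or.inl rfl) (Or.inr rfl) ?_
  intro ε hε i t t' hI hN H
  obtain ⟨k2, k3, k4, k5⟩ := bd_213 hI.q2 hN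
  obtain ⟨x, y, h1, h2, h3, ⟨e1, e2⟩ | ⟨h4, e1, e2⟩⟩ := par_v213 hI.q1 hI.q2 hI.q3 hN
  · exact main_B13pmz213 ctv_vF h1 h2 h3 e1 e2 k2 k3 k4 k5 hε H
  · exact main_B13pma213 ctv_vF h1 h2 h3 h4 e1 e2 k3 k4 k5 hε H

theorem cubeB_113_03_pm : CubeB 1 1 3 0 3 1 (-1) := by
  refine cubeB_of (Or.inl rfl) (Or.inr rfl) ?_
  intro ε hε i t t' hI hN H
  obtain ⟨x, y, h1, h2, h3, e1, e2⟩ := par_v113 hI.q1 hI.q2 hI.q3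
  exact main_B03pmz113 ctv_vF h1 h2 h3 e1 e2 (Q1.1 hI.q1).2 (Q1.1 hI.q2).2 (bd_113 hN) hε H

theorem cubeB_123_03_pm : CubeB 1 2 3 0 3 1 (-1) := by
  refine cubeB_of (Or.inl rfl) (Or.inr rfl) ?_
  intro ε hε i t t' hI hN H
  obtain ⟨k2, k3, k4, k5⟩ := bd_123 hI.q1 hN
  obtain ⟨x, y, h1, h2, h3, ⟨e1, e2⟩ | ⟨h4, e1, e2⟩⟩ := par_v123 hI.q1 hI.q2 hI.q3 hN
  · exact main_B03pmz123 ctv_vF h1 h2 h3 e1 e2 k2 k3 k4 k5 hε H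
  · exact main_B03pmb123 ctv_vF h1 h2 h3 h4 e1 e2 k3 k4 k5 hε H

/-- The cube through which the vertical tight curve passes, outside the strip. -/
theorem cubeB_123_03_pp {t t' : ℝ} (hI : InB 1 2 3 0 3 1 1 t t') (hN : Glue.Near 1 2 3 t t')
    (hW : 1 / 16 ≤ |3 / 2 * cv 0 t - h0 * t - cv 3 (t + t')|) :
    PF (1 * cv 0 t) (1 * cv 3 (t + t')) t t' := by
  show NFV (19 / 20) _ _ t t' (valK _ _ t t' vF)
  have hT : 0 ≤ t + t' := add_nonneg hI.t0 hI.t0'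
  have hTT : t + t' ≤ 2 * h0 := (Glue.Q3.1 hI.q3).2
  obtain ⟨k2, k3, k4, k5⟩ := bd_123 hI.q1 hN
  have fin : ∀ ε : ℝ, (ε = 1 ∨ ε = -1) → (∃ i : Fin 3,
      cv i.castSucc t' ≤ ε * (1 * cv 3 (t + t') - 1 * cv 0 t) ∧
      ε * (1 * cv 3 (t + t') - 1 * cv 0 t) ≤ cv i.succ t') →
      NFV (19 / 20) (1 * cv 0 t) (1 * cv 3 (t + t')) t t'
        (valK (1 * cv 0 t) (1 * cv 3 (t + t')) t t' vF) := by
    intro ε hε ⟨i, g1, g2⟩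
    have H : HypB 0 3 1 1 ε i t t' := ⟨hI.t0, hI.t0', hI.d1, hI.d3, hI.ho, hI.h1, hI.h3, g1, g2⟩
    rw [valK_B tabW_vF (Or.inl rfl) (Or.inl rfl) hε H]
    refine NFV.mono (θ := 19 / 20) (θ' := 1) (by norm_num) (by norm_num) hI.t0 hI.t0' hTT ?_
    obtain ⟨x, y, h1, h2, h3, ⟨e1, e2⟩ | ⟨h4, e1, e2⟩⟩ := par_v123 hI.q1 hI.q2 hI.q3 hN
    · exact main_B03ppz123 ctv_vF h1 h2 h3 e1 e2 k2 k3 k4 k5 hW hε H
    · exact main_B03ppb123 ctv_vF h1 h2 h3 h4 e1 e2 k3 k4 k5 hε H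
  rcases le_total 0 (1 * cv 3 (t + t') - 1 * cv 0 t) with hX | hX
  · exact fin 1 (Or.inl rfl) (seg_pos hI.t0' hX hI.h1 hI.h3)
  · exact fin (-1) (Or.inr rfl) (seg_neg hI.t0' hX hI.h1 hI.h3)

end Pool.Agent.Strip051.LC.Line.Corn
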