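import Pool.Agent.Strip051.LC.Line.Slope
import Pool.Agent.StripSquare.Arc

/-! # The two-slope density with the period `h0` -/

namespace Pool.Agent.Strip051.LC.Line

open Pool.Agent.StripNear Pool.Agent.StripSquare MeasureTheory intervalIntegral

/-- The two-slope density. -/
noncomputable def D (s κ x : ℝ) : ℝ := Dd h0 s κ x

theorem D_add (s κ x : ℝ) : D s κ (x + h0) = D s κ x := Dd_periodic h0_pos x

theorem D_add_int (s κ x : ℝ) (k : ℤ) : D s κ (x + k * h0) = D s κ x := Dd_add_int h0_pos x k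

theorem D_add_nat (s κ x : ℝ) (k : ℕ) : D s κ (x + k * h0) = D s κ x := by
  have := D_add_int s κ x k
  simpa using this

/-- The density on the cell. -/
theorem D_low {s κ x : ℝ} (h0x : 0 ≤ x) (hx : x ≤ s) (hs : s < h0) :
    D s κ x = κ * ((h0 - s) / (2 * h0) * (2 * x - s)) := Dd_cell h0_pos hs h0x hx

/-- The density on the gap. -/
theorem D_high {s κ x : ℝ} (hx : s ≤ x) (hxh : x ≤ h0) (hs0 : 0 ≤ s) :
    D s κ x = κ * (s / (2 * h0) * (h0 + s - 2 * x)) := Dd_gap h0_pos hs0 hx hxh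

theorem D_abs {s κ : ℝ} (hs0 : 0 ≤ s) (hs1 : s < h0) (hκ : 0 ≤ κ) (x : ℝ) :
    |D s κ x| ≤ κ * (s * (h0 - s) / (2 * h0)) := Dd_abs h0_pos hs0 hs1 hκ x

theorem D_refl {s : ℝ} (κ : ℝ) (hs0 : 0 ≤ s) (hs1 : s < h0) (x : ℝ) :
    D s κ (s - x) = -D s κ x := Dd_mirror h0_pos hs0 hs1 x

/-- The reflection in the middle of the strip. -/
theorem D_mirror {s : ℝ} (κ : ℝ) (hs0 : 0 ≤ s) (hs1 : s < h0) (n : ℕ) (x : ℝ) :
    D s κ (n * h0 + s - x) = -D s κ x := by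
  have e1 : (n : ℝ) * h0 + s - x = (s - x) + n * h0 := by ring
  rw [e1, D_add_nat, D_refl κ hs0 hs1]

theorem D_integral {s : ℝ} (κ : ℝ) (hs0 : 0 ≤ s) (hs1 : s < h0) (a : ℝ) :
    ∫ x in a..(a + h0), D s κ x = 0 := Dd_mean h0_pos hs0 hs1 a

theorem D_integrable {s : ℝ} (κ : ℝ) (hs0 : 0 ≤ s) (a b : ℝ) :
    IntervalIntegrable (D s κ) volume a b := Dd_integrable h0_pos hs0 a b

theorem mn_self (f : ℝ → ℝ) (a : ℝ) : mn f a a = f a := by
  unfold mn
  simp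

end Pool.Agent.Strip051.LC.Line
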