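import Pool.Agent.Strip051.LC.Line.Corn.Use
import Pool.Agent.Strip051.LC.Line.Corn.KA00pp011
import Pool.Agent.Strip051.LC.Line.Corn.KA00pm011
import Pool.Agent.Strip051.LC.Line.Corn.KA00pp012
import Pool.Agent.Strip051.LC.Line.Corn.KA00pm022
import Pool.Agent.Strip051.LC.Line.Corn.KA00pm101
import Pool.Agent.Strip051.LC.Line.Corn.KA00mm101
import Pool.Agent.Strip051.LC.Line.Corn.KA00mm102
import Pool.Agent.Strip051.LC.Line.Corn.KA00pm202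

/-! # The aligned corners of the family A, curves 0 and 0 -/

namespace Pool.Agent.Strip051.LC.Line.Corn

open Pool.Agent.StripNear Pool.Agent.StripSquare Pool.Agent.Strip051.Sweep
  Pool.Agent.Strip051.LC Pool.Agent.Strip051.LC.Line.Glue

theorem cubeA_011_00_pp : CubeA 0 1 1 0 0 1 1 := by
  refine cubeA_of (Or.inl rfl) (Or.inl rfl) ?_
  intro ε hε i t t' hI hN H
  obtain ⟨ρ, a, h1, h2, h3, h4, e1, e2⟩ := par_011 hI.q1 hI.q2 hI.q3 hN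
  exact main_A00pp011 ct_vF h1 h2 h3 h4 e1 e2 (Q1.1 hI.q2).2 (Q1.1 hI.q3).2 hε H

theorem cubeA_011_00_pm : CubeA 0 1 1 0 0 1 (-1) := by
  refine cubeA_of (Or.inl rfl) (Or.inr rfl) ?_
  intro ε hε i t t' hI hN H
  obtain ⟨ρ, a, h1, h2, h3, h4, e1, e2⟩ := par_011 hI.q1 hI.q2 hI.q3 hN
  exact main_A00pm011 ct_vF h1 h2 h3 h4 e1 e2 (Q1.1 hI.q2).2 (Q1.1 hI.q3).2 hε H

theorem cubeA_012_00_pp : CubeA 0 1 2 0 0 1 1 := by
  refine cubeA_of (Or.inl rfl) (Or.inl rfl) ?_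
  intro ε hε i t t' hI hN H
  obtain ⟨ρ, a, h1, h2, h3, h4, e1, e2⟩ := par_012 hI.q1 hI.q2 hI.q3 hN
  exact main_A00pp012 ct_vF h1 h2 h3 h4 e1 e2 (Q1.1 hI.q2).2 hε H

theorem cubeA_022_00_pm : CubeA 0 2 2 0 0 1 (-1) := by
  refine cubeA_of (Or.inl rfl) (Or.inr rfl) ?_
  intro ε hε i t t' hI hN H
  rcases par_022 hI.q1 hI.q2 hI.q3 hN with ⟨e1, e2⟩ | ⟨ρ, a, h1, h2, h3, h4, e1, e2⟩
  · subst e1
    subst e2
    obtain ⟨-, -, -, -, -, -, -, hlo, hhi⟩ := H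
    rw [zero_add] at hlo hhi
    have hX : 1 * cv 0 0 + (-1) * cv 0 h0 = 1 / 2 := by
      rw [cv_z.1, cv_h.1]
      norm_num
    rw [hX] at hlo hhi
    have hs := seg_h (X := 1 / 2) hε (by norm_num) hlo hhi
    refine nfv_zero_022 (R12 := 1 * vF 0 (tg 0)) (R23 := (-1) * vF h0 (tg 0))
      (R13 := ε * segW vF i (ε * (1 * cv 0 0 + (-1) * cv 0 h0)) (0 + h0)) ?_ ?_
    · rw [cv_z.1]
      norm_num
    · rw [hX, zero_add, hs, vF_z.1, vF_h.1]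
      norm_num
  · exact main_A00pm022 ct_vF h1 h2 h3 h4 e1 e2 hε H

theorem cubeA_101_00_pm : CubeA 1 0 1 0 0 1 (-1) := by
  refine cubeA_of (Or.inl rfl) (Or.inr rfl) ?_
  intro ε hε i t t' hI hN H
  obtain ⟨ρ, a, h1, h2, h3, h4, e1, e2⟩ := par_101 hI.q1 hI.q2 hI.q3 hN
  exact main_A00pm101 ct_vF h1 h2 h3 h4 e1 e2 (Q1.1 hI.q1).2 (Q1.1 hI.q3).2 hε H

theorem cubeA_101_00_mm : CubeA 1 0 1 0 0 (-1) (-1) := by
  refine cubeA_of (Or.inr rfl) (Or.inr rfl) ?_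
  intro ε hε i t t' hI hN H
  obtain ⟨ρ, a, h1, h2, h3, h4, e1, e2⟩ := par_101 hI.q1 hI.q2 hI.q3 hN
  exact main_A00mm101 ct_vF h1 h2 h3 h4 e1 e2 (Q1.1 hI.q1).2 (Q1.1 hI.q3).2 hε H

theorem cubeA_102_00_mm : CubeA 1 0 2 0 0 (-1) (-1) := by
  refine cubeA_of (Or.inr rfl) (Or.inr rfl) ?_
  intro ε hε i t t' hI hN H
  obtain ⟨ρ, a, h1, h2, h3, h4, e1, e2⟩ := par_102 hI.q1 hI.q2 hI.q3 hN
  exact main_A00mm102 ct_vF h1 h2 h3 h4 e1 e2 (Q1.1 hI.q1).2 hε H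

theorem cubeA_202_00_pm : CubeA 2 0 2 0 0 1 (-1) := by
  refine cubeA_of (Or.inl rfl) (Or.inr rfl) ?_
  intro ε hε i t t' hI hN H
  rcases par_202 hI.q1 hI.q2 hI.q3 hN with ⟨e1, e2⟩ | ⟨ρ, a, h1, h2, h3, h4, e1, e2⟩
  · subst e1
    subst e2
    obtain ⟨-, -, -, -, -, -, -, hlo, hhi⟩ := H
    rw [add_zero] at hlo hhi
    have hX : 1 * cv 0 h0 + (-1) * cv 0 0 = -1 / 2 := by
      rw [cv_h.1, cv_z.1]
      norm_num
    rw [hX] at hlo hhi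
    have hs := seg_h (X := -1 / 2) hε (by norm_num) hlo hhi
    refine nfv_zero_202 (R12 := 1 * vF h0 (tg 0)) (R23 := (-1) * vF 0 (tg 0))
      (R13 := ε * segW vF i (ε * (1 * cv 0 h0 + (-1) * cv 0 0)) (h0 + 0)) ?_ ?_
    · rw [cv_h.1, cv_z.1]
      norm_num
    · rw [hX, add_zero, hs, vF_h.1, vF_z.1]
      norm_num
  · exact main_A00pm202 ct_vF h1 h2 h3 h4 e1 e2 hε H

end Pool.Agent.Strip051.LC.Line.Corn
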