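import Pool.Agent.Strip051.LC.Line.Corn.Use
import Pool.Agent.Strip051.LC.Line.Corn.KA02pm011
import Pool.Agent.Strip051.LC.Line.Corn.KA02pm012

/-! # The aligned corners of the family A, curves 0 and 2 -/

namespace Pool.Agent.Strip051.LC.Line.Corn

open Pool.Agent.StripNear Pool.Agent.StripSquare Pool.Agent.Strip051.Sweep
  Pool.Agent.Strip051.LC Pool.Agent.Strip051.LC.Line.Glue

theorem cubeA_011_02_pm : CubeA 0 1 1 0 2 1 (-1) := by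
  refine cubeA_of (Or.inl rfl) (Or.inr rfl) ?_
  intro ε hε i t t' hI hN H
  obtain ⟨ρ, a, h1, h2, h3, h4, e1, e2⟩ := par_011 hI.q1 hI.q2 hI.q3 hN
  exact main_A02pm011 ct_vF h1 h2 h3 h4 e1 e2 (Q1.1 hI.q2).2 (Q1.1 hI.q3).2 hε H

theorem cubeA_012_02_pm : CubeA 0 1 2 0 2 1 (-1) := by
  refine cubeA_of (Or.inl rfl) (Or.inr rfl) ?_
  intro ε hε i t t' hI hN H
  obtain ⟨ρ, a, h1, h2, h3, h4, e1, e2⟩ := par_012 hI.q1 hI.q2 hI.q3 hN
  exact main_A02pm012 ct_vF h1 h2 h3 h4 e1 e2 (Q1.1 hI.q2).2 hε H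

end Pool.Agent.Strip051.LC.Line.Corn
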