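import Pool.Agent.Strip051.LC.Line.Corn.Use
import Pool.Agent.Strip051.LC.Line.Corn.KB11pp012
import Pool.Agent.Strip051.LC.Line.Corn.KB11pm012
import Pool.Agent.Strip051.LC.Line.Corn.KB11pp022
import Pool.Agent.Strip051.LC.Line.Corn.KB11pm022
import Pool.Agent.Strip051.LC.Line.Corn.KB11pm202
import Pool.Agent.Strip051.LC.Line.Corn.KB11pp213
import Pool.Agent.Strip051.LC.Line.Corn.KB11pm213

/-! # The aligned corners of the family B, curves 1 and 1 -/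

namespace Pool.Agent.Strip051.LC.Line.Corn

open Pool.Agent.StripNear Pool.Agent.StripSquare Pool.Agent.Strip051.Sweep
  Pool.Agent.Strip051.LC Pool.Agent.Strip051.LC.Line.Glue

theorem cubeB_012_11_pp : CubeB 0 1 2 1 1 1 1 := by
  refine cubeB_of (Or.inl rfl) (Or.inl rfl) ?_
  intro ε hε i t t' hI hN H
  obtain ⟨ρ, a, h1, h2, h3, h4, e1, e2⟩ := par_012 hI.q1 hI.q2 hI.q3 hN
  exact main_B11pp012 ct_vF h1 h2 h3 h4 e1 e2 (Q1.1 hI.q2).2 hε H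

theorem cubeB_012_11_pm : CubeB 0 1 2 1 1 1 (-1) := by
  refine cubeB_of (Or.inl rfl) (Or.inr rfl) ?_
  intro ε hε i t t' hI hN H
  obtain ⟨ρ, a, h1, h2, h3, h4, e1, e2⟩ := par_012 hI.q1 hI.q2 hI.q3 hN
  exact main_B11pm012 ct_vF h1 h2 h3 h4 e1 e2 (Q1.1 hI.q2).2 hε H

theorem cubeB_022_11_pp : CubeB 0 2 2 1 1 1 1 := by
  refine cubeB_of (Or.inl rfl) (Or.inl rfl) ?_
  intro ε hε i t t' hI hN H
  rcases par_022 hI.q1 hI.q2 hI.q3 hN with ⟨e1, e2⟩ | ⟨ρ, a, h1, h2, h3, h4, e1, e2⟩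
  · subst e1
    subst e2
    obtain ⟨-, -, -, -, -, -, -, hlo, hhi⟩ := H
    rw [zero_add] at hlo hhi
    have hX : 1 * cv 1 h0 - 1 * cv 1 0 = -1 / 2 := by
      rw [cv_z.2.1, cv_h.2.1]
      norm_num
    rw [hX] at hlo hhi
    have hs := seg_h (X := -1 / 2) hε (by norm_num) hlo hhi
    refine nfv_zero_022 (R12 := 1 * vF 0 (tg 1))
      (R23 := ε * segW vF i (ε * (1 * cv 1 (0 + h0) - 1 * cv 1 0)) h0)
      (R13 := 1 * vF (0 + h0) (tg 1)) ?_ ?_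
    · rw [cv_z.2.1]
      norm_num
    · rw [zero_add, hX, hs, vF_z.2, vF_h.2.1]
      norm_num
  · exact main_B11pp022 ct_vF h1 h2 h3 h4 e1 e2 hε H

theorem cubeB_022_11_pm : CubeB 0 2 2 1 1 1 (-1) := by
  refine cubeB_of (Or.inl rfl) (Or.inr rfl) ?_
  intro ε hε i t t' hI hN H
  rcases par_022 hI.q1 hI.q2 hI.q3 hN with ⟨e1, e2⟩ | ⟨ρ, a, h1, h2, h3, h4, e1, e2⟩
  · subst e1
    subst e2
    obtain ⟨-, -, -, -, -, -, -, hlo, hhi⟩ := H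
    rw [zero_add] at hlo hhi
    have hX : (-1) * cv 1 h0 - 1 * cv 1 0 = -3 / 2 := by
      rw [cv_z.2.1, cv_h.2.1]
      norm_num
    rw [hX] at hlo hhi
    have hs := seg_h (X := -3 / 2) hε (by norm_num) hlo hhi
    refine nfv_zero_022 (R12 := 1 * vF 0 (tg 1))
      (R23 := ε * segW vF i (ε * ((-1) * cv 1 (0 + h0) - 1 * cv 1 0)) h0)
      (R13 := (-1) * vF (0 + h0) (tg 1)) ?_ ?_
    · rw [cv_z.2.1]
      norm_num
    · rw [zero_add, hX, hs, vF_z.2, vF_h.2.1]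
      norm_num
  · exact main_B11pm022 ct_vF h1 h2 h3 h4 e1 e2 hε H

theorem cubeB_202_11_pm : CubeB 2 0 2 1 1 1 (-1) := by
  refine cubeB_of (Or.inl rfl) (Or.inr rfl) ?_
  intro ε hε i t t' hI hN H
  rcases par_202 hI.q1 hI.q2 hI.q3 hN with ⟨e1, e2⟩ | ⟨ρ, a, h1, h2, h3, h4, e1, e2⟩
  · subst e1
    subst e2
    obtain ⟨-, -, -, -, -, -, -, hlo, hhi⟩ := H
    rw [add_zero] at hlo hhi
    have hX : (-1) * cv 1 h0 - 1 * cv 1 h0 = -1 := by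
      rw [cv_h.2.1]
      norm_num
    rw [hX] at hlo hhi
    have hs := seg_z hε hlo hhi
    refine nfv_zero_202 (R12 := 1 * vF h0 (tg 1))
      (R23 := ε * segW vF i (ε * ((-1) * cv 1 (h0 + 0) - 1 * cv 1 h0)) 0)
      (R13 := (-1) * vF (h0 + 0) (tg 1)) ?_ ?_
    · rw [add_zero, cv_h.2.1]
      norm_num
    · rw [add_zero, hX, hs, vF_h.2.1]
      norm_num
  · exact main_B11pm202 ct_vF h1 h2 h3 h4 e1 e2 hε H

theorem cubeB_213_11_pp : CubeB 2 1 3 1 1 1 1 := by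
  refine cubeB_of (Or.inl rfl) (Or.inl rfl) ?_
  intro ε hε i t t' hI hN H
  obtain ⟨ρ, a, h1, h2, h3, h4, e1, e2⟩ := par_213 hI.q1 hI.q2 hI.q3 hN
  exact main_B11pp213 ct_vF h1 h2 h3 h4 e1 e2 (Q1.1 hI.q2).2 hε H

theorem cubeB_213_11_pm : CubeB 2 1 3 1 1 1 (-1) := by
  refine cubeB_of (Or.inl rfl) (Or.inr rfl) ?_
  intro ε hε i t t' hI hN H
  obtain ⟨ρ, a, h1, h2, h3, h4, e1, e2⟩ := par_213 hI.q1 hI.q2 hI.q3 hN
  exact main_B11pm213 ct_vF h1 h2 h3 h4 e1 e2 (Q1.1 hI.q2).2 hε H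

end Pool.Agent.Strip051.LC.Line.Corn
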