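import Pool.Agent.Strip051.LC.Line.Corn.Use
import Pool.Agent.Strip051.LC.Line.Corn.KB20pp101
import Pool.Agent.Strip051.LC.Line.Corn.KB20pp102

/-! # The aligned corners of the family B, curves 2 and 0 -/

namespace Pool.Agent.Strip051.LC.Line.Corn

open Pool.Agent.StripNear Pool.Agent.StripSquare Pool.Agent.Strip051.Sweep
  Pool.Agent.Strip051.LC Pool.Agent.Strip051.LC.Line.Glue

theorem cubeB_101_20_pp : CubeB 1 0 1 2 0 1 1 := by
  refine cubeB_of (Or.inl rfl) (Or.inl rfl) ?_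
  intro ε hε i t t' hI hN H
  obtain ⟨ρ, a, h1, h2, h3, h4, e1, e2⟩ := par_101 hI.q1 hI.q2 hI.q3 hN
  exact main_B20pp101 ct_vF h1 h2 h3 h4 e1 e2 (Q1.1 hI.q1).2 (Q1.1 hI.q3).2 hε H

theorem cubeB_102_20_pp : CubeB 1 0 2 2 0 1 1 := by
  refine cubeB_of (Or.inl rfl) (Or.inl rfl) ?_
  intro ε hε i t t' hI hN H
  obtain ⟨ρ, a, h1, h2, h3, h4, e1, e2⟩ := par_102 hI.q1 hI.q2 hI.q3 hN
  exact main_B20pp102 ct_vF h1 h2 h3 h4 e1 e2 (Q1.1 hI.q1).2 hε H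

end Pool.Agent.Strip051.LC.Line.Corn
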