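import Pool.Agent.Strip051.LC.Line.UnitRow

/-! # The floor rows: monotonicity in the height, the unit circle, the steep curve -/

namespace Pool.Agent.Strip051.LC.Line

open Pool.Agent.StripNear Pool.Agent.StripSquare Pool.Agent.Strip051.Sweep MeasureTheory
  intervalIntegral

/-- The size of the kernel factor `A` of an edge with the horizontal displacement `X`. -/
def Sz (X A : ℝ) : Prop := A ≤ X ∧ -X ≤ √3 * A

theorem Sz.mix {X A Y B t : ℝ} (h1 : Sz X A) (h2 : Sz Y B) (ht0 : 0 ≤ t) (ht1 : t ≤ 1) :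
    Sz (X + (Y - X) * t) (A + (B - A) * t) := by
  obtain ⟨a1, a2⟩ := h1
  obtain ⟨b1, b2⟩ := h2
  constructor
  · nlinarith [mul_nonneg ht0 (sub_nonneg.2 b1), mul_nonneg (sub_nonneg.2 ht1) (sub_nonneg.2 a1)]
  · have : 0 ≤ √3 * A + X := by linarith
    have h' : 0 ≤ √3 * B + Y := by linarith
    nlinarith [mul_nonneg ht0 h', mul_nonneg (sub_nonneg.2 ht1) this]

/-- The two products of the slope of the density. -/
theorem kap_bd {θ s : ℝ} (_ : 0 < θ) (hθ : θ ≤ 1) (hs0 : 0 ≤ s) (hs1 : s < h0) :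
    kap θ s * (h0 - s) ≤ 1 ∧ kap θ s * s ≤ √3 := by
  have w2 : √3 ^ 2 = 3 := Real.sq_sqrt (by norm_num)
  have w0 : 0 < √3 := Real.sqrt_pos.2 (by norm_num)
  have w1 : √3 < 2 := by nlinarith
  have hL := L0_pos hs1
  have hh : h0 = √3 / 2 := rfl
  unfold kap
  constructor
  · rw [div_mul_eq_mul_div, div_le_one hL]
    have h1 : θ * (h0 - s) ≤ 1 * (h0 - s) := mul_le_mul_of_nonneg_right hθ (by linarith)
    unfold L0 at hL ⊢
    rw [hh] at h1 ⊢
    linarith
  · rw [div_mul_eq_mul_div, div_le_iff₀ hL]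
    have h1 : θ * s ≤ 1 * s := mul_le_mul_of_nonneg_right hθ hs0
    have h2 : s * (2 + √3) ≤ h0 * (2 + √3) := mul_le_mul_of_nonneg_right hs1.le (by linarith)
    unfold L0
    rw [hh] at h2
    nlinarith

theorem Sz.mono {θ s X A : ℝ} (h : Sz X A) (_ : 0 ≤ X) (hθ0 : 0 < θ) (hθ : θ ≤ 1) (hs0 : 0 ≤ s)
    (hs1 : s < h0) : MonoAt s (kap θ s) X A 0 := by
  obtain ⟨h1, h2⟩ := h
  obtain ⟨k1, k2⟩ := kap_bd hθ0 hθ hs0 hs1
  have w0 : 0 < √3 := Real.sqrt_pos.2 (by norm_num)
  unfold MonoAt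
  rcases le_total 0 A with hA | hA
  · rw [max_eq_left hA, max_eq_right (by linarith : -A ≤ 0)]
    have := mul_le_mul_of_nonneg_right k1 hA
    linarith
  · rw [max_eq_right hA, max_eq_left (by linarith : 0 ≤ -A)]
    have := mul_le_mul_of_nonneg_right k2 (by linarith : 0 ≤ -A)
    nlinarith

/-- The slack of the pair with the displacement `(X, T)` and the lower disc at the height `y`. -/
noncomputable def SY (s κ w X T A y : ℝ) : ℝ :=
  X * (w + (2 * y + T) / (2 * h0)) - A * mn (D s κ) y (y + tau T) - 1 / 2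

theorem SY_of_S0 {s κ w X T A y : ℝ} (hs0 : 0 ≤ s) (hs1 : s < h0) (hκ : 0 ≤ κ)
    (hM : MonoAt s κ X A 0) (hS : 0 ≤ S0 s κ w X T A 0) (hy : 0 ≤ y) : 0 ≤ SY s κ w X T A y := by
  have hp := h0_pos
  have h1 := slack_mono hs0 hs1 hκ hM hy (tau T)
  unfold S0 at hS
  unfold SY
  have e : X * (w + (2 * y + T) / (2 * h0)) = X * (w + T / (2 * h0)) + X / h0 * y := by
    field_simp
    ring
  rw [e]
  nlinarith

/-- The crude bound. -/
theorem SY_crude {θ s X T A y : ℝ} (hθ0 : 0 < θ) (hs0 : 0 ≤ s) (hs1 : s < h0) (hX : 0 ≤ X)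
    (hy : 0 ≤ y) (h : 1 / 2 + amp θ s * (X + |A|) ≤ X * (1 / 2 + T / (2 * h0))) :
    0 ≤ SY s (kap θ s) (1 / 2 - amp θ s) X T A y := by
  have hp := h0_pos
  have hκ : 0 ≤ kap θ s := (div_pos hθ0 (L0_pos hs1)).le
  have h1 : |mn (D s (kap θ s)) y (y + tau T)| ≤ amp θ s :=
    mn_abs (fun z => D_abs hs0 hs1 hκ z) _ _
  have h2 : A * mn (D s (kap θ s)) y (y + tau T) ≤ |A| * amp θ s := by
    refine (le_abs_self _).trans ?_
    rw [abs_mul]
    exact mul_le_mul_of_nonneg_left h1 (abs_nonneg A)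
  unfold SY
  have e : X * (1 / 2 - amp θ s + (2 * y + T) / (2 * h0)) =
      X * (1 / 2 + T / (2 * h0)) + X * y / h0 - amp θ s * X := by
    field_simp
    ring
  rw [e]
  have h3 : 0 ≤ X * y / h0 := by positivity
  linarith

/-- The slack is affine in `(X, A)`. -/
theorem SY_mix {s κ w X T A Y B t y : ℝ} (h1 : 0 ≤ SY s κ w X T A y) (h2 : 0 ≤ SY s κ w Y T B y)
    (ht0 : 0 ≤ t) (ht1 : t ≤ 1) : 0 ≤ SY s κ w (X + (Y - X) * t) T (A + (B - A) * t) y := by
  have e : SY s κ w (X + (Y - X) * t) T (A + (B - A) * t) y =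
      (1 - t) * SY s κ w X T A y + t * SY s κ w Y T B y := by
    unfold SY
    ring
  rw [e]
  have := sub_nonneg.2 ht1
  positivity

/-- The kernel on the unit circle is small. -/
theorem A1u_Sz {T : ℝ} (hT0 : 0 ≤ T) : Sz √(1 - T ^ 2) (A1u T) := by
  have w2 : √3 ^ 2 = 3 := Real.sq_sqrt (by norm_num)
  have w0 : 0 < √3 := Real.sqrt_pos.2 (by norm_num)
  have w1 : √3 < 2 := by nlinarith
  have hh : h0 = √3 / 2 := rfl
  have hX0 : 0 ≤ √(1 - T ^ 2) := Real.sqrt_nonneg _
  rcases le_or_gt T h0 with hT | hT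
  · obtain ⟨a, ha0, ha1, e1, e2⟩ := half_angle hT0 hT
    have ha3 : 0 < 3 + a ^ 2 := by positivity
    rcases ha0.eq_or_lt with ha | ha
    · have hT' : T = 0 := by
        rw [e1, ← ha]
        simp
      rw [hT', A1u_zero]
      simp only [ne_eq, OfNat.ofNat_ne_zero, not_false_eq_true, zero_pow, sub_zero, Real.sqrt_one]
      exact ⟨le_rfl, by linarith⟩
    rcases ha1.eq_or_lt with ha' | ha'
    · have hT' : T = h0 := by
        rw [e1, ha', hh]
        ring
      have e : √(1 - h0 ^ 2) = 1 / 2 := by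
        rw [h0_sq, show (1 : ℝ) - 3 / 4 = (1 / 2) ^ 2 by norm_num]
        exact Real.sqrt_sq (by norm_num)
      rw [hT', A1u_h0, e]
      exact ⟨le_rfl, by linarith⟩
    have hb : 0 < 1 - a := by linarith
    rw [A1u_eq ha ha' e1 e2, e2]
    unfold tau jn
    split_ifs with g1 g2
    · -- below half a period
      push_cast
      have e : (3 - 6 * a - a ^ 2) / (2 * √3 * a * (1 - a)) * (T - 0 * h0) =
          (3 - 6 * a - a ^ 2) / ((1 - a) * (3 + a ^ 2)) := by
        rw [e1]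
        field_simp
        ring
      rw [e]
      have hpos : 0 < 3 - 6 * a - a ^ 2 := by
        rw [e1, hh, div_lt_iff₀ ha3] at g1
        nlinarith
      constructor
      · rw [div_le_div_iff₀ (by positivity) ha3]
        nlinarith [mul_nonneg (mul_nonneg ha.le ha3.le) ha3.le]
      · have k1 : 0 ≤ (3 - a ^ 2) / (3 + a ^ 2) := div_nonneg (by nlinarith) ha3.le
        have k2 : 0 ≤ √3 * ((3 - 6 * a - a ^ 2) / ((1 - a) * (3 + a ^ 2))) := by positivity
        linarith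
    · push_cast
      have e : (3 - 6 * a - a ^ 2) / (2 * √3 * a * (1 - a)) * (T - 1 * h0) =
          -((3 - a) * (3 - 6 * a - a ^ 2)) / (4 * a * (3 + a ^ 2)) := by
        rw [e1, hh]
        field_simp
        ring
      rw [e]
      have ha38 : 3 / 8 < a := by
        rw [e1, hh, not_lt, div_div, div_le_div_iff₀ (by norm_num) ha3] at g1
        by_contra hc
        rw [not_lt] at hc
        nlinarith
      constructor
      · rw [div_le_div_iff₀ (by positivity) ha3]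
        have : 0 ≤ (1 - a) * (a ^ 2 + 3) := by positivity
        nlinarith [mul_nonneg this ha3.le]
      · have k : √3 * (-((3 - a) * (3 - 6 * a - a ^ 2)) / (4 * a * (3 + a ^ 2))) +
            (3 - a ^ 2) / (3 + a ^ 2) =
            (4 * a * (3 - a ^ 2) - √3 * ((3 - a) * (3 - 6 * a - a ^ 2))) /
              (4 * a * (3 + a ^ 2)) := by
          field_simp
          ring
        have k2 : 0 ≤ 4 * a * (3 - a ^ 2) - √3 * ((3 - a) * (3 - 6 * a - a ^ 2)) := by
          rcases le_total 0 ((3 - a) * (3 - 6 * a - a ^ 2)) with k3 | k3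
          · have k4 : √3 * ((3 - a) * (3 - 6 * a - a ^ 2)) ≤ 2 * ((3 - a) * (3 - 6 * a - a ^ 2)) :=
              mul_le_mul_of_nonneg_right w1.le k3
            nlinarith [mul_nonneg (sub_nonneg.2 ha38.le) hb.le,
              mul_nonneg (mul_nonneg (sub_nonneg.2 ha38.le) hb.le) ha.le]
          · have k4 : √3 * ((3 - a) * (3 - 6 * a - a ^ 2)) ≤ 0 :=
              mul_nonpos_of_nonneg_of_nonpos w0.le k3
            have k5 : 0 ≤ 4 * a * (3 - a ^ 2) := mul_nonneg (by linarith) (by nlinarith)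
            linarith
        have k3 := div_nonneg k2 (by positivity : 0 ≤ 4 * a * (3 + a ^ 2))
        linarith
    · exfalso
      have := h0_pos
      linarith
  · have e : A1u T = √(1 - T ^ 2) := by
      unfold A1u
      rw [if_neg (by linarith [h0_pos]), if_neg hT.not_ge]
    rw [e]
    exact ⟨le_rfl, by nlinarith⟩

/-- **The unit row** for every height. -/
theorem SY_unit {θ s T y : ℝ} (hθ0 : 0 < θ) (hθ : θ ≤ 1) (hs0 : 0 ≤ s) (hs1 : s < h0)
    (hT0 : 0 ≤ T) (hT : T ≤ h0) (hy : 0 ≤ y) :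
    0 ≤ SY s (kap θ s) (1 / 2 - amp θ s) √(1 - T ^ 2) T (A1u T) y :=
  SY_of_S0 hs0 hs1 (div_pos hθ0 (L0_pos hs1)).le
    ((A1u_Sz hT0).mono (Real.sqrt_nonneg _) hθ0 hθ hs0 hs1)
    (S0_unit hθ0 hθ hs0 hs1 hT0 hT) hy

end Pool.Agent.Strip051.LC.Line
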