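import Pool.Agent.Strip051.LC.Line.TableF
import Pool.Agent.Strip051.LC.Line.WallMono

/-! # Elementary facts on the table -/

namespace Pool.Agent.Strip051.LC.Line

open Pool.Agent.StripNear Pool.Agent.StripSquare Pool.Agent.Strip051.Sweep
  Pool.Agent.Strip051.LC

theorem mixK {a b t K : ℝ} (h0 : 0 ≤ t) (h1 : t ≤ 1) (ha : |a| ≤ K) (hb : |b| ≤ K) :
    |a + (b - a) * t| ≤ K := by
  rw [abs_le] at *
  constructor <;> nlinarith

theorem lin_abs {p a q b T K : ℝ} (hpq : p < q) (h1 : p * h0 ≤ T) (h2 : T ≤ q * h0)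
    (ha : |a| ≤ K) (hb : |b| ≤ K) : |lin p a q b T| ≤ K := by
  have hp := h0_pos
  have hd : 0 < q - p := by linarith
  unfold lin
  refine mixK ?_ ?_ ha hb
  · exact div_nonneg (by rw [sub_nonneg, le_div_iff₀ hp]; exact h1) hd.le
  · rw [div_le_one hd]
    have : T / h0 ≤ q := by rwa [div_le_iff₀ hp]
    linarith

/-- Bounds for `h0`. -/
theorem h0_num : 8660 / 10000 < h0 ∧ h0 < 8661 / 10000 := by
  have hp := h0_pos
  have hq := h0_sq'
  constructor <;> nlinarith

theorem tB1_abs {T : ℝ} (h0T : 0 ≤ T) (h3 : T ^ 2 ≤ 3) : |tB1 T| ≤ 3 / 2 := by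
  obtain ⟨n1, n2⟩ := h0_num
  have hp := h0_pos
  have hq := h0_sq'
  have h2 : T ≤ 2 * h0 := by nlinarith
  unfold tB1
  split_ifs with c1 c2 c3 c4 c5 c6
  · exact lin_abs (by norm_num) (by linarith) (by linarith) (by norm_num [abs_le])
      (by norm_num [abs_le])
  · exact lin_abs (by norm_num) (by linarith) (by linarith) (by norm_num [abs_le])
      (by norm_num [abs_le])
  · exact lin_abs (by norm_num) (by linarith) (by linarith) (by norm_num [abs_le])
      (by norm_num [abs_le])
  · exact lin_abs (by norm_num) (by linarith) (by linarith) (by norm_num [abs_le])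
      (by norm_num [abs_le])
  · have hd : 0 < 1 - 9 / 8 * h0 := by linarith
    have := mixK (a := 951 / 1000) (b := 1) (K := 3 / 2)
      (t := (T - 9 / 8 * h0) / (1 - 9 / 8 * h0)) (div_nonneg (by linarith) hd.le)
      (by rw [div_le_one hd]; linarith) (by norm_num [abs_le]) (by norm_num [abs_le])
    norm_num at this ⊢
    exact this
  · have hd : 0 < 3 / 2 * h0 - 1 := by linarith
    have := mixK (a := 1) (b := -33 / 1000) (K := 3 / 2)
      (t := (T - 1) / (3 / 2 * h0 - 1)) (div_nonneg (by linarith) hd.le)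
      (by rw [div_le_one hd]; linarith) (by norm_num [abs_le]) (by norm_num [abs_le])
    norm_num at this ⊢
    exact this
  · exact lin_abs (by norm_num) (by linarith) (by linarith) (by norm_num [abs_le])
      (by norm_num [abs_le])

theorem tB2_abs {T : ℝ} (h0T : 0 ≤ T) (h3 : T ^ 2 ≤ 3) : |tB2 T| ≤ 3 / 2 := by
  obtain ⟨n1, n2⟩ := h0_num
  have hp := h0_pos
  have hq := h0_sq'
  have h2 : T ≤ 2 * h0 := by nlinarith
  unfold tB2
  split_ifs with c1 c2 c3 c4 c5 c6
  · exact lin_abs (by norm_num) (by linarith) (by linarith) (by norm_num [abs_le])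
      (by norm_num [abs_le])
  · exact lin_abs (by norm_num) (by linarith) (by linarith) (by norm_num [abs_le])
      (by norm_num [abs_le])
  · exact lin_abs (by norm_num) (by linarith) (by linarith) (by norm_num [abs_le])
      (by norm_num [abs_le])
  · exact lin_abs (by norm_num) (by linarith) (by linarith) (by norm_num [abs_le])
      (by norm_num [abs_le])
  · have hd : 0 < 1 - 9 / 8 * h0 := by linarith
    have := mixK (a := 814 / 1000) (b := 767 / 1000) (K := 3 / 2)
      (t := (T - 9 / 8 * h0) / (1 - 9 / 8 * h0)) (div_nonneg (by linarith) hd.le)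
      (by rw [div_le_one hd]; linarith) (by norm_num [abs_le]) (by norm_num [abs_le])
    norm_num at this ⊢
    exact this
  · have hd : 0 < 3 / 2 * h0 - 1 := by linarith
    have := mixK (a := 767 / 1000) (b := 444 / 1000) (K := 3 / 2)
      (t := (T - 1) / (3 / 2 * h0 - 1)) (div_nonneg (by linarith) hd.le)
      (by rw [div_le_one hd]; linarith) (by norm_num [abs_le]) (by norm_num [abs_le])
    norm_num at this ⊢
    exact this
  · exact lin_abs (by norm_num) (by linarith) (by linarith) (by norm_num [abs_le])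
      (by norm_num [abs_le])

theorem c3_le (T : ℝ) : c3 T ≤ 7 / 4 := by
  unfold c3
  rw [Real.sqrt_le_left (by norm_num)]
  nlinarith

/-- Bounds on the values `A3`. -/
theorem A3_abs {T : ℝ} (h0T : 0 ≤ T) (h3 : T ^ 2 ≤ 3) : |A3 T| ≤ 20 := by
  obtain ⟨n1, n2⟩ := h0_num
  have hp := h0_pos
  have hq := h0_sq'
  have w0 : 0 < √3 := Real.sqrt_pos.2 (by norm_num)
  have w2 : √3 ^ 2 = 3 := Real.sq_sqrt (by norm_num)
  have wl : 17320 / 10000 < √3 := by
    apply Real.lt_sqrt_of_sq_lt
    norm_num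
  have wu : √3 < 17321 / 10000 := by
    rw [Real.sqrt_lt' (by norm_num)]
    norm_num
  have cs := c3_sq h3
  have c0 := c3_nonneg T
  have cu := c3_le T
  have hd : T / √3 = T * √3 / 3 := by
    rw [div_eq_div_iff w0.ne' (by norm_num)]
    linear_combination (-T) * w2
  have hT2 : T ≤ 2 * h0 := by nlinarith
  unfold A3
  split_ifs with k1 k2 k3
  · have : 16 / 10 ≤ c3 T := by
      unfold c3
      apply Real.le_sqrt_of_sq_le
      nlinarith
    rw [abs_div, div_le_iff₀ (abs_pos.2 (by linarith)), abs_of_pos (by linarith : 0 < c3 T - 3 / 2),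
      abs_neg, abs_of_nonneg (sq_nonneg T)]
    nlinarith
  · rw [abs_of_nonneg (div_nonneg (mul_nonneg h0T (by linarith)) (by linarith)),
      div_le_iff₀ (by linarith)]
    nlinarith
  · have : 1 ≤ c3 T := by
      unfold c3
      apply Real.le_sqrt_of_sq_le
      nlinarith
    have hx : T / √3 ≤ 76 / 100 := by
      rw [div_le_iff₀ w0]
      nlinarith
    have hx0 : 0 ≤ T / √3 := by positivity
    rw [abs_of_nonneg (div_nonneg (mul_nonneg (by linarith) (by linarith)) (by linarith)),
      div_le_iff₀ (by linarith)]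
    nlinarith
  · have hc : c3 T ≤ 12 / 10 := by
      unfold c3
      rw [Real.sqrt_le_left (by norm_num)]
      nlinarith
    have hx : 74 / 100 ≤ T / √3 := by
      rw [le_div_iff₀ w0]
      nlinarith
    have hx1 : T / √3 ≤ 1 := by
      rw [div_le_one w0]
      nlinarith
    rw [abs_div, div_le_iff₀ (abs_pos.2 (by linarith)),
      abs_of_pos (by linarith : 0 < 1 + T / √3 - c3 T), abs_neg, abs_mul, abs_of_nonneg c0]
    have : |c3 T - T / √3| ≤ 2 := by
      rw [abs_le]
      constructor <;> linarith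
    nlinarith [abs_nonneg (c3 T - T / √3)]

theorem tabW_vF : TabW vF := by
  obtain ⟨n1, n2⟩ := h0_num
  have hp := h0_pos
  have hq := h0_sq'
  refine ⟨fun T hT => vF_0' hT, ?_, ?_, ?_⟩
  · rw [vF_1 le_rfl, vF_0 le_rfl one_pos, A1u_zero]
    unfold tB1 f1 lin
    rw [if_pos (by linarith), W_zero, c1_zero']
    norm_num
  · rw [vF_1 hp.le, vF_0 hp.le (by linarith), A1u_h0]
    unfold tB1 f1 lin
    rw [if_neg (by linarith), if_neg (by linarith), if_neg (lt_irrefl _), if_pos (by linarith),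
      W_h0, c1_h0, div_self hp.ne']
    norm_num
  · intro T i hT
    rcases lt_or_ge T 0 with hneg | h0T
    · unfold vF
      rw [if_pos hneg]
    have h1 : 1 ≤ T := by nlinarith
    have e1 : f1 T = 0 := by
      unfold f1
      rw [c1_zero h1, W_top h0T hT]
      norm_num
    have e2 : f2 T = 0 := by
      unfold f2
      rw [W_top h0T hT, c3_top hT]
      norm_num
    have e3 : A3 T = 0 := by
      unfold A3
      rw [if_neg (by nlinarith), if_neg (by nlinarith), if_neg (by nlinarith), c3_top hT]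
      simp
    unfold vF
    rw [if_neg h0T.not_gt, if_neg h1.not_gt, e1, e2, e3]
    simp

theorem f1_abs {T : ℝ} : |f1 T| ≤ 2 := by
  have a1 := c1_nonneg T
  have a2 : c1 T ≤ 1 := by
    unfold c1
    rw [Real.sqrt_le_left (by norm_num)]
    nlinarith
  have b1 := Real.sqrt_nonneg (1 - (T - h0) ^ 2)
  have b2 : √(1 - (T - h0) ^ 2) ≤ 1 := by
    rw [Real.sqrt_le_left (by norm_num)]
    nlinarith
  unfold f1 Wc
  split_ifs <;> rw [abs_le] <;> constructor <;> linarith

theorem f2_abs {T : ℝ} : |f2 T| ≤ 2 := by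
  have a1 := c3_nonneg T
  have a2 := c3_le T
  have b1 := Real.sqrt_nonneg (1 - (T - h0) ^ 2)
  have b2 : √(1 - (T - h0) ^ 2) ≤ 1 := by
    rw [Real.sqrt_le_left (by norm_num)]
    nlinarith
  unfold f2 Wc
  split_ifs <;> rw [abs_le] <;> constructor <;> linarith

theorem unit_vF (T : ℝ) (h0T : 0 ≤ T) (h1 : T < 1) : vF T 0 = A1u T := vF_0 h0T h1

theorem vF_abs {T : ℝ} (h0T : 0 ≤ T) (h3 : T ^ 2 ≤ 3) (i : Fin 5) : |vF T i| ≤ 20 := by
  have w0 : 0 < √3 := Real.sqrt_pos.2 (by norm_num)
  have wl : 17320 / 10000 < √3 := by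
    apply Real.lt_sqrt_of_sq_lt
    norm_num
  unfold vF
  rw [if_neg h0T.not_gt]
  split_ifs with h k1 h h h
  · obtain ⟨a1, a2⟩ := A1u_Sz h0T
    have b1 := Real.sqrt_nonneg (1 - T ^ 2)
    have b2 : √(1 - T ^ 2) ≤ 1 := by
      rw [Real.sqrt_le_left (by norm_num)]
      nlinarith
    rw [abs_le]
    constructor
    · by_contra hcon
      rw [not_le] at hcon
      nlinarith
    · linarith
  · norm_num
  · rw [abs_mul]
    have := tB1_abs h0T h3
    have := f1_abs (T := T)
    nlinarith [abs_nonneg (f1 T), abs_nonneg (tB1 T)]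
  · rw [abs_mul]
    have := tB2_abs h0T h3
    have := f2_abs (T := T)
    nlinarith [abs_nonneg (f2 T), abs_nonneg (tB2 T)]
  · exact A3_abs h0T h3
  · norm_num

theorem bdd_vF : ∃ K, ∀ T, 0 ≤ T → T ^ 2 ≤ 3 → ∀ p ∈ nodesW false T, |vF T p.2| ≤ K :=
  ⟨20, fun _ h1 h2 p _ => vF_abs h1 h2 p.2⟩

end Pool.Agent.Strip051.LC.Line
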