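import Pool.Agent.Strip051.LC.Line.Free
import Pool.Agent.Strip051.LC.Pieces
import Pool.Agent.Strip051.LC.Exact.NodesW
import Pool.Agent.Strip051.LC.Half.Main

/-! # The certificate for the kernel given on the curves `c1`, `f1`, `f2`, `c3`

`v T i` is the value on the curve with tag `i` (coefficient times pole factor). -/

namespace Pool.Agent.Strip051.LC.Line

open Pool.Agent.StripNear Pool.Agent.StripSquare Pool.Agent.Strip051.Sweep

/-- The kernel. -/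
noncomputable def RW (v : ℝ → Fin 5 → ℝ) : ℝ → ℝ → ℝ := ker (nodesW false) v (fun _ _ => 0)

/-- The nodes. -/
def NdW : ℝ → ℝ → Prop := NodeAt (nodesW false)

variable {v : ℝ → Fin 5 → ℝ}

theorem RW_odd (X T : ℝ) : RW v (-X) T = -RW v X T := ker_odd (isNodesW false) (fun _ => rfl) X T

theorem c1_mem {T : ℝ} (hT : 0 ≤ T) (h1 : T < 1) : (c1 T, (0 : Fin 5)) ∈ nodesW false T := by
  unfold nodesW
  rw [if_neg (by nlinarith)]
  split_ifs <;> simp

theorem RW_unit {X T : ℝ} (hX : 0 < X) (hT : 0 ≤ T) (h : X ^ 2 + T ^ 2 = 1) :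
    RW v X T = v T 0 := by
  have h1 : T < 1 := by nlinarith
  have e : c1 T = X := by
    unfold c1
    rw [show 1 - T ^ 2 = X ^ 2 by linarith]
    exact Real.sqrt_sq hX.le
  have := ker_node (v := v) (B := fun _ _ => 0) (isNodesW false) hT (by nlinarith) (c1_mem hT h1)
  rwa [e] at this

theorem RW_unitKer (h : ∀ T, 0 ≤ T → T < 1 → v T 0 = A1u T) : Half.UnitKer (RW v) 1 := by
  refine Half.unitKer_of RW_odd (fun X T h1 h2 h3 => ?_)
  rw [RW_unit h1 h2 h3, h T h2 (by nlinarith), one_mul]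

theorem RW_abs {K : ℝ} (hK : 0 ≤ K)
    (hv : ∀ T, 0 ≤ T → T ^ 2 ≤ 3 → ∀ p ∈ nodesW false T, |v T p.2| ≤ K) (X T : ℝ) :
    |RW v X T| ≤ K := by
  refine ker_abs (isNodesW false) (fun h => hv _ (abs_nonneg T) (by rwa [sq_abs])) (fun _ => ?_) hK
  rwa [abs_zero]

/-- What remains to be shown for a table. -/
structure TabCert (θ : ℝ) (v : ℝ → Fin 5 → ℝ) : Prop where
  pos : 0 < θ
  le : θ ≤ 1
  unit : ∀ T, 0 ≤ T → T < 1 → v T 0 = A1u T
  bdd : ∃ K, ∀ T, 0 ≤ T → T ^ 2 ≤ 3 → ∀ p ∈ nodesW false T, |v T p.2| ≤ K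
  fam : Families θ (RW v) NdW
  wall : ∀ s, 0 ≤ s → s < h0 → ∀ (p q : Pt) (m : ℝ), p.1 ≤ q.1 → 0 ≤ p.2 → 0 ≤ q.2 →
    1 ≤ ds p q → (p.1 - m) ^ 2 + p.2 ^ 2 = (q.1 - m) ^ 2 + q.2 ^ 2 →
    (p.1 - m) ^ 2 + p.2 ^ 2 ≤ 1 →
    1 / 2 ≤ (q.1 - p.1) * (1 / 2 - amp θ s + (p.2 + q.2) / (2 * h0)) - ed (QA θ (RW v) s) p q

theorem TabCert.certB {θ : ℝ} (h : TabCert θ v) :
    CertB θ (RW v) (fun s => AvC (QL θ (RW v) s)) NdW := by
  obtain ⟨K, hK⟩ := h.bdd
  have hK0 : 0 ≤ K := (abs_nonneg _).trans (hK 0 le_rfl (by norm_num) _ (c1_mem le_rfl one_pos))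
  exact certFree h.pos RW_odd (fun X T _ _ => RW_abs hK0 hK X T) nodeAt_even
    (fun X T _ h1 h2 => ker_pieces (isNodesW false) (fun _ => rfl) X T h1 h2) h.fam
    (fun s hs0 hs1 => Half.rhomb_line (RW_unitKer h.unit) h.pos h.le hs0 hs1) h.wall

/-- **The density bound** from the table. -/
theorem TabCert.density {θ : ℝ} (h : TabCert θ v) {W : ℝ} (hW : 2 ≤ W) {C : Set E2}
    (hC : IsStripPacking W C) {O : E2} {d : ℝ} (hd : HasDensity W C O d) :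
    d ≤ Real.pi / (2 * W) * (1 + (W - 2) / Real.sqrt 3 -
      θ * (2 * Int.fract ((W - 2) / Real.sqrt 3) * (1 - Int.fract ((W - 2) / Real.sqrt 3)) /
        (1 + 2 / Real.sqrt 3 - Int.fract ((W - 2) / Real.sqrt 3)))) :=
  h.certB.density hW hC hd

end Pool.Agent.Strip051.LC.Line
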