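import Pool.Agent.Strip051.LC.Exact.FamW
import Pool.Agent.Strip051.LC.Line.Tab

/-! # The table

The values of the kernel on the curves `c1`, `f1`, `f2`, `c3`: closed forms on the two circles,
`f1 * tB1` and `f2 * tB2` on the middle curves, with `tB1`, `tB2` piecewise linear. -/

namespace Pool.Agent.Strip051.LC.Line

open Pool.Agent.StripNear Pool.Agent.StripSquare Pool.Agent.Strip051.Sweep
  Pool.Agent.Strip051.LC

/-- The linear function of `T / h0` with the values `a` at `p` and `b` at `q`. -/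
noncomputable def lin (p a q b T : ℝ) : ℝ := a + (b - a) * ((T / h0 - p) / (q - p))

/-- The coefficient on the curve `f1`. -/
noncomputable def tB1 (T : ℝ) : ℝ :=
  if T < h0 / 4 then lin 0 1 (1 / 4) (702 / 1000) T
  else if T < h0 / 2 then lin (1 / 4) (702 / 1000) (1 / 2) (619 / 1000) T
  else if T < h0 then lin (1 / 2) (-555 / 1000) 1 (865 / 1000) T
  else if T < 9 / 8 * h0 then lin 1 1 (9 / 8) (951 / 1000) T
  else if T < 1 then 951 / 1000 + 49 / 1000 * ((T - 9 / 8 * h0) / (1 - 9 / 8 * h0))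
  else if T < 3 / 2 * h0 then 1 + (-1033 / 1000) * ((T - 1) / (3 / 2 * h0 - 1))
  else lin (3 / 2) (459 / 1000) 2 (1469 / 1000) T

/-- The coefficient on the curve `f2`. -/
noncomputable def tB2 (T : ℝ) : ℝ :=
  if T < h0 / 4 then lin 0 (510 / 1000) (1 / 4) (222 / 1000) T
  else if T < h0 / 2 then lin (1 / 4) (222 / 1000) (1 / 2) (-643 / 1000) T
  else if T < h0 then lin (1 / 2) (666 / 1000) 1 1 T
  else if T < 9 / 8 * h0 then lin 1 (879 / 1000) (9 / 8) (814 / 1000) T
  else if T < 1 then 814 / 1000 + (-47 / 1000) * ((T - 9 / 8 * h0) / (1 - 9 / 8 * h0))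
  else if T < 3 / 2 * h0 then 767 / 1000 + (-323 / 1000) * ((T - 1) / (3 / 2 * h0 - 1))
  else lin (3 / 2) (-478 / 1000) 2 (1 / 2) T

/-- The value on the circle of radius `√3`. -/
noncomputable def A3 (T : ℝ) : ℝ :=
  if T < h0 / 2 then -T ^ 2 / (c3 T - 3 / 2)
  else if T < h0 then T * (c3 T + 3 / 2) / (T + h0)
  else if T < 3 / 2 * h0 then (c3 T - T / √3) * (c3 T + 3 / 2) / (c3 T - T / √3 + 1)
  else -((c3 T - T / √3) * c3 T) / (1 + T / √3 - c3 T)

/-- The table: the values on the curves with the tags `0, 1, 3, 4`. -/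
noncomputable def vF (T : ℝ) (i : Fin 5) : ℝ :=
  if T < 0 then 0
  else if i = 0 then (if T < 1 then A1u T else 0)
  else if i = 1 then f1 T * tB1 T
  else if i = 3 then f2 T * tB2 T
  else if i = 4 then A3 T
  else 0

theorem vF_0 {T : ℝ} (h0T : 0 ≤ T) (h1 : T < 1) : vF T 0 = A1u T := by
  unfold vF
  rw [if_neg h0T.not_gt, if_pos rfl, if_pos h1]

theorem vF_0' {T : ℝ} (h1 : 1 ≤ T) : vF T 0 = 0 := by
  unfold vF
  rw [if_pos rfl, if_neg h1.not_gt, if_neg (by linarith)]

theorem vF_1 {T : ℝ} (h0T : 0 ≤ T) : vF T 1 = f1 T * tB1 T := by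
  unfold vF
  rw [if_neg h0T.not_gt, if_neg (by decide), if_pos rfl]

theorem vF_3 {T : ℝ} (h0T : 0 ≤ T) : vF T 3 = f2 T * tB2 T := by
  unfold vF
  rw [if_neg h0T.not_gt, if_neg (by decide), if_neg (by decide), if_pos rfl]

theorem vF_4 {T : ℝ} (h0T : 0 ≤ T) : vF T 4 = A3 T := by
  unfold vF
  rw [if_neg h0T.not_gt, if_neg (by decide), if_neg (by decide), if_neg (by decide), if_pos rfl]

end Pool.Agent.Strip051.LC.Line
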