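import Pool.Agent.Strip051.LC.Line.CurveBd
import Pool.Agent.Strip051.LC.Line.TableF

/-! # The floor rows of the table -/

namespace Pool.Agent.Strip051.LC.Line

open Pool.Agent.StripNear Pool.Agent.StripSquare Pool.Agent.Strip051.Sweep
  Pool.Agent.Strip051.LC

theorem lin_Y (p a q b Y : ℝ) : lin p a q b (h0 * Y) = a + (b - a) * ((Y - p) / (q - p)) := by
  have hp := h0_pos
  unfold lin
  rw [mul_div_cancel_left₀ _ hp.ne']

theorem near_of {X B : ℝ} (hX : 0 ≤ X) (hB0 : -1 / 2 ≤ B) (hB1 : B ≤ 1)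
    (h : 1 / 2 ≤ X * (1 / 2 - 1548 / 10000 * (1 - B))) : Near X (X * B) := by
  have w2 : √3 ^ 2 = 3 := Real.sq_sqrt (by norm_num)
  have w0 : 0 < √3 := Real.sqrt_pos.2 (by norm_num)
  have w1 : √3 < 2 := by nlinarith
  refine ⟨⟨by nlinarith, ?_⟩, by linarith⟩
  have : -1 ≤ √3 * B := by nlinarith
  nlinarith

theorem crude_of {X B b Y : ℝ} (hX : 0 ≤ X) (hB : |B| ≤ b)
    (h : 1 / 2 ≤ X * (1 / 2 + Y / 2 - 1548 / 10000 * (1 + b))) : Crude X (h0 * Y) (X * B) := by
  have hp := h0_pos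
  unfold Crude
  rw [abs_mul, abs_of_nonneg hX, show h0 * Y / (2 * h0) = Y / 2 by field_simp]
  have := mul_le_mul_of_nonneg_left hB hX
  linarith

/-- The two coefficients above the height `h0`. -/
theorem tB_high {Y : ℝ} (h1 : 1 ≤ Y) (hY : h0 * Y ≤ 1) :
    tB1 (h0 * Y) ≤ 1 ∧ 0 ≤ tB1 (h0 * Y) ∧ 1 - tB1 (h0 * Y) ≤ 392 / 1000 * (Y - 1) ∧
      767 / 1000 ≤ tB2 (h0 * Y) ∧ tB2 (h0 * Y) ≤ 879 / 1000 := by
  have hp := h0_pos
  have hq := h0_sq
  have hh98 : 9 / 8 * h0 < 1 := by nlinarith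
  have hh32 : 1 < 3 / 2 * h0 := by nlinarith
  have n1 : ¬ h0 * Y < h0 / 4 := by rw [not_lt]; nlinarith
  have n2 : ¬ h0 * Y < h0 / 2 := by rw [not_lt]; nlinarith
  have n3 : ¬ h0 * Y < h0 := by rw [not_lt]; nlinarith
  unfold tB1 tB2
  rw [if_neg n1, if_neg n2, if_neg n3, if_neg n1, if_neg n2, if_neg n3]
  rcases lt_or_ge Y (9 / 8) with h | h
  · have k : h0 * Y < 9 / 8 * h0 := by nlinarith
    rw [if_pos k, if_pos k, lin_Y, lin_Y]
    have e : (Y - 1) / (9 / 8 - 1) = 8 * (Y - 1) := by ring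
    rw [e]
    refine ⟨by linarith, by linarith, by linarith, by linarith, by linarith⟩
  · have k : ¬ h0 * Y < 9 / 8 * h0 := by rw [not_lt]; nlinarith
    rw [if_neg k, if_neg k]
    rcases hY.lt_or_eq with h2 | h2
    · rw [if_pos h2, if_pos h2]
      have hd : 0 < 1 - 9 / 8 * h0 := by linarith
      have r0 : 0 ≤ (h0 * Y - 9 / 8 * h0) / (1 - 9 / 8 * h0) :=
        div_nonneg (by nlinarith) hd.le
      have r1 : (h0 * Y - 9 / 8 * h0) / (1 - 9 / 8 * h0) ≤ 1 := by
        rw [div_le_one hd]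
        linarith
      set r := (h0 * Y - 9 / 8 * h0) / (1 - 9 / 8 * h0)
      refine ⟨by linarith, by linarith, by linarith, by linarith, by linarith⟩
    · rw [h2, if_neg (lt_irrefl _), if_pos hh32, if_neg (lt_irrefl _), if_pos hh32, sub_self,
        zero_div]
      refine ⟨by norm_num, by norm_num, by linarith, by norm_num, by norm_num⟩

/-- The value on the circle of radius `√3` for small heights. -/
theorem A3_crude {Y : ℝ} (h0Y : 0 ≤ Y) (hY : h0 * Y ≤ 1) :
    Crude (c3 (h0 * Y)) (h0 * Y) (A3 (h0 * Y)) ∧ (1 ≤ Y → Sz (c3 (h0 * Y)) (A3 (h0 * Y))) := by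
  have hp := h0_pos
  have hq := h0_sq
  have w2 : √3 ^ 2 = 3 := Real.sq_sqrt (by norm_num)
  have w0 : 0 < √3 := Real.sqrt_pos.2 (by norm_num)
  have hh : h0 = √3 / 2 := rfl
  have hY2 : 3 / 4 * Y ^ 2 ≤ 1 := by
    rw [← hq, ← mul_pow]
    exact pow_le_one₀ (by positivity) hY
  have s3 : √(3 - 3 / 4 * Y ^ 2) ^ 2 = 3 - 3 / 4 * Y ^ 2 := Real.sq_sqrt (by linarith)
  have n3 := Real.sqrt_nonneg (3 - 3 / 4 * Y ^ 2)
  have hT2 : (h0 * Y) ^ 2 = 3 / 4 * Y ^ 2 := by rw [mul_pow, hq]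
  have eY : h0 * Y / (2 * h0) = Y / 2 := by field_simp
  have e3 : h0 * Y / √3 = Y / 2 := by
    rw [hh]
    field_simp
  have h32 : h0 * Y < 3 / 2 * h0 := by nlinarith
  unfold A3 Crude
  rw [c3_Y, eY, e3]
  set c := √(3 - 3 / 4 * Y ^ 2) with hc
  have c3u : c ≤ 17321 / 10000 := by nlinarith
  have cl : 14 / 10 ≤ c := by nlinarith
  rcases lt_or_ge Y (1 / 2) with g1 | g1
  · have k1 : h0 * Y < h0 / 2 := by nlinarith
    rw [if_pos k1, neg_div, abs_neg, hT2]
    have cl2 : 1677 / 1000 ≤ c := by nlinarith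
    have hpos : 0 < c - 3 / 2 := by linarith
    rw [abs_of_nonneg (by positivity)]
    refine ⟨?_, fun h => by linarith⟩
    have hb : 3 / 4 * Y ^ 2 / (c - 3 / 2) ≤ 48 / 10 * Y ^ 2 := by
      rw [div_le_iff₀ hpos]
      nlinarith [sq_nonneg Y]
    nlinarith
  · have k1 : ¬ h0 * Y < h0 / 2 := by rw [not_lt]; nlinarith
    rw [if_neg k1]
    rcases lt_or_ge Y 1 with g2 | g2
    · have k2 : h0 * Y < h0 := by nlinarith
      rw [if_pos k2]
      have cl2 : 3 / 2 ≤ c := by nlinarith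
      have hd : 0 < h0 * Y + h0 := by positivity
      have hb0 : 0 ≤ h0 * Y * (c + 3 / 2) / (h0 * Y + h0) := by positivity
      have hb : h0 * Y * (c + 3 / 2) / (h0 * Y + h0) ≤ 17 / 10 := by
        rw [div_le_iff₀ hd]
        nlinarith [mul_nonneg hp.le (sub_nonneg.2 g2.le)]
      rw [abs_of_nonneg hb0]
      refine ⟨?_, fun h => by linarith⟩
      nlinarith
    · have k2 : ¬ h0 * Y < h0 := by rw [not_lt]; nlinarith
      rw [if_neg k2, if_pos h32]
      have cu : c ≤ 3 / 2 := by nlinarith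
      have cu' : c ≤ 3 / 2 * Y := by linarith
      have hY16 : Y ≤ 116 / 100 := by nlinarith
      have hx0 : 0 < c - Y / 2 := by linarith
      have hd : 0 < c - Y / 2 + 1 := by linarith
      have hb0 : 0 ≤ (c - Y / 2) * (c + 3 / 2) / (c - Y / 2 + 1) := by positivity
      have hb : (c - Y / 2) * (c + 3 / 2) / (c - Y / 2 + 1) ≤ c := by
        rw [div_le_iff₀ hd]
        nlinarith
      rw [abs_of_nonneg hb0]
      refine ⟨?_, fun _ => ⟨hb, ?_⟩⟩
      · nlinarith
      · have := mul_nonneg w0.le hb0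
        linarith

/-- **The floor rows of the table.** -/
theorem rowTab_vF : RowTab vF := by
  have hp := h0_pos
  have hq := h0_sq
  have eT : ∀ T : ℝ, T = h0 * (T / h0) := fun T => by field_simp
  refine ⟨fun T h1 h2 => vF_0 h1 h2, ?_, ?_, ?_, ?_, ?_, ?_, ?_, ?_⟩
  · -- `f1`, first half
    intro T hT0 hT
    rw [vF_1 hT0.le, eT T]
    set Y := T / h0 with hY
    have hY0 : 0 ≤ Y := by positivity
    have hY2 : Y < 1 / 2 := by
      rw [hY, div_lt_iff₀ hp]
      linarith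
    left
    rcases lt_or_ge Y (1 / 4) with h | h
    · have k : h0 * Y < h0 / 4 := by nlinarith
      have e : tB1 (h0 * Y) = 1 - 1192 / 1000 * Y := by
        unfold tB1
        rw [if_pos k, lin_Y]
        ring
      have hf := f1_low1 hY0 h.le
      rw [e]
      refine near_of (by linarith) (by linarith) (by linarith) ?_
      nlinarith [mul_nonneg hY0 (sub_nonneg.2 h.le)]
    · have k : ¬ h0 * Y < h0 / 4 := by rw [not_lt]; nlinarith
      have k2 : h0 * Y < h0 / 2 := by nlinarith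
      have e : tB1 (h0 * Y) = 702 / 1000 - 332 / 1000 * (Y - 1 / 4) := by
        unfold tB1
        rw [if_neg k, if_pos k2, lin_Y]
        ring
      have hf := f1_low2 h hY2.le
      rw [e]
      refine near_of (by linarith) (by linarith) (by linarith) ?_
      nlinarith [mul_nonneg (sub_nonneg.2 h) (sub_nonneg.2 hY2.le)]
  · -- `f1`, second half
    intro T hT0 hT
    have hTp : 0 ≤ T := by linarith
    rw [vF_1 hTp, eT T]
    set Y := T / h0 with hY
    have hY0 : 1 / 2 ≤ Y := by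
      rw [hY, le_div_iff₀ hp]
      linarith
    have hY2 : Y < 1 := by
      rw [hY, div_lt_iff₀ hp]
      linarith
    have k : ¬ h0 * Y < h0 / 4 := by rw [not_lt]; nlinarith
    have k1 : ¬ h0 * Y < h0 / 2 := by rw [not_lt]; nlinarith
    have k2 : h0 * Y < h0 := by nlinarith
    have e : tB1 (h0 * Y) = -555 / 1000 + 284 / 100 * (Y - 1 / 2) := by
      unfold tB1
      rw [if_neg k, if_neg k1, if_pos k2, lin_Y]
      ring
    have hf : 1 ≤ f1 (h0 * Y) := f1_ge_one (by positivity) k2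
    rw [e]
    rcases le_total 0 (-555 / 1000 + 284 / 100 * (Y - 1 / 2)) with h | h
    · left
      refine ⟨mul_nonneg (by linarith) h, ?_⟩
      nlinarith
    · right
      refine crude_of (b := 555 / 1000) (by linarith) ?_ ?_
      · rw [abs_of_nonpos h]
        linarith
      · nlinarith
  · -- `f2`, first half
    intro T hT0 hT
    rw [vF_3 hT0, eT T]
    set Y := T / h0 with hY
    have hY0 : 0 ≤ Y := by positivity
    have hY2 : Y < 1 / 2 := by
      rw [hY, div_lt_iff₀ hp]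
      linarith
    rcases lt_or_ge Y (1 / 4) with h | h
    · left
      have k : h0 * Y < h0 / 4 := by nlinarith
      have e : tB2 (h0 * Y) = 510 / 1000 - 1152 / 1000 * Y := by
        unfold tB2
        rw [if_pos k, lin_Y]
        ring
      have hf := f2_low1 hY0 h.le
      rw [e]
      refine near_of (by linarith) (by linarith) (by linarith) ?_
      nlinarith
    · right
      have k : ¬ h0 * Y < h0 / 4 := by rw [not_lt]; nlinarith
      have k2 : h0 * Y < h0 / 2 := by nlinarith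
      have e : tB2 (h0 * Y) = 222 / 1000 - 3460 / 1000 * (Y - 1 / 4) := by
        unfold tB2
        rw [if_neg k, if_pos k2, lin_Y]
        ring
      have hf : 5 / 4 ≤ f2 (h0 * Y) := f2_ge_one (by positivity) (by nlinarith)
      rw [e]
      refine crude_of (b := 222 / 1000 + 1684 / 1000 * (Y - 1 / 4)) (by linarith) ?_ ?_
      · rw [abs_le]
        constructor <;> linarith
      · nlinarith
  · -- `f2`, second half
    intro T hT0 hT
    have hTp : 0 ≤ T := by linarith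
    rw [vF_3 hTp, eT T]
    set Y := T / h0 with hY
    have hY0 : 1 / 2 ≤ Y := by
      rw [hY, le_div_iff₀ hp]
      linarith
    have hY2 : Y < 1 := by
      rw [hY, div_lt_iff₀ hp]
      linarith
    have k : ¬ h0 * Y < h0 / 4 := by rw [not_lt]; nlinarith
    have k1 : ¬ h0 * Y < h0 / 2 := by rw [not_lt]; nlinarith
    have k2 : h0 * Y < h0 := by nlinarith
    have e : tB2 (h0 * Y) = 666 / 1000 + 668 / 1000 * (Y - 1 / 2) := by
      unfold tB2
      rw [if_neg k, if_neg k1, if_pos k2, lin_Y]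
      ring
    have hf : 5 / 4 ≤ f2 (h0 * Y) := f2_ge_one (by positivity) k2
    rw [e]
    left
    constructor
    · exact mul_nonneg (by linarith) (by linarith)
    · nlinarith
  · -- `f2` above `h0`
    intro T hT0 hT
    have hTp : 0 ≤ T := by linarith
    have w0 : 0 < √3 := Real.sqrt_pos.2 (by norm_num)
    have hf := f2_ge hTp hT
    rw [vF_3 hTp, eT T] at *
    set Y := T / h0 with hY
    have hY0 : 1 ≤ Y := by
      by_contra hcon
      rw [not_le] at hcon
      nlinarith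
    obtain ⟨-, -, -, b1, b2⟩ := tB_high hY0 hT
    constructor
    · nlinarith
    · have : 0 ≤ √3 * (f2 (h0 * Y) * tB2 (h0 * Y)) := by positivity
      linarith
  · -- `c3`, crude
    intro T hT0 hT
    rw [vF_4 hT0, eT T]
    exact (A3_crude (by positivity) (by rw [← eT T]; exact hT)).1
  · intro T hT0 hT
    have hTp : 0 ≤ T := by linarith
    rw [vF_4 hTp, eT T]
    refine (A3_crude (by positivity) (by rw [← eT T]; exact hT)).2 ?_
    rw [le_div_iff₀ hp]
    linarith
  · -- the steep curve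
    intro T hT0 hT
    have hTp : 0 ≤ T := by linarith
    have w0 : 0 < √3 := Real.sqrt_pos.2 (by norm_num)
    have hf := f2_ge hTp hT
    rw [vF_1 hTp, vF_3 hTp, eT T] at *
    set Y := T / h0 with hY
    have hY0 : 1 ≤ Y := by
      by_contra hcon
      rw [not_le] at hcon
      nlinarith
    obtain ⟨b1, b2, b3, b4, b5⟩ := tB_high hY0 hT
    obtain ⟨s1, s2, s3, s4, s5, s6, s7⟩ := steep_geo hY0 hT
    set B1 := tB1 (h0 * Y)
    set B2 := tB2 (h0 * Y)
    set F1 := f1 (h0 * Y)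
    set F2 := f2 (h0 * Y)
    set C := c1 (h0 * Y)
    have c10 : 0 ≤ C := c1_nonneg _
    refine ⟨⟨by nlinarith, ?_⟩, ?_⟩
    · have : 0 ≤ √3 * (F1 * B1) := by positivity
      linarith
    · have v0 : 0 ≤ 1 / 2 - C := by linarith
      have e1 : F1 - F1 * B1 = F1 * (1 - B1) := by ring
      have e2 : F2 - F2 * B2 = F2 * (1 - B2) := by ring
      rw [e1, e2]
      have m1 : F1 * (1 - B1) * (F2 - (1 - C)) ≤ 1 / 2 * (392 / 1000 * (Y - 1)) * (1 / 2) := by
        have k1 : F1 * (1 - B1) ≤ 1 / 2 * (392 / 1000 * (Y - 1)) :=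
          mul_le_mul s2 b3 (by linarith) (by norm_num)
        have k0 : 0 ≤ F1 * (1 - B1) := mul_nonneg s3 (by linarith)
        rcases le_total 0 (F2 - (1 - C)) with h | h
        · exact mul_le_mul k1 (by linarith) h (by nlinarith)
        · have := mul_nonpos_of_nonneg_of_nonpos k0 h
          have : 0 ≤ 1 / 2 * (392 / 1000 * (Y - 1)) * (1 / 2) := by nlinarith
          linarith
      have m2 : F2 * (1 - B2) * (1 - C - F1) ≤
          1 * (233 / 1000) * (3 / 2 * (1 / 2 - C) + 3 / 8 * (Y - 1) ^ 2) := by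
        have k1 : F2 * (1 - B2) ≤ 1 * (233 / 1000) :=
          mul_le_mul s4 (by linarith) (by linarith) (by norm_num)
        exact mul_le_mul k1 s6 (by linarith) (by norm_num)
      have m3 : (Y - 1) ^ 2 ≤ 155 / 1000 * (Y - 1) := by nlinarith
      nlinarith [mul_nonneg v0 (by linarith : 0 ≤ F2 - F1 - 1 / 2)]

/-- **The floor of the table.** -/
theorem wall_vF {θ : ℝ} (hθ0 : 0 < θ) (hθ : θ ≤ 1) :
    ∀ s, 0 ≤ s → s < h0 → ∀ (p q : Pt) (m : ℝ), p.1 ≤ q.1 → 0 ≤ p.2 → 0 ≤ q.2 →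
    1 ≤ ds p q → (p.1 - m) ^ 2 + p.2 ^ 2 = (q.1 - m) ^ 2 + q.2 ^ 2 →
    (p.1 - m) ^ 2 + p.2 ^ 2 ≤ 1 →
    1 / 2 ≤ (q.1 - p.1) * (1 / 2 - amp θ s + (p.2 + q.2) / (2 * h0)) -
      ed (QA θ (RW vF) s) p q := rowTab_vF.wall hθ0 hθ

end Pool.Agent.Strip051.LC.Line
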