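import Pool.Agent.Strip051.LC.Exact.FamV
import Pool.Agent.Strip051.LC.Line.CertF
import Pool.Agent.Strip051.LC.Line.RowF

/-! # The density bound from the boxes -/

namespace Pool.Agent.Strip051.LC.Line

open Pool.Agent.StripNear Pool.Agent.StripSquare Pool.Agent.Strip051.Sweep
  Pool.Agent.Strip051.LC

/-- The family statements for the table. -/
structure Boxes : Prop where
  A : ∀ j k, j ≤ k → AllA (lineV (19 / 20) vF) j k
  B : ∀ j k, AllB (lineV (19 / 20) vF) j k

/-- The certificate. -/
theorem tabCert_vF (hb : Boxes) : TabCert (19 / 20) vF where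
  pos := by norm_num
  le := by norm_num
  unit := unit_vF
  bdd := bdd_vF
  fam := line_explicit tabW_vF hb.A hb.B
  wall := wall_vF (by norm_num) (by norm_num)

/-- **The density bound with the constant `19 / 20`.** -/
theorem density_vF (hb : Boxes) {W : ℝ} (hW : 2 ≤ W) {C : Set E2}
    (hC : IsStripPacking W C) {O : E2} {d : ℝ} (hd : HasDensity W C O d) :
    d ≤ Real.pi / (2 * W) * (1 + (W - 2) / Real.sqrt 3 -
      19 / 20 * (2 * Int.fract ((W - 2) / Real.sqrt 3) *
        (1 - Int.fract ((W - 2) / Real.sqrt 3)) /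
        (1 + 2 / Real.sqrt 3 - Int.fract ((W - 2) / Real.sqrt 3)))) :=
  (tabCert_vF hb).density hW hC hd

end Pool.Agent.Strip051.LC.Line
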