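import Pool.Agent.Strip051.LC.Line.GlueA
import Pool.Agent.Strip051.LC.Line.MainF

/-! # From the families to the density bound -/

namespace Pool.Agent.Strip051.LC.Line.Glue

open Pool.Agent.StripNear Pool.Agent.StripSquare Pool.Agent.Strip051.Sweep
  Pool.Agent.Strip051.LC Pool.Agent.Strip051.LC.Line

section

variable {V : VProp} {j k : Fin 4} {σ σ' ε : ℝ}

theorem exA_of_fam (hV : VCongr V) (hσ : σ = 1 ∨ σ = -1) (hσ' : σ' = 1 ∨ σ' = -1)
    (hε : ε = 1 ∨ ε = -1) (h : FamWA V.nf j k σ σ') : ExA V j k σ σ' ε := by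
  intro i t t' hy
  obtain ⟨h1, h2, h3, h4, h5, h6, h7, -, -⟩ := id hy
  exact hV _ _ _ _ _ _ (fun v hv => valK_A hv hσ hσ' hε hy) (h t t' h1 h2 h3 h4 h5 h6 h7)

theorem exB_of_fam (hV : VCongr V) (hσ : σ = 1 ∨ σ = -1) (hσ' : σ' = 1 ∨ σ' = -1)
    (hε : ε = 1 ∨ ε = -1) (h : FamWB V.nf j k σ σ') : ExB V j k σ σ' ε := by
  intro i t t' hy
  obtain ⟨h1, h2, h3, h4, h5, h6, h7, -, -⟩ := id hy
  exact hV _ _ _ _ _ _ (fun v hv => valK_B hv hσ hσ' hε hy) (h t t' h1 h2 h3 h4 h5 h6 h7)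

theorem allA_of_fam (hV : VCongr V)
    (h : FamWA V.nf j k 1 1 ∧ FamWA V.nf j k 1 (-1) ∧ FamWA V.nf j k (-1) (-1)) :
    AllA V j k := by
  have hp : (1 : ℝ) = 1 ∨ (1 : ℝ) = -1 := Or.inl rfl
  have hm : (-1 : ℝ) = 1 ∨ (-1 : ℝ) = -1 := Or.inr rfl
  obtain ⟨a, b, c⟩ := h
  exact ⟨exA_of_fam hV hp hp hp a, exA_of_fam hV hp hm hp b, exA_of_fam hV hp hm hm b,
    exA_of_fam hV hm hm hm c⟩

theorem allB_of_fam (hV : VCongr V)
    (h : FamWB V.nf j k 1 1 ∧ FamWB V.nf j k 1 (-1) ∧ FamWB V.nf j k (-1) (-1)) :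
    AllB V j k := by
  have hp : (1 : ℝ) = 1 ∨ (1 : ℝ) = -1 := Or.inl rfl
  have hm : (-1 : ℝ) = 1 ∨ (-1 : ℝ) = -1 := Or.inr rfl
  obtain ⟨a, b, c⟩ := h
  exact ⟨exB_of_fam hV hp hp hp a, exB_of_fam hV hp hp hm a, exB_of_fam hV hp hm hm b,
    exB_of_fam hV hm hm hp c, exB_of_fam hV hm hm hm c⟩

end

/-- The three sign patterns of the family `A`. -/
def F3A (j k : Fin 4) : Prop := FamWA PF j k 1 1 ∧ FamWA PF j k 1 (-1) ∧ FamWA PF j k (-1) (-1)

/-- The three sign patterns of the family `B`. -/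
def F3B (j k : Fin 4) : Prop := FamWB PF j k 1 1 ∧ FamWB PF j k 1 (-1) ∧ FamWB PF j k (-1) (-1)

/-- **All families give the hypothesis of the density bound.** -/
theorem boxes_of (A00 : F3A 0 0) (A01 : F3A 0 1) (A02 : F3A 0 2) (A03 : F3A 0 3) (A11 : F3A 1 1)
    (A12 : F3A 1 2) (A13 : F3A 1 3) (A22 : F3A 2 2) (A23 : F3A 2 3) (A33 : F3A 3 3)
    (B00 : F3B 0 0) (B01 : F3B 0 1) (B02 : F3B 0 2) (B03 : F3B 0 3)
    (B10 : F3B 1 0) (B11 : F3B 1 1) (B12 : F3B 1 2) (B13 : F3B 1 3)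
    (B20 : F3B 2 0) (B21 : F3B 2 1) (B22 : F3B 2 2) (B23 : F3B 2 3)
    (B30 : F3B 3 0) (B31 : F3B 3 1) (B32 : F3B 3 2) (B33 : F3B 3 3) : Boxes := by
  have hV : VCongr (lineV (19 / 20) vF) := lineV_congr tabW_vF
  constructor
  · intro j k hjk
    refine allA_of_fam hV ?_
    fin_cases j <;> fin_cases k <;>
      first
        | exact A00
        | exact A01
        | exact A02
        | exact A03
        | exact A11
        | exact A12
        | exact A13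
        | exact A22
        | exact A23
        | exact A33
        | exact absurd hjk (by decide)
  · intro j k
    refine allB_of_fam hV ?_
    fin_cases j <;> fin_cases k
    exacts [B00, B01, B02, B03, B10, B11, B12, B13, B20, B21, B22, B23, B30, B31, B32, B33]

end Pool.Agent.Strip051.LC.Line.Glue
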