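import Pool.Agent.Strip051.LC.Line.Asm.A00
import Pool.Agent.Strip051.LC.Line.Asm.A01
import Pool.Agent.Strip051.LC.Line.Asm.A02
import Pool.Agent.Strip051.LC.Line.Asm.A03
import Pool.Agent.Strip051.LC.Line.Asm.A11
import Pool.Agent.Strip051.LC.Line.Asm.A12
import Pool.Agent.Strip051.LC.Line.Asm.A13
import Pool.Agent.Strip051.LC.Line.Asm.A22
import Pool.Agent.Strip051.LC.Line.Asm.A23
import Pool.Agent.Strip051.LC.Line.Asm.A33
import Pool.Agent.Strip051.LC.Line.Asm.B00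
import Pool.Agent.Strip051.LC.Line.Asm.B01
import Pool.Agent.Strip051.LC.Line.Asm.B02
import Pool.Agent.Strip051.LC.Line.Asm.B03
import Pool.Agent.Strip051.LC.Line.Asm.B10
import Pool.Agent.Strip051.LC.Line.Asm.B11
import Pool.Agent.Strip051.LC.Line.Asm.B12
import Pool.Agent.Strip051.LC.Line.Asm.B13
import Pool.Agent.Strip051.LC.Line.Asm.B20
import Pool.Agent.Strip051.LC.Line.Asm.B21
import Pool.Agent.Strip051.LC.Line.Asm.B22
import Pool.Agent.Strip051.LC.Line.Asm.B23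
import Pool.Agent.Strip051.LC.Line.Asm.B30
import Pool.Agent.Strip051.LC.Line.Asm.B31
import Pool.Agent.Strip051.LC.Line.Asm.B32
import Pool.Agent.Strip051.LC.Line.Asm.B33
import Pool.Agent.Strip051.LC.Line.CubeA00
import Pool.Agent.Strip051.LC.Line.CubeA01
import Pool.Agent.Strip051.LC.Line.CubeA02
import Pool.Agent.Strip051.LC.Line.CubeA03
import Pool.Agent.Strip051.LC.Line.CubeA11
import Pool.Agent.Strip051.LC.Line.CubeA12
import Pool.Agent.Strip051.LC.Line.CubeA13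
import Pool.Agent.Strip051.LC.Line.CubeB00
import Pool.Agent.Strip051.LC.Line.CubeB01
import Pool.Agent.Strip051.LC.Line.CubeB02
import Pool.Agent.Strip051.LC.Line.CubeB03
import Pool.Agent.Strip051.LC.Line.CubeB10
import Pool.Agent.Strip051.LC.Line.CubeB11
import Pool.Agent.Strip051.LC.Line.CubeB12
import Pool.Agent.Strip051.LC.Line.CubeB13
import Pool.Agent.Strip051.LC.Line.CubeB20
import Pool.Agent.Strip051.LC.Line.CubeB21
import Pool.Agent.Strip051.LC.Line.CubeB30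
import Pool.Agent.Strip051.LC.Line.CubeB31
import Pool.Agent.Strip051.LC.Line.CubeV
import Pool.Agent.Strip051.LC.Line.GlueF

/-! # All families of the table -/

namespace Pool.Agent.Strip051.LC.Line.Glue

open Pool.Agent.StripNear Pool.Agent.StripSquare Pool.Agent.Strip051.Sweep
  Pool.Agent.Strip051.LC Pool.Agent.Strip051.LC.Line

theorem FA00 : F3A 0 0 :=
  ⟨A00_pp Corn.cubeA_011_00_pp Corn.cubeA_012_00_pp,
    A00_pm Corn.cubeA_011_00_pm Corn.cubeA_022_00_pm Corn.cubeA_101_00_pm Corn.cubeA_113_00_pm Corn.cubeA_202_00_pm,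
    A00_mm Corn.cubeA_101_00_mm Corn.cubeA_102_00_mm⟩

theorem FA01 : F3A 0 1 :=
  ⟨A01_pp Corn.cubeA_022_01_pp,
    A01_pm Corn.cubeA_022_01_pm Corn.cubeA_101_01_pm Corn.cubeA_102_01_pm Corn.cubeA_123_01_pm Corn.cubeA_202_01_pm,
    A01_mm Corn.cubeA_101_01_mm Corn.cubeA_102_01_mm Corn.cubeA_202_01_mm⟩

theorem FA02 : F3A 0 2 :=
  ⟨A02_pp,
    A02_pm Corn.cubeA_011_02_pm Corn.cubeA_012_02_pm,
    A02_mm⟩

theorem FA03 : F3A 0 3 :=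
  ⟨A03_pp,
    A03_pm Corn.cubeA_012_03_pm Corn.cubeA_022_03_pm,
    A03_mm⟩

theorem FA11 : F3A 1 1 :=
  ⟨A11_pp Corn.cubeA_022_11_pp,
    A11_pm Corn.cubeA_022_11_pm Corn.cubeA_202_11_pm,
    A11_mm Corn.cubeA_202_11_mm⟩

theorem FA12 : F3A 1 2 :=
  ⟨A12_pp,
    A12_pm Corn.cubeA_011_12_pm Corn.cubeA_012_12_pm,
    A12_mm⟩

theorem FA13 : F3A 1 3 :=
  ⟨A13_pp,
    A13_pm Corn.cubeA_011_13_pm Corn.cubeA_012_13_pm Corn.cubeA_022_13_pm,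
    A13_mm⟩

theorem FA22 : F3A 2 2 :=
  ⟨A22_pp,
    A22_pm,
    A22_mm⟩

theorem FA23 : F3A 2 3 :=
  ⟨A23_pp,
    A23_pm,
    A23_mm⟩

theorem FA33 : F3A 3 3 :=
  ⟨A33_pp,
    A33_pm,
    A33_mm⟩

theorem FB00 : F3B 0 0 :=
  ⟨B00_pp Corn.cubeB_011_00_pp Corn.cubeB_022_00_pp,
    B00_pm Corn.cubeB_012_00_pm Corn.cubeB_022_00_pm Corn.cubeB_101_00_pm Corn.cubeB_202_00_pm,
    B00_mm⟩

theorem FB01 : F3B 0 1 :=
  ⟨B01_pp Corn.cubeB_012_01_pp Corn.cubeB_022_01_pp Corn.cubeB_113_01_pp Corn.cubeB_123_01_pp Corn.cubeB_213_01_pp,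
    B01_pm Corn.cubeB_012_01_pm Corn.cubeB_022_01_pm Corn.cubeB_102_01_pm Corn.cubeB_113_01_pm Corn.cubeB_123_01_pm Corn.cubeB_202_01_pm Corn.cubeB_213_01_pm,
    B01_mm⟩

theorem FB02 : F3B 0 2 :=
  ⟨B02_pp Corn.cubeB_011_02_pp Corn.cubeB_113_02_pp Corn.cubeB_123_02_pp Corn.cubeB_213_02_pp,
    B02_pm Corn.cubeB_113_02_pm Corn.cubeB_123_02_pm Corn.cubeB_213_02_pm,
    B02_mm Corn.cubeB_101_02_mm⟩

theorem FB03 : F3B 0 3 :=
  ⟨B03_pp Corn.cubeB_011_03_pp Corn.cubeB_012_03_pp Corn.cubeB_113_03_pp,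
    B03_pm Corn.cubeB_113_03_pm Corn.cubeB_123_03_pm,
    B03_mm Corn.cubeB_101_03_mm Corn.cubeB_102_03_mm⟩

theorem FB10 : F3B 1 0 :=
  ⟨B10_pp Corn.cubeB_011_10_pp Corn.cubeB_012_10_pp Corn.cubeB_022_10_pp,
    B10_pm Corn.cubeB_011_10_pm Corn.cubeB_012_10_pm Corn.cubeB_022_10_pm Corn.cubeB_202_10_pm,
    B10_mm⟩

theorem FB11 : F3B 1 1 :=
  ⟨B11_pp Corn.cubeB_012_11_pp Corn.cubeB_022_11_pp Corn.cubeB_213_11_pp,
    B11_pm Corn.cubeB_012_11_pm Corn.cubeB_022_11_pm Corn.cubeB_202_11_pm Corn.cubeB_213_11_pm,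
    B11_mm⟩

theorem FB12 : F3B 1 2 :=
  ⟨B12_pp Corn.cubeB_011_12_pp Corn.cubeB_213_12_pp,
    B12_pm Corn.cubeB_213_12_pm,
    B12_mm⟩

theorem FB13 : F3B 1 3 :=
  ⟨B13_pp Corn.cubeB_011_13_pp Corn.cubeB_012_13_pp Corn.cubeB_022_13_pp Corn.cubeB_213_13_pp,
    B13_pm Corn.cubeB_213_13_pm,
    B13_mm Corn.cubeB_202_13_mm⟩

theorem FB20 : F3B 2 0 :=
  ⟨B20_pp Corn.cubeB_101_20_pp Corn.cubeB_102_20_pp,
    B20_pm,
    B20_mm⟩

theorem FB21 : F3B 2 1 :=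
  ⟨B21_pp Corn.cubeB_102_21_pp,
    B21_pm,
    B21_mm⟩

theorem FB22 : F3B 2 2 :=
  ⟨B22_pp,
    B22_pm,
    B22_mm⟩

theorem FB23 : F3B 2 3 :=
  ⟨B23_pp,
    B23_pm,
    B23_mm⟩

theorem FB30 : F3B 3 0 :=
  ⟨B30_pp Corn.cubeB_102_30_pp Corn.cubeB_202_30_pp,
    B30_pm,
    B30_mm⟩

theorem FB31 : F3B 3 1 :=
  ⟨B31_pp Corn.cubeB_102_31_pp Corn.cubeB_202_31_pp,
    B31_pm,
    B31_mm⟩

theorem FB32 : F3B 3 2 :=
  ⟨B32_pp,
    B32_pm,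
    B32_mm⟩

theorem FB33 : F3B 3 3 :=
  ⟨B33_pp,
    B33_pm,
    B33_mm⟩

/-- **All box statements of the table.** -/
theorem boxesF : Boxes :=
  boxes_of FA00 FA01 FA02 FA03 FA11 FA12 FA13 FA22 FA23 FA33 FB00 FB01 FB02 FB03 FB10 FB11 FB12 FB13 FB20 FB21 FB22 FB23 FB30 FB31 FB32 FB33

end Pool.Agent.Strip051.LC.Line.Glue
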