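import Pool.Agent.Strip051.LC.Line.TableF

/-! # The exact table

The table `vF` with one more node in each of the segments `[h0 / 4, h0 / 2)` and `[3 h0 / 2, 2 h0]`,
at the heights `h0 - 1 / 2` and `h0 + 1 / 2` of the diagonals of the tight unit squares (sides in the
directions 30 and 120 degrees).  The values at these nodes are such that the kernel vanishes at the
diagonals, which are the points of the curve `Wc` between `f1` and `f2`. -/

namespace Pool.Agent.Strip051.LC.Line

open Pool.Agent.StripNear Pool.Agent.StripSquare Pool.Agent.Strip051.Sweep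
  Pool.Agent.Strip051.LC

/-- The height of the flat diagonal of the tight square. -/
noncomputable def dA : ℝ := h0 - 1 / 2

/-- The height of the steep diagonal of the tight square. -/
noncomputable def dB : ℝ := h0 + 1 / 2

/-- The ratio of the coefficients at the height `dA`. -/
noncomputable def gA : ℝ := f1 dA * (f2 dA - Wc dA) / (f2 dA * (Wc dA - f1 dA))

/-- The ratio of the coefficients at the height `dB`. -/
noncomputable def gB : ℝ := (c3 dB - Wc dB) / (c3 dB + Wc dB)

/-- The linear function with the values `a` at `p` and `b` at `q`. -/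
noncomputable def linT (p a q b T : ℝ) : ℝ := a + (b - a) * ((T - p) / (q - p))

/-- The coefficient on the curve `f1`. -/
noncomputable def tG1 (T : ℝ) : ℝ :=
  if T < h0 / 4 then lin 0 1 (1 / 4) (702 / 1000) T
  else if T < dA then linT (h0 / 4) (702 / 1000) dA (645 / 1000) T
  else if T < h0 / 2 then linT dA (645 / 1000) (h0 / 2) (619 / 1000) T
  else if T < h0 then lin (1 / 2) (-555 / 1000) 1 (865 / 1000) T
  else if T < 9 / 8 * h0 then lin 1 1 (9 / 8) (951 / 1000) T
  else if T < 1 then 951 / 1000 + 49 / 1000 * ((T - 9 / 8 * h0) / (1 - 9 / 8 * h0))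
  else if T < 3 / 2 * h0 then 1 + (-1033 / 1000) * ((T - 1) / (3 / 2 * h0 - 1))
  else if T < dB then linT (3 / 2 * h0) (459 / 1000) dB (615 / 1000) T
  else linT dB (615 / 1000) (2 * h0) (1469 / 1000) T

/-- The coefficient on the curve `f2`. -/
noncomputable def tG2 (T : ℝ) : ℝ :=
  if T < h0 / 4 then lin 0 (510 / 1000) (1 / 4) (222 / 1000) T
  else if T < dA then linT (h0 / 4) (222 / 1000) dA (-(645 / 1000) * gA) T
  else if T < h0 / 2 then linT dA (-(645 / 1000) * gA) (h0 / 2) (-643 / 1000) T
  else if T < h0 then lin (1 / 2) (666 / 1000) 1 1 T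
  else if T < 9 / 8 * h0 then lin 1 (879 / 1000) (9 / 8) (814 / 1000) T
  else if T < 1 then 814 / 1000 + (-47 / 1000) * ((T - 9 / 8 * h0) / (1 - 9 / 8 * h0))
  else if T < 3 / 2 * h0 then 767 / 1000 + (-323 / 1000) * ((T - 1) / (3 / 2 * h0 - 1))
  else if T < dB then linT (3 / 2 * h0) (-478 / 1000) dB (-(615 / 1000) * gB) T
  else linT dB (-(615 / 1000) * gB) (2 * h0) (1 / 2) T

/-- The table: the values on the curves with the tags `0, 1, 3, 4`. -/
noncomputable def vG (T : ℝ) (i : Fin 5) : ℝ :=
  if T < 0 then 0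
  else if i = 0 then (if T < 1 then A1u T else 0)
  else if i = 1 then f1 T * tG1 T
  else if i = 3 then f2 T * tG2 T
  else if i = 4 then A3 T
  else 0

theorem vG_0 {T : ℝ} (h0T : 0 ≤ T) (h1 : T < 1) : vG T 0 = A1u T := by
  unfold vG
  rw [if_neg h0T.not_gt, if_pos rfl, if_pos h1]

theorem vG_0' {T : ℝ} (h1 : 1 ≤ T) : vG T 0 = 0 := by
  unfold vG
  rw [if_pos rfl, if_neg h1.not_gt, if_neg (by linarith)]

theorem vG_1 {T : ℝ} (h0T : 0 ≤ T) : vG T 1 = f1 T * tG1 T := by
  unfold vG
  rw [if_neg h0T.not_gt, if_neg (by decide), if_pos rfl]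

theorem vG_3 {T : ℝ} (h0T : 0 ≤ T) : vG T 3 = f2 T * tG2 T := by
  unfold vG
  rw [if_neg h0T.not_gt, if_neg (by decide), if_neg (by decide), if_pos rfl]

theorem vG_4 {T : ℝ} (h0T : 0 ≤ T) : vG T 4 = A3 T := by
  unfold vG
  rw [if_neg h0T.not_gt, if_neg (by decide), if_neg (by decide), if_neg (by decide), if_pos rfl]

/-- The two tables agree outside two segments. -/
theorem vG_eq {T : ℝ} (h : T < h0 / 4 ∨ (h0 / 2 ≤ T ∧ T < 3 / 2 * h0)) (i : Fin 5) :
    vG T i = vF T i := by
  have hp := h0_pos
  have hq := h0_sq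
  have hA : h0 / 4 < dA := by unfold dA; nlinarith
  have hA' : dA < h0 / 2 := by unfold dA; nlinarith
  have e1 : tG1 T = tB1 T := by
    unfold tG1 tB1
    rcases h with h | ⟨h1, h2⟩
    · rw [if_pos h, if_pos h]
    · rw [if_neg (by linarith), if_neg (by linarith), if_neg (by linarith),
        if_neg (show ¬ T < h0 / 4 by linarith), if_neg (show ¬ T < h0 / 2 by linarith),
        if_pos h2, if_pos h2]
  have e2 : tG2 T = tB2 T := by
    unfold tG2 tB2
    rcases h with h | ⟨h1, h2⟩
    · rw [if_pos h, if_pos h]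
    · rw [if_neg (by linarith), if_neg (by linarith), if_neg (by linarith),
        if_neg (show ¬ T < h0 / 4 by linarith), if_neg (show ¬ T < h0 / 2 by linarith),
        if_pos h2, if_pos h2]
  unfold vG vF
  rw [e1, e2]

end Pool.Agent.Strip051.LC.Line
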