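import Pool.Agent.Strip051.LC.Line.CertT
import Pool.Agent.Strip051.LC.Line.TableG

/-! # Elementary facts on the exact table -/

namespace Pool.Agent.Strip051.LC.Line

open Pool.Agent.StripNear Pool.Agent.StripSquare Pool.Agent.Strip051.Sweep
  Pool.Agent.Strip051.LC

theorem vG_vT : vG = vT tG1 tG2 := rfl

theorem Wc_dA : Wc dA = h0 + 1 / 2 := by
  have hp := h0_pos
  unfold Wc dA
  rw [if_pos (by linarith), show (1 : ℝ) - (h0 - 1 / 2 - h0) ^ 2 = h0 ^ 2 by rw [h0_sq']; norm_num,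
    Real.sqrt_sq hp.le]

theorem Wc_dB : Wc dB = h0 - 1 / 2 := by
  have hp := h0_pos
  unfold Wc dB
  rw [if_neg (by linarith), show (1 : ℝ) - (h0 + 1 / 2 - h0) ^ 2 = h0 ^ 2 by rw [h0_sq']; norm_num,
    Real.sqrt_sq hp.le]

theorem c1_dA : c1 dA ^ 2 = h0 := by
  have hq := h0_sq'
  obtain ⟨n1, n2⟩ := h0_num
  have h := c1_sq (t := dA) (by unfold dA; linarith) (by unfold dA; linarith)
  unfold dA at h ⊢
  nlinarith

theorem c3_dA : c3 dA ^ 2 = 2 + h0 := by
  have hq := h0_sq'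
  obtain ⟨n1, n2⟩ := h0_num
  have h := c3_sq (t := dA) (by unfold dA; nlinarith)
  unfold dA at h ⊢
  nlinarith

theorem c3_dB : c3 dB ^ 2 = 2 - h0 := by
  have hq := h0_sq'
  obtain ⟨n1, n2⟩ := h0_num
  have h := c3_sq (t := dB) (by unfold dB; nlinarith)
  unfold dB at h ⊢
  nlinarith

/-- The ratio at the flat diagonal in closed form, with bounds. -/
theorem gA_eq : gA = (f1 dA / f2 dA) ^ 2 := by
  have hq := h0_sq'
  obtain ⟨n1, n2⟩ := h0_num
  have a := c1_dA
  have b := c3_dA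
  have ca := c1_nonneg dA
  have cb := c3_nonneg dA
  have e1 : f1 dA = (c1 dA + (h0 + 1 / 2)) / 2 := by
    unfold f1
    rw [Wc_dA]
  have e2 : f2 dA = ((h0 + 1 / 2) + c3 dA) / 2 := by
    unfold f2
    rw [Wc_dA]
  have p1 : (h0 + 1 / 2 - c1 dA) * (c1 dA + (h0 + 1 / 2)) = 1 := by nlinarith
  have p2 : (c3 dA - (h0 + 1 / 2)) * ((h0 + 1 / 2) + c3 dA) = 1 := by nlinarith
  have q1 : 0 < c1 dA + (h0 + 1 / 2) := by linarith
  have q2 : 0 < (h0 + 1 / 2) + c3 dA := by linarith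
  have r1 : h0 + 1 / 2 - c1 dA = 1 / (c1 dA + (h0 + 1 / 2)) := by
    rw [eq_div_iff q1.ne']
    exact p1
  have r2 : c3 dA - (h0 + 1 / 2) = 1 / ((h0 + 1 / 2) + c3 dA) := by
    rw [eq_div_iff q2.ne']
    exact p2
  unfold gA
  rw [Wc_dA, e1, e2, show ((h0 + 1 / 2) + c3 dA) / 2 - (h0 + 1 / 2) = (c3 dA - (h0 + 1 / 2)) / 2 by
      ring, show h0 + 1 / 2 - (c1 dA + (h0 + 1 / 2)) / 2 = (h0 + 1 / 2 - c1 dA) / 2 by ring, r1, r2]
  field_simp

theorem gA_bd : 0 ≤ gA ∧ gA ≤ 582 / 1000 := by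
  rw [gA_eq]
  refine ⟨sq_nonneg _, ?_⟩
  have hq := h0_sq'
  obtain ⟨n1, n2⟩ := h0_num
  have a := c1_dA
  have b := c3_dA
  have ca := c1_nonneg dA
  have cb := c3_nonneg dA
  have e1 : f1 dA = (c1 dA + (h0 + 1 / 2)) / 2 := by
    unfold f1
    rw [Wc_dA]
  have e2 : f2 dA = ((h0 + 1 / 2) + c3 dA) / 2 := by
    unfold f2
    rw [Wc_dA]
  have a1 : c1 dA ≤ 931 / 1000 := by nlinarith
  have b1 : 1692 / 1000 ≤ c3 dA := by nlinarith
  have hq2 : 0 < f2 dA := by rw [e2]; linarith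
  have hr : f1 dA / f2 dA ≤ 76 / 100 := by
    rw [div_le_iff₀ hq2, e1, e2]
    linarith
  have hr0 : 0 ≤ f1 dA / f2 dA := by
    rw [e1, e2]
    positivity
  nlinarith

theorem gB_bd : 0 ≤ gB ∧ gB ≤ 1 := by
  have hq := h0_sq'
  obtain ⟨n1, n2⟩ := h0_num
  have b := c3_dB
  have cb := c3_nonneg dB
  have b1 : 1 ≤ c3 dB := by nlinarith
  unfold gB
  rw [Wc_dB]
  constructor
  · exact div_nonneg (by linarith) (by linarith)
  · rw [div_le_one (by linarith)]
    linarith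

theorem linT_abs {p a q b T K : ℝ} (hpq : p < q) (h1 : p ≤ T) (h2 : T ≤ q)
    (ha : |a| ≤ K) (hb : |b| ≤ K) : |linT p a q b T| ≤ K := by
  have hd : 0 < q - p := by linarith
  unfold linT
  refine mixK (div_nonneg (by linarith) hd.le) ?_ ha hb
  rw [div_le_one hd]
  linarith

theorem tG1_abs {T : ℝ} (h0T : 0 ≤ T) (h3 : T ^ 2 ≤ 3) : |tG1 T| ≤ 3 / 2 := by
  obtain ⟨n1, n2⟩ := h0_num
  have hp := h0_pos
  have hq := h0_sq'
  have h2 : T ≤ 2 * h0 := by nlinarith
  have hA : dA = h0 - 1 / 2 := rfl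
  have hB : dB = h0 + 1 / 2 := rfl
  by_cases hh : T < h0 / 4 ∨ (h0 / 2 ≤ T ∧ T < 3 / 2 * h0)
  · have e : tG1 T = tB1 T := by
      unfold tG1 tB1
      rcases hh with h | ⟨h1, h2⟩
      · rw [if_pos h, if_pos h]
      · rw [if_neg (by linarith), if_neg (by linarith), if_neg (by linarith),
          if_neg (show ¬ T < h0 / 4 by linarith), if_neg (show ¬ T < h0 / 2 by linarith),
          if_pos h2, if_pos h2]
    rw [e]
    exact tB1_abs h0T h3
  · push Not at hh
    unfold tG1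
    split_ifs with c1 c2 c3 c4 c5 c6 c7 c8
    · linarith [hh.1]
    · exact linT_abs (by linarith) (by linarith) c2.le (by norm_num [abs_le])
        (by norm_num [abs_le])
    · exact linT_abs (by linarith) (by linarith) c3.le (by norm_num [abs_le])
        (by norm_num [abs_le])
    · linarith [hh.2 (by linarith)]
    · linarith [hh.2 (by linarith)]
    · linarith [hh.2 (by linarith)]
    · linarith [hh.2 (by linarith)]
    · exact linT_abs (by linarith) (by linarith) c8.le (by norm_num [abs_le])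
        (by norm_num [abs_le])
    · exact linT_abs (by linarith) (by linarith) h2 (by norm_num [abs_le])
        (by norm_num [abs_le])

theorem tG2_abs {T : ℝ} (h0T : 0 ≤ T) (h3 : T ^ 2 ≤ 3) : |tG2 T| ≤ 3 / 2 := by
  obtain ⟨n1, n2⟩ := h0_num
  have hp := h0_pos
  have hq := h0_sq'
  have h2 : T ≤ 2 * h0 := by nlinarith
  have hA : dA = h0 - 1 / 2 := rfl
  have hB : dB = h0 + 1 / 2 := rfl
  obtain ⟨a1, a2⟩ := gA_bd
  obtain ⟨b1, b2⟩ := gB_bd
  have hga : |(-(645 / 1000) * gA)| ≤ 3 / 2 := by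
    rw [abs_le]
    constructor <;> nlinarith
  have hgb : |(-(615 / 1000) * gB)| ≤ 3 / 2 := by
    rw [abs_le]
    constructor <;> nlinarith
  by_cases hh : T < h0 / 4 ∨ (h0 / 2 ≤ T ∧ T < 3 / 2 * h0)
  · have e : tG2 T = tB2 T := by
      unfold tG2 tB2
      rcases hh with h | ⟨h1, h2⟩
      · rw [if_pos h, if_pos h]
      · rw [if_neg (by linarith), if_neg (by linarith), if_neg (by linarith),
          if_neg (show ¬ T < h0 / 4 by linarith), if_neg (show ¬ T < h0 / 2 by linarith),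
          if_pos h2, if_pos h2]
    rw [e]
    exact tB2_abs h0T h3
  · push Not at hh
    unfold tG2
    split_ifs with c1 c2 c3 c4 c5 c6 c7 c8
    · linarith [hh.1]
    · exact linT_abs (by linarith) (by linarith) c2.le (by norm_num [abs_le]) hga
    · exact linT_abs (by linarith) (by linarith) c3.le hga (by norm_num [abs_le])
    · linarith [hh.2 (by linarith)]
    · linarith [hh.2 (by linarith)]
    · linarith [hh.2 (by linarith)]
    · linarith [hh.2 (by linarith)]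
    · exact linT_abs (by linarith) (by linarith) c8.le (by norm_num [abs_le]) hgb
    · exact linT_abs (by linarith) (by linarith) h2 hgb (by norm_num [abs_le])

theorem coef_G : Coef tG1 tG2 := by
  obtain ⟨n1, n2⟩ := h0_num
  have hp := h0_pos
  have hA : dA = h0 - 1 / 2 := rfl
  refine ⟨?_, ?_, fun T h1 h2 => tG1_abs h1 h2, fun T h1 h2 => tG2_abs h1 h2⟩
  · unfold tG1 lin
    rw [if_pos (by linarith)]
    norm_num
  · unfold tG1 lin
    rw [if_neg (by linarith), if_neg (by linarith), if_neg (by linarith), if_neg (lt_irrefl _),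
      if_pos (by linarith), div_self hp.ne']
    norm_num

theorem tabW_vG : TabW vG := coef_G.tabW

theorem vG_abs {T : ℝ} (h0T : 0 ≤ T) (h3 : T ^ 2 ≤ 3) (i : Fin 5) : |vG T i| ≤ 20 :=
  coef_G.abs h0T h3 i

/-- **The density bound** from the boxes for the exact table. -/
theorem density_vG (hB : CoefBd tG1 tG2) {θ : ℝ} (hθ0 : 0 < θ) (hθ : θ ≤ 1)
    (hb : BoxesT θ vG) {W : ℝ} (hW : 2 ≤ W) {C : Set E2} (hC : IsStripPacking W C)
    {O : E2} {d : ℝ} (hd : HasDensity W C O d) :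
    d ≤ Real.pi / (2 * W) * (1 + (W - 2) / Real.sqrt 3 -
      θ * (2 * Int.fract ((W - 2) / Real.sqrt 3) * (1 - Int.fract ((W - 2) / Real.sqrt 3)) /
        (1 + 2 / Real.sqrt 3 - Int.fract ((W - 2) / Real.sqrt 3)))) :=
  coef_G.density hB hθ0 hθ hb hW hC hd

end Pool.Agent.Strip051.LC.Line
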