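import Pool.Agent.Strip051.LC.Line.RowF

/-! # The floor rows from bounds of the coefficients -/

namespace Pool.Agent.Strip051.LC.Line

open Pool.Agent.StripNear Pool.Agent.StripSquare Pool.Agent.Strip051.Sweep
  Pool.Agent.Strip051.LC

/-- Bounds of the coefficients on `f1`, `f2` (`T = h0 Y`) which give all floor rows. -/
structure CoefBd (B1 B2 : ℝ → ℝ) : Prop where
  a : ∀ Y, 0 ≤ Y → Y < 1 / 4 → 1 - 1192 / 1000 * Y ≤ B1 (h0 * Y) ∧ B1 (h0 * Y) ≤ 1
  b : ∀ Y, 1 / 4 ≤ Y → Y < 1 / 2 → 702 / 1000 - 332 / 1000 * (Y - 1 / 4) ≤ B1 (h0 * Y) ∧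
    B1 (h0 * Y) ≤ 1
  c : ∀ Y, 1 / 2 ≤ Y → Y < 1 → -555 / 1000 ≤ B1 (h0 * Y) ∧ B1 (h0 * Y) ≤ 1
  d : ∀ Y, 0 ≤ Y → Y < 1 / 4 → 222 / 1000 ≤ B2 (h0 * Y) ∧ B2 (h0 * Y) ≤ 1
  e : ∀ Y, 1 / 4 ≤ Y → Y < 1 / 2 → |B2 (h0 * Y)| ≤ 222 / 1000 + 1684 / 1000 * (Y - 1 / 4)
  f : ∀ Y, 1 / 2 ≤ Y → Y < 1 → 0 ≤ B2 (h0 * Y) ∧ B2 (h0 * Y) ≤ 1
  g : ∀ Y, 1 ≤ Y → h0 * Y ≤ 1 → B1 (h0 * Y) ≤ 1 ∧ 0 ≤ B1 (h0 * Y) ∧
    1 - B1 (h0 * Y) ≤ 392 / 1000 * (Y - 1) ∧ 767 / 1000 ≤ B2 (h0 * Y) ∧ B2 (h0 * Y) ≤ 1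

/-- **The floor rows of a table.** -/
theorem CoefBd.rowTab {B1 B2 : ℝ → ℝ} {v : ℝ → Fin 5 → ℝ} (hB : CoefBd B1 B2)
    (v0 : ∀ T, 0 ≤ T → T < 1 → v T 0 = A1u T) (v1 : ∀ T, 0 ≤ T → v T 1 = f1 T * B1 T)
    (v3 : ∀ T, 0 ≤ T → v T 3 = f2 T * B2 T) (v4 : ∀ T, 0 ≤ T → v T 4 = A3 T) : RowTab v := by
  have hp := h0_pos
  have hq := h0_sq
  have eT : ∀ T : ℝ, T = h0 * (T / h0) := fun T => by field_simp
  refine ⟨v0, ?_, ?_, ?_, ?_, ?_, ?_, ?_, ?_⟩
  · -- `f1`, first half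
    intro T hT0 hT
    rw [v1 T hT0.le, eT T]
    set Y := T / h0 with hY
    have hY0 : 0 ≤ Y := by positivity
    have hY2 : Y < 1 / 2 := by
      rw [hY, div_lt_iff₀ hp]
      linarith
    left
    rcases lt_or_ge Y (1 / 4) with h | h
    · obtain ⟨k1, k2⟩ := hB.a Y hY0 h
      have hf := f1_low1 hY0 h.le
      refine near_of (by linarith) (by linarith) k2 ?_
      have : 1 / 2 - 1548 / 10000 * (1192 / 1000 * Y) ≤
          1 / 2 - 1548 / 10000 * (1 - B1 (h0 * Y)) := by linarith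
      have h2 : 1 / 2 ≤ f1 (h0 * Y) * (1 / 2 - 1548 / 10000 * (1192 / 1000 * Y)) := by
        nlinarith [mul_nonneg hY0 (sub_nonneg.2 h.le)]
      exact h2.trans (mul_le_mul_of_nonneg_left this (by linarith))
    · obtain ⟨k1, k2⟩ := hB.b Y h hY2
      have hf := f1_low2 h hY2.le
      refine near_of (by linarith) (by linarith) k2 ?_
      have : 1 / 2 - 1548 / 10000 * (298 / 1000 + 332 / 1000 * (Y - 1 / 4)) ≤
          1 / 2 - 1548 / 10000 * (1 - B1 (h0 * Y)) := by linarith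
      have h2 : 1 / 2 ≤ f1 (h0 * Y) *
          (1 / 2 - 1548 / 10000 * (298 / 1000 + 332 / 1000 * (Y - 1 / 4))) := by
        nlinarith [mul_nonneg (sub_nonneg.2 h) (sub_nonneg.2 hY2.le)]
      exact h2.trans (mul_le_mul_of_nonneg_left this (by linarith))
  · -- `f1`, second half
    intro T hT0 hT
    have hTp : 0 ≤ T := by linarith
    rw [v1 T hTp, eT T]
    set Y := T / h0 with hY
    have hY0 : 1 / 2 ≤ Y := by
      rw [hY, le_div_iff₀ hp]
      linarith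
    have hY2 : Y < 1 := by
      rw [hY, div_lt_iff₀ hp]
      linarith
    have k2 : h0 * Y < h0 := by nlinarith
    obtain ⟨m1, m2⟩ := hB.c Y hY0 hY2
    have hf : 1 ≤ f1 (h0 * Y) := f1_ge_one (by positivity) k2
    rcases le_total 0 (B1 (h0 * Y)) with h | h
    · left
      refine ⟨mul_nonneg (by linarith) h, ?_⟩
      nlinarith
    · right
      refine crude_of (b := 555 / 1000) (by linarith) ?_ ?_
      · rw [abs_of_nonpos h]
        linarith
      · nlinarith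
  · -- `f2`, first half
    intro T hT0 hT
    rw [v3 T hT0, eT T]
    set Y := T / h0 with hY
    have hY0 : 0 ≤ Y := by positivity
    have hY2 : Y < 1 / 2 := by
      rw [hY, div_lt_iff₀ hp]
      linarith
    rcases lt_or_ge Y (1 / 4) with h | h
    · left
      obtain ⟨k1, k2⟩ := hB.d Y hY0 h
      have hf := f2_low1 hY0 h.le
      refine near_of (by linarith) (by linarith) k2 ?_
      nlinarith
    · right
      have k1 := hB.e Y h hY2
      have hf : 5 / 4 ≤ f2 (h0 * Y) := f2_ge_one (by positivity) (by nlinarith)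
      refine crude_of (by linarith) k1 ?_
      nlinarith
  · -- `f2`, second half
    intro T hT0 hT
    have hTp : 0 ≤ T := by linarith
    rw [v3 T hTp, eT T]
    set Y := T / h0 with hY
    have hY0 : 1 / 2 ≤ Y := by
      rw [hY, le_div_iff₀ hp]
      linarith
    have hY2 : Y < 1 := by
      rw [hY, div_lt_iff₀ hp]
      linarith
    have k2 : h0 * Y < h0 := by nlinarith
    obtain ⟨m1, m2⟩ := hB.f Y hY0 hY2
    have hf : 5 / 4 ≤ f2 (h0 * Y) := f2_ge_one (by positivity) k2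
    left
    constructor
    · exact mul_nonneg (by linarith) m1
    · nlinarith
  · -- `f2` above `h0`
    intro T hT0 hT
    have hTp : 0 ≤ T := by linarith
    have w0 : 0 < √3 := Real.sqrt_pos.2 (by norm_num)
    have hf := f2_ge hTp hT
    rw [v3 T hTp]
    have hY0 : 1 ≤ T / h0 := by
      rw [le_div_iff₀ hp]
      linarith
    obtain ⟨-, -, -, b1, b2⟩ := hB.g _ hY0 (by rw [← eT T]; exact hT)
    rw [← eT T] at b1 b2
    constructor
    · nlinarith
    · have : 0 ≤ √3 * (f2 T * B2 T) := by positivity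
      linarith
  · -- `c3`, crude
    intro T hT0 hT
    rw [v4 T hT0, eT T]
    exact (A3_crude (by positivity) (by rw [← eT T]; exact hT)).1
  · intro T hT0 hT
    have hTp : 0 ≤ T := by linarith
    rw [v4 T hTp, eT T]
    refine (A3_crude (by positivity) (by rw [← eT T]; exact hT)).2 ?_
    rw [le_div_iff₀ hp]
    linarith
  · -- the steep curve
    intro T hT0 hT
    have hTp : 0 ≤ T := by linarith
    have w0 : 0 < √3 := Real.sqrt_pos.2 (by norm_num)
    have hf := f2_ge hTp hT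
    rw [v1 T hTp, v3 T hTp, eT T] at *
    set Y := T / h0 with hY
    have hY0 : 1 ≤ Y := by
      by_contra hcon
      rw [not_le] at hcon
      nlinarith
    obtain ⟨b1, b2, b3, b4, b5⟩ := hB.g Y hY0 hT
    obtain ⟨s1, s2, s3, s4, s5, s6, s7⟩ := steep_geo hY0 hT
    set B1 := B1 (h0 * Y)
    set B2 := B2 (h0 * Y)
    set F1 := f1 (h0 * Y)
    set F2 := f2 (h0 * Y)
    set C := c1 (h0 * Y)
    have c10 : 0 ≤ C := c1_nonneg _
    refine ⟨⟨by nlinarith, ?_⟩, ?_⟩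
    · have : 0 ≤ √3 * (F1 * B1) := by positivity
      linarith
    · have v0 : 0 ≤ 1 / 2 - C := by linarith
      have e1 : F1 - F1 * B1 = F1 * (1 - B1) := by ring
      have e2 : F2 - F2 * B2 = F2 * (1 - B2) := by ring
      rw [e1, e2]
      have m1 : F1 * (1 - B1) * (F2 - (1 - C)) ≤ 1 / 2 * (392 / 1000 * (Y - 1)) * (1 / 2) := by
        have k1 : F1 * (1 - B1) ≤ 1 / 2 * (392 / 1000 * (Y - 1)) :=
          mul_le_mul s2 b3 (by linarith) (by norm_num)
        have k0 : 0 ≤ F1 * (1 - B1) := mul_nonneg s3 (by linarith)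
        rcases le_total 0 (F2 - (1 - C)) with h | h
        · exact mul_le_mul k1 (by linarith) h (by nlinarith)
        · have := mul_nonpos_of_nonneg_of_nonpos k0 h
          have : 0 ≤ 1 / 2 * (392 / 1000 * (Y - 1)) * (1 / 2) := by nlinarith
          linarith
      have m2 : F2 * (1 - B2) * (1 - C - F1) ≤
          1 * (233 / 1000) * (3 / 2 * (1 / 2 - C) + 3 / 8 * (Y - 1) ^ 2) := by
        have k1 : F2 * (1 - B2) ≤ 1 * (233 / 1000) :=
          mul_le_mul s4 (by linarith) (by linarith) (by norm_num)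
        exact mul_le_mul k1 s6 (by linarith) (by norm_num)
      have m3 : (Y - 1) ^ 2 ≤ 155 / 1000 * (Y - 1) := by nlinarith
      nlinarith [mul_nonneg v0 (by linarith : 0 ≤ F2 - F1 - 1 / 2)]

end Pool.Agent.Strip051.LC.Line
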