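import Pool.Agent.Strip051.LC.Exact.FamV
import Pool.Agent.Strip051.LC.Line.CertF
import Pool.Agent.Strip051.LC.Line.RowB

/-! # The certificate for arbitrary coefficients on the middle curves -/

namespace Pool.Agent.Strip051.LC.Line

open Pool.Agent.StripNear Pool.Agent.StripSquare Pool.Agent.Strip051.Sweep
  Pool.Agent.Strip051.LC

/-- The table with the coefficients `b1` on `f1` and `b2` on `f2`. -/
noncomputable def vT (b1 b2 : ℝ → ℝ) (T : ℝ) (i : Fin 5) : ℝ :=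
  if T < 0 then 0
  else if i = 0 then (if T < 1 then A1u T else 0)
  else if i = 1 then f1 T * b1 T
  else if i = 3 then f2 T * b2 T
  else if i = 4 then A3 T
  else 0

variable {b1 b2 : ℝ → ℝ}

theorem vF_eq : vF = vT tB1 tB2 := rfl

theorem vT_0 {T : ℝ} (h0T : 0 ≤ T) (h1 : T < 1) : vT b1 b2 T 0 = A1u T := by
  unfold vT
  rw [if_neg h0T.not_gt, if_pos rfl, if_pos h1]

theorem vT_0' {T : ℝ} (h1 : 1 ≤ T) : vT b1 b2 T 0 = 0 := by
  unfold vT
  rw [if_pos rfl, if_neg h1.not_gt, if_neg (by linarith)]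

theorem vT_1 {T : ℝ} (h0T : 0 ≤ T) : vT b1 b2 T 1 = f1 T * b1 T := by
  unfold vT
  rw [if_neg h0T.not_gt, if_neg (by decide), if_pos rfl]

theorem vT_3 {T : ℝ} (h0T : 0 ≤ T) : vT b1 b2 T 3 = f2 T * b2 T := by
  unfold vT
  rw [if_neg h0T.not_gt, if_neg (by decide), if_neg (by decide), if_pos rfl]

theorem vT_4 {T : ℝ} (h0T : 0 ≤ T) : vT b1 b2 T 4 = A3 T := by
  unfold vT
  rw [if_neg h0T.not_gt, if_neg (by decide), if_neg (by decide), if_neg (by decide), if_pos rfl]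

/-- What is needed of the coefficients besides the floor rows and the families. -/
structure Coef (b1 b2 : ℝ → ℝ) : Prop where
  zero : b1 0 = 1
  mid : b1 h0 = 1
  bd1 : ∀ T, 0 ≤ T → T ^ 2 ≤ 3 → |b1 T| ≤ 3 / 2
  bd2 : ∀ T, 0 ≤ T → T ^ 2 ≤ 3 → |b2 T| ≤ 3 / 2

theorem Coef.tabW (h : Coef b1 b2) : TabW (vT b1 b2) := by
  obtain ⟨n1, n2⟩ := h0_num
  have hp := h0_pos
  have hq := h0_sq'
  refine ⟨fun T hT => vT_0' hT, ?_, ?_, ?_⟩
  · rw [vT_1 le_rfl, vT_0 le_rfl one_pos, A1u_zero, h.zero]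
    unfold f1
    rw [W_zero, c1_zero']
    norm_num
  · rw [vT_1 hp.le, vT_0 hp.le (by linarith), A1u_h0, h.mid]
    unfold f1
    rw [W_h0, c1_h0]
    norm_num
  · intro T i hT
    rcases lt_or_ge T 0 with hneg | h0T
    · unfold vT
      rw [if_pos hneg]
    have h1 : 1 ≤ T := by nlinarith
    have e1 : f1 T = 0 := by
      unfold f1
      rw [c1_zero h1, W_top h0T hT]
      norm_num
    have e2 : f2 T = 0 := by
      unfold f2
      rw [W_top h0T hT, c3_top hT]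
      norm_num
    have e3 : A3 T = 0 := by
      unfold A3
      rw [if_neg (by nlinarith), if_neg (by nlinarith), if_neg (by nlinarith), c3_top hT]
      simp
    unfold vT
    rw [if_neg h0T.not_gt, if_neg h1.not_gt, e1, e2, e3]
    simp

theorem Coef.abs (h : Coef b1 b2) {T : ℝ} (h0T : 0 ≤ T) (h3 : T ^ 2 ≤ 3) (i : Fin 5) :
    |vT b1 b2 T i| ≤ 20 := by
  have w0 : 0 < √3 := Real.sqrt_pos.2 (by norm_num)
  have wl : 17320 / 10000 < √3 := by
    apply Real.lt_sqrt_of_sq_lt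
    norm_num
  unfold vT
  rw [if_neg h0T.not_gt]
  split_ifs with i0 k1 i1 i3 i4
  · obtain ⟨a1, a2⟩ := A1u_Sz h0T
    have b1 := Real.sqrt_nonneg (1 - T ^ 2)
    have b2 : √(1 - T ^ 2) ≤ 1 := by
      rw [Real.sqrt_le_left (by norm_num)]
      nlinarith
    rw [abs_le]
    constructor
    · by_contra hcon
      rw [not_le] at hcon
      nlinarith
    · linarith
  · norm_num
  · rw [abs_mul]
    have := h.bd1 T h0T h3
    have := f1_abs (T := T)
    nlinarith [abs_nonneg (f1 T), abs_nonneg (b1 T)]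
  · rw [abs_mul]
    have := h.bd2 T h0T h3
    have := f2_abs (T := T)
    nlinarith [abs_nonneg (f2 T), abs_nonneg (b2 T)]
  · exact A3_abs h0T h3
  · norm_num

/-- The family statements for a table. -/
structure BoxesT (θ : ℝ) (v : ℝ → Fin 5 → ℝ) : Prop where
  A : ∀ j k, j ≤ k → AllA (lineV θ v) j k
  B : ∀ j k, AllB (lineV θ v) j k

/-- The certificate. -/
theorem Coef.tabCert (h : Coef b1 b2) (hB : CoefBd b1 b2) {θ : ℝ} (hθ0 : 0 < θ) (hθ : θ ≤ 1)
    (hb : BoxesT θ (vT b1 b2)) : TabCert θ (vT b1 b2) where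
  pos := hθ0
  le := hθ
  unit := fun _ h1 h2 => vT_0 h1 h2
  bdd := ⟨20, fun _ h1 h2 p _ => h.abs h1 h2 p.2⟩
  fam := line_explicit h.tabW hb.A hb.B
  wall := (hB.rowTab (fun _ h1 h2 => vT_0 h1 h2) (fun _ h1 => vT_1 h1) (fun _ h1 => vT_3 h1)
    (fun _ h1 => vT_4 h1)).wall hθ0 hθ

/-- **The density bound.** -/
theorem Coef.density (h : Coef b1 b2) (hB : CoefBd b1 b2) {θ : ℝ} (hθ0 : 0 < θ) (hθ : θ ≤ 1)
    (hb : BoxesT θ (vT b1 b2)) {W : ℝ} (hW : 2 ≤ W) {C : Set E2} (hC : IsStripPacking W C)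
    {O : E2} {d : ℝ} (hd : HasDensity W C O d) :
    d ≤ Real.pi / (2 * W) * (1 + (W - 2) / Real.sqrt 3 -
      θ * (2 * Int.fract ((W - 2) / Real.sqrt 3) * (1 - Int.fract ((W - 2) / Real.sqrt 3)) /
        (1 + 2 / Real.sqrt 3 - Int.fract ((W - 2) / Real.sqrt 3)))) :=
  (h.tabCert hB hθ0 hθ hb).density hW hC hd

end Pool.Agent.Strip051.LC.Line
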