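import Pool.Agent.Strip051.LC.Exact.FamV

/-! # The star inequality is monotone in the constant

The star inequality with the constant `θ'` implies the one with every smaller constant. -/

namespace Pool.Agent.Strip051.LC.Line

open Pool.Agent.StripNear Pool.Agent.StripSquare Pool.Agent.Strip051.Sweep

theorem phi_add_const {p q r : ℝ} (hr : 0 ≤ r) : phi (p + r) (q + r) ≤ phi p q + r := by
  have key : ∀ {p q : ℝ}, 0 ≤ p → q ≤ 0 → phi (p + r) (q + r) ≤ phi p q + r := by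
    intro p q hp hq
    rcases (sub_nonneg.2 (hq.trans hp)).eq_or_lt with h0 | h0
    · have h1 : p = 0 := by linarith
      have h2 : q = 0 := by linarith
      subst h1
      subst h2
      rw [phi_nonneg_nonneg (by linarith) (by linarith), phi_nonneg_nonneg le_rfl le_rfl]
      linarith
    rcases le_total 0 (q + r) with h | h
    · rw [phi_nonneg_nonneg (by linarith) h, phi_pos_neg hp hq]
      have : (p + q) / 2 ≤ p ^ 2 / (2 * (p - q)) := by
        rw [div_le_div_iff₀ (by norm_num) (by linarith)]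
        nlinarith [sq_nonneg q]
      linarith
    · rw [phi_pos_neg (by linarith) h, phi_pos_neg hp hq,
        show p + r - (q + r) = p - q by ring, div_le_iff₀ (by linarith)]
      have e : (p ^ 2 / (2 * (p - q)) + r) * (2 * (p - q)) = p ^ 2 + r * (2 * (p - q)) := by
        field_simp
      rw [e]
      nlinarith
  rcases le_total 0 p with h1 | h1 <;> rcases le_total 0 q with h2 | h2
  · rw [phi_nonneg_nonneg h1 h2, phi_nonneg_nonneg (by linarith) (by linarith)]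
    linarith
  · exact key h1 h2
  · rw [phi_comm, phi_comm p q]
    exact key h2 h1
  · rw [phi_nonpos_nonpos h1 h2, zero_add]
    have h3 : phi (p + r) (q + r) ≤ phi r r := phi_mono (by linarith) (by linarith)
    rw [phi_nonneg_nonneg hr hr] at h3
    linarith

theorem h0_le_L0 : h0 / 2 ≤ L0 := by
  have h3 : Real.sqrt 3 ^ 2 = 3 := Real.sq_sqrt (by norm_num)
  have h4 := Real.sqrt_nonneg 3
  unfold L0
  have : h0 = Real.sqrt 3 / 2 := rfl
  rw [this]
  linarith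

theorem L0_pos' : 0 < L0 := by
  have := h0_pos
  have := h0_le_L0
  linarith

variable {θ θ' : ℝ}

/-- One arc. -/
theorem arc_mono {e W W' : ℝ} (hθ : 0 < θ) (hle : θ ≤ θ') (he : 0 ≤ e) :
    θ * phi (W + e / (2 * θ)) (W' + e / (2 * θ)) ≤
      θ / θ' * (θ' * phi (W + e / (2 * θ')) (W' + e / (2 * θ'))) + (1 - θ / θ') * (e / 2) := by
  have hθ' : 0 < θ' := hθ.trans_le hle
  set l := θ / θ' with hl
  have l0 : 0 ≤ l := by positivity
  have l1 : l ≤ 1 := by rw [hl, div_le_one hθ']; exact hle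
  have e1 : ∀ x : ℝ, θ * (x + e / (2 * θ)) =
      l * (θ' * (x + e / (2 * θ'))) + (1 - l) * (e / 2) := by
    intro x
    rw [hl]
    field_simp
    ring
  rw [← phi_smul hθ.le, e1, e1]
  refine (phi_add_const (mul_nonneg (by linarith) (by linarith))).trans ?_
  rw [phi_smul l0, phi_smul hθ'.le]

/-- **The star inequality is monotone in the constant.** -/
theorem Star.mono {e l1 l2 l3 W1 W2 W3 : ℝ} (hθ : 0 < θ) (hle : θ ≤ θ') (h1 : 0 ≤ l1)
    (h2 : 0 ≤ l2) (h3 : 0 ≤ l3) (hl : l1 + l2 + l3 = h0) (h : Star θ' e l1 l2 l3 W1 W2 W3) :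
    Star θ e l1 l2 l3 W1 W2 W3 := by
  have hθ' : 0 < θ' := hθ.trans_le hle
  have hL := h0_le_L0
  have hL0 := L0_pos'
  unfold Star at *
  set P1 := phi (W1 + e / (2 * θ')) (W2 + e / (2 * θ')) with hP1
  set P2 := phi (W2 + e / (2 * θ')) (W3 + e / (2 * θ')) with hP2
  set P3 := phi (W3 + e / (2 * θ')) (W1 + e / (2 * θ')) with hP3
  have p1 : 0 ≤ P1 := phi_nonneg _ _
  have p2 : 0 ≤ P2 := phi_nonneg _ _
  have p3 : 0 ≤ P3 := phi_nonneg _ _
  have he : 0 ≤ e := by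
    have : 0 ≤ e * L0 := le_trans (by positivity) h
    by_contra hc
    rw [not_le] at hc
    nlinarith
  have a1 := mul_le_mul_of_nonneg_left (arc_mono (W := W1) (W' := W2) hθ hle he) h1
  have a2 := mul_le_mul_of_nonneg_left (arc_mono (W := W2) (W' := W3) hθ hle he) h2
  have a3 := mul_le_mul_of_nonneg_left (arc_mono (W := W3) (W' := W1) hθ hle he) h3
  rw [← hP1] at a1
  rw [← hP2] at a2
  rw [← hP3] at a3
  set l := θ / θ' with hl'
  have l0 : 0 ≤ l := by positivity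
  have l1' : l ≤ 1 := by rw [hl', div_le_one hθ']; exact hle
  have b1 : l * (θ' * (l1 * P1 + l2 * P2 + l3 * P3)) ≤ l * (e * L0) :=
    mul_le_mul_of_nonneg_left h l0
  have b2 : (1 - l) * (e * (h0 / 2)) ≤ (1 - l) * (e * L0) :=
    mul_le_mul_of_nonneg_left (mul_le_mul_of_nonneg_left hL he) (by linarith)
  have b3 : (1 - l) * (e * (h0 / 2)) = (l1 + l2 + l3) * ((1 - l) * (e / 2)) := by
    rw [hl]; ring
  nlinarith

theorem StarW.mono {e l1 l2 l3 A1 A2 A3 : ℝ} (hθ : 0 < θ) (hle : θ ≤ θ') (h1 : 0 ≤ l1)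
    (h2 : 0 ≤ l2) (h3 : 0 ≤ l3) (hl : l1 + l2 + l3 = h0) (h : StarW θ' e l1 l2 l3 A1 A2 A3) :
    StarW θ e l1 l2 l3 A1 A2 A3 := Star.mono hθ hle h1 h2 h3 hl h

theorem StarN.mono {e l1 l2 A1 A2 A3 : ℝ} (hθ : 0 < θ) (hle : θ ≤ θ') (h1 : 0 ≤ l1)
    (h2 : 0 ≤ l2) (hl : l1 + l2 ≤ h0) (h : StarN θ' e l1 l2 A1 A2 A3) :
    StarN θ e l1 l2 A1 A2 A3 := Star.mono hθ hle h1 h2 (by linarith) (by ring) h

end Pool.Agent.Strip051.LC.Line

namespace Pool.Agent.Strip051.LC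

open Pool.Agent.StripNear Pool.Agent.StripSquare Pool.Agent.Strip051.Sweep
open Pool.Agent.Strip051.LC.Line (NF NG StarN StarW MoN MoW exc jn tau Families tau_bd)

variable {θ θ' : ℝ}

theorem NFV.mono {X12 X13 t t' : ℝ} {r : ℝ × ℝ × ℝ} (hθ : 0 < θ) (hle : θ ≤ θ') (ht : 0 ≤ t)
    (ht' : 0 ≤ t') (hT : t + t' ≤ 2 * h0) (h : NFV θ' X12 X13 t t' r) :
    NFV θ X12 X13 t t' r := by
  have b1 := tau_bd ht (by linarith)
  have b2 := tau_bd ht' (by linarith)
  have b3 := tau_bd (add_nonneg ht ht') hT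
  have eT : tau t + tau t' - tau (t + t') = (jn (t + t') - jn t - jn t') * h0 := by
    unfold Line.tau
    ring
  rcases h with ⟨hj, h1, h2, h⟩ | ⟨hj, h1, h2, h⟩ | ⟨hj, h1, h2, h3, h⟩ | ⟨hj, h1, h2, h3, h⟩ |
    ⟨hj, h1, h2, h3, h⟩ | ⟨hj, h1, h2, h3, h⟩ | ⟨hj, h⟩ | ⟨hj, h⟩
  · exact .pp hj h1 h2 (h.mono hθ hle h1 h2 (by linarith))
  · exact .nn hj h1 h2 (h.mono hθ hle (by linarith) (by linarith) (by linarith))
  · exact .pnp hj h1 h2 h3 (h.mono hθ hle h3 (by linarith) (by linarith))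
  · exact .pnn hj h1 h2 h3 (h.mono hθ hle (by linarith) h1 (by linarith))
  · exact .npp hj h1 h2 h3 (h.mono hθ hle (by linarith) h3 (by linarith))
  · exact .npn hj h1 h2 h3 (h.mono hθ hle h2 (by linarith) (by linarith))
  · have e : tau t + tau t' - tau (t + t') = h0 := by
      rw [eT, hj]
      push_cast
      ring
    exact .up hj (h.mono hθ hle (by linarith) (by linarith) (by linarith) (by linarith))
  · have e : tau t + tau t' - tau (t + t') = -h0 := by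
      have : (jn (t + t') : ℝ) + 1 = jn t + jn t' := by exact_mod_cast hj
      rw [eT]
      linear_combination h0 * this
    exact .dn hj (h.mono hθ hle (by linarith) (by linarith) (by linarith) (by linarith))

theorem sum_le_top {X T : ℝ} (hT : 0 ≤ T) (h : X ^ 2 + T ^ 2 ≤ 3) : T ≤ 2 * h0 := by
  have hp := h0_pos
  have hq := h0_sq
  by_contra hc
  rw [not_le] at hc
  nlinarith [sq_nonneg X]

theorem exA_mono {v : ℝ → Fin 5 → ℝ} {j k : Fin 4} {σ σ' ε : ℝ} (hθ : 0 < θ) (hle : θ ≤ θ')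
    (h : ExA (lineV θ' v) j k σ σ' ε) : ExA (lineV θ v) j k σ σ' ε := by
  intro i t t' hy
  obtain ⟨a1, a2, a3, a4, a5, a6, a7, a8, a9⟩ := hy
  exact NFV.mono hθ hle a1 a2 (sum_le_top (add_nonneg a1 a2) a7)
    (h i t t' ⟨a1, a2, a3, a4, a5, a6, a7, a8, a9⟩)

theorem exB_mono {v : ℝ → Fin 5 → ℝ} {j k : Fin 4} {σ σ' ε : ℝ} (hθ : 0 < θ) (hle : θ ≤ θ')
    (h : ExB (lineV θ' v) j k σ σ' ε) : ExB (lineV θ v) j k σ σ' ε := by
  intro i t t' hy
  obtain ⟨a1, a2, a3, a4, a5, a6, a7, a8, a9⟩ := hy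
  have hT3 := dm_sq (add_nonneg a1 a2) a4
  have hTT : t + t' ≤ 2 * h0 := by
    have hp := h0_pos
    have hq := h0_sq
    nlinarith
  exact NFV.mono hθ hle a1 a2 hTT (h i t t' ⟨a1, a2, a3, a4, a5, a6, a7, a8, a9⟩)

theorem AllA.mono {v : ℝ → Fin 5 → ℝ} {j k : Fin 4} (hθ : 0 < θ) (hle : θ ≤ θ')
    (h : AllA (lineV θ' v) j k) : AllA (lineV θ v) j k :=
  ⟨exA_mono hθ hle h.ppp, exA_mono hθ hle h.pmp, exA_mono hθ hle h.pmm, exA_mono hθ hle h.mmm⟩

theorem AllB.mono {v : ℝ → Fin 5 → ℝ} {j k : Fin 4} (hθ : 0 < θ) (hle : θ ≤ θ')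
    (h : AllB (lineV θ' v) j k) : AllB (lineV θ v) j k :=
  ⟨exB_mono hθ hle h.ppp, exB_mono hθ hle h.ppm, exB_mono hθ hle h.pmm, exB_mono hθ hle h.mmp,
    exB_mono hθ hle h.mmm⟩

end Pool.Agent.Strip051.LC
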