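import Pool.Agent.Strip051.LC.Line.Corn.Use
import Pool.Agent.Strip051.LC.Line.Corn.KB30pp102
import Pool.Agent.Strip051.LC.Line.Corn.KB30pp202

/-! # The aligned corners of the family B, curves 3 and 0 -/

namespace Pool.Agent.Strip051.LC.Line.Corn

open Pool.Agent.StripNear Pool.Agent.StripSquare Pool.Agent.Strip051.Sweep
  Pool.Agent.Strip051.LC Pool.Agent.Strip051.LC.Line.Glue

theorem cubeB_102_30_pp : CubeB 1 0 2 3 0 1 1 := by
  refine cubeB_of (Or.inl rfl) (Or.inl rfl) ?_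
  intro ε hε i t t' hI hN H
  obtain ⟨ρ, a, h1, h2, h3, h4, e1, e2⟩ := par_102 hI.q1 hI.q2 hI.q3 hN
  exact main_B30pp102 ct_vF h1 h2 h3 h4 e1 e2 (Q1.1 hI.q1).2 hε H

theorem cubeB_202_30_pp : CubeB 2 0 2 3 0 1 1 := by
  refine cubeB_of (Or.inl rfl) (Or.inl rfl) ?_
  intro ε hε i t t' hI hN H
  rcases par_202 hI.q1 hI.q2 hI.q3 hN with ⟨e1, e2⟩ | ⟨ρ, a, h1, h2, h3, h4, e1, e2⟩
  · subst e1
    subst e2
    obtain ⟨-, -, -, -, -, -, -, hlo, hhi⟩ := H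
    rw [add_zero] at hlo hhi
    have hX : 1 * cv 0 h0 - 1 * cv 3 h0 = -1 := by
      rw [cv_h.2.2.2, cv_h.1]
      norm_num
    rw [hX] at hlo hhi
    have hs := seg_z hε hlo hhi
    refine nfv_zero_202 (R12 := 1 * vF h0 (tg 3))
      (R23 := ε * segW vF i (ε * (1 * cv 0 (h0 + 0) - 1 * cv 3 h0)) 0)
      (R13 := 1 * vF (h0 + 0) (tg 0)) ?_ ?_
    · rw [add_zero, cv_h.2.2.2, cv_h.1]
      norm_num
    · rw [add_zero, hX, hs, vF_h.2.2, vF_h.1]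
      norm_num
  · exact main_B30pp202 ct_vF h1 h2 h3 h4 e1 e2 hε H

end Pool.Agent.Strip051.LC.Line.Corn
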