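import Pool.Agent.Strip051.LC.Line.WallTab

/-! # Linear lower bounds of the node curves -/

namespace Pool.Agent.Strip051.LC.Line

open Pool.Agent.StripNear Pool.Agent.StripSquare Pool.Agent.Strip051.Sweep
  Pool.Agent.Strip051.LC

/-- A linear lower bound for a square root. -/
theorem sqrt_ge_lin {x a : ℝ} (h : a ^ 2 ≤ x) : a ≤ √x := Real.le_sqrt_of_sq_le h

theorem c1_Y (Y : ℝ) : c1 (h0 * Y) = √(1 - 3 / 4 * Y ^ 2) := by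
  unfold c1
  rw [mul_pow, h0_sq]

theorem c3_Y (Y : ℝ) : c3 (h0 * Y) = √(3 - 3 / 4 * Y ^ 2) := by
  unfold c3
  rw [mul_pow, h0_sq]

theorem W_Y {Y : ℝ} (h : Y < 1) : Wc (h0 * Y) = √(1 - 3 / 4 * (1 - Y) ^ 2) + 1 / 2 := by
  have hp := h0_pos
  unfold Wc
  rw [if_pos (by nlinarith), show (h0 * Y - h0) ^ 2 = h0 ^ 2 * (1 - Y) ^ 2 by ring, h0_sq]

theorem W_Y' {Y : ℝ} (h : 1 ≤ Y) : Wc (h0 * Y) = √(1 - 3 / 4 * (1 - Y) ^ 2) - 1 / 2 := by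
  have hp := h0_pos
  unfold Wc
  rw [if_neg (by nlinarith), show (h0 * Y - h0) ^ 2 = h0 ^ 2 * (1 - Y) ^ 2 by ring, h0_sq]

/-- `f1` on the first quarter. -/
theorem f1_low1 {Y : ℝ} (h0Y : 0 ≤ Y) (hY : Y ≤ 1 / 4) : 1 + 473 / 1000 * Y ≤ f1 (h0 * Y) := by
  have a1 : 1 - 95 / 1000 * Y ≤ √(1 - 3 / 4 * Y ^ 2) := by
    apply sqrt_ge_lin
    nlinarith [mul_nonneg h0Y (sub_nonneg.2 hY)]
  have a2 : 1 / 2 + 1041 / 1000 * Y ≤ √(1 - 3 / 4 * (1 - Y) ^ 2) := by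
    apply sqrt_ge_lin
    nlinarith [mul_nonneg h0Y (sub_nonneg.2 hY)]
  unfold f1
  rw [c1_Y, W_Y (by linarith)]
  linarith

/-- `f1` on the second quarter. -/
theorem f1_low2 {Y : ℝ} (h0Y : 1 / 4 ≤ Y) (hY : Y ≤ 1 / 2) :
    1118 / 1000 + 132 / 1000 * (Y - 1 / 4) ≤ f1 (h0 * Y) := by
  have a1 : 9762 / 10000 - 2996 / 10000 * (Y - 1 / 4) ≤ √(1 - 3 / 4 * Y ^ 2) := by
    apply sqrt_ge_lin
    nlinarith [mul_nonneg (sub_nonneg.2 h0Y) (sub_nonneg.2 hY)]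
  have a2 : 7603 / 10000 + 564 / 1000 * (Y - 1 / 4) ≤ √(1 - 3 / 4 * (1 - Y) ^ 2) := by
    apply sqrt_ge_lin
    nlinarith [mul_nonneg (sub_nonneg.2 h0Y) (sub_nonneg.2 hY)]
  unfold f1
  rw [c1_Y, W_Y (by linarith)]
  linarith

/-- `f2` on the first quarter. -/
theorem f2_low1 {Y : ℝ} (h0Y : 0 ≤ Y) (hY : Y ≤ 1 / 4) : 1359 / 1000 ≤ f2 (h0 * Y) := by
  have a1 : 1718 / 1000 ≤ √(3 - 3 / 4 * Y ^ 2) := by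
    apply sqrt_ge_lin
    nlinarith [mul_nonneg h0Y (sub_nonneg.2 hY)]
  have a2 : 1 / 2 ≤ √(1 - 3 / 4 * (1 - Y) ^ 2) := by
    apply sqrt_ge_lin
    nlinarith [mul_nonneg h0Y (sub_nonneg.2 hY)]
  unfold f2
  rw [c3_Y, W_Y (by linarith)]
  linarith

/-- The geometry of the steep curve. -/
theorem steep_geo {Y : ℝ} (h1 : 1 ≤ Y) (hY : h0 * Y ≤ 1) :
    3 / 2 * (Y - 1) ≤ 1 / 2 - c1 (h0 * Y) ∧ f1 (h0 * Y) ≤ 1 / 2 ∧ 0 ≤ f1 (h0 * Y) ∧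
      f2 (h0 * Y) ≤ 1 ∧ 1 / 2 ≤ f2 (h0 * Y) - f1 (h0 * Y) ∧
      1 - c1 (h0 * Y) - f1 (h0 * Y) ≤ 3 / 2 * (1 / 2 - c1 (h0 * Y)) + 3 / 8 * (Y - 1) ^ 2 ∧
      Y ≤ 1155 / 1000 := by
  have hp := h0_pos
  have hq := h0_sq
  have hY2 : 3 / 4 * Y ^ 2 ≤ 1 := by
    rw [← hq, ← mul_pow]
    exact pow_le_one₀ (by positivity) hY
  have s1 : √(1 - 3 / 4 * Y ^ 2) ^ 2 = 1 - 3 / 4 * Y ^ 2 := Real.sq_sqrt (by linarith)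
  have s3 : √(3 - 3 / 4 * Y ^ 2) ^ 2 = 3 - 3 / 4 * Y ^ 2 := Real.sq_sqrt (by linarith)
  have n1 := Real.sqrt_nonneg (1 - 3 / 4 * Y ^ 2)
  have n3 := Real.sqrt_nonneg (3 - 3 / 4 * Y ^ 2)
  have w1 : √(1 - 3 / 4 * (1 - Y) ^ 2) ≤ 1 := by
    rw [Real.sqrt_le_one]
    nlinarith [sq_nonneg (1 - Y)]
  have w2 : 1 - 3 / 4 * (1 - Y) ^ 2 ≤ √(1 - 3 / 4 * (1 - Y) ^ 2) := by
    apply sqrt_ge_lin
    have : 3 / 4 * (1 - Y) ^ 2 ≤ 1 := by nlinarith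
    have : 0 ≤ 3 / 4 * (1 - Y) ^ 2 := by positivity
    nlinarith
  have hYb : Y ≤ 1155 / 1000 := by nlinarith
  unfold f1 f2
  rw [c1_Y, c3_Y, W_Y' h1]
  set x1 := √(1 - 3 / 4 * Y ^ 2)
  set x3 := √(3 - 3 / 4 * Y ^ 2)
  have x1h : x1 ≤ 1 / 2 := by nlinarith
  have x3h : x3 ≤ 3 / 2 := by nlinarith
  have x3l : 1 + x1 ≤ x3 := by nlinarith
  refine ⟨?_, by linarith, ?_, by linarith, by linarith, ?_, hYb⟩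
  · nlinarith
  · nlinarith
  · nlinarith

end Pool.Agent.Strip051.LC.Line
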