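import Pool.Agent.Strip051.LC.NoAcute
import Pool.Agent.Strip051.LC.Line.Long

/-! # The certificate with averages, without a condition on acute triangles

`R` is any kernel which is piecewise affine between the nodes `Nd`. -/

namespace Pool.Agent.Strip051.LC.Line

open Pool.Agent.StripNear Pool.Agent.StripSquare Pool.Agent.Strip051.Sweep

variable {θ : ℝ} {R : ℝ → ℝ → ℝ} {Nd : ℝ → ℝ → Prop}

/-- The kernel is piecewise affine in the horizontal displacement. -/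
def RPieces (R : ℝ → ℝ → ℝ) (Nd : ℝ → ℝ → Prop) : Prop :=
  ∀ X T : ℝ, 0 ≤ T → 1 ≤ X ^ 2 + T ^ 2 → X ^ 2 + T ^ 2 ≤ 3 →
    ∃ a b : ℝ, a ≤ X ∧ X ≤ b ∧ Nd a T ∧ Nd b T ∧
      (∀ u, a ≤ u → u ≤ b → 1 ≤ u ^ 2 + T ^ 2 ∧ u ^ 2 + T ^ 2 ≤ 3) ∧
      ∃ α β : ℝ, ∀ u, a ≤ u → u ≤ b → R u T = α * u + β

/-- The triangles with sides in `[1, √3]`. -/
theorem tri_of_fam (hθ : 0 < θ) (odd : ∀ X T, R (-X) T = -R X T)
    (even : ∀ X T, Nd X T → Nd (-X) T) (pieces : RPieces R Nd) (fam : Families θ R Nd)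
    {s : ℝ} (hs0 : 0 ≤ s) (hs1 : s < h0) {p q r : Pt}
    (h0c : 0 ≤ cr p q r) (h1 : 1 ≤ ds p q) (h2 : 1 ≤ ds q r) (h3 : 1 ≤ ds p r)
    (h4 : ds p q ≤ 3) (h5 : ds q r ≤ 3) (h6 : ds p r ≤ 3) :
    1 / 2 ≤ cr p q r / (2 * h0) + fl (QL θ R s) p q r := by
  refine bulk_tri_of_corners (N := Node Nd) ?_ ?_ p q r h0c h1 h2 h3 h4 h5 h6
  · intro X y z h1 h2
    obtain ⟨a, b, h3, h4, h5, h6, h7, α, β, h8⟩ := pieces X |z - y| (abs_nonneg _)
      (by rwa [sq_abs]) (by rwa [sq_abs])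
    refine ⟨a, b, h3, h4, h5, h6, ?_, α * mn (D s (kap θ s)) (min y z)
      (max y z - jn |z - y| * h0), β * mn (D s (kap θ s)) (min y z)
      (max y z - jn |z - y| * h0), ?_⟩
    · intro u h9 h10
      have := h7 u h9 h10
      rwa [sq_abs] at this
    · intro u h9 h10
      unfold QL Qd
      rw [h8 u h9 h10]
      ring
  · intro p q r h0 h1 h2 h3 h4 h5 h6 h7 h8
    exact tri_all hθ hs0 hs1 odd even fam h0 h1 h2 h3 h4 h5 h6 (Or.inl ⟨h7, h8⟩)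

/-- **The certificate with two-apex averages**: no condition on acute triangles. -/
theorem certFree {K : ℝ} (hθ : 0 < θ) (odd : ∀ X T, R (-X) T = -R X T)
    (bdd : ∀ X T, |X| ≤ 2 → 0 ≤ T → |R X T| ≤ K)
    (even : ∀ X T, Nd X T → Nd (-X) T) (pieces : RPieces R Nd) (fam : Families θ R Nd)
    (rhomb : ∀ s, 0 ≤ s → s < h0 → Rhomb (QL θ R s))
    (wall : ∀ s, 0 ≤ s → s < h0 → ∀ (p q : Pt) (m : ℝ), p.1 ≤ q.1 → 0 ≤ p.2 → 0 ≤ q.2 →
      1 ≤ ds p q → (p.1 - m) ^ 2 + p.2 ^ 2 = (q.1 - m) ^ 2 + q.2 ^ 2 →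
      (p.1 - m) ^ 2 + p.2 ^ 2 ≤ 1 →
      1 / 2 ≤ (q.1 - p.1) * (1 / 2 - amp θ s + (p.2 + q.2) / (2 * h0)) -
        ed (QA θ R s) p q) :
    CertB θ R (fun s => AvC (QL θ R s)) Nd := by
  have banti : ∀ s, ∀ X y z, AvC (QL θ R s) (-X) z y = -AvC (QL θ R s) X y z := by
    intro s X y z
    unfold AvC
    rw [neg_sq, show (y - z) ^ 2 = (z - y) ^ 2 by ring,
      Av_anti (U := QL θ R s) (Qd_anti odd _)]
    split_ifs
    · rfl
    · exact neg_zero.symm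
  have half : ∀ s, 0 ≤ s → s < h0 → ∀ p q b : Pt, ds p b = 1 → ds q b = 1 → 3 < ds p q →
      ds p q ≤ 4 → 0 ≤ cr q p b →
      cr q p b / (2 * h0) + fl (QB (QL θ R s) (AvC (QL θ R s))) q p b ≤ 1 / 2 := by
    intro s hs0 hs1 p q b k1 k2 k3 k4 k5
    have k6 : 3 < ds q p := by rwa [ds_symm]
    refine half_of_rhomb (U := QL θ R s) (Qd_anti odd _) (rhomb s hs0 hs1) k1 k2 k3 k4 k5 ?_ ?_ ?_
    · exact QA_long k6 (by rwa [ds_symm])
    · exact QA_short (by rw [k1]; norm_num)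
    · exact QA_short (by rw [ds_symm, k2]; norm_num)
  refine ⟨hθ, odd, ⟨K, bdd⟩, even, pieces, fam, fun s _ _ => banti s, ?_, ?_, half, ?_, wall⟩
  · intro s hs0 hs1 n X y z
    unfold AvC
    rw [show (n * h0 + s - z - (n * h0 + s - y)) ^ 2 = (z - y) ^ 2 by ring,
      Av_mirror (QL_mirror hs0 hs1 n)]
    split_ifs
    · rfl
    · exact neg_zero.symm
  · intro s hs0 hs1
    have hk : 0 ≤ kap θ s := (div_pos hθ (L0_pos hs1)).le
    have hE : 0 ≤ kap θ s * (s * (h0 - s) / (2 * h0)) :=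
      mul_nonneg hk (div_nonneg (mul_nonneg hs0 (by linarith)) (by linarith [h0_pos]))
    have hK : 0 ≤ K := (abs_nonneg _).trans (bdd 0 0 (by simp) le_rfl)
    refine ⟨2 * (K * (kap θ s * (s * (h0 - s) / (2 * h0)))), fun X y z hX => ?_⟩
    unfold AvC
    split_ifs with h
    · exact Av_abs (fun X y z hX => Qd_abs bdd (fun x' => D_abs hs0 hs1 hk x') hX y z)
        (by linarith [h.1]) h.2
    · rw [abs_zero]
      positivity
  · intro s hs0 hs1 p q r o R0 k0 k1 k2 k3 _ _ _ _ k8 k9 k10 k11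
    refine cel_good (QB_anti (Qd_anti odd _) (banti s)) ?_ (half s hs0 hs1)
      (Cel.of_center k0 (by linarith) k2 k1 k8 k9 k10 k11)
    intro p q r h0c h1 h2 h3 h4 h5 h6
    have h7 : ds r p ≤ 3 := by rwa [ds_symm]
    have := tri_of_fam hθ odd even pieces fam hs0 hs1 h0c h1 h2 h3 h4 h5 h6
    unfold fl at this ⊢
    rwa [ed_short h4, ed_short h5, ed_short h7]

end Pool.Agent.Strip051.LC.Line
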