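import Pool.Agent.Strip051.LC.Line.Wire

/-! # The phase-free flux inequality for one width

For a fixed width `s` and an arbitrary right side: the flux of a triangle in normal form, and of
every triangle measured from its lowest vertex. -/

namespace Pool.Agent.Strip051.LC.Line

open Pool.Agent.StripNear Pool.Agent.StripSquare Pool.Agent.Strip051.Sweep

theorem Qd_shift {D : ℝ → ℝ} (h2 : ∀ (x : ℝ) (k : ℕ), D (x + k * h0) = D x) (R : ℝ → ℝ → ℝ)
    (k : ℕ) (X y z : ℝ) : Qd R D X (y + k * h0) (z + k * h0) = Qd R D X y z := by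
  unfold Qd
  rw [show z + k * h0 - (y + k * h0) = z - y by ring, min_add_add_right, max_add_add_right]
  congr 1
  rw [show max y z + (k : ℝ) * h0 - (jn |z - y| : ℝ) * h0 =
    max y z - (jn |z - y| : ℝ) * h0 + k * h0 by ring]
  exact mn_shift (fun x => h2 x k) _ _

/-- The inequality for the width `s`: some level works.  `W1 W2 W3` are the values of the potential
at the three nodes, `l1 l2 l3` the lengths of the arcs. -/
def StE (κ s rhs l1 l2 l3 W1 W2 W3 : ℝ) : Prop :=
  ∃ γ : ℝ, κ * (l1 * phi (W1 - γ) (W2 - γ) + l2 * phi (W2 - γ) (W3 - γ) +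
    l3 * phi (W3 - γ) (W1 - γ) + γ * s) ≤ rhs

/-- The three short arcs cover the circle. -/
theorem wrapE {κ s rhs : ℝ} (hκ : 0 ≤ κ) (hs0 : 0 ≤ s) (hs1 : s < h0) {a l1 l2 l3 A1 A2 A3 : ℝ}
    (h1 : 0 ≤ l1) (h2 : 0 ≤ l2) (h3 : 0 ≤ l3) (hl : l1 + l2 + l3 = h0)
    (hS : StE κ s rhs l1 l2 l3 (pot h0 A1 A2 A3 l1 l2 l3) (pot h0 A2 A3 A1 l2 l3 l1)
      (pot h0 A3 A1 A2 l3 l1 l2)) :
    A1 * mn (D s κ) a (a + l1) + A2 * mn (D s κ) (a + l1) (a + l1 + l2) +
      A3 * mn (D s κ) (a + l1 + l2) (a + h0) ≤ rhs := by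
  have hp := h0_pos
  obtain ⟨γ, hS⟩ := hS
  have key := flux_two (κ := κ) hp hs0 hs1 hκ
    (a := a) (b := a + l1) (c := a + l1 + l2) (by linarith) (by linarith) (by linarith)
    A1 A2 A3 γ
  have e1 : a + l1 - a = l1 := by ring
  have e2 : a + l1 + l2 - (a + l1) = l2 := by ring
  have e3 : a + h0 - (a + l1 + l2) = l3 := by linarith
  rw [e1, e2, e3] at key
  exact key.trans hS

/-- The longest short arc is the union of the two other ones. -/
theorem nonwrapE {κ s rhs : ℝ} (hκ : 0 ≤ κ) (hs0 : 0 ≤ s) (hs1 : s < h0) {a l1 l2 A1 A2 A3 : ℝ}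
    (h1 : 0 ≤ l1) (h2 : 0 ≤ l2) (hl : l1 + l2 ≤ h0)
    (hS : StE κ s rhs l1 l2 (h0 - l1 - l2)
      ((A1 * (h0 - l1) + A2 * (h0 - 2 * l1 - l2) - A3 * (h0 - l1 - l2)) / (2 * h0))
      ((-A1 * (h0 - l1) + A2 * (h0 - l2) +
        A3 * (l1 - l2) / (l1 + l2) * (h0 - l1 - l2)) / (2 * h0))
      ((-A1 * (h0 - l1 - 2 * l2) - A2 * (h0 - l2) + A3 * (h0 - l1 - l2)) / (2 * h0))) :
    A1 * mn (D s κ) a (a + l1) + A2 * mn (D s κ) (a + l1) (a + l1 + l2) -
      A3 * mn (D s κ) a (a + l1 + l2) ≤ rhs := by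
  have hp := h0_pos
  set f := D s κ with hf
  rcases eq_or_lt_of_le (add_nonneg h1 h2) with h3 | h3
  · -- all three heights are congruent
    have z1 : l1 = 0 := by linarith
    have z2 : l2 = 0 := by linarith
    subst z1
    subst z2
    simp only [add_zero, mn_self]
    have hw := wrapE (a := a) (l1 := 0) (l2 := 0) (l3 := h0) (A1 := A1 + A2 - A3) (A2 := 0)
      (A3 := 0) (rhs := rhs) hκ hs0 hs1 le_rfl le_rfl hp.le (by ring) (by
        unfold StE at hS ⊢
        unfold pot
        have e1 : ((A1 + A2 - A3) * (0 + h0) - 0 * (0 + 0) + 0 * (h0 - 0)) / (2 * h0) =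
            (A1 * (h0 - 0) + A2 * (h0 - 2 * 0 - 0) - A3 * (h0 - 0 - 0)) / (2 * h0) := by
          ring
        have e2 : (0 * (0 + 0) - 0 * (h0 + 0) + (A1 + A2 - A3) * (0 - h0)) / (2 * h0) =
            (-A1 * (h0 - 0 - 2 * 0) - A2 * (h0 - 0) + A3 * (h0 - 0 - 0)) / (2 * h0) := by
          ring
        rw [e1, e2]
        simp only [zero_mul, zero_add] at hS ⊢
        simpa using hS)
    rw [← hf] at hw
    simp only [add_zero, mn_self, zero_mul] at hw
    linarith
  · -- the complement of the longest arc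
    have e0 : (l1 + l2) * mn f a (a + l1 + l2) = -((h0 - l1 - l2) * mn f (a + l1 + l2) (a + h0)) := by
      have i1 := mul_mn f a (a + l1 + l2)
      have i2 := mul_mn f (a + l1 + l2) (a + h0)
      have hI : ∀ x y : ℝ, IntervalIntegrable f MeasureTheory.volume x y :=
        fun x y => D_integrable κ hs0 x y
      have i3 := intervalIntegral.integral_add_adjacent_intervals
        (hI a (a + l1 + l2)) (hI (a + l1 + l2) (a + h0))
      have i4 : ∫ x in a..(a + h0), f x = 0 := D_integral κ hs0 hs1 a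
      rw [show a + l1 + l2 - a = l1 + l2 by ring] at i1
      rw [show a + h0 - (a + l1 + l2) = h0 - l1 - l2 by ring] at i2
      linarith
    have hw := wrapE (a := a) (l1 := l1) (l2 := l2) (l3 := h0 - l1 - l2) (A1 := A1) (A2 := A2)
      (A3 := A3 / (l1 + l2) * (h0 - l1 - l2)) (rhs := rhs) hκ hs0 hs1 h1 h2 (by linarith)
      (by ring) (by
        have e1 : pot h0 A1 A2 (A3 / (l1 + l2) * (h0 - l1 - l2)) l1 l2 (h0 - l1 - l2) =
            (A1 * (h0 - l1) + A2 * (h0 - 2 * l1 - l2) - A3 * (h0 - l1 - l2)) / (2 * h0) := by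
          unfold pot
          field_simp
          ring
        have e2 : pot h0 A2 (A3 / (l1 + l2) * (h0 - l1 - l2)) A1 l2 (h0 - l1 - l2) l1 =
            (-A1 * (h0 - l1) + A2 * (h0 - l2) +
              A3 * (l1 - l2) / (l1 + l2) * (h0 - l1 - l2)) / (2 * h0) := by
          unfold pot
          field_simp
          ring
        have e3 : pot h0 (A3 / (l1 + l2) * (h0 - l1 - l2)) A1 A2 (h0 - l1 - l2) l1 l2 =
            (-A1 * (h0 - l1 - 2 * l2) - A2 * (h0 - l2) + A3 * (h0 - l1 - l2)) / (2 * h0) := by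
          unfold pot
          field_simp
          ring
        rw [e1, e2, e3]
        exact hS)
    have e5 : A3 * mn f a (a + l1 + l2) = -(A3 / (l1 + l2) * (h0 - l1 - l2) *
        mn f (a + l1 + l2) (a + h0)) := by
      have : A3 * mn f a (a + l1 + l2) = A3 / (l1 + l2) * ((l1 + l2) * mn f a (a + l1 + l2)) := by
        field_simp
      rw [this, e0]
      ring
    rw [e5]
    linarith

/-- The potential at the three nodes when the three short arcs cover the circle. -/
def StEW (κ s rhs l1 l2 l3 A1 A2 A3 : ℝ) : Prop :=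
  StE κ s rhs l1 l2 l3 (pot h0 A1 A2 A3 l1 l2 l3) (pot h0 A2 A3 A1 l2 l3 l1)
    (pot h0 A3 A1 A2 l3 l1 l2)

/-- The potential at the three nodes when the longest short arc is the union of the others. -/
def StEN (κ s rhs l1 l2 A1 A2 A3 : ℝ) : Prop :=
  StE κ s rhs l1 l2 (h0 - l1 - l2)
    ((A1 * (h0 - l1) + A2 * (h0 - 2 * l1 - l2) - A3 * (h0 - l1 - l2)) / (2 * h0))
    ((-A1 * (h0 - l1) + A2 * (h0 - l2) + A3 * (l1 - l2) / (l1 + l2) * (h0 - l1 - l2)) / (2 * h0))
    ((-A1 * (h0 - l1 - 2 * l2) - A2 * (h0 - l2) + A3 * (h0 - l1 - l2)) / (2 * h0))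

/-- The star inequality for a triangle in normal form. -/
structure NFE (κ s rhs R12 R23 R13 t t' : ℝ) : Prop where
  pp : jn (t + t') = jn t + jn t' → 0 ≤ tau t → 0 ≤ tau t' →
    StEN κ s rhs (tau t) (tau t') (-R12) (-R23) (-R13)
  nn : jn (t + t') = jn t + jn t' → tau t ≤ 0 → tau t' ≤ 0 →
    StEN κ s rhs (-tau t') (-tau t) (-R23) (-R12) (-R13)
  pnp : jn (t + t') = jn t + jn t' → 0 ≤ tau t → tau t' ≤ 0 → 0 ≤ tau (t + t') →
    StEN κ s rhs (tau (t + t')) (-tau t') R13 (-R23) R12
  pnn : jn (t + t') = jn t + jn t' → 0 ≤ tau t → tau t' ≤ 0 → tau (t + t') ≤ 0 →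
    StEN κ s rhs (-tau (t + t')) (tau t) R13 (-R12) R23
  npp : jn (t + t') = jn t + jn t' → tau t ≤ 0 → 0 ≤ tau t' → 0 ≤ tau (t + t') →
    StEN κ s rhs (-tau t) (tau (t + t')) (-R12) R13 R23
  npn : jn (t + t') = jn t + jn t' → tau t ≤ 0 → 0 ≤ tau t' → tau (t + t') ≤ 0 →
    StEN κ s rhs (tau t') (-tau (t + t')) (-R23) R13 R12
  up : jn (t + t') = jn t + jn t' + 1 →
    StEW κ s rhs (tau t) (tau t') (-tau (t + t')) (-R12) (-R23) R13
  dn : jn (t + t') + 1 = jn t + jn t' →
    StEW κ s rhs (tau (t + t')) (-tau t') (-tau t) R13 (-R23) (-R12)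

theorem tau_bd' {T : ℝ} (h0T : 0 ≤ T) (hT : T ≤ 5 / 2 * h0) :
    -(h0 / 2) ≤ tau T ∧ tau T ≤ h0 / 2 := by
  have hp := h0_pos
  unfold tau jn
  split_ifs with h1 h2
  · push_cast
    constructor <;> linarith
  · push_cast
    constructor <;> linarith
  · push_cast
    constructor <;> linarith

/-- The inequality for a triangle in normal form; `R12 R23 R13` are the coefficients of the three
edges, directed upwards. -/
theorem nf_flux {κ s rhs : ℝ} (hκ : 0 ≤ κ) (hs0 : 0 ≤ s) (hs1 : s < h0) {R12 R23 R13 t t' : ℝ}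
    (ht : 0 ≤ t) (ht' : 0 ≤ t') (hT : t + t' ≤ 5 / 2 * h0)
    (hN : NFE κ s rhs R12 R23 R13 t t') (y : ℝ) :
    -rhs ≤ R12 * mn (D s κ) y (y + tau t) + R23 * mn (D s κ) (y + t) (y + t + tau t') -
        R13 * mn (D s κ) y (y + tau (t + t')) := by
  have hp := h0_pos
  set f := D s κ with hf
  have hshift : ∀ (k : ℕ) (a b : ℝ), mn f (a + k * h0) (b + k * h0) = mn f a b := fun k a b =>
    mn_shift (fun x => D_add_nat s κ x k) a b
  have e2 : mn f (y + t) (y + t + tau t') = mn f (y + tau t) (y + tau t + tau t') := by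
    rw [← hshift (jn t) (y + tau t)]
    unfold tau
    congr 1 <;> ring
  rw [e2]
  obtain ⟨u1, u2⟩ := tau_bd' ht (by linarith)
  obtain ⟨v1, v2⟩ := tau_bd' ht' (by linarith)
  obtain ⟨w1, w2⟩ := tau_bd' (T := t + t') (by linarith) hT
  have hsum : tau t + tau t' - tau (t + t') =
      ((jn (t + t') : ℝ) - jn t - jn t') * h0 := by
    unfold tau
    ring
  have n1 := hN.pp
  have n2 := hN.nn
  have n3 := hN.pnp
  have n4 := hN.pnn
  have n5 := hN.npp
  have n6 := hN.npn
  have n7 := hN.up
  have n8 := hN.dn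
  set u := tau t with hu
  set v := tau t' with hv
  set w := tau (t + t') with hw
  clear hN
  rcases lt_trichotomy (jn (t + t')) (jn t + jn t') with hm | hm | hm
  · -- the wrap downwards
    have hm1 : jn (t + t') + 1 = jn t + jn t' := by
      by_contra hne
      have h3 : jn (t + t') + 2 ≤ jn t + jn t' := by omega
      have h4 : (jn (t + t') : ℝ) + 2 ≤ jn t + jn t' := by exact_mod_cast h3
      nlinarith
    have h4 : (jn (t + t') : ℝ) + 1 = jn t + jn t' := by exact_mod_cast hm1
    have h5 : u + v - w = -h0 := by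
      rw [hsum]
      have : (jn (t + t') : ℝ) - jn t - jn t' = -1 := by linarith
      rw [this]
      ring
    have key := wrapE (a := y) hκ hs0 hs1 (l1 := w) (l2 := -v) (l3 := -u) (by linarith)
      (by linarith) (by linarith) (by linarith) (n8 hm1)
    rw [← hf] at key
    have i2 : mn f (y + u) (y + u + v) = mn f (y + w) (y + w + -v) := by
      rw [← hshift 1 (y + u), mn_symm]
      push_cast
      congr 1 <;> linarith
    have i3 : mn f y (y + u) = mn f (y + w + -v) (y + h0) := by
      rw [← hshift 1 y, mn_symm]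
      push_cast
      congr 1 <;> linarith
    rw [i2, i3]
    linarith
  · -- no wrap
    have h4 : (jn (t + t') : ℝ) = jn t + jn t' := by exact_mod_cast hm
    have h5 : w = u + v := by
      have : (jn (t + t') : ℝ) - jn t - jn t' = 0 := by linarith
      rw [this, zero_mul] at hsum
      linarith
    rcases le_total 0 u with hu0 | hu0 <;> rcases le_total 0 v with hv0 | hv0
    · have key := nonwrapE (a := y) hκ hs0 hs1 (l1 := u) (l2 := v) hu0 hv0 (by linarith)
        (n1 hm hu0 hv0)
      rw [← hf] at key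
      rw [h5, ← add_assoc]
      linarith
    · rcases le_total 0 w with hw0 | hw0
      · have key := nonwrapE (a := y) hκ hs0 hs1 (l1 := w) (l2 := -v) hw0 (by linarith)
          (by linarith) (n3 hm hu0 hv0 hw0)
        rw [← hf] at key
        have i2 : mn f (y + u) (y + u + v) = mn f (y + w) (y + w + -v) := by
          rw [mn_symm, h5]
          congr 1 <;> ring
        have i3 : mn f y (y + u) = mn f y (y + w + -v) := by
          rw [h5]
          congr 1
          ring
        rw [i2, i3]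
        linarith
      · have key := nonwrapE (a := y + w) hκ hs0 hs1 (l1 := -w) (l2 := u) (by linarith) hu0
          (by linarith) (n4 hm hu0 hv0 hw0)
        rw [← hf] at key
        have i1 : mn f (y + w) (y + w + -w) = mn f y (y + w) := by
          rw [mn_symm]
          congr 1
          ring
        have i2 : mn f (y + w + -w) (y + w + -w + u) = mn f y (y + u) := by
          congr 1 <;> ring
        have i3 : mn f (y + w) (y + w + -w + u) = mn f (y + u) (y + u + v) := by
          rw [mn_symm, h5]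
          congr 1 <;> ring
        rw [i1, i2, i3] at key
        linarith
    · rcases le_total 0 w with hw0 | hw0
      · have key := nonwrapE (a := y + u) hκ hs0 hs1 (l1 := -u) (l2 := w) (by linarith) hw0
          (by linarith) (n5 hm hu0 hv0 hw0)
        rw [← hf] at key
        have i1 : mn f (y + u) (y + u + -u) = mn f y (y + u) := by
          rw [mn_symm]
          congr 1
          ring
        have i2 : mn f (y + u + -u) (y + u + -u + w) = mn f y (y + w) := by
          congr 1 <;> ring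
        have i3 : mn f (y + u) (y + u + -u + w) = mn f (y + u) (y + u + v) := by
          rw [h5]
          congr 1
          ring
        rw [i1, i2, i3] at key
        linarith
      · have key := nonwrapE (a := y + u) hκ hs0 hs1 (l1 := v) (l2 := -w) hv0 (by linarith)
          (by linarith) (n6 hm hu0 hv0 hw0)
        rw [← hf] at key
        have i2 : mn f (y + u + v) (y + u + v + -w) = mn f y (y + w) := by
          rw [mn_symm, h5]
          congr 1 <;> ring
        have i3 : mn f (y + u) (y + u + v + -w) = mn f y (y + u) := by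
          rw [mn_symm, h5]
          congr 1
          ring
        rw [i2, i3] at key
        linarith
    · have key := nonwrapE (a := y + w) hκ hs0 hs1 (l1 := -v) (l2 := -u) (by linarith)
        (by linarith) (by linarith) (n2 hm hu0 hv0)
      rw [← hf] at key
      have i1 : mn f (y + w) (y + w + -v) = mn f (y + u) (y + u + v) := by
        rw [mn_symm, h5]
        congr 1 <;> ring
      have i2 : mn f (y + w + -v) (y + w + -v + -u) = mn f y (y + u) := by
        rw [mn_symm, h5]
        congr 1 <;> ring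
      have i3 : mn f (y + w) (y + w + -v + -u) = mn f y (y + w) := by
        rw [mn_symm, h5]
        congr 1
        ring
      rw [i1, i2, i3] at key
      linarith
  · -- the wrap upwards
    have hm1 : jn (t + t') = jn t + jn t' + 1 := by
      by_contra hne
      have h3 : jn t + jn t' + 2 ≤ jn (t + t') := by omega
      have h4 : (jn t : ℝ) + jn t' + 2 ≤ jn (t + t') := by exact_mod_cast h3
      nlinarith
    have h4 : (jn (t + t') : ℝ) = jn t + jn t' + 1 := by exact_mod_cast hm1
    have h5 : u + v - w = h0 := by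
      rw [hsum]
      have : (jn (t + t') : ℝ) - jn t - jn t' = 1 := by linarith
      rw [this]
      ring
    have key := wrapE (a := y) hκ hs0 hs1 (l1 := u) (l2 := v) (l3 := -w) (by linarith)
      (by linarith) (by linarith) (by linarith) (n7 hm1)
    rw [← hf] at key
    have i3 : mn f y (y + w) = mn f (y + u + v) (y + h0) := by
      rw [← hshift 1 y, mn_symm]
      push_cast
      congr 1 <;> linarith
    rw [i3]
    linarith


/-- The flux of a triangle, measured from its lowest vertex. -/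
theorem free_flux {κ s rhs : ℝ} (hκ : 0 ≤ κ) (hs0 : 0 ≤ s) (hs1 : s < h0) {R : ℝ → ℝ → ℝ}
    (hR : ∀ X T, R (-X) T = -R X T) {p q r : Pt} (h1 : p.2 ≤ q.2) (h2 : p.2 ≤ r.2)
    (hq : q.2 - p.2 ≤ 5 / 2 * h0) (hr : r.2 - p.2 ≤ 5 / 2 * h0)
    (hN : q.2 ≤ r.2 → NFE κ s rhs (R (q.1 - p.1) (q.2 - p.2)) (R (r.1 - q.1) (r.2 - q.2))
      (R (r.1 - p.1) (r.2 - p.2)) (q.2 - p.2) (r.2 - q.2))
    (hN' : r.2 ≤ q.2 → NFE κ s rhs (R (p.1 - r.1) (r.2 - p.2)) (R (r.1 - q.1) (q.2 - r.2))
      (R (p.1 - q.1) (q.2 - p.2)) (r.2 - p.2) (q.2 - r.2)) :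
    -rhs ≤ fl (Qd R (D s κ)) p q r := by
  have hp := h0_pos
  have e12 : |q.2 - p.2| = q.2 - p.2 := abs_of_nonneg (by linarith)
  have e13 : |r.2 - p.2| = r.2 - p.2 := abs_of_nonneg (by linarith)
  have e31 : ed (Qd R (D s κ)) r p = -Qd R (D s κ) (r.1 - p.1) p.2 r.2 := by
    unfold ed
    rw [← Qd_anti hR]
    congr 1
    ring
  rcases le_total q.2 r.2 with h3 | h3
  · have key := nf_flux hκ hs0 hs1 (t := q.2 - p.2) (t' := r.2 - q.2) (by linarith) (by linarith)
      (by linarith) (by
        have := hN h3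
        exact this) p.2
    have u1 := Qd_up R (D s κ) (q.1 - p.1) (y := p.2) (t := q.2 - p.2) (by linarith)
    have u2 := Qd_up R (D s κ) (r.1 - q.1) (y := q.2) (t := r.2 - q.2) (by linarith)
    have u3 := Qd_up R (D s κ) (r.1 - p.1) (y := p.2) (t := r.2 - p.2) (by linarith)
    rw [show p.2 + (q.2 - p.2) = q.2 by ring] at u1 key
    rw [show q.2 + (r.2 - q.2) = r.2 by ring] at u2
    rw [show p.2 + (r.2 - p.2) = r.2 by ring] at u3
    rw [show q.2 - p.2 + (r.2 - q.2) = r.2 - p.2 by ring] at key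
    unfold fl
    rw [e31, u3]
    unfold ed
    rw [u1, u2]
    linarith
  · have key := nf_flux hκ hs0 hs1 (t := r.2 - p.2) (t' := q.2 - r.2) (by linarith) (by linarith)
      (by linarith) (hN' h3) p.2
    have u1 := Qd_up R (D s κ) (q.1 - p.1) (y := p.2) (t := q.2 - p.2) (by linarith)
    have u2 := Qd_up R (D s κ) (q.1 - r.1) (y := r.2) (t := q.2 - r.2) (by linarith)
    have u3 := Qd_up R (D s κ) (r.1 - p.1) (y := p.2) (t := r.2 - p.2) (by linarith)
    rw [show p.2 + (q.2 - p.2) = q.2 by ring] at u1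
    rw [show r.2 + (q.2 - r.2) = q.2 by ring] at u2
    rw [show p.2 + (r.2 - p.2) = r.2 by ring] at u3 key
    rw [show r.2 - p.2 + (q.2 - r.2) = q.2 - p.2 by ring] at key
    have e23 : ed (Qd R (D s κ)) q r = -Qd R (D s κ) (q.1 - r.1) r.2 q.2 := by
      unfold ed
      rw [← Qd_anti hR]
      congr 1
      ring
    have m1 : R (p.1 - r.1) (r.2 - p.2) = -R (r.1 - p.1) (r.2 - p.2) := by
      rw [← hR]
      congr 1
      ring
    have m2 : R (r.1 - q.1) (q.2 - r.2) = -R (q.1 - r.1) (q.2 - r.2) := by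
      rw [← hR]
      congr 1
      ring
    have m3 : R (p.1 - q.1) (q.2 - p.2) = -R (q.1 - p.1) (q.2 - p.2) := by
      rw [← hR]
      congr 1
      ring
    rw [m1, m2, m3] at key
    unfold fl
    rw [e31, e23, u3, u2]
    unfold ed
    rw [u1]
    linarith

end Pool.Agent.Strip051.LC.Line
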