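import Pool.Agent.Strip051.LC.Line.GlueSl

/-! # From the box statements to the families -/

namespace Pool.Agent.Strip051.LC.Line.Glue

open Pool.Agent.StripNear Pool.Agent.StripSquare Pool.Agent.Strip051.Sweep
  Pool.Agent.Strip051.LC Pool.Agent.Strip051.LC.Line Pool.Agent.Strip051.LB.Fn

/-- The multiple of `h0` at the corner of a quarter. -/
def co : ℕ → ℝ
  | 0 => 0
  | 1 => 1
  | 2 => 1
  | _ => 2

/-- The three heights are close to the corners of their quarters. -/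
def Near (a b c : ℕ) (t t' : ℝ) : Prop :=
  |t - co a * h0| < 1 / 10 ∧ |t' - co b * h0| < 1 / 10 ∧ |t + t' - co c * h0| < 1 / 10

/-- The property which has to be proved. -/
abbrev PF : ℝ → ℝ → ℝ → ℝ → Prop := (lineV (19 / 20) vF).nf

/-- The hypotheses of the family `A` with the quarters of the three heights. -/
structure InA (a b c : ℕ) (j k : Fin 4) (σ σ' t t' : ℝ) : Prop where
  q1 : Q a t
  q2 : Q b t'
  q3 : Q c (t + t')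
  t0 : 0 ≤ t
  t0' : 0 ≤ t'
  d1 : dm j t
  d2 : dm k t'
  ho : 0 ≤ σ * cv j t * t' - σ' * cv k t' * t
  h1 : 1 ≤ (σ * cv j t + σ' * cv k t') ^ 2 + (t + t') ^ 2
  h3 : (σ * cv j t + σ' * cv k t') ^ 2 + (t + t') ^ 2 ≤ 3

/-- The hypotheses of the family `B` with the quarters of the three heights. -/
structure InB (a b c : ℕ) (j k : Fin 4) (σ σ' t t' : ℝ) : Prop where
  q1 : Q a t
  q2 : Q b t'
  q3 : Q c (t + t')
  t0 : 0 ≤ t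
  t0' : 0 ≤ t'
  d1 : dm j t
  d3 : dm k (t + t')
  ho : 0 ≤ σ * cv j t * (t + t') - σ' * cv k (t + t') * t
  h1 : 1 ≤ (σ' * cv k (t + t') - σ * cv j t) ^ 2 + t' ^ 2
  h3 : (σ' * cv k (t + t') - σ * cv j t) ^ 2 + t' ^ 2 ≤ 3

/-- The family `A` in a triple of quarters. -/
def TriA (a b c : ℕ) (j k : Fin 4) (σ σ' : ℝ) : Prop :=
  ∀ t t' : ℝ, InA a b c j k σ σ' t t' → PF (σ * cv j t) (σ * cv j t + σ' * cv k t') t t'

/-- The family `B` in a triple of quarters. -/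
def TriB (a b c : ℕ) (j k : Fin 4) (σ σ' : ℝ) : Prop :=
  ∀ t t' : ℝ, InB a b c j k σ σ' t t' → PF (σ * cv j t) (σ' * cv k (t + t')) t t'

/-- The family `A` in a triple of quarters, near the corner. -/
def CubeA (a b c : ℕ) (j k : Fin 4) (σ σ' : ℝ) : Prop :=
  ∀ t t' : ℝ, InA a b c j k σ σ' t t' → Near a b c t t' →
    PF (σ * cv j t) (σ * cv j t + σ' * cv k t') t t'

/-- The family `B` in a triple of quarters, near the corner. -/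
def CubeB (a b c : ℕ) (j k : Fin 4) (σ σ' : ℝ) : Prop :=
  ∀ t t' : ℝ, InB a b c j k σ σ' t t' → Near a b c t t' →
    PF (σ * cv j t) (σ' * cv k (t + t')) t t'

theorem pls {a b : ℝ} (h : a = b) : a = 1 * b := by rw [h, one_mul]
theorem mns {a b : ℝ} (h : a = b) : -a = -1 * b := by rw [h, neg_one_mul]

theorem nd_00 {T : ℝ} (_h : Q 0 T) : c1f_v T = cv 0 T := c1f_eq
theorem nd_01 {T : ℝ} (_h : Q 1 T) : c1f_v T = cv 0 T := c1f_eq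
theorem nd_02 {T : ℝ} (_h : Q 2 T) : c1f_v T = cv 0 T := c1f_eq
theorem nd_10 {T : ℝ} (h : Q 0 T) : f1m_v T = cv 1 T := f1m_eq (by have := h0_pos; linarith [(Q0.1 h).2])
theorem nd_11 {T : ℝ} (h : Q 1 T) : f1m_v T = cv 1 T := f1m_eq (by have := h0_pos; linarith [(Q1.1 h).2])
theorem nd_12 {T : ℝ} (h : Q 2 T) : f1p_v T = cv 1 T := f1p_eq (by have := h0_pos; linarith [(Q2.1 h).1])
theorem nd_13 {T : ℝ} (h : Q 3 T) : f1p_v T = cv 1 T := f1p_eq (by have := h0_pos; linarith [(Q3.1 h).1])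
theorem nd_20 {T : ℝ} (h : Q 0 T) : f2m_v T = cv 2 T := f2m_eq (by have := h0_pos; linarith [(Q0.1 h).2])
theorem nd_21 {T : ℝ} (h : Q 1 T) : f2m_v T = cv 2 T := f2m_eq (by have := h0_pos; linarith [(Q1.1 h).2])
theorem nd_22 {T : ℝ} (h : Q 2 T) : f2p_v T = cv 2 T := f2p_eq (by have := h0_pos; linarith [(Q2.1 h).1])
theorem nd_23 {T : ℝ} (h : Q 3 T) : f2p_v T = cv 2 T := f2p_eq (by have := h0_pos; linarith [(Q3.1 h).1])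
theorem nd_30 {T : ℝ} (_h : Q 0 T) : c3f_v T = cv 3 T := c3f_eq
theorem nd_31 {T : ℝ} (_h : Q 1 T) : c3f_v T = cv 3 T := c3f_eq
theorem nd_32 {T : ℝ} (_h : Q 2 T) : c3f_v T = cv 3 T := c3f_eq
theorem nd_33 {T : ℝ} (_h : Q 3 T) : c3f_v T = cv 3 T := c3f_eq
theorem vl_00 {T : ℝ} (h : Q 0 T) (hd : dm 0 T) : a1q0_v T = vF T (tg 0) := by
  have hp := h0_pos
  have h0T : 0 ≤ T := (Q0.1 h).1
  obtain ⟨g1, g2⟩ := Q0.1 h
  rw [tg_zero, vF_0 h0T hd]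
  exact a1q0_eq g2

theorem vl_01 {T : ℝ} (h : Q 1 T) (hd : dm 0 T) : a1q1_v T = vF T (tg 0) := by
  have hp := h0_pos
  have h0T : 0 ≤ T := by linarith [(Q1.1 h).1]
  obtain ⟨g1, g2⟩ := Q1.1 h
  rw [tg_zero, vF_0 h0T hd]
  exact a1q1_eq g1 g2.le

theorem vl_02 {T : ℝ} (h : Q 2 T) (hd : dm 0 T) : c1f_v T = vF T (tg 0) := by
  have hp := h0_pos
  have h0T : 0 ≤ T := by linarith [(Q2.1 h).1]
  obtain ⟨g1, g2⟩ := Q2.1 h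
  rw [tg_zero, vF_0 h0T hd]
  rw [A1u_2 g1]
  exact c1f_eq

theorem vl_10 {T : ℝ} (h : Q 0 T) : v1q0_v T = vF T (tg 1) := by
  have hp := h0_pos
  have h0T : 0 ≤ T := (Q0.1 h).1
  obtain ⟨g1, g2⟩ := Q0.1 h
  rw [tg_one, vF_1 h0T]
  exact v1q0_eq g2

theorem vl_11 {T : ℝ} (h : Q 1 T) : v1q1_v T = vF T (tg 1) := by
  have hp := h0_pos
  have h0T : 0 ≤ T := by linarith [(Q1.1 h).1]
  obtain ⟨g1, g2⟩ := Q1.1 h
  rw [tg_one, vF_1 h0T]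
  exact v1q1_eq g1 g2

theorem vl_12 {T : ℝ} (h : Q 2 T) : v1q2_v T = vF T (tg 1) := by
  have hp := h0_pos
  have h0T : 0 ≤ T := by linarith [(Q2.1 h).1]
  obtain ⟨g1, g2⟩ := Q2.1 h
  rw [tg_one, vF_1 h0T]
  exact v1q2_eq g1 g2

theorem vl_13 {T : ℝ} (h : Q 3 T) : v1q3_v T = vF T (tg 1) := by
  have hp := h0_pos
  have h0T : 0 ≤ T := by linarith [(Q3.1 h).1]
  obtain ⟨g1, g2⟩ := Q3.1 h
  rw [tg_one, vF_1 h0T]
  exact v1q3_eq g1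

theorem vl_20 {T : ℝ} (h : Q 0 T) : v2q0_v T = vF T (tg 2) := by
  have hp := h0_pos
  have h0T : 0 ≤ T := (Q0.1 h).1
  obtain ⟨g1, g2⟩ := Q0.1 h
  rw [tg_two, vF_3 h0T]
  exact v2q0_eq g2

theorem vl_21 {T : ℝ} (h : Q 1 T) : v2q1_v T = vF T (tg 2) := by
  have hp := h0_pos
  have h0T : 0 ≤ T := by linarith [(Q1.1 h).1]
  obtain ⟨g1, g2⟩ := Q1.1 h
  rw [tg_two, vF_3 h0T]
  exact v2q1_eq g1 g2

theorem vl_22 {T : ℝ} (h : Q 2 T) : v2q2_v T = vF T (tg 2) := by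
  have hp := h0_pos
  have h0T : 0 ≤ T := by linarith [(Q2.1 h).1]
  obtain ⟨g1, g2⟩ := Q2.1 h
  rw [tg_two, vF_3 h0T]
  exact v2q2_eq g1 g2

theorem vl_23 {T : ℝ} (h : Q 3 T) : v2q3_v T = vF T (tg 2) := by
  have hp := h0_pos
  have h0T : 0 ≤ T := by linarith [(Q3.1 h).1]
  obtain ⟨g1, g2⟩ := Q3.1 h
  rw [tg_two, vF_3 h0T]
  exact v2q3_eq g1

theorem vl_30 {T : ℝ} (h : Q 0 T) : a3q0_v T = vF T (tg 3) := by
  have hp := h0_pos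
  have h0T : 0 ≤ T := (Q0.1 h).1
  obtain ⟨g1, g2⟩ := Q0.1 h
  rw [tg_three, vF_4 h0T]
  exact a3q0_eq g1 g2

theorem vl_31 {T : ℝ} (h : Q 1 T) : a3q1_v T = vF T (tg 3) := by
  have hp := h0_pos
  have h0T : 0 ≤ T := by linarith [(Q1.1 h).1]
  obtain ⟨g1, g2⟩ := Q1.1 h
  rw [tg_three, vF_4 h0T]
  exact a3q1_eq g1 g2

theorem vl_32 {T : ℝ} (h : Q 2 T) : a3q2_v T = vF T (tg 3) := by
  have hp := h0_pos
  have h0T : 0 ≤ T := by linarith [(Q2.1 h).1]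
  obtain ⟨g1, g2⟩ := Q2.1 h
  rw [tg_three, vF_4 h0T]
  exact a3q2_eq g1 g2

theorem vl_33 {T : ℝ} (h : Q 3 T) : a3q3_v T = vF T (tg 3) := by
  have hp := h0_pos
  have h0T : 0 ≤ T := by linarith [(Q3.1 h).1]
  obtain ⟨g1, g2⟩ := Q3.1 h
  rw [tg_three, vF_4 h0T]
  exact a3q3_eq g1 g2

theorem rk_0 {X T : ℝ} (h : Q 0 T) (h1 : 1 ≤ X ^ 2 + T ^ 2) (h3 : X ^ 2 + T ^ 2 ≤ 3) :
    rq0_v X T = ker (nodesW false) vF (fun _ _ => 0) X T :=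
  rq0_ker (Q0.1 h).1 (Q0.1 h).2 h1 h3

theorem rk_1 {X T : ℝ} (h : Q 1 T) (h1 : 1 ≤ X ^ 2 + T ^ 2) (h3 : X ^ 2 + T ^ 2 ≤ 3) :
    rq1_v X T = ker (nodesW false) vF (fun _ _ => 0) X T :=
  rq1_ker (Q1.1 h).1 (Q1.1 h).2 h1 h3

theorem rk_2 {X T : ℝ} (h : Q 2 T) (h1 : 1 ≤ X ^ 2 + T ^ 2) (h3 : X ^ 2 + T ^ 2 ≤ 3) :
    rq2_v X T = ker (nodesW false) vF (fun _ _ => 0) X T :=
  rq2_ker (Q2.1 h).1 (Q2.1 h).2 h1 h3

theorem rk_3 {X T : ℝ} (h : Q 3 T) (h1 : 1 ≤ X ^ 2 + T ^ 2) (h3 : X ^ 2 + T ^ 2 ≤ 3) :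
    rq3_v X T = ker (nodesW false) vF (fun _ _ => 0) X T :=
  rq3_ker (Q3.1 h).1 (Q3.1 h).2 h1 h3

theorem hoA {j k : Fin 4} {σ σ' t t' X12 X23 : ℝ} {a b c : ℕ} (H : InA a b c j k σ σ' t t')
    (e1 : X12 = σ * cv j t) (e2 : X23 = σ' * cv k t') : 0 ≤ exf_v X12 X23 t t' + 1 / 2 := by
  rw [exf_eq, sub_add_cancel, e1, e2]
  have := h0_pos
  exact div_nonneg H.ho (by linarith)

theorem hoB {j k : Fin 4} {σ σ' t t' X12 X13 : ℝ} {a b c : ℕ} (H : InB a b c j k σ σ' t t')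
    (e1 : X12 = σ * cv j t) (e2 : X13 = σ' * cv k (t + t')) :
    0 ≤ exf_v X12 X13 t (t + t') + 1 / 2 := by
  rw [exf_eq, sub_add_cancel, e1, e2]
  have := h0_pos
  exact div_nonneg H.ho (by linarith)

theorem l1A {j k : Fin 4} {σ σ' t t' X12 X23 : ℝ} {a b c : ℕ} (H : InA a b c j k σ σ' t t')
    (e1 : X12 = σ * cv j t) (e2 : X23 = σ' * cv k t') : 1 ≤ q3f_v (X12 + X23) (t + t') := by
  rw [q3f_eq, e1, e2]
  exact H.h1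

theorem l3A {j k : Fin 4} {σ σ' t t' X12 X23 : ℝ} {a b c : ℕ} (H : InA a b c j k σ σ' t t')
    (e1 : X12 = σ * cv j t) (e2 : X23 = σ' * cv k t') : q3f_v (X12 + X23) (t + t') ≤ 3 := by
  rw [q3f_eq, e1, e2]
  exact H.h3

theorem l1B {j k : Fin 4} {σ σ' t t' X12 X13 : ℝ} {a b c : ℕ} (H : InB a b c j k σ σ' t t')
    (e1 : X12 = σ * cv j t) (e2 : X13 = σ' * cv k (t + t')) :
    1 ≤ q3f_v (X13 - X12) (t + t' - t) := by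
  rw [q3f_eq, e1, e2, add_sub_cancel_left]
  exact H.h1

theorem l3B {j k : Fin 4} {σ σ' t t' X12 X13 : ℝ} {a b c : ℕ} (H : InB a b c j k σ σ' t t')
    (e1 : X12 = σ * cv j t) (e2 : X13 = σ' * cv k (t + t')) :
    q3f_v (X13 - X12) (t + t' - t) ≤ 3 := by
  rw [q3f_eq, e1, e2, add_sub_cancel_left]
  exact H.h3

theorem useA_001 {j k : Fin 4} {σ σ' t t' X12 X23 R1 R2 : ℝ} (H : InA 0 0 1 j k σ σ' t t')
    (hσ : σ = 1 ∨ σ = -1) (hσ' : σ' = 1 ∨ σ' = -1) (e1 : X12 = σ * cv j t)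
    (e2 : X23 = σ' * cv k t') (v1 : R1 = σ * vF t (tg j)) (v2 : R2 = σ' * vF t' (tg k))
    (h : 0 ≤ sl001_v (exf_v X12 X23 t t') t t' (t + t') R1 R2 (rq1_v (X12 + X23) (t + t'))) :
    PF (σ * cv j t) (σ * cv j t + σ' * cv k t') t t' := by
  show NFV (19 / 20) _ _ t t' (valK _ _ t t' vF)
  unfold valK
  rw [kerW_node tabW_vF hσ H.t0 H.d1, add_sub_cancel_left, kerW_node tabW_vF hσ' H.t0' H.d2,
    ← rk_1 H.q3 H.h1 H.h3, ← v1, ← v2, ← e1, ← e2]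
  rw [exf_A] at h
  exact nfv_001 H.q1 H.q2 H.q3 h

theorem useB_001 {j k : Fin 4} {σ σ' t t' X12 X13 R1 R3 : ℝ} (H : InB 0 0 1 j k σ σ' t t')
    (hσ : σ = 1 ∨ σ = -1) (hσ' : σ' = 1 ∨ σ' = -1) (e1 : X12 = σ * cv j t)
    (e2 : X13 = σ' * cv k (t + t')) (v1 : R1 = σ * vF t (tg j))
    (v3 : R3 = σ' * vF (t + t') (tg k))
    (h : 0 ≤ sl001_v (exf_v X12 X13 t (t + t')) t (t + t' - t) (t + t') R1
      (rq0_v (X13 - X12) (t + t' - t)) R3) :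
    PF (σ * cv j t) (σ' * cv k (t + t')) t t' := by
  show NFV (19 / 20) _ _ t t' (valK _ _ t t' vF)
  have hT : 0 ≤ t + t' := by linarith [H.t0, H.t0']
  unfold valK
  rw [kerW_node tabW_vF hσ H.t0 H.d1, kerW_node tabW_vF hσ' hT H.d3,
    ← rk_0 H.q2 H.h1 H.h3, ← v1, ← v3, ← e1, ← e2]
  rw [exf_B, add_sub_cancel_left] at h
  exact nfv_001 H.q1 H.q2 H.q3 h

theorem useA_011 {j k : Fin 4} {σ σ' t t' X12 X23 R1 R2 : ℝ} (H : InA 0 1 1 j k σ σ' t t')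
    (hσ : σ = 1 ∨ σ = -1) (hσ' : σ' = 1 ∨ σ' = -1) (e1 : X12 = σ * cv j t)
    (e2 : X23 = σ' * cv k t') (v1 : R1 = σ * vF t (tg j)) (v2 : R2 = σ' * vF t' (tg k))
    (h : 0 ≤ sl011_v (exf_v X12 X23 t t') t t' (t + t') R1 R2 (rq1_v (X12 + X23) (t + t'))) :
    PF (σ * cv j t) (σ * cv j t + σ' * cv k t') t t' := by
  show NFV (19 / 20) _ _ t t' (valK _ _ t t' vF)
  unfold valK
  rw [kerW_node tabW_vF hσ H.t0 H.d1, add_sub_cancel_left, kerW_node tabW_vF hσ' H.t0' H.d2,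
    ← rk_1 H.q3 H.h1 H.h3, ← v1, ← v2, ← e1, ← e2]
  rw [exf_A] at h
  exact nfv_011 H.q1 H.q2 H.q3 h

theorem useB_011 {j k : Fin 4} {σ σ' t t' X12 X13 R1 R3 : ℝ} (H : InB 0 1 1 j k σ σ' t t')
    (hσ : σ = 1 ∨ σ = -1) (hσ' : σ' = 1 ∨ σ' = -1) (e1 : X12 = σ * cv j t)
    (e2 : X13 = σ' * cv k (t + t')) (v1 : R1 = σ * vF t (tg j))
    (v3 : R3 = σ' * vF (t + t') (tg k))
    (h : 0 ≤ sl011_v (exf_v X12 X13 t (t + t')) t (t + t' - t) (t + t') R1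
      (rq1_v (X13 - X12) (t + t' - t)) R3) :
    PF (σ * cv j t) (σ' * cv k (t + t')) t t' := by
  show NFV (19 / 20) _ _ t t' (valK _ _ t t' vF)
  have hT : 0 ≤ t + t' := by linarith [H.t0, H.t0']
  unfold valK
  rw [kerW_node tabW_vF hσ H.t0 H.d1, kerW_node tabW_vF hσ' hT H.d3,
    ← rk_1 H.q2 H.h1 H.h3, ← v1, ← v3, ← e1, ← e2]
  rw [exf_B, add_sub_cancel_left] at h
  exact nfv_011 H.q1 H.q2 H.q3 h

theorem useA_012 {j k : Fin 4} {σ σ' t t' X12 X23 R1 R2 : ℝ} (H : InA 0 1 2 j k σ σ' t t')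
    (hσ : σ = 1 ∨ σ = -1) (hσ' : σ' = 1 ∨ σ' = -1) (e1 : X12 = σ * cv j t)
    (e2 : X23 = σ' * cv k t') (v1 : R1 = σ * vF t (tg j)) (v2 : R2 = σ' * vF t' (tg k))
    (h : 0 ≤ sl012_v (exf_v X12 X23 t t') t t' (t + t') R1 R2 (rq2_v (X12 + X23) (t + t'))) :
    PF (σ * cv j t) (σ * cv j t + σ' * cv k t') t t' := by
  show NFV (19 / 20) _ _ t t' (valK _ _ t t' vF)
  unfold valK
  rw [kerW_node tabW_vF hσ H.t0 H.d1, add_sub_cancel_left, kerW_node tabW_vF hσ' H.t0' H.d2,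
    ← rk_2 H.q3 H.h1 H.h3, ← v1, ← v2, ← e1, ← e2]
  rw [exf_A] at h
  exact nfv_012 H.q1 H.q2 H.q3 h

theorem useB_012 {j k : Fin 4} {σ σ' t t' X12 X13 R1 R3 : ℝ} (H : InB 0 1 2 j k σ σ' t t')
    (hσ : σ = 1 ∨ σ = -1) (hσ' : σ' = 1 ∨ σ' = -1) (e1 : X12 = σ * cv j t)
    (e2 : X13 = σ' * cv k (t + t')) (v1 : R1 = σ * vF t (tg j))
    (v3 : R3 = σ' * vF (t + t') (tg k))
    (h : 0 ≤ sl012_v (exf_v X12 X13 t (t + t')) t (t + t' - t) (t + t') R1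
      (rq1_v (X13 - X12) (t + t' - t)) R3) :
    PF (σ * cv j t) (σ' * cv k (t + t')) t t' := by
  show NFV (19 / 20) _ _ t t' (valK _ _ t t' vF)
  have hT : 0 ≤ t + t' := by linarith [H.t0, H.t0']
  unfold valK
  rw [kerW_node tabW_vF hσ H.t0 H.d1, kerW_node tabW_vF hσ' hT H.d3,
    ← rk_1 H.q2 H.h1 H.h3, ← v1, ← v3, ← e1, ← e2]
  rw [exf_B, add_sub_cancel_left] at h
  exact nfv_012 H.q1 H.q2 H.q3 h

theorem useA_022 {j k : Fin 4} {σ σ' t t' X12 X23 R1 R2 : ℝ} (H : InA 0 2 2 j k σ σ' t t')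
    (hσ : σ = 1 ∨ σ = -1) (hσ' : σ' = 1 ∨ σ' = -1) (e1 : X12 = σ * cv j t)
    (e2 : X23 = σ' * cv k t') (v1 : R1 = σ * vF t (tg j)) (v2 : R2 = σ' * vF t' (tg k))
    (h : 0 ≤ sl022_v (exf_v X12 X23 t t') t t' (t + t') R1 R2 (rq2_v (X12 + X23) (t + t'))) :
    PF (σ * cv j t) (σ * cv j t + σ' * cv k t') t t' := by
  show NFV (19 / 20) _ _ t t' (valK _ _ t t' vF)
  unfold valK
  rw [kerW_node tabW_vF hσ H.t0 H.d1, add_sub_cancel_left, kerW_node tabW_vF hσ' H.t0' H.d2,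
    ← rk_2 H.q3 H.h1 H.h3, ← v1, ← v2, ← e1, ← e2]
  rw [exf_A] at h
  exact nfv_022 H.q1 H.q2 H.q3 h

theorem useB_022 {j k : Fin 4} {σ σ' t t' X12 X13 R1 R3 : ℝ} (H : InB 0 2 2 j k σ σ' t t')
    (hσ : σ = 1 ∨ σ = -1) (hσ' : σ' = 1 ∨ σ' = -1) (e1 : X12 = σ * cv j t)
    (e2 : X13 = σ' * cv k (t + t')) (v1 : R1 = σ * vF t (tg j))
    (v3 : R3 = σ' * vF (t + t') (tg k))
    (h : 0 ≤ sl022_v (exf_v X12 X13 t (t + t')) t (t + t' - t) (t + t') R1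
      (rq2_v (X13 - X12) (t + t' - t)) R3) :
    PF (σ * cv j t) (σ' * cv k (t + t')) t t' := by
  show NFV (19 / 20) _ _ t t' (valK _ _ t t' vF)
  have hT : 0 ≤ t + t' := by linarith [H.t0, H.t0']
  unfold valK
  rw [kerW_node tabW_vF hσ H.t0 H.d1, kerW_node tabW_vF hσ' hT H.d3,
    ← rk_2 H.q2 H.h1 H.h3, ← v1, ← v3, ← e1, ← e2]
  rw [exf_B, add_sub_cancel_left] at h
  exact nfv_022 H.q1 H.q2 H.q3 h

theorem useA_023 {j k : Fin 4} {σ σ' t t' X12 X23 R1 R2 : ℝ} (H : InA 0 2 3 j k σ σ' t t')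
    (hσ : σ = 1 ∨ σ = -1) (hσ' : σ' = 1 ∨ σ' = -1) (e1 : X12 = σ * cv j t)
    (e2 : X23 = σ' * cv k t') (v1 : R1 = σ * vF t (tg j)) (v2 : R2 = σ' * vF t' (tg k))
    (h : 0 ≤ sl023_v (exf_v X12 X23 t t') t t' (t + t') R1 R2 (rq3_v (X12 + X23) (t + t'))) :
    PF (σ * cv j t) (σ * cv j t + σ' * cv k t') t t' := by
  show NFV (19 / 20) _ _ t t' (valK _ _ t t' vF)
  unfold valK
  rw [kerW_node tabW_vF hσ H.t0 H.d1, add_sub_cancel_left, kerW_node tabW_vF hσ' H.t0' H.d2,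
    ← rk_3 H.q3 H.h1 H.h3, ← v1, ← v2, ← e1, ← e2]
  rw [exf_A] at h
  exact nfv_023 H.q1 H.q2 H.q3 h

theorem useB_023 {j k : Fin 4} {σ σ' t t' X12 X13 R1 R3 : ℝ} (H : InB 0 2 3 j k σ σ' t t')
    (hσ : σ = 1 ∨ σ = -1) (hσ' : σ' = 1 ∨ σ' = -1) (e1 : X12 = σ * cv j t)
    (e2 : X13 = σ' * cv k (t + t')) (v1 : R1 = σ * vF t (tg j))
    (v3 : R3 = σ' * vF (t + t') (tg k))
    (h : 0 ≤ sl023_v (exf_v X12 X13 t (t + t')) t (t + t' - t) (t + t') R1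
      (rq2_v (X13 - X12) (t + t' - t)) R3) :
    PF (σ * cv j t) (σ' * cv k (t + t')) t t' := by
  show NFV (19 / 20) _ _ t t' (valK _ _ t t' vF)
  have hT : 0 ≤ t + t' := by linarith [H.t0, H.t0']
  unfold valK
  rw [kerW_node tabW_vF hσ H.t0 H.d1, kerW_node tabW_vF hσ' hT H.d3,
    ← rk_2 H.q2 H.h1 H.h3, ← v1, ← v3, ← e1, ← e2]
  rw [exf_B, add_sub_cancel_left] at h
  exact nfv_023 H.q1 H.q2 H.q3 h

theorem useA_033 {j k : Fin 4} {σ σ' t t' X12 X23 R1 R2 : ℝ} (H : InA 0 3 3 j k σ σ' t t')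
    (hσ : σ = 1 ∨ σ = -1) (hσ' : σ' = 1 ∨ σ' = -1) (e1 : X12 = σ * cv j t)
    (e2 : X23 = σ' * cv k t') (v1 : R1 = σ * vF t (tg j)) (v2 : R2 = σ' * vF t' (tg k))
    (h : 0 ≤ sl033_v (exf_v X12 X23 t t') t t' (t + t') R1 R2 (rq3_v (X12 + X23) (t + t'))) :
    PF (σ * cv j t) (σ * cv j t + σ' * cv k t') t t' := by
  show NFV (19 / 20) _ _ t t' (valK _ _ t t' vF)
  unfold valK
  rw [kerW_node tabW_vF hσ H.t0 H.d1, add_sub_cancel_left, kerW_node tabW_vF hσ' H.t0' H.d2,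
    ← rk_3 H.q3 H.h1 H.h3, ← v1, ← v2, ← e1, ← e2]
  rw [exf_A] at h
  exact nfv_033 H.q1 H.q2 H.q3 h

theorem useB_033 {j k : Fin 4} {σ σ' t t' X12 X13 R1 R3 : ℝ} (H : InB 0 3 3 j k σ σ' t t')
    (hσ : σ = 1 ∨ σ = -1) (hσ' : σ' = 1 ∨ σ' = -1) (e1 : X12 = σ * cv j t)
    (e2 : X13 = σ' * cv k (t + t')) (v1 : R1 = σ * vF t (tg j))
    (v3 : R3 = σ' * vF (t + t') (tg k))
    (h : 0 ≤ sl033_v (exf_v X12 X13 t (t + t')) t (t + t' - t) (t + t') R1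
      (rq3_v (X13 - X12) (t + t' - t)) R3) :
    PF (σ * cv j t) (σ' * cv k (t + t')) t t' := by
  show NFV (19 / 20) _ _ t t' (valK _ _ t t' vF)
  have hT : 0 ≤ t + t' := by linarith [H.t0, H.t0']
  unfold valK
  rw [kerW_node tabW_vF hσ H.t0 H.d1, kerW_node tabW_vF hσ' hT H.d3,
    ← rk_3 H.q2 H.h1 H.h3, ← v1, ← v3, ← e1, ← e2]
  rw [exf_B, add_sub_cancel_left] at h
  exact nfv_033 H.q1 H.q2 H.q3 h

theorem useA_101 {j k : Fin 4} {σ σ' t t' X12 X23 R1 R2 : ℝ} (H : InA 1 0 1 j k σ σ' t t')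
    (hσ : σ = 1 ∨ σ = -1) (hσ' : σ' = 1 ∨ σ' = -1) (e1 : X12 = σ * cv j t)
    (e2 : X23 = σ' * cv k t') (v1 : R1 = σ * vF t (tg j)) (v2 : R2 = σ' * vF t' (tg k))
    (h : 0 ≤ sl101_v (exf_v X12 X23 t t') t t' (t + t') R1 R2 (rq1_v (X12 + X23) (t + t'))) :
    PF (σ * cv j t) (σ * cv j t + σ' * cv k t') t t' := by
  show NFV (19 / 20) _ _ t t' (valK _ _ t t' vF)
  unfold valK
  rw [kerW_node tabW_vF hσ H.t0 H.d1, add_sub_cancel_left, kerW_node tabW_vF hσ' H.t0' H.d2,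
    ← rk_1 H.q3 H.h1 H.h3, ← v1, ← v2, ← e1, ← e2]
  rw [exf_A] at h
  exact nfv_101 H.q1 H.q2 H.q3 h

theorem useB_101 {j k : Fin 4} {σ σ' t t' X12 X13 R1 R3 : ℝ} (H : InB 1 0 1 j k σ σ' t t')
    (hσ : σ = 1 ∨ σ = -1) (hσ' : σ' = 1 ∨ σ' = -1) (e1 : X12 = σ * cv j t)
    (e2 : X13 = σ' * cv k (t + t')) (v1 : R1 = σ * vF t (tg j))
    (v3 : R3 = σ' * vF (t + t') (tg k))
    (h : 0 ≤ sl101_v (exf_v X12 X13 t (t + t')) t (t + t' - t) (t + t') R1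
      (rq0_v (X13 - X12) (t + t' - t)) R3) :
    PF (σ * cv j t) (σ' * cv k (t + t')) t t' := by
  show NFV (19 / 20) _ _ t t' (valK _ _ t t' vF)
  have hT : 0 ≤ t + t' := by linarith [H.t0, H.t0']
  unfold valK
  rw [kerW_node tabW_vF hσ H.t0 H.d1, kerW_node tabW_vF hσ' hT H.d3,
    ← rk_0 H.q2 H.h1 H.h3, ← v1, ← v3, ← e1, ← e2]
  rw [exf_B, add_sub_cancel_left] at h
  exact nfv_101 H.q1 H.q2 H.q3 h

theorem useA_102 {j k : Fin 4} {σ σ' t t' X12 X23 R1 R2 : ℝ} (H : InA 1 0 2 j k σ σ' t t')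
    (hσ : σ = 1 ∨ σ = -1) (hσ' : σ' = 1 ∨ σ' = -1) (e1 : X12 = σ * cv j t)
    (e2 : X23 = σ' * cv k t') (v1 : R1 = σ * vF t (tg j)) (v2 : R2 = σ' * vF t' (tg k))
    (h : 0 ≤ sl102_v (exf_v X12 X23 t t') t t' (t + t') R1 R2 (rq2_v (X12 + X23) (t + t'))) :
    PF (σ * cv j t) (σ * cv j t + σ' * cv k t') t t' := by
  show NFV (19 / 20) _ _ t t' (valK _ _ t t' vF)
  unfold valK
  rw [kerW_node tabW_vF hσ H.t0 H.d1, add_sub_cancel_left, kerW_node tabW_vF hσ' H.t0' H.d2,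
    ← rk_2 H.q3 H.h1 H.h3, ← v1, ← v2, ← e1, ← e2]
  rw [exf_A] at h
  exact nfv_102 H.q1 H.q2 H.q3 h

theorem useB_102 {j k : Fin 4} {σ σ' t t' X12 X13 R1 R3 : ℝ} (H : InB 1 0 2 j k σ σ' t t')
    (hσ : σ = 1 ∨ σ = -1) (hσ' : σ' = 1 ∨ σ' = -1) (e1 : X12 = σ * cv j t)
    (e2 : X13 = σ' * cv k (t + t')) (v1 : R1 = σ * vF t (tg j))
    (v3 : R3 = σ' * vF (t + t') (tg k))
    (h : 0 ≤ sl102_v (exf_v X12 X13 t (t + t')) t (t + t' - t) (t + t') R1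
      (rq0_v (X13 - X12) (t + t' - t)) R3) :
    PF (σ * cv j t) (σ' * cv k (t + t')) t t' := by
  show NFV (19 / 20) _ _ t t' (valK _ _ t t' vF)
  have hT : 0 ≤ t + t' := by linarith [H.t0, H.t0']
  unfold valK
  rw [kerW_node tabW_vF hσ H.t0 H.d1, kerW_node tabW_vF hσ' hT H.d3,
    ← rk_0 H.q2 H.h1 H.h3, ← v1, ← v3, ← e1, ← e2]
  rw [exf_B, add_sub_cancel_left] at h
  exact nfv_102 H.q1 H.q2 H.q3 h

theorem useA_112 {j k : Fin 4} {σ σ' t t' X12 X23 R1 R2 : ℝ} (H : InA 1 1 2 j k σ σ' t t')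
    (hσ : σ = 1 ∨ σ = -1) (hσ' : σ' = 1 ∨ σ' = -1) (e1 : X12 = σ * cv j t)
    (e2 : X23 = σ' * cv k t') (v1 : R1 = σ * vF t (tg j)) (v2 : R2 = σ' * vF t' (tg k))
    (h : 0 ≤ sl112_v (exf_v X12 X23 t t') t t' (t + t') R1 R2 (rq2_v (X12 + X23) (t + t'))) :
    PF (σ * cv j t) (σ * cv j t + σ' * cv k t') t t' := by
  show NFV (19 / 20) _ _ t t' (valK _ _ t t' vF)
  unfold valK
  rw [kerW_node tabW_vF hσ H.t0 H.d1, add_sub_cancel_left, kerW_node tabW_vF hσ' H.t0' H.d2,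
    ← rk_2 H.q3 H.h1 H.h3, ← v1, ← v2, ← e1, ← e2]
  rw [exf_A] at h
  exact nfv_112 H.q1 H.q2 H.q3 h

theorem useB_112 {j k : Fin 4} {σ σ' t t' X12 X13 R1 R3 : ℝ} (H : InB 1 1 2 j k σ σ' t t')
    (hσ : σ = 1 ∨ σ = -1) (hσ' : σ' = 1 ∨ σ' = -1) (e1 : X12 = σ * cv j t)
    (e2 : X13 = σ' * cv k (t + t')) (v1 : R1 = σ * vF t (tg j))
    (v3 : R3 = σ' * vF (t + t') (tg k))
    (h : 0 ≤ sl112_v (exf_v X12 X13 t (t + t')) t (t + t' - t) (t + t') R1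
      (rq1_v (X13 - X12) (t + t' - t)) R3) :
    PF (σ * cv j t) (σ' * cv k (t + t')) t t' := by
  show NFV (19 / 20) _ _ t t' (valK _ _ t t' vF)
  have hT : 0 ≤ t + t' := by linarith [H.t0, H.t0']
  unfold valK
  rw [kerW_node tabW_vF hσ H.t0 H.d1, kerW_node tabW_vF hσ' hT H.d3,
    ← rk_1 H.q2 H.h1 H.h3, ← v1, ← v3, ← e1, ← e2]
  rw [exf_B, add_sub_cancel_left] at h
  exact nfv_112 H.q1 H.q2 H.q3 h

theorem useA_113 {j k : Fin 4} {σ σ' t t' X12 X23 R1 R2 : ℝ} (H : InA 1 1 3 j k σ σ' t t')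
    (hσ : σ = 1 ∨ σ = -1) (hσ' : σ' = 1 ∨ σ' = -1) (e1 : X12 = σ * cv j t)
    (e2 : X23 = σ' * cv k t') (v1 : R1 = σ * vF t (tg j)) (v2 : R2 = σ' * vF t' (tg k))
    (h : 0 ≤ sl113_v (exf_v X12 X23 t t') t t' (t + t') R1 R2 (rq3_v (X12 + X23) (t + t'))) :
    PF (σ * cv j t) (σ * cv j t + σ' * cv k t') t t' := by
  show NFV (19 / 20) _ _ t t' (valK _ _ t t' vF)
  unfold valK
  rw [kerW_node tabW_vF hσ H.t0 H.d1, add_sub_cancel_left, kerW_node tabW_vF hσ' H.t0' H.d2,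
    ← rk_3 H.q3 H.h1 H.h3, ← v1, ← v2, ← e1, ← e2]
  rw [exf_A] at h
  exact nfv_113 H.q1 H.q2 H.q3 h

theorem useB_113 {j k : Fin 4} {σ σ' t t' X12 X13 R1 R3 : ℝ} (H : InB 1 1 3 j k σ σ' t t')
    (hσ : σ = 1 ∨ σ = -1) (hσ' : σ' = 1 ∨ σ' = -1) (e1 : X12 = σ * cv j t)
    (e2 : X13 = σ' * cv k (t + t')) (v1 : R1 = σ * vF t (tg j))
    (v3 : R3 = σ' * vF (t + t') (tg k))
    (h : 0 ≤ sl113_v (exf_v X12 X13 t (t + t')) t (t + t' - t) (t + t') R1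
      (rq1_v (X13 - X12) (t + t' - t)) R3) :
    PF (σ * cv j t) (σ' * cv k (t + t')) t t' := by
  show NFV (19 / 20) _ _ t t' (valK _ _ t t' vF)
  have hT : 0 ≤ t + t' := by linarith [H.t0, H.t0']
  unfold valK
  rw [kerW_node tabW_vF hσ H.t0 H.d1, kerW_node tabW_vF hσ' hT H.d3,
    ← rk_1 H.q2 H.h1 H.h3, ← v1, ← v3, ← e1, ← e2]
  rw [exf_B, add_sub_cancel_left] at h
  exact nfv_113 H.q1 H.q2 H.q3 h

theorem useA_123 {j k : Fin 4} {σ σ' t t' X12 X23 R1 R2 : ℝ} (H : InA 1 2 3 j k σ σ' t t')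
    (hσ : σ = 1 ∨ σ = -1) (hσ' : σ' = 1 ∨ σ' = -1) (e1 : X12 = σ * cv j t)
    (e2 : X23 = σ' * cv k t') (v1 : R1 = σ * vF t (tg j)) (v2 : R2 = σ' * vF t' (tg k))
    (h : 0 ≤ sl123_v (exf_v X12 X23 t t') t t' (t + t') R1 R2 (rq3_v (X12 + X23) (t + t'))) :
    PF (σ * cv j t) (σ * cv j t + σ' * cv k t') t t' := by
  show NFV (19 / 20) _ _ t t' (valK _ _ t t' vF)
  unfold valK
  rw [kerW_node tabW_vF hσ H.t0 H.d1, add_sub_cancel_left, kerW_node tabW_vF hσ' H.t0' H.d2,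
    ← rk_3 H.q3 H.h1 H.h3, ← v1, ← v2, ← e1, ← e2]
  rw [exf_A] at h
  exact nfv_123 H.q1 H.q2 H.q3 h

theorem useB_123 {j k : Fin 4} {σ σ' t t' X12 X13 R1 R3 : ℝ} (H : InB 1 2 3 j k σ σ' t t')
    (hσ : σ = 1 ∨ σ = -1) (hσ' : σ' = 1 ∨ σ' = -1) (e1 : X12 = σ * cv j t)
    (e2 : X13 = σ' * cv k (t + t')) (v1 : R1 = σ * vF t (tg j))
    (v3 : R3 = σ' * vF (t + t') (tg k))
    (h : 0 ≤ sl123_v (exf_v X12 X13 t (t + t')) t (t + t' - t) (t + t') R1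
      (rq2_v (X13 - X12) (t + t' - t)) R3) :
    PF (σ * cv j t) (σ' * cv k (t + t')) t t' := by
  show NFV (19 / 20) _ _ t t' (valK _ _ t t' vF)
  have hT : 0 ≤ t + t' := by linarith [H.t0, H.t0']
  unfold valK
  rw [kerW_node tabW_vF hσ H.t0 H.d1, kerW_node tabW_vF hσ' hT H.d3,
    ← rk_2 H.q2 H.h1 H.h3, ← v1, ← v3, ← e1, ← e2]
  rw [exf_B, add_sub_cancel_left] at h
  exact nfv_123 H.q1 H.q2 H.q3 h

theorem useA_133 {j k : Fin 4} {σ σ' t t' X12 X23 R1 R2 : ℝ} (H : InA 1 3 3 j k σ σ' t t')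
    (hσ : σ = 1 ∨ σ = -1) (hσ' : σ' = 1 ∨ σ' = -1) (e1 : X12 = σ * cv j t)
    (e2 : X23 = σ' * cv k t') (v1 : R1 = σ * vF t (tg j)) (v2 : R2 = σ' * vF t' (tg k))
    (h : 0 ≤ sl133_v (exf_v X12 X23 t t') t t' (t + t') R1 R2 (rq3_v (X12 + X23) (t + t'))) :
    PF (σ * cv j t) (σ * cv j t + σ' * cv k t') t t' := by
  show NFV (19 / 20) _ _ t t' (valK _ _ t t' vF)
  unfold valK
  rw [kerW_node tabW_vF hσ H.t0 H.d1, add_sub_cancel_left, kerW_node tabW_vF hσ' H.t0' H.d2,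
    ← rk_3 H.q3 H.h1 H.h3, ← v1, ← v2, ← e1, ← e2]
  rw [exf_A] at h
  exact nfv_133 H.q1 H.q2 H.q3 h

theorem useB_133 {j k : Fin 4} {σ σ' t t' X12 X13 R1 R3 : ℝ} (H : InB 1 3 3 j k σ σ' t t')
    (hσ : σ = 1 ∨ σ = -1) (hσ' : σ' = 1 ∨ σ' = -1) (e1 : X12 = σ * cv j t)
    (e2 : X13 = σ' * cv k (t + t')) (v1 : R1 = σ * vF t (tg j))
    (v3 : R3 = σ' * vF (t + t') (tg k))
    (h : 0 ≤ sl133_v (exf_v X12 X13 t (t + t')) t (t + t' - t) (t + t') R1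
      (rq3_v (X13 - X12) (t + t' - t)) R3) :
    PF (σ * cv j t) (σ' * cv k (t + t')) t t' := by
  show NFV (19 / 20) _ _ t t' (valK _ _ t t' vF)
  have hT : 0 ≤ t + t' := by linarith [H.t0, H.t0']
  unfold valK
  rw [kerW_node tabW_vF hσ H.t0 H.d1, kerW_node tabW_vF hσ' hT H.d3,
    ← rk_3 H.q2 H.h1 H.h3, ← v1, ← v3, ← e1, ← e2]
  rw [exf_B, add_sub_cancel_left] at h
  exact nfv_133 H.q1 H.q2 H.q3 h

theorem useA_202 {j k : Fin 4} {σ σ' t t' X12 X23 R1 R2 : ℝ} (H : InA 2 0 2 j k σ σ' t t')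
    (hσ : σ = 1 ∨ σ = -1) (hσ' : σ' = 1 ∨ σ' = -1) (e1 : X12 = σ * cv j t)
    (e2 : X23 = σ' * cv k t') (v1 : R1 = σ * vF t (tg j)) (v2 : R2 = σ' * vF t' (tg k))
    (h : 0 ≤ sl202_v (exf_v X12 X23 t t') t t' (t + t') R1 R2 (rq2_v (X12 + X23) (t + t'))) :
    PF (σ * cv j t) (σ * cv j t + σ' * cv k t') t t' := by
  show NFV (19 / 20) _ _ t t' (valK _ _ t t' vF)
  unfold valK
  rw [kerW_node tabW_vF hσ H.t0 H.d1, add_sub_cancel_left, kerW_node tabW_vF hσ' H.t0' H.d2,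
    ← rk_2 H.q3 H.h1 H.h3, ← v1, ← v2, ← e1, ← e2]
  rw [exf_A] at h
  exact nfv_202 H.q1 H.q2 H.q3 h

theorem useB_202 {j k : Fin 4} {σ σ' t t' X12 X13 R1 R3 : ℝ} (H : InB 2 0 2 j k σ σ' t t')
    (hσ : σ = 1 ∨ σ = -1) (hσ' : σ' = 1 ∨ σ' = -1) (e1 : X12 = σ * cv j t)
    (e2 : X13 = σ' * cv k (t + t')) (v1 : R1 = σ * vF t (tg j))
    (v3 : R3 = σ' * vF (t + t') (tg k))
    (h : 0 ≤ sl202_v (exf_v X12 X13 t (t + t')) t (t + t' - t) (t + t') R1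
      (rq0_v (X13 - X12) (t + t' - t)) R3) :
    PF (σ * cv j t) (σ' * cv k (t + t')) t t' := by
  show NFV (19 / 20) _ _ t t' (valK _ _ t t' vF)
  have hT : 0 ≤ t + t' := by linarith [H.t0, H.t0']
  unfold valK
  rw [kerW_node tabW_vF hσ H.t0 H.d1, kerW_node tabW_vF hσ' hT H.d3,
    ← rk_0 H.q2 H.h1 H.h3, ← v1, ← v3, ← e1, ← e2]
  rw [exf_B, add_sub_cancel_left] at h
  exact nfv_202 H.q1 H.q2 H.q3 h

theorem useA_203 {j k : Fin 4} {σ σ' t t' X12 X23 R1 R2 : ℝ} (H : InA 2 0 3 j k σ σ' t t')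
    (hσ : σ = 1 ∨ σ = -1) (hσ' : σ' = 1 ∨ σ' = -1) (e1 : X12 = σ * cv j t)
    (e2 : X23 = σ' * cv k t') (v1 : R1 = σ * vF t (tg j)) (v2 : R2 = σ' * vF t' (tg k))
    (h : 0 ≤ sl203_v (exf_v X12 X23 t t') t t' (t + t') R1 R2 (rq3_v (X12 + X23) (t + t'))) :
    PF (σ * cv j t) (σ * cv j t + σ' * cv k t') t t' := by
  show NFV (19 / 20) _ _ t t' (valK _ _ t t' vF)
  unfold valK
  rw [kerW_node tabW_vF hσ H.t0 H.d1, add_sub_cancel_left, kerW_node tabW_vF hσ' H.t0' H.d2,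
    ← rk_3 H.q3 H.h1 H.h3, ← v1, ← v2, ← e1, ← e2]
  rw [exf_A] at h
  exact nfv_203 H.q1 H.q2 H.q3 h

theorem useB_203 {j k : Fin 4} {σ σ' t t' X12 X13 R1 R3 : ℝ} (H : InB 2 0 3 j k σ σ' t t')
    (hσ : σ = 1 ∨ σ = -1) (hσ' : σ' = 1 ∨ σ' = -1) (e1 : X12 = σ * cv j t)
    (e2 : X13 = σ' * cv k (t + t')) (v1 : R1 = σ * vF t (tg j))
    (v3 : R3 = σ' * vF (t + t') (tg k))
    (h : 0 ≤ sl203_v (exf_v X12 X13 t (t + t')) t (t + t' - t) (t + t') R1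
      (rq0_v (X13 - X12) (t + t' - t)) R3) :
    PF (σ * cv j t) (σ' * cv k (t + t')) t t' := by
  show NFV (19 / 20) _ _ t t' (valK _ _ t t' vF)
  have hT : 0 ≤ t + t' := by linarith [H.t0, H.t0']
  unfold valK
  rw [kerW_node tabW_vF hσ H.t0 H.d1, kerW_node tabW_vF hσ' hT H.d3,
    ← rk_0 H.q2 H.h1 H.h3, ← v1, ← v3, ← e1, ← e2]
  rw [exf_B, add_sub_cancel_left] at h
  exact nfv_203 H.q1 H.q2 H.q3 h

theorem useA_213 {j k : Fin 4} {σ σ' t t' X12 X23 R1 R2 : ℝ} (H : InA 2 1 3 j k σ σ' t t')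
    (hσ : σ = 1 ∨ σ = -1) (hσ' : σ' = 1 ∨ σ' = -1) (e1 : X12 = σ * cv j t)
    (e2 : X23 = σ' * cv k t') (v1 : R1 = σ * vF t (tg j)) (v2 : R2 = σ' * vF t' (tg k))
    (h : 0 ≤ sl213_v (exf_v X12 X23 t t') t t' (t + t') R1 R2 (rq3_v (X12 + X23) (t + t'))) :
    PF (σ * cv j t) (σ * cv j t + σ' * cv k t') t t' := by
  show NFV (19 / 20) _ _ t t' (valK _ _ t t' vF)
  unfold valK
  rw [kerW_node tabW_vF hσ H.t0 H.d1, add_sub_cancel_left, kerW_node tabW_vF hσ' H.t0' H.d2,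
    ← rk_3 H.q3 H.h1 H.h3, ← v1, ← v2, ← e1, ← e2]
  rw [exf_A] at h
  exact nfv_213 H.q1 H.q2 H.q3 h

theorem useB_213 {j k : Fin 4} {σ σ' t t' X12 X13 R1 R3 : ℝ} (H : InB 2 1 3 j k σ σ' t t')
    (hσ : σ = 1 ∨ σ = -1) (hσ' : σ' = 1 ∨ σ' = -1) (e1 : X12 = σ * cv j t)
    (e2 : X13 = σ' * cv k (t + t')) (v1 : R1 = σ * vF t (tg j))
    (v3 : R3 = σ' * vF (t + t') (tg k))
    (h : 0 ≤ sl213_v (exf_v X12 X13 t (t + t')) t (t + t' - t) (t + t') R1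
      (rq1_v (X13 - X12) (t + t' - t)) R3) :
    PF (σ * cv j t) (σ' * cv k (t + t')) t t' := by
  show NFV (19 / 20) _ _ t t' (valK _ _ t t' vF)
  have hT : 0 ≤ t + t' := by linarith [H.t0, H.t0']
  unfold valK
  rw [kerW_node tabW_vF hσ H.t0 H.d1, kerW_node tabW_vF hσ' hT H.d3,
    ← rk_1 H.q2 H.h1 H.h3, ← v1, ← v3, ← e1, ← e2]
  rw [exf_B, add_sub_cancel_left] at h
  exact nfv_213 H.q1 H.q2 H.q3 h

theorem useA_303 {j k : Fin 4} {σ σ' t t' X12 X23 R1 R2 : ℝ} (H : InA 3 0 3 j k σ σ' t t')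
    (hσ : σ = 1 ∨ σ = -1) (hσ' : σ' = 1 ∨ σ' = -1) (e1 : X12 = σ * cv j t)
    (e2 : X23 = σ' * cv k t') (v1 : R1 = σ * vF t (tg j)) (v2 : R2 = σ' * vF t' (tg k))
    (h : 0 ≤ sl303_v (exf_v X12 X23 t t') t t' (t + t') R1 R2 (rq3_v (X12 + X23) (t + t'))) :
    PF (σ * cv j t) (σ * cv j t + σ' * cv k t') t t' := by
  show NFV (19 / 20) _ _ t t' (valK _ _ t t' vF)
  unfold valK
  rw [kerW_node tabW_vF hσ H.t0 H.d1, add_sub_cancel_left, kerW_node tabW_vF hσ' H.t0' H.d2,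
    ← rk_3 H.q3 H.h1 H.h3, ← v1, ← v2, ← e1, ← e2]
  rw [exf_A] at h
  exact nfv_303 H.q1 H.q2 H.q3 h

theorem useB_303 {j k : Fin 4} {σ σ' t t' X12 X13 R1 R3 : ℝ} (H : InB 3 0 3 j k σ σ' t t')
    (hσ : σ = 1 ∨ σ = -1) (hσ' : σ' = 1 ∨ σ' = -1) (e1 : X12 = σ * cv j t)
    (e2 : X13 = σ' * cv k (t + t')) (v1 : R1 = σ * vF t (tg j))
    (v3 : R3 = σ' * vF (t + t') (tg k))
    (h : 0 ≤ sl303_v (exf_v X12 X13 t (t + t')) t (t + t' - t) (t + t') R1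
      (rq0_v (X13 - X12) (t + t' - t)) R3) :
    PF (σ * cv j t) (σ' * cv k (t + t')) t t' := by
  show NFV (19 / 20) _ _ t t' (valK _ _ t t' vF)
  have hT : 0 ≤ t + t' := by linarith [H.t0, H.t0']
  unfold valK
  rw [kerW_node tabW_vF hσ H.t0 H.d1, kerW_node tabW_vF hσ' hT H.d3,
    ← rk_0 H.q2 H.h1 H.h3, ← v1, ← v3, ← e1, ← e2]
  rw [exf_B, add_sub_cancel_left] at h
  exact nfv_303 H.q1 H.q2 H.q3 h

theorem useA_313 {j k : Fin 4} {σ σ' t t' X12 X23 R1 R2 : ℝ} (H : InA 3 1 3 j k σ σ' t t')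
    (hσ : σ = 1 ∨ σ = -1) (hσ' : σ' = 1 ∨ σ' = -1) (e1 : X12 = σ * cv j t)
    (e2 : X23 = σ' * cv k t') (v1 : R1 = σ * vF t (tg j)) (v2 : R2 = σ' * vF t' (tg k))
    (h : 0 ≤ sl313_v (exf_v X12 X23 t t') t t' (t + t') R1 R2 (rq3_v (X12 + X23) (t + t'))) :
    PF (σ * cv j t) (σ * cv j t + σ' * cv k t') t t' := by
  show NFV (19 / 20) _ _ t t' (valK _ _ t t' vF)
  unfold valK
  rw [kerW_node tabW_vF hσ H.t0 H.d1, add_sub_cancel_left, kerW_node tabW_vF hσ' H.t0' H.d2,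
    ← rk_3 H.q3 H.h1 H.h3, ← v1, ← v2, ← e1, ← e2]
  rw [exf_A] at h
  exact nfv_313 H.q1 H.q2 H.q3 h

theorem useB_313 {j k : Fin 4} {σ σ' t t' X12 X13 R1 R3 : ℝ} (H : InB 3 1 3 j k σ σ' t t')
    (hσ : σ = 1 ∨ σ = -1) (hσ' : σ' = 1 ∨ σ' = -1) (e1 : X12 = σ * cv j t)
    (e2 : X13 = σ' * cv k (t + t')) (v1 : R1 = σ * vF t (tg j))
    (v3 : R3 = σ' * vF (t + t') (tg k))
    (h : 0 ≤ sl313_v (exf_v X12 X13 t (t + t')) t (t + t' - t) (t + t') R1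
      (rq1_v (X13 - X12) (t + t' - t)) R3) :
    PF (σ * cv j t) (σ' * cv k (t + t')) t t' := by
  show NFV (19 / 20) _ _ t t' (valK _ _ t t' vF)
  have hT : 0 ≤ t + t' := by linarith [H.t0, H.t0']
  unfold valK
  rw [kerW_node tabW_vF hσ H.t0 H.d1, kerW_node tabW_vF hσ' hT H.d3,
    ← rk_1 H.q2 H.h1 H.h3, ← v1, ← v3, ← e1, ← e2]
  rw [exf_B, add_sub_cancel_left] at h
  exact nfv_313 H.q1 H.q2 H.q3 h

/-- The triples of quarters. -/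
theorem triple_cases {t t' : ℝ} (h1 : 0 ≤ t) (h2 : 0 ≤ t') (h3 : t + t' ≤ 2 * h0) :
    (Q 0 t ∧ Q 0 t' ∧ Q 0 (t + t')) ∨
    (Q 0 t ∧ Q 0 t' ∧ Q 1 (t + t')) ∨
    (Q 0 t ∧ Q 1 t' ∧ Q 1 (t + t')) ∨
    (Q 0 t ∧ Q 1 t' ∧ Q 2 (t + t')) ∨
    (Q 0 t ∧ Q 2 t' ∧ Q 2 (t + t')) ∨
    (Q 0 t ∧ Q 2 t' ∧ Q 3 (t + t')) ∨
    (Q 0 t ∧ Q 3 t' ∧ Q 3 (t + t')) ∨
    (Q 1 t ∧ Q 0 t' ∧ Q 1 (t + t')) ∨
    (Q 1 t ∧ Q 0 t' ∧ Q 2 (t + t')) ∨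
    (Q 1 t ∧ Q 1 t' ∧ Q 2 (t + t')) ∨
    (Q 1 t ∧ Q 1 t' ∧ Q 3 (t + t')) ∨
    (Q 1 t ∧ Q 2 t' ∧ Q 3 (t + t')) ∨
    (Q 1 t ∧ Q 3 t' ∧ Q 3 (t + t')) ∨
    (Q 2 t ∧ Q 0 t' ∧ Q 2 (t + t')) ∨
    (Q 2 t ∧ Q 0 t' ∧ Q 3 (t + t')) ∨
    (Q 2 t ∧ Q 1 t' ∧ Q 3 (t + t')) ∨
    (Q 3 t ∧ Q 0 t' ∧ Q 3 (t + t')) ∨
    (Q 3 t ∧ Q 1 t' ∧ Q 3 (t + t')) ∨
    (Q 2 t ∧ Q 2 t' ∧ Q 3 (t + t')) := by
  have hp := h0_pos
  rcases Q_cases h1 (by linarith) with a | a | a | a <;>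
    rcases Q_cases h2 (by linarith) with b | b | b | b <;>
    rcases Q_cases (T := t + t') (by linarith) h3 with c | c | c | c
  · exact Or.inl ⟨a, b, c⟩
  · exact Or.inr (Or.inl ⟨a, b, c⟩)
  · exfalso
    rw [Q0] at a
    rw [Q0] at b
    rw [Q2] at c
    linarith [a.1, a.2, b.1, b.2, c.1, c.2]
  · exfalso
    rw [Q0] at a
    rw [Q0] at b
    rw [Q3] at c
    linarith [a.1, a.2, b.1, b.2, c.1, c.2]
  · exfalso
    rw [Q0] at a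
    rw [Q1] at b
    rw [Q0] at c
    linarith [a.1, a.2, b.1, b.2, c.1, c.2]
  · exact Or.inr (Or.inr (Or.inl ⟨a, b, c⟩))
  · exact Or.inr (Or.inr (Or.inr (Or.inl ⟨a, b, c⟩)))
  · exfalso
    rw [Q0] at a
    rw [Q1] at b
    rw [Q3] at c
    linarith [a.1, a.2, b.1, b.2, c.1, c.2]
  · exfalso
    rw [Q0] at a
    rw [Q2] at b
    rw [Q0] at c
    linarith [a.1, a.2, b.1, b.2, c.1, c.2]
  · exfalso
    rw [Q0] at a
    rw [Q2] at b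
    rw [Q1] at c
    linarith [a.1, a.2, b.1, b.2, c.1, c.2]
  · exact Or.inr (Or.inr (Or.inr (Or.inr (Or.inl ⟨a, b, c⟩))))
  · exact Or.inr (Or.inr (Or.inr (Or.inr (Or.inr (Or.inl ⟨a, b, c⟩)))))
  · exfalso
    rw [Q0] at a
    rw [Q3] at b
    rw [Q0] at c
    linarith [a.1, a.2, b.1, b.2, c.1, c.2]
  · exfalso
    rw [Q0] at a
    rw [Q3] at b
    rw [Q1] at c
    linarith [a.1, a.2, b.1, b.2, c.1, c.2]
  · exfalso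
    rw [Q0] at a
    rw [Q3] at b
    rw [Q2] at c
    linarith [a.1, a.2, b.1, b.2, c.1, c.2]
  · exact Or.inr (Or.inr (Or.inr (Or.inr (Or.inr (Or.inr (Or.inl ⟨a, b, c⟩))))))
  · exfalso
    rw [Q1] at a
    rw [Q0] at b
    rw [Q0] at c
    linarith [a.1, a.2, b.1, b.2, c.1, c.2]
  · exact Or.inr (Or.inr (Or.inr (Or.inr (Or.inr (Or.inr (Or.inr (Or.inl ⟨a, b, c⟩)))))))
  · exact Or.inr (Or.inr (Or.inr (Or.inr (Or.inr (Or.inr (Or.inr (Or.inr (Or.inl ⟨a, b, c⟩))))))))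
  · exfalso
    rw [Q1] at a
    rw [Q0] at b
    rw [Q3] at c
    linarith [a.1, a.2, b.1, b.2, c.1, c.2]
  · exfalso
    rw [Q1] at a
    rw [Q1] at b
    rw [Q0] at c
    linarith [a.1, a.2, b.1, b.2, c.1, c.2]
  · exfalso
    rw [Q1] at a
    rw [Q1] at b
    rw [Q1] at c
    linarith [a.1, a.2, b.1, b.2, c.1, c.2]
  · exact Or.inr (Or.inr (Or.inr (Or.inr (Or.inr (Or.inr (Or.inr (Or.inr (Or.inr (Or.inl ⟨a, b, c⟩)))))))))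
  · exact Or.inr (Or.inr (Or.inr (Or.inr (Or.inr (Or.inr (Or.inr (Or.inr (Or.inr (Or.inr (Or.inl ⟨a, b, c⟩))))))))))
  · exfalso
    rw [Q1] at a
    rw [Q2] at b
    rw [Q0] at c
    linarith [a.1, a.2, b.1, b.2, c.1, c.2]
  · exfalso
    rw [Q1] at a
    rw [Q2] at b
    rw [Q1] at c
    linarith [a.1, a.2, b.1, b.2, c.1, c.2]
  · exfalso
    rw [Q1] at a
    rw [Q2] at b
    rw [Q2] at c
    linarith [a.1, a.2, b.1, b.2, c.1, c.2]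
  · exact Or.inr (Or.inr (Or.inr (Or.inr (Or.inr (Or.inr (Or.inr (Or.inr (Or.inr (Or.inr (Or.inr (Or.inl ⟨a, b, c⟩)))))))))))
  · exfalso
    rw [Q1] at a
    rw [Q3] at b
    rw [Q0] at c
    linarith [a.1, a.2, b.1, b.2, c.1, c.2]
  · exfalso
    rw [Q1] at a
    rw [Q3] at b
    rw [Q1] at c
    linarith [a.1, a.2, b.1, b.2, c.1, c.2]
  · exfalso
    rw [Q1] at a
    rw [Q3] at b
    rw [Q2] at c
    linarith [a.1, a.2, b.1, b.2, c.1, c.2]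
  · exact Or.inr (Or.inr (Or.inr (Or.inr (Or.inr (Or.inr (Or.inr (Or.inr (Or.inr (Or.inr (Or.inr (Or.inr (Or.inl ⟨a, b, c⟩))))))))))))
  · exfalso
    rw [Q2] at a
    rw [Q0] at b
    rw [Q0] at c
    linarith [a.1, a.2, b.1, b.2, c.1, c.2]
  · exfalso
    rw [Q2] at a
    rw [Q0] at b
    rw [Q1] at c
    linarith [a.1, a.2, b.1, b.2, c.1, c.2]
  · exact Or.inr (Or.inr (Or.inr (Or.inr (Or.inr (Or.inr (Or.inr (Or.inr (Or.inr (Or.inr (Or.inr (Or.inr (Or.inr (Or.inl ⟨a, b, c⟩)))))))))))))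
  · exact Or.inr (Or.inr (Or.inr (Or.inr (Or.inr (Or.inr (Or.inr (Or.inr (Or.inr (Or.inr (Or.inr (Or.inr (Or.inr (Or.inr (Or.inl ⟨a, b, c⟩))))))))))))))
  · exfalso
    rw [Q2] at a
    rw [Q1] at b
    rw [Q0] at c
    linarith [a.1, a.2, b.1, b.2, c.1, c.2]
  · exfalso
    rw [Q2] at a
    rw [Q1] at b
    rw [Q1] at c
    linarith [a.1, a.2, b.1, b.2, c.1, c.2]
  · exfalso
    rw [Q2] at a
    rw [Q1] at b
    rw [Q2] at c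
    linarith [a.1, a.2, b.1, b.2, c.1, c.2]
  · exact Or.inr (Or.inr (Or.inr (Or.inr (Or.inr (Or.inr (Or.inr (Or.inr (Or.inr (Or.inr (Or.inr (Or.inr (Or.inr (Or.inr (Or.inr (Or.inl ⟨a, b, c⟩)))))))))))))))
  · exfalso
    rw [Q2] at a
    rw [Q2] at b
    rw [Q0] at c
    linarith [a.1, a.2, b.1, b.2, c.1, c.2]
  · exfalso
    rw [Q2] at a
    rw [Q2] at b
    rw [Q1] at c
    linarith [a.1, a.2, b.1, b.2, c.1, c.2]
  · exfalso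
    rw [Q2] at a
    rw [Q2] at b
    rw [Q2] at c
    linarith [a.1, a.2, b.1, b.2, c.1, c.2]
  · exact Or.inr (Or.inr (Or.inr (Or.inr (Or.inr (Or.inr (Or.inr (Or.inr (Or.inr (Or.inr (Or.inr (Or.inr (Or.inr (Or.inr (Or.inr (Or.inr (Or.inr (Or.inr (⟨a, b, c⟩))))))))))))))))))
  · exfalso
    rw [Q2] at a
    rw [Q3] at b
    rw [Q0] at c
    linarith [a.1, a.2, b.1, b.2, c.1, c.2]
  · exfalso
    rw [Q2] at a
    rw [Q3] at b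
    rw [Q1] at c
    linarith [a.1, a.2, b.1, b.2, c.1, c.2]
  · exfalso
    rw [Q2] at a
    rw [Q3] at b
    rw [Q2] at c
    linarith [a.1, a.2, b.1, b.2, c.1, c.2]
  · exfalso
    rw [Q2] at a
    rw [Q3] at b
    rw [Q3] at c
    linarith [a.1, a.2, b.1, b.2, c.1, c.2]
  · exfalso
    rw [Q3] at a
    rw [Q0] at b
    rw [Q0] at c
    linarith [a.1, a.2, b.1, b.2, c.1, c.2]
  · exfalso
    rw [Q3] at a
    rw [Q0] at b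
    rw [Q1] at c
    linarith [a.1, a.2, b.1, b.2, c.1, c.2]
  · exfalso
    rw [Q3] at a
    rw [Q0] at b
    rw [Q2] at c
    linarith [a.1, a.2, b.1, b.2, c.1, c.2]
  · exact Or.inr (Or.inr (Or.inr (Or.inr (Or.inr (Or.inr (Or.inr (Or.inr (Or.inr (Or.inr (Or.inr (Or.inr (Or.inr (Or.inr (Or.inr (Or.inr (Or.inl ⟨a, b, c⟩))))))))))))))))
  · exfalso
    rw [Q3] at a
    rw [Q1] at b
    rw [Q0] at c
    linarith [a.1, a.2, b.1, b.2, c.1, c.2]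
  · exfalso
    rw [Q3] at a
    rw [Q1] at b
    rw [Q1] at c
    linarith [a.1, a.2, b.1, b.2, c.1, c.2]
  · exfalso
    rw [Q3] at a
    rw [Q1] at b
    rw [Q2] at c
    linarith [a.1, a.2, b.1, b.2, c.1, c.2]
  · exact Or.inr (Or.inr (Or.inr (Or.inr (Or.inr (Or.inr (Or.inr (Or.inr (Or.inr (Or.inr (Or.inr (Or.inr (Or.inr (Or.inr (Or.inr (Or.inr (Or.inr (Or.inl ⟨a, b, c⟩)))))))))))))))))
  · exfalso
    rw [Q3] at a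
    rw [Q2] at b
    rw [Q0] at c
    linarith [a.1, a.2, b.1, b.2, c.1, c.2]
  · exfalso
    rw [Q3] at a
    rw [Q2] at b
    rw [Q1] at c
    linarith [a.1, a.2, b.1, b.2, c.1, c.2]
  · exfalso
    rw [Q3] at a
    rw [Q2] at b
    rw [Q2] at c
    linarith [a.1, a.2, b.1, b.2, c.1, c.2]
  · exfalso
    rw [Q3] at a
    rw [Q2] at b
    rw [Q3] at c
    linarith [a.1, a.2, b.1, b.2, c.1, c.2]
  · exfalso
    rw [Q3] at a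
    rw [Q3] at b
    rw [Q0] at c
    linarith [a.1, a.2, b.1, b.2, c.1, c.2]
  · exfalso
    rw [Q3] at a
    rw [Q3] at b
    rw [Q1] at c
    linarith [a.1, a.2, b.1, b.2, c.1, c.2]
  · exfalso
    rw [Q3] at a
    rw [Q3] at b
    rw [Q2] at c
    linarith [a.1, a.2, b.1, b.2, c.1, c.2]
  · exfalso
    rw [Q3] at a
    rw [Q3] at b
    rw [Q3] at c
    linarith [a.1, a.2, b.1, b.2, c.1, c.2]

end Pool.Agent.Strip051.LC.Line.Glue
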