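import Pool.Agent.Strip051.LB.Fn.R
import Pool.Agent.Strip051.LB.Base
import Pool.Agent.Strip051.LC.Line.MainF

/-! # The functions of the boxes in terms of the table -/

namespace Pool.Agent.Strip051.LC.Line.Glue

open Pool.Agent.StripNear Pool.Agent.StripSquare Pool.Agent.Strip051.Sweep
  Pool.Agent.Strip051.LC Pool.Agent.Strip051.LC.Line Pool.Agent.Strip051.LB.Fn
open Pool.Agent.Strip051.LB (hs3)

theorem sq3_pos : 0 < √(3 : ℝ) := Real.sqrt_pos.2 (by norm_num)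

theorem sq3_sq : √(3 : ℝ) ^ 2 = 3 := Real.sq_sqrt (by norm_num)

theorem c1f_eq {T : ℝ} :
    c1f_v T = c1 T := by
  simp only [c1f_v, c1f_v4, c1f_v3, c1f_v2, c1f_v1]
  push_cast
  rfl

theorem c3f_eq {T : ℝ} :
    c3f_v T = c3 T := by
  simp only [c3f_v, c3f_v4, c3f_v3, c3f_v2, c3f_v1]
  push_cast
  rfl

theorem sw_eq {T : ℝ} :
    sw_v T = √(1 - (T - h0) ^ 2) := by
  simp only [sw_v, sw_v7, sw_v6, sw_v5, sw_v4, sw_v3, sw_v2, sw_v1]
  push_cast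
  rw [show (1 : ℝ) / 2 * √3 = h0 by unfold h0; ring]

theorem f1m_eq {T : ℝ} (h : T < h0) :
    f1m_v T = f1 T := by
  simp only [f1m_v, f1m_v6, f1m_v5, f1m_v4, f1m_v3, f1m_v2, f1m_v1, c1f_eq, sw_eq]
  push_cast
  unfold f1 Wc
  rw [if_pos h]
  ring

theorem f1p_eq {T : ℝ} (h : h0 ≤ T) :
    f1p_v T = f1 T := by
  simp only [f1p_v, f1p_v6, f1p_v5, f1p_v4, f1p_v3, f1p_v2, f1p_v1, c1f_eq, sw_eq]
  push_cast
  unfold f1 Wc
  rw [if_neg h.not_gt]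
  ring

theorem f2m_eq {T : ℝ} (h : T < h0) :
    f2m_v T = f2 T := by
  simp only [f2m_v, f2m_v6, f2m_v5, f2m_v4, f2m_v3, f2m_v2, f2m_v1, c3f_eq, sw_eq]
  push_cast
  unfold f2 Wc
  rw [if_pos h]
  ring

theorem f2p_eq {T : ℝ} (h : h0 ≤ T) :
    f2p_v T = f2 T := by
  simp only [f2p_v, f2p_v6, f2p_v5, f2p_v4, f2p_v3, f2p_v2, f2p_v1, c3f_eq, sw_eq]
  push_cast
  unfold f2 Wc
  rw [if_neg h.not_gt]
  ring

theorem A1u_0 {T : ℝ} (h : T < h0 / 2) :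
    A1u T = (c1 T - √3 * T) * (1 + c1 T) / (1 + c1 T - √3 * T) := by
  unfold A1u
  rw [if_pos h]
  rfl

theorem A1u_1 {T : ℝ} (h : h0 / 2 ≤ T) (h' : T ≤ h0) :
    A1u T = (1 + 2 * c1 T) * (√3 * T - c1 T) / (2 * (1 + √3 * T - c1 T)) := by
  unfold A1u
  rw [if_neg h.not_gt, if_pos h']
  rfl

theorem A1u_2 {T : ℝ} (h : h0 ≤ T) : A1u T = c1 T := by
  have hp := h0_pos
  rcases h.eq_or_lt with rfl | h
  · rw [A1u_h0, c1_h0]
  · unfold A1u
    rw [if_neg (by linarith), if_neg (by linarith)]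
    rfl

theorem a1q0_eq {T : ℝ} (h : T < h0 / 2) :
    a1q0_v T = A1u T := by
  simp only [a1q0_v, a1q0_v10, a1q0_v9, a1q0_v8, a1q0_v7, a1q0_v6, a1q0_v5, a1q0_v4, a1q0_v3, a1q0_v2, a1q0_v1, c1f_eq]
  push_cast
  rw [A1u_0 h, div_eq_mul_inv]

theorem a1q1_eq {T : ℝ} (h : h0 / 2 ≤ T) (h' : T ≤ h0) :
    a1q1_v T = A1u T := by
  simp only [a1q1_v, a1q1_v13, a1q1_v12, a1q1_v11, a1q1_v10, a1q1_v9, a1q1_v8, a1q1_v7, a1q1_v6, a1q1_v5, a1q1_v4, a1q1_v3, a1q1_v2, a1q1_v1, c1f_eq]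
  push_cast
  rw [A1u_1 h h', div_eq_mul_inv]

theorem A3_0 {T : ℝ} (h : T < h0 / 2) : A3 T = -T ^ 2 / (c3 T - 3 / 2) := by
  unfold A3
  rw [if_pos h]

theorem A3_1 {T : ℝ} (h : h0 / 2 ≤ T) (h' : T < h0) : A3 T = T * (c3 T + 3 / 2) / (T + h0) := by
  unfold A3
  rw [if_neg h.not_gt, if_pos h']

theorem A3_2 {T : ℝ} (h : h0 ≤ T) (h' : T < 3 / 2 * h0) :
    A3 T = (c3 T - T / √3) * (c3 T + 3 / 2) / (c3 T - T / √3 + 1) := by
  have hp := h0_pos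
  unfold A3
  rw [if_neg (by linarith), if_neg h.not_gt, if_pos h']

theorem A3_3 {T : ℝ} (h : 3 / 2 * h0 ≤ T) :
    A3 T = -((c3 T - T / √3) * c3 T) / (1 + T / √3 - c3 T) := by
  have hp := h0_pos
  unfold A3
  rw [if_neg (by linarith), if_neg (by linarith), if_neg h.not_gt]

theorem c3_sq' {T : ℝ} (h0T : 0 ≤ T) (h : T ≤ 2 * h0) : c3 T ^ 2 + T ^ 2 = 3 := by
  have hq := h0_sq'
  exact c3_sq (by nlinarith)

theorem h0_eq : h0 = √3 / 2 := rfl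

theorem div_h0 (T : ℝ) : T / h0 = 2 / 3 * (T * √3) := by
  have h := sq3_sq
  have hp := sq3_pos
  rw [h0_eq, div_eq_iff (by positivity)]
  linear_combination (-(T / 3)) * h

theorem div_s3 (T : ℝ) : T / √3 = T * √3 / 3 := by
  have h := sq3_sq
  have hp := sq3_pos
  rw [div_eq_div_iff hp.ne' (by norm_num)]
  linear_combination (-T) * h

theorem a3q0_eq {T : ℝ} (h0T : 0 ≤ T) (h : T < h0 / 2) :
    a3q0_v T = A3 T := by
  simp only [a3q0_v, a3q0_v13, a3q0_v12, a3q0_v11, a3q0_v10, a3q0_v9, a3q0_v8, a3q0_v7, a3q0_v6, a3q0_v5, a3q0_v4, a3q0_v3, a3q0_v2, a3q0_v1, c3f_eq]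
  push_cast
  have hp := h0_pos
  have hq := h0_sq'
  have cs := c3_sq' h0T (by linarith)
  have hc : 3 / 2 < c3 T := by
    unfold c3
    apply Real.lt_sqrt_of_sq_lt
    nlinarith
  rw [A3_0 h, show (1 : ℝ) / 2 * √3 = h0 by rw [h0_eq]; ring,
    show (h0 - T) * (h0 + T) = (c3 T - 3 / 2) * (c3 T + 3 / 2) by nlinarith]
  have h1 : c3 T - 3 / 2 ≠ 0 := by linarith
  have h2 : c3 T + 3 / 2 ≠ 0 := by linarith
  field_simp

theorem a3q1_eq {T : ℝ} (h : h0 / 2 ≤ T) (h' : T < h0) :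
    a3q1_v T = A3 T := by
  simp only [a3q1_v, a3q1_v9, a3q1_v8, a3q1_v7, a3q1_v6, a3q1_v5, a3q1_v4, a3q1_v3, a3q1_v2, a3q1_v1, c3f_eq]
  push_cast
  rw [A3_1 h h', show (1 : ℝ) / 2 * √3 = h0 by rw [h0_eq]; ring, add_comm h0 T, ← div_eq_mul_inv]

theorem a3q2_eq {T : ℝ} (h : h0 ≤ T) (h' : T < 3 / 2 * h0) :
    a3q2_v T = A3 T := by
  simp only [a3q2_v, a3q2_v14, a3q2_v13, a3q2_v12, a3q2_v11, a3q2_v10, a3q2_v9, a3q2_v8, a3q2_v7, a3q2_v6, a3q2_v5, a3q2_v4, a3q2_v2, a3q2_v1, c3f_eq]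
  push_cast
  have hp := h0_pos
  have hq := h0_sq'
  have hs := sq3_pos
  have s2 := sq3_sq
  have cs := c3_sq' (by linarith) (show T ≤ 2 * h0 by linarith)
  have hc : 1 < c3 T := by
    unfold c3
    apply Real.lt_sqrt_of_sq_lt
    nlinarith
  have hT : T < √3 := by
    rw [h0_eq] at h'
    linarith
  have e : h0 = √3 / 2 := h0_eq
  have h2 : T * √3 / 3 < 3 / 4 := by
    rw [e] at h'
    nlinarith
  rw [A3_2 h h', div_s3, ← div_eq_mul_inv, div_eq_div_iff (by linarith) (by linarith)]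
  have key : (√3 * c3 T - T) = √3 * (c3 T - T * √3 / 3) := by
    linear_combination (T / 3) * s2
  rw [key]
  have k2 : √3 * (c3 T + 3 - √3 * T) * (c3 T - T * √3 / 3 + 1) = (c3 T + 3 / 2) * (4 * (√3 - T)) := by
    linear_combination √3 * cs + (-4 / 3 * c3 T * T - 2 * T + 1 / 3 * √3 * T ^ 2) * s2
  linear_combination (c3 T - T * √3 / 3) * k2

theorem a3q3_eq {T : ℝ} (h : 3 / 2 * h0 ≤ T) (h' : T ≤ 2 * h0) :
    a3q3_v T = A3 T := by
  simp only [a3q3_v, a3q3_v15, a3q3_v14, a3q3_v13, a3q3_v12, a3q3_v11, a3q3_v10, a3q3_v9, a3q3_v8, a3q3_v7, a3q3_v6, a3q3_v5, a3q3_v4, a3q3_v3, a3q3_v2, a3q3_v1, c3f_eq]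
  push_cast
  have hp := h0_pos
  have hq := h0_sq'
  have hs := sq3_pos
  have s2 := sq3_sq
  have cs := c3_sq' (by linarith) h'
  have c0 := c3_nonneg T
  have hc : c3 T ≤ 12 / 10 := by
    unfold c3
    rw [Real.sqrt_le_left (by norm_num)]
    nlinarith
  have e : h0 = √3 / 2 := h0_eq
  have h2 : 3 / 4 ≤ T * √3 / 3 := by
    rw [e] at h
    nlinarith
  rw [A3_3 h, div_s3, ← div_eq_mul_inv, show (1 : ℝ) / 2 * √3 = h0 by rw [h0_eq]; ring, ← neg_div,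
    div_eq_div_iff (by linarith) (by linarith)]
  have key : (√3 * c3 T - T) = √3 * (c3 T - T * √3 / 3) := by
    linear_combination (T / 3) * s2
  rw [key]
  have k2 : √3 * (c3 T + 3 - √3 * T) * (1 + T * √3 / 3 - c3 T) = c3 T * (4 * (T - h0)) := by
    rw [e]
    linear_combination (-√3) * cs + (4 / 3 * c3 T * T - 1 / 3 * √3 * T ^ 2) * s2
  linear_combination (-(c3 T - T * √3 / 3)) * k2

theorem b1q0_eq {T : ℝ} (h : T < h0 / 2) :
    b1q0_v T = tB1 T := by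
  have hp := h0_pos
  obtain ⟨n1, n2⟩ := h0_num
  have e : h0 = √3 / 2 := h0_eq
  simp only [b1q0_v, b1q0_v14, b1q0_v13, b1q0_v12, b1q0_v10, b1q0_v9, b1q0_v8, b1q0_v6, b1q0_v5, b1q0_v4, b1q0_v3, b1q0_v2, b1q0_v1]
  push_cast
  unfold tB1
  by_cases h4 : T < h0 / 4
  · rw [if_pos (by rw [e] at h4; linarith), if_pos h4]
    unfold lin
    rw [div_h0]
    ring
  · rw [if_neg h4, if_pos h]
    rw [not_lt] at h4
    unfold lin
    rw [div_h0]
    split_ifs with h5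
    · have : T * √3 = 3 / 8 := by
        have h6 : T = √3 / 8 := by
          rw [e] at h4
          linarith
        have s2 := sq3_sq
        rw [h6]
        linear_combination (1 / 8) * s2
      rw [this]
      norm_num
    · ring

theorem b1q1_eq {T : ℝ} (h : h0 / 2 ≤ T) (h' : T < h0) :
    b1q1_v T = tB1 T := by
  have hp := h0_pos
  obtain ⟨n1, n2⟩ := h0_num
  have e : h0 = √3 / 2 := h0_eq
  simp only [b1q1_v, b1q1_v6, b1q1_v4, b1q1_v3, b1q1_v2, b1q1_v1]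
  push_cast
  unfold tB1
  rw [if_neg (by linarith), if_neg h.not_gt, if_pos h']
  unfold lin
  rw [div_h0]
  ring

theorem b1q2_eq {T : ℝ} (h : h0 ≤ T) (h' : T < 3 / 2 * h0) :
    b1q2_v T = tB1 T := by
  have hp := h0_pos
  obtain ⟨n1, n2⟩ := h0_num
  have e : h0 = √3 / 2 := h0_eq
  simp only [b1q2_v, b1q2_v26, b1q2_v25, b1q2_v24, b1q2_v23, b1q2_v21, b1q2_v20, b1q2_v19, b1q2_v18, b1q2_v16, b1q2_v15, b1q2_v14, b1q2_v13, b1q2_v12, b1q2_v11, b1q2_v10, b1q2_v9, b1q2_v8, b1q2_v6, b1q2_v5, b1q2_v3, b1q2_v2, b1q2_v1]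
  push_cast
  unfold tB1
  rw [if_neg (show ¬ T < h0 / 4 by linarith), if_neg (show ¬ T < h0 / 2 by linarith), if_neg h.not_gt, if_pos h',
    show (9 : ℝ) / 16 * √3 = 9 / 8 * h0 by rw [e]; ring,
    show (3 : ℝ) / 4 * √3 = 3 / 2 * h0 by rw [e]; ring]
  rcases lt_trichotomy T 1 with h1 | h1 | h1
  · rw [if_pos (show T - 1 ≤ 0 by linarith), if_pos h1]
    rcases lt_or_ge T (9 / 8 * h0) with h2 | h2
    · rw [if_pos (show T - 9 / 8 * h0 ≤ 0 by linarith), if_pos h2]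
      unfold lin
      rw [div_h0]
      ring
    · rw [if_neg h2.not_gt]
      have hd : 1 - 9 / 8 * h0 ≠ 0 := by linarith
      split_ifs with h3
      · have : T = 9 / 8 * h0 := by linarith
        have s2 := sq3_sq
        rw [this, e]
        norm_num
        linear_combination (-(147 / 1000) : ℝ) * s2
      · have k := mul_inv_cancel₀ hd
        rw [div_eq_mul_inv]
        linear_combination (-(49 / 1000) : ℝ) * k
  · subst h1
    have hd : 1 - 9 / 8 * h0 ≠ 0 := by linarith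
    rw [if_pos (by norm_num), if_neg (by linarith), if_neg (show ¬ (1 : ℝ) < 9 / 8 * h0 by linarith),
      if_neg (lt_irrefl _)]
    simp
  · rw [if_neg (by linarith), if_neg (by linarith), if_neg h1.not_gt]
    have hd : 3 / 2 * h0 - 1 ≠ 0 := by linarith
    field_simp
    ring

theorem b1q3_eq {T : ℝ} (h : 3 / 2 * h0 ≤ T) :
    b1q3_v T = tB1 T := by
  have hp := h0_pos
  obtain ⟨n1, n2⟩ := h0_num
  have e : h0 = √3 / 2 := h0_eq
  simp only [b1q3_v, b1q3_v6, b1q3_v4, b1q3_v3, b1q3_v2, b1q3_v1]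
  push_cast
  unfold tB1
  rw [if_neg (by linarith), if_neg (by linarith), if_neg (by linarith), if_neg (by linarith),
    if_neg (by linarith), if_neg h.not_gt]
  unfold lin
  rw [div_h0]
  ring

theorem b2q0_eq {T : ℝ} (h : T < h0 / 2) :
    b2q0_v T = tB2 T := by
  have hp := h0_pos
  obtain ⟨n1, n2⟩ := h0_num
  have e : h0 = √3 / 2 := h0_eq
  simp only [b2q0_v, b2q0_v14, b2q0_v13, b2q0_v12, b2q0_v10, b2q0_v9, b2q0_v8, b2q0_v6, b2q0_v5, b2q0_v4, b2q0_v3, b2q0_v2, b2q0_v1]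
  push_cast
  unfold tB2
  by_cases h4 : T < h0 / 4
  · rw [if_pos (by rw [e] at h4; linarith), if_pos h4]
    unfold lin
    rw [div_h0]
    ring
  · rw [if_neg h4, if_pos h]
    rw [not_lt] at h4
    unfold lin
    rw [div_h0]
    split_ifs with h5
    · have : T * √3 = 3 / 8 := by
        have h6 : T = √3 / 8 := by
          rw [e] at h4
          linarith
        have s2 := sq3_sq
        rw [h6]
        linear_combination (1 / 8) * s2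
      rw [this]
      norm_num
    · ring

theorem b2q1_eq {T : ℝ} (h : h0 / 2 ≤ T) (h' : T < h0) :
    b2q1_v T = tB2 T := by
  have hp := h0_pos
  obtain ⟨n1, n2⟩ := h0_num
  have e : h0 = √3 / 2 := h0_eq
  simp only [b2q1_v, b2q1_v5, b2q1_v4, b2q1_v3, b2q1_v2, b2q1_v1]
  push_cast
  unfold tB2
  rw [if_neg (by linarith), if_neg h.not_gt, if_pos h']
  unfold lin
  rw [div_h0]
  ring

theorem b2q2_eq {T : ℝ} (h : h0 ≤ T) (h' : T < 3 / 2 * h0) :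
    b2q2_v T = tB2 T := by
  have hp := h0_pos
  obtain ⟨n1, n2⟩ := h0_num
  have e : h0 = √3 / 2 := h0_eq
  simp only [b2q2_v, b2q2_v29, b2q2_v28, b2q2_v27, b2q2_v26, b2q2_v24, b2q2_v23, b2q2_v22, b2q2_v21, b2q2_v19, b2q2_v18, b2q2_v16, b2q2_v15, b2q2_v14, b2q2_v13, b2q2_v11, b2q2_v10, b2q2_v9, b2q2_v8, b2q2_v6, b2q2_v5, b2q2_v3, b2q2_v2, b2q2_v1]
  push_cast
  unfold tB2
  rw [if_neg (show ¬ T < h0 / 4 by linarith), if_neg (show ¬ T < h0 / 2 by linarith), if_neg h.not_gt, if_pos h',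
    show (9 : ℝ) / 16 * √3 = 9 / 8 * h0 by rw [e]; ring,
    show (3 : ℝ) / 4 * √3 = 3 / 2 * h0 by rw [e]; ring]
  rcases lt_trichotomy T 1 with h1 | h1 | h1
  · rw [if_pos (show T - 1 ≤ 0 by linarith), if_pos h1]
    rcases lt_or_ge T (9 / 8 * h0) with h2 | h2
    · rw [if_pos (show T - 9 / 8 * h0 ≤ 0 by linarith), if_pos h2]
      unfold lin
      rw [div_h0]
      ring
    · rw [if_neg h2.not_gt]
      have hd : 1 - 9 / 8 * h0 ≠ 0 := by linarith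
      split_ifs with h3
      · have : T = 9 / 8 * h0 := by linarith
        have s2 := sq3_sq
        rw [this, e]
        norm_num
        linear_combination (-(39 / 200) : ℝ) * s2
      · have k := mul_inv_cancel₀ hd
        rw [div_eq_mul_inv]
        linear_combination (47 / 1000 : ℝ) * k
  · subst h1
    have hd : 1 - 9 / 8 * h0 ≠ 0 := by linarith
    rw [if_pos (by norm_num), if_neg (by linarith), if_neg (show ¬ (1 : ℝ) < 9 / 8 * h0 by linarith),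
      if_neg (lt_irrefl _)]
    simp
  · rw [if_neg (by linarith), if_neg (by linarith), if_neg h1.not_gt]
    have hd : 3 / 2 * h0 - 1 ≠ 0 := by linarith
    field_simp
    ring

theorem b2q3_eq {T : ℝ} (h : 3 / 2 * h0 ≤ T) :
    b2q3_v T = tB2 T := by
  have hp := h0_pos
  obtain ⟨n1, n2⟩ := h0_num
  have e : h0 = √3 / 2 := h0_eq
  simp only [b2q3_v, b2q3_v6, b2q3_v4, b2q3_v3, b2q3_v2, b2q3_v1]
  push_cast
  unfold tB2
  rw [if_neg (by linarith), if_neg (by linarith), if_neg (by linarith), if_neg (by linarith),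
    if_neg (by linarith), if_neg h.not_gt]
  unfold lin
  rw [div_h0]
  ring

theorem v1q0_eq {T : ℝ} (h : T < h0 / 2) :
    v1q0_v T = f1 T * tB1 T := by
  have hp := h0_pos
  simp only [v1q0_v, v1q0_v3, v1q0_v2, v1q0_v1]
  rw [f1m_eq (by have := h0_pos; linarith), b1q0_eq h]

theorem v2q0_eq {T : ℝ} (h : T < h0 / 2) :
    v2q0_v T = f2 T * tB2 T := by
  have hp := h0_pos
  simp only [v2q0_v, v2q0_v3, v2q0_v2, v2q0_v1]
  rw [f2m_eq (by have := h0_pos; linarith), b2q0_eq h]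

theorem v1q1_eq {T : ℝ} (h : h0 / 2 ≤ T) (h' : T < h0) :
    v1q1_v T = f1 T * tB1 T := by
  have hp := h0_pos
  simp only [v1q1_v, v1q1_v3, v1q1_v2, v1q1_v1]
  rw [f1m_eq (by have := h0_pos; linarith), b1q1_eq h h']

theorem v2q1_eq {T : ℝ} (h : h0 / 2 ≤ T) (h' : T < h0) :
    v2q1_v T = f2 T * tB2 T := by
  have hp := h0_pos
  simp only [v2q1_v, v2q1_v3, v2q1_v2, v2q1_v1]
  rw [f2m_eq (by have := h0_pos; linarith), b2q1_eq h h']

theorem v1q2_eq {T : ℝ} (h : h0 ≤ T) (h' : T < 3 / 2 * h0) :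
    v1q2_v T = f1 T * tB1 T := by
  have hp := h0_pos
  simp only [v1q2_v, v1q2_v3, v1q2_v2, v1q2_v1]
  rw [f1p_eq (by have := h0_pos; linarith), b1q2_eq h h']

theorem v2q2_eq {T : ℝ} (h : h0 ≤ T) (h' : T < 3 / 2 * h0) :
    v2q2_v T = f2 T * tB2 T := by
  have hp := h0_pos
  simp only [v2q2_v, v2q2_v3, v2q2_v2, v2q2_v1]
  rw [f2p_eq (by have := h0_pos; linarith), b2q2_eq h h']

theorem v1q3_eq {T : ℝ} (h : 3 / 2 * h0 ≤ T) :
    v1q3_v T = f1 T * tB1 T := by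
  have hp := h0_pos
  simp only [v1q3_v, v1q3_v3, v1q3_v2, v1q3_v1]
  rw [f1p_eq (by have := h0_pos; linarith), b1q3_eq h]

theorem v2q3_eq {T : ℝ} (h : 3 / 2 * h0 ≤ T) :
    v2q3_v T = f2 T * tB2 T := by
  have hp := h0_pos
  simp only [v2q3_v, v2q3_v3, v2q3_v2, v2q3_v1]
  rw [f2p_eq (by have := h0_pos; linarith), b2q3_eq h]

/-- The clamped quotient. -/
noncomputable def lam (n d : ℝ) : ℝ := min (max (n * d⁻¹) 0) 1

theorem lam_eq {n d : ℝ} (h0 : 0 ≤ n) (h1 : n ≤ d) : lam n d = n / d := by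
  unfold lam
  have hd : 0 ≤ d := h0.trans h1
  rw [← div_eq_mul_inv, max_eq_left (div_nonneg h0 hd), min_eq_left (div_le_one_of_le₀ h1 hd)]

theorem lam_self {d : ℝ} (h : 0 < d) : lam d d = 1 := by
  rw [lam_eq h.le le_rfl, div_self h.ne']

/-- Interpolation between four nodes. -/
noncomputable def rrr (lo x1 x2 x3 v1 v2 v3 X : ℝ) : ℝ :=
  if X - x1 ≤ 0 then lo
  else if X - x2 ≤ 0 then v1 + lam (X - x1) (x2 - x1) * (v2 - v1)
  else v2 + lam (X - x2) (x3 - x2) * (v3 - v2)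

theorem rrr_seg {lo x0 x1 x2 x3 v0 v1 v2 v3 X : ℝ} (h12 : x1 < x2)
    (hlo : x0 ≤ X → X ≤ x1 → lo = v0 + (v1 - v0) * ((X - x0) / (x1 - x0)))
    (hl1 : X = x1 → lo = v1) :
    (x0 ≤ X → X ≤ x1 → rrr lo x1 x2 x3 v1 v2 v3 X = v0 + (v1 - v0) * ((X - x0) / (x1 - x0))) ∧
    (x1 ≤ X → X ≤ x2 → rrr lo x1 x2 x3 v1 v2 v3 X = v1 + (v2 - v1) * ((X - x1) / (x2 - x1))) ∧
    (x2 ≤ X → X ≤ x3 → rrr lo x1 x2 x3 v1 v2 v3 X = v2 + (v3 - v2) * ((X - x2) / (x3 - x2))) := by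
  refine ⟨fun h1 h2 => ?_, fun h1 h2 => ?_, fun h1 h2 => ?_⟩
  · unfold rrr
    rw [if_pos (by linarith), hlo h1 h2]
  · unfold rrr
    rcases h1.eq_or_lt with h | h
    · rw [if_pos (by linarith), hl1 h.symm, ← h]
      simp
    · rw [if_neg (by linarith), if_pos (by linarith), lam_eq (by linarith) (by linarith), mul_comm]
  · unfold rrr
    rcases h1.eq_or_lt with h | h
    · rw [if_neg (by linarith), if_pos (by linarith), ← h, lam_self (by linarith)]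
      simp
    · rw [if_neg (by linarith), if_neg (by linarith), lam_eq (by linarith) (by linarith), mul_comm]

theorem rrq0_eq {X T : ℝ} (h0T : 0 ≤ T) (h : T < h0 / 2) :
    rrq0_v X T = rrr (A1u T + lam (X - c1 T) (f1 T - c1 T) * (f1 T * tB1 T - A1u T)) (f1 T) (f2 T) (c3 T) (f1 T * tB1 T) (f2 T * tB2 T) (A3 T) X := by
  have hp := h0_pos
  simp only [rrq0_v, rrq0_v29, rrq0_v28, rrq0_v27, rrq0_v26, rrq0_v25, rrq0_v24, rrq0_v23, rrq0_v22, rrq0_v21, rrq0_v20, rrq0_v19, rrq0_v18, rrq0_v17, rrq0_v16, rrq0_v15, rrq0_v14, rrq0_v13, rrq0_v12, rrq0_v11, rrq0_v10, rrq0_v9, rrq0_v8, rrq0_v7, rrq0_v6, rrq0_v5, rrq0_v4, rrq0_v3, rrq0_v2]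
  simp only [f1m_eq (show T < h0 by linarith), f2m_eq (show T < h0 by linarith), c3f_eq, a3q0_eq h0T h, v1q0_eq h, v2q0_eq h, c1f_eq, a1q0_eq h]
  push_cast
  rfl

theorem rrq1_eq {X T : ℝ} (h : h0 / 2 ≤ T) (h' : T < h0) :
    rrq1_v X T = rrr (A1u T + lam (X - c1 T) (f1 T - c1 T) * (f1 T * tB1 T - A1u T)) (f1 T) (f2 T) (c3 T) (f1 T * tB1 T) (f2 T * tB2 T) (A3 T) X := by
  have hp := h0_pos
  simp only [rrq1_v, rrq1_v29, rrq1_v28, rrq1_v27, rrq1_v26, rrq1_v25, rrq1_v24, rrq1_v23, rrq1_v22, rrq1_v21, rrq1_v20, rrq1_v19, rrq1_v18, rrq1_v17, rrq1_v16, rrq1_v15, rrq1_v14, rrq1_v13, rrq1_v12, rrq1_v11, rrq1_v10, rrq1_v9, rrq1_v8, rrq1_v7, rrq1_v6, rrq1_v5, rrq1_v4, rrq1_v3, rrq1_v2]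
  simp only [f1m_eq (show T < h0 by linarith), f2m_eq (show T < h0 by linarith), c3f_eq, a3q1_eq h h', v1q1_eq h h', v2q1_eq h h', c1f_eq, a1q1_eq h h'.le]
  push_cast
  rfl

theorem rrq2_eq {X T : ℝ} (h : h0 ≤ T) (h' : T < 3 / 2 * h0) :
    rrq2_v X T = rrr (if 1 - T ≤ 0 then X * tB1 T else c1 T + lam (X - c1 T) (f1 T - c1 T) * (f1 T * tB1 T - c1 T)) (f1 T) (f2 T) (c3 T) (f1 T * tB1 T) (f2 T * tB2 T) (A3 T) X := by
  have hp := h0_pos
  simp only [rrq2_v, rrq2_v33, rrq2_v32, rrq2_v31, rrq2_v30, rrq2_v29, rrq2_v28, rrq2_v27, rrq2_v26, rrq2_v25, rrq2_v24, rrq2_v23, rrq2_v22, rrq2_v21, rrq2_v20, rrq2_v19, rrq2_v18, rrq2_v17, rrq2_v16, rrq2_v15, rrq2_v14, rrq2_v13, rrq2_v12, rrq2_v11, rrq2_v10, rrq2_v9, rrq2_v8, rrq2_v7, rrq2_v6, rrq2_v5, rrq2_v4, rrq2_v3, rrq2_v2]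
  simp only [f1p_eq (show h0 ≤ T by linarith), f2p_eq (show h0 ≤ T by linarith), c3f_eq, a3q2_eq h h', v1q2_eq h h', v2q2_eq h h', c1f_eq, b1q2_eq h h']
  push_cast
  rfl

theorem rrq3_eq {X T : ℝ} (h : 3 / 2 * h0 ≤ T) (h' : T ≤ 2 * h0) :
    rrq3_v X T = rrr (X * tB1 T) (f1 T) (f2 T) (c3 T) (f1 T * tB1 T) (f2 T * tB2 T) (A3 T) X := by
  have hp := h0_pos
  simp only [rrq3_v, rrq3_v24, rrq3_v23, rrq3_v22, rrq3_v21, rrq3_v20, rrq3_v19, rrq3_v18, rrq3_v17, rrq3_v16, rrq3_v15, rrq3_v14, rrq3_v13, rrq3_v12, rrq3_v11, rrq3_v10, rrq3_v9, rrq3_v8, rrq3_v7, rrq3_v6, rrq3_v5, rrq3_v4, rrq3_v3]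
  simp only [f1p_eq (show h0 ≤ T by linarith), f2p_eq (show h0 ≤ T by linarith), c3f_eq, a3q3_eq h h', v1q3_eq h, v2q3_eq h, b1q3_eq h]
  push_cast
  rfl

end Pool.Agent.Strip051.LC.Line.Glue
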