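import Pool.Agent.Strip051.LC.Line.GlueFn
import Pool.Agent.Strip051.LC.Line.CertF
import Pool.Agent.Strip051.LC.Exact.FamV

/-! # The kernel of the table in the functions of the boxes -/

namespace Pool.Agent.Strip051.LC.Line.Glue

open Pool.Agent.StripNear Pool.Agent.StripSquare Pool.Agent.Strip051.Sweep
  Pool.Agent.Strip051.LC Pool.Agent.Strip051.LC.Line Pool.Agent.Strip051.LB.Fn

/-- The kernel. -/
noncomputable abbrev K : ℝ → ℝ → ℝ := ker (nodesW false) vF (fun _ _ => 0)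

theorem f12 {T : ℝ} (h0T : 0 ≤ T) (h : T < 2 * h0) : f1 T < f2 T := by
  have hp := h0_pos
  have hq := h0_sq'
  have h3 : T ^ 2 < 3 := by nlinarith
  by_cases hs : T = 0 ∨ T = h0
  · obtain ⟨s1, s2, s3⟩ := special hs
    unfold f1 f2
    linarith
  · push Not at hs
    obtain ⟨s1, s2, s3⟩ := W_between (lt_of_le_of_ne h0T (Ne.symm hs.1)) hs.2 h3
    unfold f1 f2
    linarith

theorem c1_f1 {T : ℝ} (h0T : 0 < T) (hne : T ≠ h0) (h : T < 2 * h0) : c1 T < f1 T := by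
  have hp := h0_pos
  have hq := h0_sq'
  obtain ⟨s1, s2, s3⟩ := W_between h0T hne (by nlinarith)
  unfold f1
  linarith

theorem vF_mid {T : ℝ} (h : T = 0 ∨ T = h0) : f1 T * tB1 T = A1u T := by
  have hp := h0_pos
  have h1 := h0_lt_one
  rcases h with rfl | rfl
  · rw [← vF_1 le_rfl, ← vF_0 le_rfl (by norm_num)]
    exact tabW_vF.zero
  · rw [← vF_1 hp.le, ← vF_0 hp.le h1]
    exact tabW_vF.mid

/-- The kernel on the piece `i` at a height below `2 * h0`. -/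
theorem rrr_ker {lo X T : ℝ} (h0T : 0 ≤ T) (hT : T < 2 * h0)
    (hlo : c1 T ≤ X → X ≤ f1 T → lo = vF T 0 + (f1 T * tB1 T - vF T 0) *
      ((X - c1 T) / (f1 T - c1 T)))
    (hl1 : X = f1 T → lo = f1 T * tB1 T) (hX : 0 ≤ X) (h1 : 1 ≤ X ^ 2 + T ^ 2)
    (h3 : X ^ 2 + T ^ 2 ≤ 3) :
    rrr lo (f1 T) (f2 T) (c3 T) (f1 T * tB1 T) (f2 T * tB2 T) (A3 T) X = K X T := by
  have hT3 : T ^ 2 ≤ 3 := by nlinarith [sq_nonneg X]
  obtain ⟨i, h4, h5⟩ := seg_pos h0T hX h1 h3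
  rw [one_mul] at h4 h5
  have key := kerW_pos tabW_vF h0T hT3 h4 h5
  obtain ⟨g1, g2, g3⟩ := rrr_seg (lo := lo) (x0 := c1 T) (x3 := c3 T) (v0 := vF T 0)
    (v2 := f2 T * tB2 T) (v3 := A3 T) (f12 h0T hT) hlo hl1
  show _ = ker _ _ _ _ _
  rw [key]
  unfold segW
  fin_cases i
  · rw [g1 h4 h5]
    simp only [Fin.zero_eta, castSucc0, succ0, cv_zero, cv_one, tg_zero, tg_one, vF_1 h0T]
  · rw [g2 h4 h5]
    simp only [Fin.mk_one, castSucc1, succ1, cv_one, cv_two, tg_one, tg_two, vF_1 h0T, vF_3 h0T]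
  · rw [g3 h4 h5]
    simp only [Fin.reduceFinMk, castSucc2, succ2, cv_two, cv_three, tg_two, tg_three, vF_3 h0T,
      vF_4 h0T]

theorem lo_lam {X T a : ℝ} (h0T : 0 ≤ T) (hT : T < 2 * h0) (h1 : T < 1) (ha : A1u T = a) :
    (c1 T ≤ X → X ≤ f1 T → a + lam (X - c1 T) (f1 T - c1 T) * (f1 T * tB1 T - a) =
      vF T 0 + (f1 T * tB1 T - vF T 0) * ((X - c1 T) / (f1 T - c1 T))) ∧
    (X = f1 T → a + lam (X - c1 T) (f1 T - c1 T) * (f1 T * tB1 T - a) = f1 T * tB1 T) := by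
  rw [vF_0 h0T h1, ha]
  refine ⟨fun h2 h3 => ?_, fun h2 => ?_⟩
  · rw [lam_eq (by linarith) (by linarith)]
    ring
  · by_cases hs : T = 0 ∨ T = h0
    · have := vF_mid hs
      rw [this, ha]
      ring
    · push Not at hs
      have := c1_f1 (lt_of_le_of_ne h0T (Ne.symm hs.1)) hs.2 hT
      rw [h2, lam_self (by linarith)]
      ring

theorem lo_mul {X T : ℝ} (hT : T < 2 * h0) (h1 : 1 ≤ T) :
    (c1 T ≤ X → X ≤ f1 T → X * tB1 T =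
      vF T 0 + (f1 T * tB1 T - vF T 0) * ((X - c1 T) / (f1 T - c1 T))) ∧
    (X = f1 T → X * tB1 T = f1 T * tB1 T) := by
  have hh := h0_lt_one
  have := c1_f1 (by linarith) (by linarith) hT
  rw [c1_zero h1] at this ⊢
  rw [vF_0' h1]
  have hne : f1 T ≠ 0 := this.ne'
  refine ⟨fun _ _ => ?_, fun h2 => by rw [h2]⟩
  field_simp
  ring

theorem rrq0_ker {X T : ℝ} (h0T : 0 ≤ T) (h : T < h0 / 2) (hX : 0 ≤ X) (h1 : 1 ≤ X ^ 2 + T ^ 2)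
    (h3 : X ^ 2 + T ^ 2 ≤ 3) : rrq0_v X T = K X T := by
  have hp := h0_pos
  have hh := h0_lt_one
  obtain ⟨g1, g2⟩ := lo_lam (X := X) h0T (by linarith) (by linarith) (rfl : A1u T = A1u T)
  rw [rrq0_eq h0T h]
  exact rrr_ker h0T (by linarith) g1 g2 hX h1 h3

theorem rrq1_ker {X T : ℝ} (h : h0 / 2 ≤ T) (h' : T < h0) (hX : 0 ≤ X) (h1 : 1 ≤ X ^ 2 + T ^ 2)
    (h3 : X ^ 2 + T ^ 2 ≤ 3) : rrq1_v X T = K X T := by
  have hp := h0_pos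
  have hh := h0_lt_one
  obtain ⟨g1, g2⟩ := lo_lam (X := X) (T := T) (by linarith) (by linarith) (by linarith) rfl
  rw [rrq1_eq h h']
  exact rrr_ker (by linarith) (by linarith) g1 g2 hX h1 h3

theorem rrq2_ker {X T : ℝ} (h : h0 ≤ T) (h' : T < 3 / 2 * h0) (hX : 0 ≤ X)
    (h1 : 1 ≤ X ^ 2 + T ^ 2) (h3 : X ^ 2 + T ^ 2 ≤ 3) : rrq2_v X T = K X T := by
  have hp := h0_pos
  have hh := h0_lt_one
  rw [rrq2_eq h h']
  rcases lt_or_ge T 1 with hT | hT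
  · obtain ⟨g1, g2⟩ := lo_lam (X := X) (T := T) (by linarith) (by linarith) hT (A1u_2 h)
    rw [if_neg (by linarith)]
    exact rrr_ker (by linarith) (by linarith) g1 g2 hX h1 h3
  · obtain ⟨g1, g2⟩ := lo_mul (X := X) (T := T) (by linarith) hT
    rw [if_pos (by linarith)]
    exact rrr_ker (by linarith) (by linarith) g1 g2 hX h1 h3

theorem rrq3_ker {X T : ℝ} (h : 3 / 2 * h0 ≤ T) (h' : T ≤ 2 * h0) (hX : 0 ≤ X)
    (h1 : 1 ≤ X ^ 2 + T ^ 2) (h3 : X ^ 2 + T ^ 2 ≤ 3) : rrq3_v X T = K X T := by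
  have hp := h0_pos
  obtain ⟨n1, n2⟩ := h0_num
  rw [rrq3_eq h h']
  rcases h'.eq_or_lt with hT | hT
  · have hT3 : T ^ 2 = 3 := by
      rw [hT, mul_pow, h0_sq']
      norm_num
    have hX0 : X = 0 := by
      have : X ^ 2 = 0 := by nlinarith [sq_nonneg X]
      simpa using this
    have hf : f1 T = 0 := by
      unfold f1
      rw [W_top (by linarith) hT3, c1_zero (by nlinarith)]
      norm_num
    unfold rrr
    rw [hX0, hf, if_pos (by norm_num), zero_mul]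
    exact (kerW_zero vF T).symm
  · obtain ⟨g1, g2⟩ := lo_mul (X := X) (T := T) hT (by linarith)
    exact rrr_ker (by linarith) hT g1 g2 hX h1 h3

theorem rq_ker {q : ℝ → ℝ → ℝ} {X T : ℝ} (h : ∀ X, 0 ≤ X → 1 ≤ X ^ 2 + T ^ 2 → X ^ 2 + T ^ 2 ≤ 3 →
    q X T = K X T) (h1 : 1 ≤ X ^ 2 + T ^ 2) (h3 : X ^ 2 + T ^ 2 ≤ 3) :
    (if X ≤ 0 then -(q (-X) T) else q X T) = K X T := by
  split_ifs with hX
  · rw [h (-X) (by linarith) (by rwa [neg_sq]) (by rwa [neg_sq])]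
    show -(ker _ _ _ _ _) = _
    rw [ker_odd (isNodesW false) (fun _ => rfl), neg_neg]
  · exact h X (by linarith) h1 h3

theorem rq0_ker {X T : ℝ} (h0T : 0 ≤ T) (h : T < h0 / 2) (h1 : 1 ≤ X ^ 2 + T ^ 2)
    (h3 : X ^ 2 + T ^ 2 ≤ 3) : rq0_v X T = K X T :=
  rq_ker (fun _ hX g1 g3 => rrq0_ker h0T h hX g1 g3) h1 h3

theorem rq1_ker {X T : ℝ} (h : h0 / 2 ≤ T) (h' : T < h0) (h1 : 1 ≤ X ^ 2 + T ^ 2)
    (h3 : X ^ 2 + T ^ 2 ≤ 3) : rq1_v X T = K X T :=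
  rq_ker (fun _ hX g1 g3 => rrq1_ker h h' hX g1 g3) h1 h3

theorem rq2_ker {X T : ℝ} (h : h0 ≤ T) (h' : T < 3 / 2 * h0) (h1 : 1 ≤ X ^ 2 + T ^ 2)
    (h3 : X ^ 2 + T ^ 2 ≤ 3) : rq2_v X T = K X T :=
  rq_ker (fun _ hX g1 g3 => rrq2_ker h h' hX g1 g3) h1 h3

theorem rq3_ker {X T : ℝ} (h : 3 / 2 * h0 ≤ T) (h' : T ≤ 2 * h0) (h1 : 1 ≤ X ^ 2 + T ^ 2)
    (h3 : X ^ 2 + T ^ 2 ≤ 3) : rq3_v X T = K X T :=
  rq_ker (fun _ hX g1 g3 => rrq3_ker h h' hX g1 g3) h1 h3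

end Pool.Agent.Strip051.LC.Line.Glue
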