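import Pool.Agent.Strip051.LC.Line.GlueK

/-! # The star inequalities in the functions of the boxes -/

namespace Pool.Agent.Strip051.LC.Line.Glue

open Pool.Agent.StripNear Pool.Agent.StripSquare Pool.Agent.Strip051.Sweep
  Pool.Agent.Strip051.LC Pool.Agent.Strip051.LC.Line Pool.Agent.Strip051.LB.Fn

theorem two_h0 : 2 * h0 = √(3 : ℝ) := by
  rw [h0_eq]
  ring

theorem exf_eq {X Y t u : ℝ} : exf_v X Y t u = (X * u - Y * t) / (2 * h0) - 1 / 2 := by
  simp only [exf_v, exf_v11, exf_v9, exf_v6, exf_v4, exf_v5, exf_v8, exf_v7, exf_v10]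
  push_cast
  rw [two_h0]
  ring

theorem exf_A {X12 X23 t t' : ℝ} : exf_v X12 X23 t t' = exc X12 (X12 + X23) t t' := by
  rw [exf_eq]
  unfold exc
  ring

theorem exf_B {X12 X13 t T : ℝ} : exf_v X12 X13 t T = exc X12 X13 t (T - t) := by
  rw [exf_eq]
  unfold exc
  ring

theorem q3f_eq {X T : ℝ} : q3f_v X T = X ^ 2 + T ^ 2 := rfl

theorem starw_of {E l1 l2 l3 A1 A2 A3 : ℝ} (h : 0 ≤ starw_v E l1 l2 l3 A1 A2 A3) :
    StarW (19 / 20) E l1 l2 l3 A1 A2 A3 := by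
  have e1 : pot h0 A1 A2 A3 l1 l2 l3 + E / (2 * (19 / 20)) = starw_v31 E l1 l2 l3 A1 A2 A3 := by
    simp only [starw_v31, starw_v17, starw_v14, starw_v11, starw_v8, starw_v7, starw_v10, starw_v9, starw_v13, starw_v12, starw_v16, starw_v15, starw_v30]
    unfold pot
    push_cast
    rw [two_h0]
    ring
  have e2 : pot h0 A2 A3 A1 l2 l3 l1 + E / (2 * (19 / 20)) = starw_v32 E l1 l2 l3 A1 A2 A3 := by
    simp only [starw_v32, starw_v24, starw_v23, starw_v20, starw_v19, starw_v18, starw_v8, starw_v7, starw_v22, starw_v21, starw_v16, starw_v15, starw_v30]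
    unfold pot
    push_cast
    rw [two_h0]
    ring
  have e3 : pot h0 A3 A1 A2 l3 l1 l2 + E / (2 * (19 / 20)) = starw_v33 E l1 l2 l3 A1 A2 A3 := by
    simp only [starw_v33, starw_v29, starw_v28, starw_v25, starw_v10, starw_v9, starw_v19, starw_v18, starw_v27, starw_v26, starw_v16, starw_v15, starw_v30]
    unfold pot
    push_cast
    rw [two_h0]
    ring
  unfold StarW Star
  rw [e1, e2, e3]
  unfold L0
  simp only [starw_v, starw_v47, starw_v46, starw_v45, starw_v44, starw_v43, starw_v42, starw_v41, starw_v40,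
    starw_v39, starw_v38, starw_v37, starw_v36, starw_v35, starw_v34, starw_v15] at h
  push_cast at h
  linarith

theorem starn_of {E l1 l2 A1 A2 A3 : ℝ} (hl1 : 0 ≤ l1) (hl2 : 0 ≤ l2)
    (h : 0 ≤ starn_v E l1 l2 A1 A2 A3) : StarN (19 / 20) E l1 l2 A1 A2 A3 := by
  have e1 : (A1 * (h0 - l1) + A2 * (h0 - 2 * l1 - l2) - A3 * (h0 - l1 - l2)) / (2 * h0) +
      E / (2 * (19 / 20)) = starn_v41 E l1 l2 A1 A2 A3 := by
    simp only [starn_v41, starn_v24, starn_v22, starn_v19, starn_v14, starn_v13, starn_v7, starn_v6, starn_v18, starn_v17, starn_v16, starn_v15, starn_v21, starn_v20, starn_v23, starn_v40]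
    push_cast
    rw [two_h0, h0_eq]
    ring
  have e3 : (-A1 * (h0 - l1 - 2 * l2) - A2 * (h0 - l2) + A3 * (h0 - l1 - l2)) / (2 * h0) +
      E / (2 * (19 / 20)) = starn_v43 E l1 l2 A1 A2 A3 := by
    simp only [starn_v43, starn_v39, starn_v38, starn_v37, starn_v36, starn_v35, starn_v34, starn_v13, starn_v7, starn_v6, starn_v33, starn_v27, starn_v26, starn_v21, starn_v20, starn_v23, starn_v40]
    push_cast
    rw [two_h0, h0_eq]
    ring
  have e2 : l1 + l2 ≠ 0 → (-A1 * (h0 - l1) + A2 * (h0 - l2) + A3 * (l1 - l2) / (l1 + l2) *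
      (h0 - l1 - l2)) / (2 * h0) + E / (2 * (19 / 20)) = starn_v42 E l1 l2 A1 A2 A3 := by
    intro hne
    have hlam : min (max (l1 * (l1 + l2)⁻¹) 0) 1 = l1 / (l1 + l2) :=
      lam_eq (n := l1) (d := l1 + l2) hl1 (by linarith)
    have hr : A3 * (l1 - l2) / (l1 + l2) = A3 * (2 * (l1 / (l1 + l2)) - 1) := by
      field_simp
      ring
    rw [hr]
    simp only [starn_v42, starn_v32, starn_v31, starn_v28, starn_v27, starn_v26, starn_v7, starn_v6, starn_v14, starn_v13, starn_v30, starn_v29, starn_v12, starn_v10, starn_v9, starn_v8, starn_v11, starn_v20, starn_v23, starn_v40, hlam]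
    push_cast
    rw [two_h0, h0_eq]
    ring
  unfold StarN Star
  rw [e1, e3]
  unfold L0
  simp only [starn_v, starn_v57, starn_v56, starn_v55, starn_v54, starn_v53, starn_v52, starn_v51,
    starn_v50, starn_v49, starn_v48, starn_v47, starn_v46, starn_v45, starn_v44, starn_v20, starn_v13, starn_v7,
    starn_v6] at h
  push_cast at h
  have hh : 1 / 2 * √(3 : ℝ) = h0 := by
    rw [h0_eq]
    ring
  rw [hh] at h
  by_cases hne : l1 + l2 = 0
  · have h1 : l1 = 0 := by linarith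
    have h2 : l2 = 0 := by linarith
    subst h1 h2
    linarith
  · rw [e2 hne]
    linarith

theorem jn_0 {T : ℝ} (h : T < h0 / 2) : jn T = 0 := if_pos h

theorem jn_1 {T : ℝ} (h : h0 / 2 ≤ T) (h' : T < 3 / 2 * h0) : jn T = 1 := by
  unfold jn
  rw [if_neg h.not_gt, if_pos (by linarith)]

theorem jn_2 {T : ℝ} (h : 3 / 2 * h0 ≤ T) : jn T = 2 := by
  have hp := h0_pos
  unfold jn
  rw [if_neg (by linarith), if_neg (by linarith)]

theorem tau_of {T : ℝ} {k : ℕ} (h : jn T = k) : tau T = T - k * h0 := by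
  unfold tau
  rw [h]

/-- The half-open quarters (the last one is closed). -/
def Q (q : ℕ) (T : ℝ) : Prop :=
  if q = 0 then 0 ≤ T ∧ T < h0 / 2
  else if q = 1 then h0 / 2 ≤ T ∧ T < h0
  else if q = 2 then h0 ≤ T ∧ T < 3 / 2 * h0
  else 3 / 2 * h0 ≤ T ∧ T ≤ 2 * h0

theorem Q0 {T : ℝ} : Q 0 T ↔ 0 ≤ T ∧ T < h0 / 2 := Iff.rfl
theorem Q1 {T : ℝ} : Q 1 T ↔ h0 / 2 ≤ T ∧ T < h0 := Iff.rfl
theorem Q2 {T : ℝ} : Q 2 T ↔ h0 ≤ T ∧ T < 3 / 2 * h0 := Iff.rfl
theorem Q3 {T : ℝ} : Q 3 T ↔ 3 / 2 * h0 ≤ T ∧ T ≤ 2 * h0 := Iff.rfl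

theorem Q_cases {T : ℝ} (h : 0 ≤ T) (h' : T ≤ 2 * h0) : Q 0 T ∨ Q 1 T ∨ Q 2 T ∨ Q 3 T := by
  rw [Q0, Q1, Q2, Q3]
  rcases lt_or_ge T (h0 / 2) with h1 | h1
  · exact Or.inl ⟨h, h1⟩
  rcases lt_or_ge T h0 with h2 | h2
  · exact Or.inr (Or.inl ⟨h1, h2⟩)
  rcases lt_or_ge T (3 / 2 * h0) with h3 | h3
  · exact Or.inr (Or.inr (Or.inl ⟨h2, h3⟩))
  · exact Or.inr (Or.inr (Or.inr ⟨h3, h'⟩))

theorem nfv_001 {X12 X13 t t' : ℝ} {r : ℝ × ℝ × ℝ} (h1 : Q 0 t) (h2 : Q 0 t')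
    (h3 : Q 1 (t + t'))
    (h : 0 ≤ sl001_v (exc X12 X13 t t') t t' (t + t') r.1 r.2.1 r.2.2) :
    NFV (19 / 20) X12 X13 t t' r := by
  rw [Q0] at h1
  rw [Q0] at h2
  rw [Q1] at h3
  have hp := h0_pos
  have j1 : jn t = 0 := jn_0 h1.2
  have j2 : jn t' = 0 := jn_0 h2.2
  have j3 : jn (t + t') = 1 := jn_1 h3.1 (by linarith [h3.2, h0_pos])
  have t1 := tau_of j1
  have t2 := tau_of j2
  have t3 := tau_of j3
  push_cast at t1 t2 t3
  have hh : √(3 : ℝ) = 2 * h0 := two_h0.symm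
  simp only [sl001_v, sl001_v14, sl001_v11, sl001_v8, sl001_v7, sl001_v12, sl001_v13] at h
  push_cast at h
  simp only [hh] at h
  refine .up (by rw [j1, j2, j3])  ?_
  rw [t1, t2, t3]
  refine starw_of ?_
  convert h using 2 <;> ring

theorem nfv_011 {X12 X13 t t' : ℝ} {r : ℝ × ℝ × ℝ} (h1 : Q 0 t) (h2 : Q 1 t')
    (h3 : Q 1 (t + t'))
    (h : 0 ≤ sl011_v (exc X12 X13 t t') t t' (t + t') r.1 r.2.1 r.2.2) :
    NFV (19 / 20) X12 X13 t t' r := by
  rw [Q0] at h1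
  rw [Q1] at h2
  rw [Q1] at h3
  have hp := h0_pos
  have j1 : jn t = 0 := jn_0 h1.2
  have j2 : jn t' = 1 := jn_1 h2.1 (by linarith [h2.2, h0_pos])
  have j3 : jn (t + t') = 1 := jn_1 h3.1 (by linarith [h3.2, h0_pos])
  have t1 := tau_of j1
  have t2 := tau_of j2
  have t3 := tau_of j3
  push_cast at t1 t2 t3
  have hh : √(3 : ℝ) = 2 * h0 := two_h0.symm
  simp only [sl011_v, sl011_v14, sl011_v12, sl011_v8, sl011_v7, sl011_v13] at h
  push_cast at h
  simp only [hh] at h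
  refine .pnn (by rw [j1, j2, j3]) (by linarith) (by linarith) (by linarith) ?_
  rw [t3, t1]
  refine starn_of (by linarith) (by linarith) ?_
  convert h using 2 <;> ring

theorem nfv_012 {X12 X13 t t' : ℝ} {r : ℝ × ℝ × ℝ} (h1 : Q 0 t) (h2 : Q 1 t')
    (h3 : Q 2 (t + t'))
    (h : 0 ≤ sl012_v (exc X12 X13 t t') t t' (t + t') r.1 r.2.1 r.2.2) :
    NFV (19 / 20) X12 X13 t t' r := by
  rw [Q0] at h1
  rw [Q1] at h2
  rw [Q2] at h3
  have hp := h0_pos
  have j1 : jn t = 0 := jn_0 h1.2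
  have j2 : jn t' = 1 := jn_1 h2.1 (by linarith [h2.2, h0_pos])
  have j3 : jn (t + t') = 1 := jn_1 (by linarith [h3.1, h0_pos]) h3.2
  have t1 := tau_of j1
  have t2 := tau_of j2
  have t3 := tau_of j3
  push_cast at t1 t2 t3
  have hh : √(3 : ℝ) = 2 * h0 := two_h0.symm
  simp only [sl012_v, sl012_v14, sl012_v11, sl012_v8, sl012_v7, sl012_v12, sl012_v13] at h
  push_cast at h
  simp only [hh] at h
  refine .pnp (by rw [j1, j2, j3]) (by linarith) (by linarith) (by linarith) ?_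
  rw [t3, t2]
  refine starn_of (by linarith) (by linarith) ?_
  convert h using 2 <;> ring

theorem nfv_022 {X12 X13 t t' : ℝ} {r : ℝ × ℝ × ℝ} (h1 : Q 0 t) (h2 : Q 2 t')
    (h3 : Q 2 (t + t'))
    (h : 0 ≤ sl022_v (exc X12 X13 t t') t t' (t + t') r.1 r.2.1 r.2.2) :
    NFV (19 / 20) X12 X13 t t' r := by
  rw [Q0] at h1
  rw [Q2] at h2
  rw [Q2] at h3
  have hp := h0_pos
  have j1 : jn t = 0 := jn_0 h1.2
  have j2 : jn t' = 1 := jn_1 (by linarith [h2.1, h0_pos]) h2.2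
  have j3 : jn (t + t') = 1 := jn_1 (by linarith [h3.1, h0_pos]) h3.2
  have t1 := tau_of j1
  have t2 := tau_of j2
  have t3 := tau_of j3
  push_cast at t1 t2 t3
  have hh : √(3 : ℝ) = 2 * h0 := two_h0.symm
  simp only [sl022_v, sl022_v15, sl022_v10, sl022_v8, sl022_v7, sl022_v12, sl022_v13, sl022_v14] at h
  push_cast at h
  simp only [hh] at h
  refine .pp (by rw [j1, j2, j3]) (by linarith) (by linarith) ?_
  rw [t1, t2]
  refine starn_of (by linarith) (by linarith) ?_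
  convert h using 2 <;> ring

theorem nfv_023 {X12 X13 t t' : ℝ} {r : ℝ × ℝ × ℝ} (h1 : Q 0 t) (h2 : Q 2 t')
    (h3 : Q 3 (t + t'))
    (h : 0 ≤ sl023_v (exc X12 X13 t t') t t' (t + t') r.1 r.2.1 r.2.2) :
    NFV (19 / 20) X12 X13 t t' r := by
  rw [Q0] at h1
  rw [Q2] at h2
  rw [Q3] at h3
  have hp := h0_pos
  have j1 : jn t = 0 := jn_0 h1.2
  have j2 : jn t' = 1 := jn_1 (by linarith [h2.1, h0_pos]) h2.2
  have j3 : jn (t + t') = 2 := jn_2 h3.1
  have t1 := tau_of j1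
  have t2 := tau_of j2
  have t3 := tau_of j3
  push_cast at t1 t2 t3
  have hh : √(3 : ℝ) = 2 * h0 := two_h0.symm
  simp only [sl023_v, sl023_v15, sl023_v10, sl023_v8, sl023_v7, sl023_v12, sl023_v13, sl023_v14] at h
  push_cast at h
  simp only [hh] at h
  refine .up (by rw [j1, j2, j3])  ?_
  rw [t1, t2, t3]
  refine starw_of ?_
  convert h using 2 <;> ring

theorem nfv_033 {X12 X13 t t' : ℝ} {r : ℝ × ℝ × ℝ} (h1 : Q 0 t) (h2 : Q 3 t')
    (h3 : Q 3 (t + t'))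
    (h : 0 ≤ sl033_v (exc X12 X13 t t') t t' (t + t') r.1 r.2.1 r.2.2) :
    NFV (19 / 20) X12 X13 t t' r := by
  rw [Q0] at h1
  rw [Q3] at h2
  rw [Q3] at h3
  have hp := h0_pos
  have j1 : jn t = 0 := jn_0 h1.2
  have j2 : jn t' = 2 := jn_2 h2.1
  have j3 : jn (t + t') = 2 := jn_2 h3.1
  have t1 := tau_of j1
  have t2 := tau_of j2
  have t3 := tau_of j3
  push_cast at t1 t2 t3
  have hh : √(3 : ℝ) = 2 * h0 := two_h0.symm
  simp only [sl033_v, sl033_v14, sl033_v12, sl033_v7, sl033_v13] at h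
  push_cast at h
  simp only [hh] at h
  refine .pnn (by rw [j1, j2, j3]) (by linarith) (by linarith) (by linarith) ?_
  rw [t3, t1]
  refine starn_of (by linarith) (by linarith) ?_
  convert h using 2 <;> ring

theorem nfv_101 {X12 X13 t t' : ℝ} {r : ℝ × ℝ × ℝ} (h1 : Q 1 t) (h2 : Q 0 t')
    (h3 : Q 1 (t + t'))
    (h : 0 ≤ sl101_v (exc X12 X13 t t') t t' (t + t') r.1 r.2.1 r.2.2) :
    NFV (19 / 20) X12 X13 t t' r := by
  rw [Q1] at h1
  rw [Q0] at h2
  rw [Q1] at h3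
  have hp := h0_pos
  have j1 : jn t = 1 := jn_1 h1.1 (by linarith [h1.2, h0_pos])
  have j2 : jn t' = 0 := jn_0 h2.2
  have j3 : jn (t + t') = 1 := jn_1 h3.1 (by linarith [h3.2, h0_pos])
  have t1 := tau_of j1
  have t2 := tau_of j2
  have t3 := tau_of j3
  push_cast at t1 t2 t3
  have hh : √(3 : ℝ) = 2 * h0 := two_h0.symm
  simp only [sl101_v, sl101_v14, sl101_v12, sl101_v8, sl101_v7, sl101_v13] at h
  push_cast at h
  simp only [hh] at h
  refine .npn (by rw [j1, j2, j3]) (by linarith) (by linarith) (by linarith) ?_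
  rw [t2, t3]
  refine starn_of (by linarith) (by linarith) ?_
  convert h using 2 <;> ring

theorem nfv_102 {X12 X13 t t' : ℝ} {r : ℝ × ℝ × ℝ} (h1 : Q 1 t) (h2 : Q 0 t')
    (h3 : Q 2 (t + t'))
    (h : 0 ≤ sl102_v (exc X12 X13 t t') t t' (t + t') r.1 r.2.1 r.2.2) :
    NFV (19 / 20) X12 X13 t t' r := by
  rw [Q1] at h1
  rw [Q0] at h2
  rw [Q2] at h3
  have hp := h0_pos
  have j1 : jn t = 1 := jn_1 h1.1 (by linarith [h1.2, h0_pos])
  have j2 : jn t' = 0 := jn_0 h2.2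
  have j3 : jn (t + t') = 1 := jn_1 (by linarith [h3.1, h0_pos]) h3.2
  have t1 := tau_of j1
  have t2 := tau_of j2
  have t3 := tau_of j3
  push_cast at t1 t2 t3
  have hh : √(3 : ℝ) = 2 * h0 := two_h0.symm
  simp only [sl102_v, sl102_v14, sl102_v12, sl102_v8, sl102_v7, sl102_v11, sl102_v13] at h
  push_cast at h
  simp only [hh] at h
  refine .npp (by rw [j1, j2, j3]) (by linarith) (by linarith) (by linarith) ?_
  rw [t1, t3]
  refine starn_of (by linarith) (by linarith) ?_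
  convert h using 2 <;> ring

theorem nfv_112 {X12 X13 t t' : ℝ} {r : ℝ × ℝ × ℝ} (h1 : Q 1 t) (h2 : Q 1 t')
    (h3 : Q 2 (t + t'))
    (h : 0 ≤ sl112_v (exc X12 X13 t t') t t' (t + t') r.1 r.2.1 r.2.2) :
    NFV (19 / 20) X12 X13 t t' r := by
  rw [Q1] at h1
  rw [Q1] at h2
  rw [Q2] at h3
  have hp := h0_pos
  have j1 : jn t = 1 := jn_1 h1.1 (by linarith [h1.2, h0_pos])
  have j2 : jn t' = 1 := jn_1 h2.1 (by linarith [h2.2, h0_pos])
  have j3 : jn (t + t') = 1 := jn_1 (by linarith [h3.1, h0_pos]) h3.2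
  have t1 := tau_of j1
  have t2 := tau_of j2
  have t3 := tau_of j3
  push_cast at t1 t2 t3
  have hh : √(3 : ℝ) = 2 * h0 := two_h0.symm
  simp only [sl112_v, sl112_v16, sl112_v11, sl112_v8, sl112_v7, sl112_v12, sl112_v13, sl112_v14, sl112_v15] at h
  push_cast at h
  simp only [hh] at h
  refine .dn (by rw [j1, j2, j3])  ?_
  rw [t3, t2, t1]
  refine starw_of ?_
  convert h using 2 <;> ring

theorem nfv_113 {X12 X13 t t' : ℝ} {r : ℝ × ℝ × ℝ} (h1 : Q 1 t) (h2 : Q 1 t')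
    (h3 : Q 3 (t + t'))
    (h : 0 ≤ sl113_v (exc X12 X13 t t') t t' (t + t') r.1 r.2.1 r.2.2) :
    NFV (19 / 20) X12 X13 t t' r := by
  rw [Q1] at h1
  rw [Q1] at h2
  rw [Q3] at h3
  have hp := h0_pos
  have j1 : jn t = 1 := jn_1 h1.1 (by linarith [h1.2, h0_pos])
  have j2 : jn t' = 1 := jn_1 h2.1 (by linarith [h2.2, h0_pos])
  have j3 : jn (t + t') = 2 := jn_2 h3.1
  have t1 := tau_of j1
  have t2 := tau_of j2
  have t3 := tau_of j3
  push_cast at t1 t2 t3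
  have hh : √(3 : ℝ) = 2 * h0 := two_h0.symm
  simp only [sl113_v, sl113_v17, sl113_v12, sl113_v8, sl113_v7, sl113_v13, sl113_v14, sl113_v15, sl113_v16] at h
  push_cast at h
  simp only [hh] at h
  refine .nn (by rw [j1, j2, j3]) (by linarith) (by linarith) ?_
  rw [t2, t1]
  refine starn_of (by linarith) (by linarith) ?_
  convert h using 2 <;> ring

theorem nfv_123 {X12 X13 t t' : ℝ} {r : ℝ × ℝ × ℝ} (h1 : Q 1 t) (h2 : Q 2 t')
    (h3 : Q 3 (t + t'))
    (h : 0 ≤ sl123_v (exc X12 X13 t t') t t' (t + t') r.1 r.2.1 r.2.2) :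
    NFV (19 / 20) X12 X13 t t' r := by
  rw [Q1] at h1
  rw [Q2] at h2
  rw [Q3] at h3
  have hp := h0_pos
  have j1 : jn t = 1 := jn_1 h1.1 (by linarith [h1.2, h0_pos])
  have j2 : jn t' = 1 := jn_1 (by linarith [h2.1, h0_pos]) h2.2
  have j3 : jn (t + t') = 2 := jn_2 h3.1
  have t1 := tau_of j1
  have t2 := tau_of j2
  have t3 := tau_of j3
  push_cast at t1 t2 t3
  have hh : √(3 : ℝ) = 2 * h0 := two_h0.symm
  simp only [sl123_v, sl123_v14, sl123_v10, sl123_v8, sl123_v7, sl123_v12, sl123_v13] at h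
  push_cast at h
  simp only [hh] at h
  refine .npn (by rw [j1, j2, j3]) (by linarith) (by linarith) (by linarith) ?_
  rw [t2, t3]
  refine starn_of (by linarith) (by linarith) ?_
  convert h using 2 <;> ring

theorem nfv_133 {X12 X13 t t' : ℝ} {r : ℝ × ℝ × ℝ} (h1 : Q 1 t) (h2 : Q 3 t')
    (h3 : Q 3 (t + t'))
    (h : 0 ≤ sl133_v (exc X12 X13 t t') t t' (t + t') r.1 r.2.1 r.2.2) :
    NFV (19 / 20) X12 X13 t t' r := by
  rw [Q1] at h1
  rw [Q3] at h2
  rw [Q3] at h3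
  have hp := h0_pos
  have j1 : jn t = 1 := jn_1 h1.1 (by linarith [h1.2, h0_pos])
  have j2 : jn t' = 2 := jn_2 h2.1
  have j3 : jn (t + t') = 2 := jn_2 h3.1
  have t1 := tau_of j1
  have t2 := tau_of j2
  have t3 := tau_of j3
  push_cast at t1 t2 t3
  have hh : √(3 : ℝ) = 2 * h0 := two_h0.symm
  simp only [sl133_v, sl133_v16, sl133_v11, sl133_v7, sl133_v12, sl133_v13, sl133_v8, sl133_v14, sl133_v15] at h
  push_cast at h
  simp only [hh] at h
  refine .dn (by rw [j1, j2, j3])  ?_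
  rw [t3, t2, t1]
  refine starw_of ?_
  convert h using 2 <;> ring

theorem nfv_202 {X12 X13 t t' : ℝ} {r : ℝ × ℝ × ℝ} (h1 : Q 2 t) (h2 : Q 0 t')
    (h3 : Q 2 (t + t'))
    (h : 0 ≤ sl202_v (exc X12 X13 t t') t t' (t + t') r.1 r.2.1 r.2.2) :
    NFV (19 / 20) X12 X13 t t' r := by
  rw [Q2] at h1
  rw [Q0] at h2
  rw [Q2] at h3
  have hp := h0_pos
  have j1 : jn t = 1 := jn_1 (by linarith [h1.1, h0_pos]) h1.2
  have j2 : jn t' = 0 := jn_0 h2.2
  have j3 : jn (t + t') = 1 := jn_1 (by linarith [h3.1, h0_pos]) h3.2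
  have t1 := tau_of j1
  have t2 := tau_of j2
  have t3 := tau_of j3
  push_cast at t1 t2 t3
  have hh : √(3 : ℝ) = 2 * h0 := two_h0.symm
  simp only [sl202_v, sl202_v15, sl202_v9, sl202_v8, sl202_v7, sl202_v12, sl202_v13, sl202_v14] at h
  push_cast at h
  simp only [hh] at h
  refine .pp (by rw [j1, j2, j3]) (by linarith) (by linarith) ?_
  rw [t1, t2]
  refine starn_of (by linarith) (by linarith) ?_
  convert h using 2 <;> ring

theorem nfv_203 {X12 X13 t t' : ℝ} {r : ℝ × ℝ × ℝ} (h1 : Q 2 t) (h2 : Q 0 t')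
    (h3 : Q 3 (t + t'))
    (h : 0 ≤ sl203_v (exc X12 X13 t t') t t' (t + t') r.1 r.2.1 r.2.2) :
    NFV (19 / 20) X12 X13 t t' r := by
  rw [Q2] at h1
  rw [Q0] at h2
  rw [Q3] at h3
  have hp := h0_pos
  have j1 : jn t = 1 := jn_1 (by linarith [h1.1, h0_pos]) h1.2
  have j2 : jn t' = 0 := jn_0 h2.2
  have j3 : jn (t + t') = 2 := jn_2 h3.1
  have t1 := tau_of j1
  have t2 := tau_of j2
  have t3 := tau_of j3
  push_cast at t1 t2 t3
  have hh : √(3 : ℝ) = 2 * h0 := two_h0.symm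
  simp only [sl203_v, sl203_v15, sl203_v9, sl203_v8, sl203_v7, sl203_v12, sl203_v13, sl203_v14] at h
  push_cast at h
  simp only [hh] at h
  refine .up (by rw [j1, j2, j3])  ?_
  rw [t1, t2, t3]
  refine starw_of ?_
  convert h using 2 <;> ring

theorem nfv_213 {X12 X13 t t' : ℝ} {r : ℝ × ℝ × ℝ} (h1 : Q 2 t) (h2 : Q 1 t')
    (h3 : Q 3 (t + t'))
    (h : 0 ≤ sl213_v (exc X12 X13 t t') t t' (t + t') r.1 r.2.1 r.2.2) :
    NFV (19 / 20) X12 X13 t t' r := by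
  rw [Q2] at h1
  rw [Q1] at h2
  rw [Q3] at h3
  have hp := h0_pos
  have j1 : jn t = 1 := jn_1 (by linarith [h1.1, h0_pos]) h1.2
  have j2 : jn t' = 1 := jn_1 h2.1 (by linarith [h2.2, h0_pos])
  have j3 : jn (t + t') = 2 := jn_2 h3.1
  have t1 := tau_of j1
  have t2 := tau_of j2
  have t3 := tau_of j3
  push_cast at t1 t2 t3
  have hh : √(3 : ℝ) = 2 * h0 := two_h0.symm
  simp only [sl213_v, sl213_v14, sl213_v12, sl213_v7, sl213_v9, sl213_v8, sl213_v13] at h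
  push_cast at h
  simp only [hh] at h
  refine .pnn (by rw [j1, j2, j3]) (by linarith) (by linarith) (by linarith) ?_
  rw [t3, t1]
  refine starn_of (by linarith) (by linarith) ?_
  convert h using 2 <;> ring

theorem nfv_303 {X12 X13 t t' : ℝ} {r : ℝ × ℝ × ℝ} (h1 : Q 3 t) (h2 : Q 0 t')
    (h3 : Q 3 (t + t'))
    (h : 0 ≤ sl303_v (exc X12 X13 t t') t t' (t + t') r.1 r.2.1 r.2.2) :
    NFV (19 / 20) X12 X13 t t' r := by
  rw [Q3] at h1
  rw [Q0] at h2
  rw [Q3] at h3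
  have hp := h0_pos
  have j1 : jn t = 2 := jn_2 h1.1
  have j2 : jn t' = 0 := jn_0 h2.2
  have j3 : jn (t + t') = 2 := jn_2 h3.1
  have t1 := tau_of j1
  have t2 := tau_of j2
  have t3 := tau_of j3
  push_cast at t1 t2 t3
  have hh : √(3 : ℝ) = 2 * h0 := two_h0.symm
  simp only [sl303_v, sl303_v14, sl303_v12, sl303_v7, sl303_v13] at h
  push_cast at h
  simp only [hh] at h
  refine .npn (by rw [j1, j2, j3]) (by linarith) (by linarith) (by linarith) ?_
  rw [t2, t3]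
  refine starn_of (by linarith) (by linarith) ?_
  convert h using 2 <;> ring

theorem nfv_313 {X12 X13 t t' : ℝ} {r : ℝ × ℝ × ℝ} (h1 : Q 3 t) (h2 : Q 1 t')
    (h3 : Q 3 (t + t'))
    (h : 0 ≤ sl313_v (exc X12 X13 t t') t t' (t + t') r.1 r.2.1 r.2.2) :
    NFV (19 / 20) X12 X13 t t' r := by
  rw [Q3] at h1
  rw [Q1] at h2
  rw [Q3] at h3
  have hp := h0_pos
  have j1 : jn t = 2 := jn_2 h1.1
  have j2 : jn t' = 1 := jn_1 h2.1 (by linarith [h2.2, h0_pos])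
  have j3 : jn (t + t') = 2 := jn_2 h3.1
  have t1 := tau_of j1
  have t2 := tau_of j2
  have t3 := tau_of j3
  push_cast at t1 t2 t3
  have hh : √(3 : ℝ) = 2 * h0 := two_h0.symm
  simp only [sl313_v, sl313_v16, sl313_v11, sl313_v7, sl313_v12, sl313_v8, sl313_v13, sl313_v14, sl313_v15] at h
  push_cast at h
  simp only [hh] at h
  refine .dn (by rw [j1, j2, j3])  ?_
  rw [t3, t2, t1]
  refine starw_of ?_
  convert h using 2 <;> ring

end Pool.Agent.Strip051.LC.Line.Glue
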