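import Pool.Agent.Strip051.LC.Line.Wall3

/-! # The floor rows of the long edges (average over the two apexes)

The upper path consists of two unit rows; the lower path is estimated crudely. -/

namespace Pool.Agent.Strip051.LC.Line

open Pool.Agent.StripNear Pool.Agent.StripSquare Pool.Agent.Strip051.Sweep MeasureTheory
  intervalIntegral

/-! ### The size of the kernel on the unit circle -/

theorem A1u_half {T : ℝ} (hT : 1 / 2 ≤ T) (hTh : T ≤ h0) : |A1u T| ≤ 1 / 2 := by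
  have w2 : √3 ^ 2 = 3 := Real.sq_sqrt (by norm_num)
  have w0 : 0 < √3 := Real.sqrt_pos.2 (by norm_num)
  have w1 : √3 < 2 := by nlinarith
  have hh : h0 = √3 / 2 := rfl
  obtain ⟨a, ha0, ha1, e1, e2⟩ := half_angle (by linarith) hTh
  have ha3 : 0 < 3 + a ^ 2 := by positivity
  have ha : 0 < a := by
    rcases ha0.eq_or_lt with h | h
    · rw [e1, ← h] at hT
      norm_num at hT
    · exact h
  rcases ha1.eq_or_lt with ha' | ha'
  · have hT' : T = h0 := by
      rw [e1, ha', hh]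
      ring
    rw [hT', A1u_h0]
    norm_num
  have hb : 0 < 1 - a := by linarith
  have hge : ¬ T < h0 / 2 := by
    rw [hh]
    linarith
  rw [A1u_eq ha ha' e1 e2]
  unfold tau jn
  rw [if_neg hge, if_pos (by linarith)]
  push_cast
  have e : (3 - 6 * a - a ^ 2) / (2 * √3 * a * (1 - a)) * (T - 1 * h0) =
      (3 - a) * (a ^ 2 + 6 * a - 3) / (4 * a * (3 + a ^ 2)) := by
    rw [e1, hh]
    field_simp
    ring
  rw [e]
  have hpos : 0 ≤ a ^ 2 + 6 * a - 3 := by
    have h1 : 1 / 2 ≤ 2 * √3 * a / (3 + a ^ 2) := by rw [← e1]; exact hT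
    rw [div_le_div_iff₀ two_pos ha3] at h1
    have h2 : (3 + a ^ 2) ^ 2 ≤ 48 * a ^ 2 := by
      have h3 : (1 * (3 + a ^ 2)) ^ 2 ≤ (2 * √3 * a * 2) ^ 2 :=
        pow_le_pow_left₀ (by positivity) h1 2
      have e : (2 * √3 * a * 2) ^ 2 = 48 * a ^ 2 := by
        have : (2 * √3 * a * 2) ^ 2 = 16 * √3 ^ 2 * a ^ 2 := by ring
        rw [this, w2]
        ring
      rw [e, one_mul] at h3
      exact h3
    by_contra hc
    rw [not_le] at hc
    -- `48 a^2 - (3 + a^2)^2 = 12 a^2 - (3 - a^2)^2 ... `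
    have h4 : 6 * a < 3 - a ^ 2 := by linarith
    have h5 : (6 * a) ^ 2 < (3 - a ^ 2) ^ 2 := pow_lt_pow_left₀ h4 (by linarith) two_ne_zero
    nlinarith
  rw [abs_of_nonneg (div_nonneg (mul_nonneg (by linarith) hpos) (by positivity)),
    div_le_div_iff₀ (by positivity) two_pos]
  nlinarith [mul_nonneg (sq_nonneg (a - 1)) (by linarith : 0 ≤ a + 3)]

theorem A1u_small {T : ℝ} (hT0 : 0 ≤ T) (hT : T ≤ 1 / 2) : |A1u T| ≤ 6 / 5 - 9 / 5 * T := by
  have w2 : √3 ^ 2 = 3 := Real.sq_sqrt (by norm_num)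
  have w0 : 0 < √3 := Real.sqrt_pos.2 (by norm_num)
  have wu : √3 < 17321 / 10000 := by
    rw [Real.sqrt_lt' (by norm_num)]
    norm_num
  have hh : h0 = √3 / 2 := rfl
  have w1 : 17320 / 10000 < √3 := by
    apply Real.lt_sqrt_of_sq_lt
    norm_num
  have hTh : T ≤ h0 := by
    rw [hh]
    linarith
  obtain ⟨a, ha0, ha1, e1, e2⟩ := half_angle hT0 hTh
  have ha3 : 0 < 3 + a ^ 2 := by positivity
  rcases ha0.eq_or_lt with ha | ha
  · have hT' : T = 0 := by
      rw [e1, ← ha]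
      simp
    rw [hT', A1u_zero]
    norm_num
  have ha' : a < 1 := by
    rcases ha1.eq_or_lt with h | h
    · exfalso
      have hT' : T = h0 := by
        rw [e1, h, hh]
        ring
      rw [hT', hh] at hT
      linarith
    · exact h
  have hb : 0 < 1 - a := by linarith
  -- `T ≤ 1/2` means that the kernel is nonnegative
  have hpos : 0 ≤ 3 - 6 * a - a ^ 2 := by
    have h1 : 2 * √3 * a / (3 + a ^ 2) ≤ 1 / 2 := by rw [← e1]; exact hT
    rw [div_le_div_iff₀ ha3 two_pos] at h1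
    have h2 : 48 * a ^ 2 ≤ (3 + a ^ 2) ^ 2 := by
      have h3 : (2 * √3 * a * 2) ^ 2 ≤ (1 * (3 + a ^ 2)) ^ 2 :=
        pow_le_pow_left₀ (by positivity) h1 2
      have e : (2 * √3 * a * 2) ^ 2 = 48 * a ^ 2 := by
        have : (2 * √3 * a * 2) ^ 2 = 16 * √3 ^ 2 * a ^ 2 := by ring
        rw [this, w2]
        ring
      rw [e, one_mul] at h3
      exact h3
    by_contra hc
    rw [not_le] at hc
    have h4 : 3 - a ^ 2 < 6 * a := by linarith
    have h5 : (3 - a ^ 2) ^ 2 < (6 * a) ^ 2 := pow_lt_pow_left₀ h4 (by nlinarith) two_ne_zero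
    nlinarith
  rw [A1u_eq ha ha' e1 e2]
  have hTu : T ≤ 34642 / 10000 * a / (3 + a ^ 2) := by
    rw [e1]
    apply div_le_div_of_nonneg_right _ ha3.le
    nlinarith
  unfold tau jn
  split_ifs with g1 g2
  · push_cast
    have e : (3 - 6 * a - a ^ 2) / (2 * √3 * a * (1 - a)) * (T - 0 * h0) =
        (3 - 6 * a - a ^ 2) / ((1 - a) * (3 + a ^ 2)) := by
      rw [e1]
      field_simp
      ring
    rw [e, abs_of_nonneg (div_nonneg hpos (by positivity))]
    have key : (3 - 6 * a - a ^ 2) / ((1 - a) * (3 + a ^ 2)) ≤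
        6 / 5 - 9 / 5 * (34642 / 10000 * a / (3 + a ^ 2)) := by
      rw [div_le_iff₀ (by positivity)]
      have e3 : (6 / 5 - 9 / 5 * (34642 / 10000 * a / (3 + a ^ 2))) * ((1 - a) * (3 + a ^ 2)) =
          (6 / 5 * (3 + a ^ 2) - 9 / 5 * (34642 / 10000 * a)) * (1 - a) := by
        field_simp
      rw [e3]
      nlinarith [sq_nonneg (a - 6 / 25), mul_nonneg ha.le (sq_nonneg (a - 6 / 25)),
        mul_nonneg ha.le hpos]
    linarith
  · push_cast
    have e : (3 - 6 * a - a ^ 2) / (2 * √3 * a * (1 - a)) * (T - 1 * h0) =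
        -((3 - a) * (3 - 6 * a - a ^ 2) / (4 * a * (3 + a ^ 2))) := by
      rw [e1, hh]
      field_simp
      ring
    have ha38 : 39 / 100 < a := by
      rw [e1, hh, not_lt, div_div, div_le_div_iff₀ (by norm_num) ha3] at g1
      by_contra hc
      rw [not_lt] at hc
      have : √3 * (3 + a ^ 2) ≤ √3 * (8 * a) := by linarith
      have := le_of_mul_le_mul_left this w0
      nlinarith
    rw [e, abs_neg, abs_of_nonneg (div_nonneg (mul_nonneg (by linarith) hpos) (by positivity))]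
    have key : (3 - a) * (3 - 6 * a - a ^ 2) / (4 * a * (3 + a ^ 2)) ≤ 3 / 10 := by
      rw [div_le_iff₀ (by positivity)]
      nlinarith [mul_pos (sub_pos.2 ha38) ha]
    linarith
  · exfalso
    have := h0_pos
    linarith

theorem A1u_quarter {T : ℝ} (hT : 1 / 2 ≤ T) (hTh : T ≤ h0) (hX : 82 / 100 ≤ √(1 - T ^ 2)) :
    |A1u T| ≤ 1 / 4 := by
  have w2 : √3 ^ 2 = 3 := Real.sq_sqrt (by norm_num)
  have w0 : 0 < √3 := Real.sqrt_pos.2 (by norm_num)
  have wu : √3 < 17321 / 10000 := by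
    rw [Real.sqrt_lt' (by norm_num)]
    norm_num
  have hh : h0 = √3 / 2 := rfl
  have hTT : T ^ 2 ≤ 3 / 4 := by
    rw [← h0_sq]
    exact pow_le_pow_left₀ (by linarith) hTh 2
  have hX2 : √(1 - T ^ 2) ^ 2 = 1 - T ^ 2 := Real.sq_sqrt (by linarith)
  have hge : ¬ T < h0 / 2 := by
    rw [hh]
    linarith
  unfold A1u
  rw [if_neg hge, if_pos hTh]
  set X := √(1 - T ^ 2)
  have hX1 : X ≤ √3 * T := by
    apply le_of_sq_le_sq _ (by positivity)
    rw [mul_pow, w2, hX2]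
    nlinarith
  have hXu : X ≤ 87 / 100 := by nlinarith
  have hTu : T ≤ 5724 / 10000 := by nlinarith
  have hwT : √3 * T ≤ 9915 / 10000 := by nlinarith
  rw [abs_of_nonneg (div_nonneg (mul_nonneg (by linarith) (by linarith)) (by linarith)),
    div_le_iff₀ (by linarith)]
  nlinarith [mul_nonneg (sub_nonneg.2 hX1) (by linarith : 0 ≤ 87 / 100 - X)]

/-! ### The numerical inequality -/

/-- `c1, s1` and `c2, s2` are the cosines and sines of the directions of the two unit edges. -/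
theorem long_num {c1 s1 c2 s2 E : ℝ} (hc1 : 1 / 2 ≤ c1) (hc2 : 0 ≤ c2) (hs2 : 0 ≤ s2)
    (h12 : s2 ≤ s1) (u1 : c1 ^ 2 + s1 ^ 2 = 1) (u2 : c2 ^ 2 + s2 ^ 2 = 1)
    (hang : 1 / 2 ≤ c1 * c2 - s1 * s2) (_ : 0 ≤ E) (hE : E ≤ 1548 / 10000) :
    (c1 * s2 + c2 * s1) / (2 * h0) + E * (|A1u s1| + |A1u s2|) ≤
      (c1 + c2) * (1 / 2 - E + (s1 - s2) / (2 * h0)) := by
  have w2 : √3 ^ 2 = 3 := Real.sq_sqrt (by norm_num)
  have w0 : 0 < √3 := Real.sqrt_pos.2 (by norm_num)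
  have wu : √3 < 17321 / 10000 := by
    rw [Real.sqrt_lt' (by norm_num)]
    norm_num
  have wl : 17320 / 10000 < √3 := by
    apply Real.lt_sqrt_of_sq_lt
    norm_num
  have hh : h0 = √3 / 2 := rfl
  have hk : 1 / (2 * h0) = √3 / 3 := by
    rw [hh]
    field_simp
    rw [w2]
  have s10 : 0 ≤ s1 := hs2.trans h12
  have hc1' : 0 ≤ c1 := by linarith
  -- the second direction is at most thirty degrees
  have s2h : s2 ≤ 1 / 2 := by
    by_contra hc
    rw [not_le] at hc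
    have h1 : 1 / 2 < s1 := by linarith
    have h2 : c1 ^ 2 < 3 / 4 := by nlinarith
    have h3 : c2 ^ 2 < 3 / 4 := by nlinarith
    have h4 : c1 * c2 < 3 / 4 := by nlinarith [sq_nonneg (c1 - c2)]
    have h5 : 1 / 4 < s1 * s2 := by nlinarith
    linarith
  have s1h : s1 ≤ h0 := by
    rw [hh]
    have : s1 ^ 2 ≤ (√3 / 2) ^ 2 := by
      rw [div_pow, w2]
      nlinarith
    exact le_of_sq_le_sq this (by positivity)
  have c2h : √3 / 2 ≤ c2 := by
    have : (√3 / 2) ^ 2 ≤ c2 ^ 2 := by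
      rw [div_pow, w2]
      nlinarith
    exact le_of_sq_le_sq this hc2
  have P2 := A1u_small hs2 s2h
  have q1 : 0 ≤ |A1u s1| := abs_nonneg _
  have q2 : 0 ≤ |A1u s2| := abs_nonneg _
  -- the largest amplitude
  have red : 1548 / 10000 * (c1 + c2 + |A1u s1| + |A1u s2|) ≤
      (c1 + c2) / 2 + √3 / 3 * (c1 * s1 - 2 * (c1 * s2) - c2 * s2) := by
    have k1 : √3 / 3 * s2 ≤ 29 / 100 := by nlinarith
    rcases le_total s1 (1 / 2) with hs | hs
    · have P1 := A1u_small s10 hs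
      have c1h : √3 / 2 ≤ c1 := by
        have : (√3 / 2) ^ 2 ≤ c1 ^ 2 := by
          rw [div_pow, w2]
          nlinarith
        exact le_of_sq_le_sq this hc1'
      have b1 : 0 ≤ 1 / 2 - 1548 / 10000 + √3 / 3 * s1 - 2 * (√3 / 3 * s2) := by nlinarith
      have b2 : 0 ≤ 1 / 2 - 1548 / 10000 - √3 / 3 * s2 := by linarith
      have d1 := mul_le_mul_of_nonneg_right c1h b1
      have d2 := mul_le_mul_of_nonneg_right c2h b2
      have e1 : √3 / 2 * (1 / 2 - 1548 / 10000 + √3 / 3 * s1 - 2 * (√3 / 3 * s2)) =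
          √3 / 2 * (1 / 2 - 1548 / 10000) + s1 / 2 - s2 := by
        linear_combination (s1 / 6 - s2 / 3) * w2
      have e2 : √3 / 2 * (1 / 2 - 1548 / 10000 - √3 / 3 * s2) =
          √3 / 2 * (1 / 2 - 1548 / 10000) - s2 / 2 := by
        linear_combination (-s2 / 6) * w2
      rw [e1] at d1
      rw [e2] at d2
      nlinarith
    · have hps : √3 / 4 ≤ c1 * s1 := by
        have : (√3 / 4) ^ 2 ≤ (c1 * s1) ^ 2 := by
          rw [div_pow, w2, mul_pow]
          nlinarith [mul_nonneg (by nlinarith : 0 ≤ s1 ^ 2 - 1 / 4)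
            (by nlinarith : 0 ≤ c1 ^ 2 - 1 / 4)]
        exact le_of_sq_le_sq this (mul_nonneg hc1' s10)
      have c1u : c1 ≤ √3 / 2 := by
        have : c1 ^ 2 ≤ (√3 / 2) ^ 2 := by
          rw [div_pow, w2]
          nlinarith
        exact le_of_sq_le_sq this (by positivity)
      have P1 := A1u_half hs s1h
      have f1 : 1 / 4 ≤ √3 / 3 * (c1 * s1) := by
        have := mul_le_mul_of_nonneg_left hps (by positivity : 0 ≤ √3 / 3)
        have e : √3 / 3 * (√3 / 4) = 1 / 4 := by linear_combination (1 / 12 : ℝ) * w2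
        linarith
      have f2 : √3 / 2 * (1 / 2 - 1548 / 10000) - s2 / 2 ≤
          c2 * (1 / 2 - 1548 / 10000 - √3 / 3 * s2) := by
        have b2 : 0 ≤ 1 / 2 - 1548 / 10000 - √3 / 3 * s2 := by linarith
        have d2 := mul_le_mul_of_nonneg_right c2h b2
        have e2 : √3 / 2 * (1 / 2 - 1548 / 10000 - √3 / 3 * s2) =
            √3 / 2 * (1 / 2 - 1548 / 10000) - s2 / 2 := by
          linear_combination (-s2 / 6) * w2
        rwa [e2] at d2
      rcases le_total 0 (1 / 2 - 1548 / 10000 - 2 * (√3 / 3 * s2)) with hneg | hneg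
      · have f3 : 0 ≤ c1 * (1 / 2 - 1548 / 10000 - 2 * (√3 / 3 * s2)) := mul_nonneg hc1' hneg
        have s2b : s2 ≤ 3 / 10 := by nlinarith
        nlinarith
      · have f3 : √3 * (1 / 2 - 1548 / 10000) / 2 - s2 ≤
            c1 * (1 / 2 - 1548 / 10000 - 2 * (√3 / 3 * s2)) := by
          have d := mul_le_mul_of_nonpos_right c1u hneg
          have e : √3 / 2 * (1 / 2 - 1548 / 10000 - 2 * (√3 / 3 * s2)) =
              √3 * (1 / 2 - 1548 / 10000) / 2 - s2 := by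
            linear_combination (-s2 / 3) * w2
          rwa [e] at d
        rcases le_total s2 (45 / 100) with hb | hb
        · nlinarith
        · have c1b : 82 / 100 ≤ c1 := by
            by_contra hc
            rw [not_le] at hc
            have g1 : 57 / 100 < s1 := by nlinarith
            have g2 : c2 ≤ 9 / 10 := by nlinarith
            nlinarith
          have hc : √(1 - s1 ^ 2) = c1 := by
            rw [show 1 - s1 ^ 2 = c1 ^ 2 by linarith]
            exact Real.sqrt_sq hc1'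
          have P1' := A1u_quarter hs s1h (by rw [hc]; exact c1b)
          nlinarith
  have e1 : (c1 * s2 + c2 * s1) / (2 * h0) = √3 / 3 * (c1 * s2 + c2 * s1) := by
    rw [div_eq_mul_one_div, hk]
    ring
  have e2 : (s1 - s2) / (2 * h0) = √3 / 3 * (s1 - s2) := by
    rw [div_eq_mul_one_div, hk]
    ring
  rw [e1, e2]
  have hsum : 0 ≤ c1 + c2 + |A1u s1| + |A1u s2| := by positivity
  have := mul_le_mul_of_nonneg_right hE hsum
  nlinarith

/-! ### The row -/

/-- The kernel is `e'/e` on the unit circle. -/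
def UnitK (R : ℝ → ℝ → ℝ) : Prop := ∀ X T, 0 < X → 0 ≤ T → X ^ 2 + T ^ 2 = 1 → R X T = A1u T

theorem Av_comm {U : ℝ → ℝ → ℝ → ℝ} (hU : ∀ X y z, U X z y = U X y z) (X y z : ℝ) :
    Av U X z y = Av U X y z := by
  unfold Av
  have e : rr X (y - z) = rr X (z - y) := by rw [show y - z = -(z - y) by ring, rr_neg']
  rw [e]
  set r := rr X (z - y)
  rw [show X / 2 - r * (y - z) = X / 2 + r * (z - y) by ring,
    show X / 2 + r * (y - z) = X / 2 - r * (z - y) by ring, show (z + y) / 2 = (y + z) / 2 by ring,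
    hU (X / 2 + r * (z - y)) ((y + z) / 2 + r * X) z,
    hU (X / 2 - r * (z - y)) y ((y + z) / 2 + r * X),
    hU (X / 2 - r * (z - y)) ((y + z) / 2 - r * X) z,
    hU (X / 2 + r * (z - y)) y ((y + z) / 2 - r * X)]
  ring

/-- The flux of a unit edge. -/
theorem unit_flux {θ s c t y z : ℝ} {R : ℝ → ℝ → ℝ} (hR : UnitK R) (hc : 0 < c) (ht : 0 ≤ t)
    (hu : c ^ 2 + t ^ 2 = 1) (hz : z = y + t) :
    QL θ R s c y z = A1u t * mn (D s (kap θ s)) y (y + tau t) := by
  unfold QL Qd tau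
  have e1 : |z - y| = t := by
    rw [hz, add_sub_cancel_left, abs_of_nonneg ht]
  rw [e1, hR c t hc ht hu, hz, min_eq_left (by linarith), max_eq_right (by linarith)]
  congr 2
  ring

theorem unit_flux_abs {θ s c t y z : ℝ} {R : ℝ → ℝ → ℝ} (hR : UnitK R) (hθ : 0 < θ) (hs0 : 0 ≤ s)
    (hs1 : s < h0) (hc : 0 < c) (ht : 0 ≤ t) (hu : c ^ 2 + t ^ 2 = 1) (hz : z = y + t) :
    QL θ R s c y z ≤ amp θ s * |A1u t| := by
  have hκ : 0 ≤ kap θ s := (div_pos hθ (L0_pos hs1)).le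
  rw [unit_flux hR hc ht hu hz]
  have h1 : |mn (D s (kap θ s)) y (y + tau t)| ≤ amp θ s :=
    mn_abs (fun z => D_abs hs0 hs1 hκ z) _ _
  refine (le_abs_self _).trans ?_
  rw [abs_mul, mul_comm]
  exact mul_le_mul_of_nonneg_right h1 (abs_nonneg _)

/-- **The row of a long edge.** -/
theorem long_row {θ s X T y : ℝ} {R : ℝ → ℝ → ℝ} (hR : UnitK R) (hθ0 : 0 < θ) (hθ : θ ≤ 1)
    (hs0 : 0 ≤ s) (hs1 : s < h0) (hy : 0 ≤ y) (hT : 0 ≤ T) (h3 : 3 < X ^ 2 + T ^ 2)
    (h4 : X ^ 2 + T ^ 2 ≤ 2 * X) :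
    1 / 2 ≤ X * (1 / 2 - amp θ s + (2 * y + T) / (2 * h0)) - Av (QL θ R s) X y (y + T) := by
  have hp := h0_pos
  have hhs := h0_sq
  have hX : 3 / 2 < X := by linarith
  have hX2 : X ≤ 2 := by nlinarith [sq_nonneg T]
  have hL4 : X ^ 2 + T ^ 2 ≤ 4 := by linarith
  have hr := rr_sq (by linarith : 0 < X ^ 2 + T ^ 2) hL4
  have hr0 := rr_nonneg X T
  have eT : y + T - y = T := by ring
  unfold Av
  rw [eT]
  set r := rr X T
  set L := X ^ 2 + T ^ 2 with hL
  -- `r T ≤ 1 - L / 4`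
  have hrT : r * T ≤ 1 - L / 4 := by
    have h : (r * T) ^ 2 ≤ (1 - L / 4) ^ 2 := by
      have h5 : T ^ 2 ≤ L * (1 - L / 4) := by nlinarith
      have h6 : (r * T) ^ 2 * L ≤ (1 - L / 4) ^ 2 * L := by
        have e : (r * T) ^ 2 * L = r ^ 2 * L * T ^ 2 := by ring
        rw [e, hr]
        have h7 : 0 ≤ 1 - L / 4 := by linarith
        nlinarith [mul_le_mul_of_nonneg_left h5 h7]
      exact le_of_mul_le_mul_right h6 (by linarith)
    exact le_of_sq_le_sq h (by linarith)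
  have hrX : T / 2 ≤ r * X := by
    have h : (T / 2) ^ 2 ≤ (r * X) ^ 2 := by
      have h6 : (T / 2) ^ 2 * L ≤ (r * X) ^ 2 * L := by
        have e : (r * X) ^ 2 * L = r ^ 2 * L * X ^ 2 := by ring
        rw [e, hr]
        nlinarith
      exact le_of_mul_le_mul_right h6 (by linarith)
    exact le_of_sq_le_sq h (mul_nonneg hr0 (by linarith))
  have hrT0 : 0 ≤ r * T := mul_nonneg hr0 hT
  set c1 := X / 2 - r * T with hc1
  set c2 := X / 2 + r * T with hc2
  set s1 := T / 2 + r * X with hs1d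
  set s2 := r * X - T / 2 with hs2d
  have c1h : 1 / 2 ≤ c1 := by linarith
  have c2p : 0 < c2 := by linarith
  have s2p : 0 ≤ s2 := by linarith
  have s12 : s2 ≤ s1 := by linarith
  have u1 : c1 ^ 2 + s1 ^ 2 = 1 := by
    have : c1 ^ 2 + s1 ^ 2 = L / 4 + r ^ 2 * L := by
      rw [hc1, hs1d, hL]
      ring
    rw [this, hr]
    ring
  have u2 : c2 ^ 2 + s2 ^ 2 = 1 := by
    have : c2 ^ 2 + s2 ^ 2 = L / 4 + r ^ 2 * L := by
      rw [hc2, hs2d, hL]
      ring
    rw [this, hr]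
    ring
  have hang : 1 / 2 ≤ c1 * c2 - s1 * s2 := by
    have : c1 * c2 - s1 * s2 = L / 4 - r ^ 2 * L := by
      rw [hc1, hc2, hs1d, hs2d, hL]
      ring
    rw [this, hr]
    linarith
  have area : c1 * s2 + c2 * s1 = r * L := by
    rw [hc1, hc2, hs1d, hs2d, hL]
    ring
  have areah : r * L ≤ h0 := by
    have h : (r * L) ^ 2 ≤ h0 ^ 2 := by
      have e : (r * L) ^ 2 = r ^ 2 * L * L := by ring
      rw [e, hr, hhs]
      nlinarith
    exact le_of_sq_le_sq h hp.le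
  have s1h : s1 ≤ h0 := by
    have : s1 ^ 2 ≤ h0 ^ 2 := by
      rw [hhs]
      nlinarith
    exact le_of_sq_le_sq this hp.le
  have f1 : √(1 - s1 ^ 2) = c1 := by
    rw [show 1 - s1 ^ 2 = c1 ^ 2 by linarith]
    exact Real.sqrt_sq (by linarith)
  have f2 : √(1 - s2 ^ 2) = c2 := by
    rw [show 1 - s2 ^ 2 = c2 ^ 2 by linarith]
    exact Real.sqrt_sq (by linarith)
  obtain ⟨hE0, _⟩ := amp_le hθ0.le hθ hs0 hs1
  have hE := amp_max' hθ0 hθ hs0 hs1
  have num := long_num c1h c2p.le s2p s12 u1 u2 hang hE0 hE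
  rw [area] at num
  -- the two unit rows of the upper path
  have r1 := SY_unit (θ := θ) (s := s) (T := s1) (y := y) hθ0 hθ hs0 hs1 (by linarith) s1h hy
  have r2 := SY_unit (θ := θ) (s := s) (T := s2) (y := y + T) hθ0 hθ hs0 hs1 s2p
    (by linarith) (by linarith)
  unfold SY at r1 r2
  rw [f1] at r1
  rw [f2] at r2
  have g1 : QL θ R s c1 y ((y + (y + T)) / 2 + r * X) =
      A1u s1 * mn (D s (kap θ s)) y (y + tau s1) :=
    unit_flux hR (by linarith) (by linarith) u1 (by rw [hs1d]; ring)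
  have g2 : QL θ R s c2 ((y + (y + T)) / 2 + r * X) (y + T) =
      A1u s2 * mn (D s (kap θ s)) (y + T) (y + T + tau s2) := by
    have : QL θ R s c2 ((y + (y + T)) / 2 + r * X) (y + T) =
        QL θ R s c2 (y + T) ((y + (y + T)) / 2 + r * X) := Qd_comm _ _ _ _ _
    rw [this]
    exact unit_flux hR c2p s2p u2 (by rw [hs2d]; ring)
  have g3 : QL θ R s c2 y ((y + (y + T)) / 2 - r * X) ≤ amp θ s * |A1u s2| := by
    have : QL θ R s c2 y ((y + (y + T)) / 2 - r * X) =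
        QL θ R s c2 ((y + (y + T)) / 2 - r * X) y := Qd_comm _ _ _ _ _
    rw [this]
    exact unit_flux_abs hR hθ0 hs0 hs1 c2p s2p u2 (by rw [hs2d]; ring)
  have g4 : QL θ R s c1 ((y + (y + T)) / 2 - r * X) (y + T) ≤ amp θ s * |A1u s1| :=
    unit_flux_abs hR hθ0 hs0 hs1 (by linarith) (by linarith) u1 (by rw [hs1d]; ring)
  rw [g1, g2]
  -- the areas
  have a1 : c1 * ((2 * y + s1) / (2 * h0)) + c2 * ((2 * (y + T) + s2) / (2 * h0)) =
      X * ((2 * y + T) / (2 * h0)) + r * L / (2 * h0) := by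
    rw [hc1, hc2, hs1d, hs2d, hL]
    field_simp
    ring
  have a2 : r * L / (2 * h0) ≤ 1 / 2 := by
    rw [div_le_iff₀ (by linarith)]
    linarith
  have a3 : c1 + c2 = X := by rw [hc1, hc2]; ring
  have a4 : s1 - s2 = T := by rw [hs1d, hs2d]; ring
  rw [a3, a4] at num
  have a5 : X * ((2 * y + T) / (2 * h0)) = X * (T / (2 * h0)) + X * y / h0 := by
    field_simp
    ring
  have a6 : 0 ≤ X * y / h0 := by positivity
  nlinarith

/-- **The floor for the averages**: the rows up to `√3` give all rows. -/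
theorem wallAv_of {θ s : ℝ} {R : ℝ → ℝ → ℝ} (hR : UnitK R) (hθ0 : 0 < θ) (hθ : θ ≤ 1)
    (hs0 : 0 ≤ s) (hs1 : s < h0)
    (short : ∀ X T y, 0 ≤ T → 0 ≤ y → 1 ≤ X ^ 2 + T ^ 2 → X ^ 2 + T ^ 2 ≤ 3 →
      X ^ 2 + T ^ 2 ≤ 2 * X → 0 ≤ SY s (kap θ s) (1 / 2 - amp θ s) X T (R X T) y)
    {p q : Pt} {m : ℝ} (hx : p.1 ≤ q.1) (hp : 0 ≤ p.2) (hq : 0 ≤ q.2) (hd : 1 ≤ ds p q)
    (hc : (p.1 - m) ^ 2 + p.2 ^ 2 = (q.1 - m) ^ 2 + q.2 ^ 2)
    (hr : (p.1 - m) ^ 2 + p.2 ^ 2 ≤ 1) :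
    1 / 2 ≤ (q.1 - p.1) * (1 / 2 - amp θ s + (p.2 + q.2) / (2 * h0)) - ed (QA θ R s) p q := by
  obtain ⟨g1, g2, g3⟩ := floor_geo hx hp hq hd hc hr
  have hds : ds p q = (q.1 - p.1) ^ 2 + |q.2 - p.2| ^ 2 := by
    rw [sq_abs]
    unfold ds
    ring
  rcases le_or_gt (ds p q) 3 with h3 | h3
  · rw [QA_short h3, row_eq]
    have key := short (q.1 - p.1) |q.2 - p.2| (min p.2 q.2) (abs_nonneg _) (le_min hp hq) g2
      (by rw [← hds]; exact h3) g3
    linarith
  · have hX2 : q.1 - p.1 ≤ 2 := by nlinarith [sq_nonneg |q.2 - p.2|]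
    have h4 : ds p q ≤ 4 := by
      rw [hds]
      linarith
    rw [QA_long h3 h4]
    unfold ed
    rw [hds] at h3
    rcases le_total p.2 q.2 with h | h
    · rw [abs_of_nonneg (by linarith : 0 ≤ q.2 - p.2)] at h3 g3
      have key := long_row hR hθ0 hθ hs0 hs1 hp (by linarith : 0 ≤ q.2 - p.2) h3 g3
      rw [show p.2 + (q.2 - p.2) = q.2 by ring, show 2 * p.2 + (q.2 - p.2) = p.2 + q.2 by ring]
        at key
      exact key
    · rw [abs_of_nonpos (by linarith : q.2 - p.2 ≤ 0), neg_sub] at h3 g3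
      have key := long_row hR hθ0 hθ hs0 hs1 hq (by linarith : 0 ≤ p.2 - q.2) h3 g3
      rw [show q.2 + (p.2 - q.2) = p.2 by ring, show 2 * q.2 + (p.2 - q.2) = p.2 + q.2 by ring]
        at key
      have hcm := Av_comm (U := QL θ R s) (fun X y z => Qd_comm _ _ _ _ _) (q.1 - p.1) p.2 q.2
      rw [← hcm]
      exact key

/-- The version for the three circles. -/
theorem Nodes.wallAv {θ : ℝ} {A2 A3 : ℝ → ℝ} (h : Nodes θ A2 A3) (hθ0 : 0 < θ) (hθ : θ ≤ 1)
    {s : ℝ} (hs0 : 0 ≤ s) (hs1 : s < h0)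
    {p q : Pt} {m : ℝ} (hx : p.1 ≤ q.1) (hp : 0 ≤ p.2) (hq : 0 ≤ q.2) (hd : 1 ≤ ds p q)
    (hc : (p.1 - m) ^ 2 + p.2 ^ 2 = (q.1 - m) ^ 2 + q.2 ^ 2)
    (hr : (p.1 - m) ^ 2 + p.2 ^ 2 ≤ 1) :
    1 / 2 ≤ (q.1 - p.1) * (1 / 2 - amp θ s + (p.2 + q.2) / (2 * h0)) -
      ed (QA θ (R3 A1u A2 A3 fun _ _ => 0) s) p q :=
  wallAv_of (fun _ _ hX _ hu => R3_one hX hu) hθ0 hθ hs0 hs1
    (fun _ _ _ hT hy h1 h3 h4 => h.row hθ0 hθ hs0 hs1 hy hT h1 h3 h4) hx hp hq hd hc hr

end Pool.Agent.Strip051.LC.Line
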