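import Pool.Agent.Strip051.LC.Line.RowB
import Pool.Agent.Strip051.LC.Line.TableG

/-! # The floor rows of the exact table -/

namespace Pool.Agent.Strip051.LC.Line

open Pool.Agent.StripNear Pool.Agent.StripSquare Pool.Agent.Strip051.Sweep
  Pool.Agent.Strip051.LC

/-- The parameter of a linear function. -/
theorem linT_mix {p a q b T : ℝ} (hpq : p < q) (h1 : p ≤ T) (h2 : T ≤ q) :
    ∃ t, 0 ≤ t ∧ t ≤ 1 ∧ T = p + t * (q - p) ∧ linT p a q b T = a + (b - a) * t := by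
  have hd : 0 < q - p := by linarith
  refine ⟨(T - p) / (q - p), div_nonneg (by linarith) hd.le, ?_, ?_, rfl⟩
  · rw [div_le_one hd]
    linarith
  · field_simp
    ring

/-- The position of the flat diagonal. -/
theorem dA_num : 4226 / 10000 * h0 < dA ∧ dA < 4227 / 10000 * h0 ∧ h0 / 4 < dA ∧ dA < h0 / 2 := by
  have hp := h0_pos
  have hq := h0_sq
  have h1 : 86602 / 100000 < h0 := by nlinarith
  have h2 : h0 < 86603 / 100000 := by nlinarith
  unfold dA
  refine ⟨by linarith, by linarith, by linarith, by linarith⟩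

/-- The ratio of the coefficients at the flat diagonal. -/
theorem gA_num : 55 / 100 ≤ gA ∧ gA ≤ 57 / 100 := by
  have hp := h0_pos
  have hq := h0_sq
  have h1 : 86602 / 100000 < h0 := by nlinarith
  have h2 : h0 < 86603 / 100000 := by nlinarith
  have e1 : c1 dA = √h0 := by
    unfold c1 dA
    congr 1
    linarith [(by ring : (h0 - 1 / 2) ^ 2 = h0 ^ 2 - h0 + 1 / 4)]
  have e3 : c3 dA = √(2 + h0) := by
    unfold c3 dA
    congr 1
    linarith [(by ring : (h0 - 1 / 2) ^ 2 = h0 ^ 2 - h0 + 1 / 4)]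
  have eW : Wc dA = h0 + 1 / 2 := by
    unfold Wc dA
    rw [if_pos (by linarith), show 1 - (h0 - 1 / 2 - h0) ^ 2 = h0 ^ 2 by rw [hq]; ring,
      Real.sqrt_sq hp.le]
  have s1 : √h0 ^ 2 = h0 := Real.sq_sqrt hp.le
  have s3 : √(2 + h0) ^ 2 = 2 + h0 := Real.sq_sqrt (by linarith)
  have n1 := Real.sqrt_nonneg h0
  have n3 := Real.sqrt_nonneg (2 + h0)
  unfold gA f1 f2
  rw [e1, e3, eW]
  set x := √h0
  set z := √(2 + h0)
  have x1 : 930 / 1000 < x := by nlinarith
  have x2 : x < 931 / 1000 := by nlinarith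
  have z1 : 1692 / 1000 < z := by nlinarith
  have z2 : z < 1694 / 1000 := by nlinarith
  have hd : 0 < (h0 + 1 / 2 + z) / 2 * (h0 + 1 / 2 - (x + (h0 + 1 / 2)) / 2) := by
    apply mul_pos <;> linarith
  constructor
  · rw [le_div_iff₀ hd]
    nlinarith
  · rw [div_le_iff₀ hd]
    nlinarith

theorem coefBd_G : CoefBd tG1 tG2 := by
  have hp := h0_pos
  have hq := h0_sq
  obtain ⟨d1, d2, d3, d4⟩ := dA_num
  obtain ⟨g1, g2⟩ := gA_num
  have hl : ∀ Y, Y < 1 / 4 → h0 * Y < h0 / 4 := fun Y h => by nlinarith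
  have hlow : ∀ Y, 0 ≤ Y → Y < 1 / 4 → tG1 (h0 * Y) = 1 - 1192 / 1000 * Y ∧
      tG2 (h0 * Y) = 510 / 1000 - 1152 / 1000 * Y := by
    intro Y h0Y h
    have k : h0 * Y < h0 / 4 := by nlinarith
    unfold tG1 tG2
    rw [if_pos k, if_pos k, lin_Y, lin_Y]
    constructor <;> ring
  have hhigh : ∀ Y, 1 / 2 ≤ Y → h0 * Y ≤ 1 → tG1 (h0 * Y) = tB1 (h0 * Y) ∧
      tG2 (h0 * Y) = tB2 (h0 * Y) := by
    intro Y h1 h2
    have a1 : ¬ h0 * Y < h0 / 4 := by rw [not_lt]; nlinarith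
    have a2 : ¬ h0 * Y < dA := by rw [not_lt]; nlinarith
    have a3 : ¬ h0 * Y < h0 / 2 := by rw [not_lt]; nlinarith
    have a4 : h0 * Y < 3 / 2 * h0 := by nlinarith
    unfold tG1 tG2 tB1 tB2
    rw [if_neg a1, if_neg a2, if_neg a3, if_pos a4, if_neg a1, if_neg a3, if_pos a4, if_neg a1,
      if_neg a2, if_neg a3, if_pos a4, if_neg a1, if_neg a3, if_pos a4]
    exact ⟨rfl, rfl⟩
  have hmid : ∀ Y, 1 / 4 ≤ Y → Y < 1 / 2 →
      (702 / 1000 - 332 / 1000 * (Y - 1 / 4) ≤ tG1 (h0 * Y) ∧ tG1 (h0 * Y) ≤ 1) ∧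
      |tG2 (h0 * Y)| ≤ 222 / 1000 + 1684 / 1000 * (Y - 1 / 4) := by
    intro Y h1 h2
    have k1 : ¬ h0 * Y < h0 / 4 := by rw [not_lt]; nlinarith
    have k2 : h0 * Y < h0 / 2 := by nlinarith
    unfold tG1 tG2
    rw [if_neg k1, if_neg k1]
    have eT : Y = h0 * Y / h0 := by field_simp
    rcases lt_or_ge (h0 * Y) dA with h | h
    · rw [if_pos h, if_pos h]
      obtain ⟨t, t0, t1, e1, e2⟩ := linT_mix (a := 702 / 1000) (b := 645 / 1000) d3
        (not_lt.1 k1) h.le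
      obtain ⟨u, u0, u1, e3, e4⟩ := linT_mix (a := 222 / 1000) (b := -(645 / 1000) * gA) d3
        (not_lt.1 k1) h.le
      have hut : u = t := by
        have hd : 0 < dA - h0 / 4 := by linarith
        have : u * (dA - h0 / 4) = t * (dA - h0 / 4) := by linarith
        exact mul_right_cancel₀ hd.ne' this
      subst hut
      rw [e2, e4]
      have hY1 : h0 * (Y - 1 / 4) ≤ u * (1727 / 10000 * h0) := by nlinarith
      have hY2 : u * (1726 / 10000 * h0) ≤ h0 * (Y - 1 / 4) := by nlinarith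
      have y1 : Y - 1 / 4 ≤ u * (1727 / 10000) := by
        by_contra hcon
        rw [not_le] at hcon
        nlinarith
      have y2 : u * (1726 / 10000) ≤ Y - 1 / 4 := by
        by_contra hcon
        rw [not_le] at hcon
        nlinarith
      refine ⟨⟨by linarith, by linarith⟩, ?_⟩
      rw [abs_le]
      constructor <;> nlinarith
    · rw [if_neg h.not_gt, if_pos k2, if_neg h.not_gt, if_pos k2]
      obtain ⟨t, t0, t1, e1, e2⟩ := linT_mix (a := 645 / 1000) (b := 619 / 1000) d4 h k2.le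
      obtain ⟨u, u0, u1, e3, e4⟩ := linT_mix (a := -(645 / 1000) * gA) (b := -643 / 1000) d4
        h k2.le
      have hut : u = t := by
        have hd : 0 < h0 / 2 - dA := by linarith
        have : u * (h0 / 2 - dA) = t * (h0 / 2 - dA) := by linarith
        exact mul_right_cancel₀ hd.ne' this
      subst hut
      rw [e2, e4]
      have y2 : 1 / 4 - (1 - u) * (774 / 10000) ≤ Y - 1 / 4 := by
        by_contra hcon
        rw [not_le] at hcon
        have : h0 * (Y - 1 / 4) < h0 * (1 / 4 - (1 - u) * (774 / 10000)) :=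
          mul_lt_mul_of_pos_left hcon hp
        have k3 : (1 - u) * (h0 / 2 - dA) ≤ (1 - u) * (774 / 10000 * h0) :=
          mul_le_mul_of_nonneg_left (by linarith) (by linarith)
        nlinarith
      refine ⟨⟨by linarith, by linarith⟩, ?_⟩
      rw [abs_le]
      constructor
      · nlinarith
      · nlinarith
  refine ⟨?_, fun Y h1 h2 => (hmid Y h1 h2).1, ?_, ?_, fun Y h1 h2 => (hmid Y h1 h2).2, ?_, ?_⟩
  · intro Y h0Y h
    rw [(hlow Y h0Y h).1]
    constructor <;> linarith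
  · intro Y h1 h2
    rw [(hhigh Y h1 (by nlinarith)).1]
    have k : ¬ h0 * Y < h0 / 4 := by rw [not_lt]; nlinarith
    have k1 : ¬ h0 * Y < h0 / 2 := by rw [not_lt]; nlinarith
    have k2 : h0 * Y < h0 := by nlinarith
    have e : tB1 (h0 * Y) = -555 / 1000 + 284 / 100 * (Y - 1 / 2) := by
      unfold tB1
      rw [if_neg k, if_neg k1, if_pos k2, lin_Y]
      ring
    rw [e]
    constructor <;> linarith
  · intro Y h0Y h
    rw [(hlow Y h0Y h).2]
    constructor <;> linarith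
  · intro Y h1 h2
    rw [(hhigh Y h1 (by nlinarith)).2]
    have k : ¬ h0 * Y < h0 / 4 := by rw [not_lt]; nlinarith
    have k1 : ¬ h0 * Y < h0 / 2 := by rw [not_lt]; nlinarith
    have k2 : h0 * Y < h0 := by nlinarith
    have e : tB2 (h0 * Y) = 666 / 1000 + 668 / 1000 * (Y - 1 / 2) := by
      unfold tB2
      rw [if_neg k, if_neg k1, if_pos k2, lin_Y]
      ring
    rw [e]
    constructor <;> linarith
  · intro Y h1 h2
    obtain ⟨e1, e2⟩ := hhigh Y (by linarith) h2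
    rw [e1, e2]
    obtain ⟨b1, b2, b3, b4, b5⟩ := tB_high h1 h2
    exact ⟨b1, b2, b3, b4, by linarith⟩

/-- **The floor rows of the exact table.** -/
theorem rowTab_vG : RowTab vG :=
  coefBd_G.rowTab (fun _ => vG_0) (fun _ => vG_1) (fun _ => vG_3) (fun _ => vG_4)

/-- **The floor of the exact table.** -/
theorem wall_vG {θ : ℝ} (hθ0 : 0 < θ) (hθ : θ ≤ 1) :
    ∀ s, 0 ≤ s → s < h0 → ∀ (p q : Pt) (m : ℝ), p.1 ≤ q.1 → 0 ≤ p.2 → 0 ≤ q.2 →
    1 ≤ ds p q → (p.1 - m) ^ 2 + p.2 ^ 2 = (q.1 - m) ^ 2 + q.2 ^ 2 →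
    (p.1 - m) ^ 2 + p.2 ^ 2 ≤ 1 →
    1 / 2 ≤ (q.1 - p.1) * (1 / 2 - amp θ s + (p.2 + q.2) / (2 * h0)) -
      ed (QA θ (RW vG) s) p q := rowTab_vG.wall hθ0 hθ

end Pool.Agent.Strip051.LC.Line
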