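import Pool.Agent.Strip051.LC.Line.WallNodes

/-! # Floor rows of longer edges: general criteria -/

namespace Pool.Agent.Strip051.LC.Line

open Pool.Agent.StripNear Pool.Agent.StripSquare Pool.Agent.Strip051.Sweep
  Pool.Agent.Strip051.LC MeasureTheory intervalIntegral

/-- The excess of the mean density over `-E` above a period point. -/
theorem mean_pos {θ s τ : ℝ} (hθ0 : 0 < θ) (hθ : θ ≤ 1) (hs0 : 0 ≤ s) (hs1 : s < h0)
    (hc : s < τ) (hτh : τ ≤ h0) :
    0 ≤ mn (D s (kap θ s)) 0 τ ∧ amp θ s + mn (D s (kap θ s)) 0 τ ≤ τ / (2 * h0) := by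
  have hp := h0_pos
  have hκ : 0 ≤ kap θ s := (div_pos hθ0 (L0_pos hs1)).le
  obtain ⟨k1, k2⟩ := kap_bd hθ0 hθ hs0 hs1
  have hτp : 0 < τ := lt_of_le_of_lt hs0 hc
  rw [mn_high hs0 hs1 hc.le hτh hτp]
  set M := kap θ s * (s / (2 * h0) * ((τ - s) * (h0 - τ) / τ)) with hM
  refine ⟨?_, ?_⟩
  · have h1 : 0 ≤ τ - s := by linarith
    have h2 : 0 ≤ h0 - τ := by linarith
    rw [hM]
    positivity
  · have e : amp θ s + M = (s * (kap θ s * ((h0 - s) * τ + (τ - s) * (h0 - τ)))) / τ /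
        (2 * h0) := by
      rw [hM]
      unfold amp
      field_simp
    rw [e, div_le_div_iff_of_pos_right (by linarith), div_le_iff₀ hτp]
    have h1 : (h0 - s) * τ + (τ - s) * (h0 - τ) ≤ (h0 - s) * (2 * τ - s) := by
      nlinarith [mul_nonneg (sub_nonneg.2 hc.le) (sub_nonneg.2 hc.le)]
    have h2 : kap θ s * ((h0 - s) * τ + (τ - s) * (h0 - τ)) ≤ 2 * τ - s := by
      refine (mul_le_mul_of_nonneg_left h1 hκ).trans ?_
      rw [← mul_assoc]
      have := mul_le_mul_of_nonneg_right k1 (by linarith : 0 ≤ 2 * τ - s)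
      linarith
    have h3 := mul_le_mul_of_nonneg_left h2 hs0
    nlinarith [sq_nonneg (τ - s)]

/-- **Rows just above a period point**: `T = j h0 + τ`, `τ ≥ 0`, `b = j / 2`. -/
theorem S0_pos {θ s X T A b : ℝ} (hθ0 : 0 < θ) (hθ : θ ≤ 1) (hs0 : 0 ≤ s) (hs1 : s < h0)
    (hτ0 : 0 ≤ tau T) (hτh : tau T ≤ h0) (hb : T / (2 * h0) = b + tau T / (2 * h0))
    (hX : 0 ≤ X) (hXA : A ≤ X) (hd : 1548 / 10000 * (X - A) ≤ X * (1 / 2 + b) - 1 / 2) :
    0 ≤ S0 s (kap θ s) (1 / 2 - amp θ s) X T A 0 := by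
  have hp := h0_pos
  have hκ : 0 ≤ kap θ s := (div_pos hθ0 (L0_pos hs1)).le
  obtain ⟨k1, k2⟩ := kap_bd hθ0 hθ hs0 hs1
  have hE := amp_max' hθ0 hθ hs0 hs1
  unfold S0
  rw [hb]
  set τ := tau T with hτ
  rcases le_or_gt τ s with hc | hc
  · rw [mn_low hs1 hτ0 hc]
    set P := kap θ s * ((h0 - s) / (2 * h0)) with hP
    have hP0 : 0 ≤ P := mul_nonneg hκ (div_nonneg (by linarith) (by linarith))
    have hP1 : P ≤ 1 / (2 * h0) := by
      rw [hP, mul_div_assoc', div_le_div_iff_of_pos_right (by linarith)]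
      exact k1
    have hEP : amp θ s = P * s := by
      rw [hP]
      unfold amp
      ring
    have e1 : kap θ s * ((h0 - s) / (2 * h0) * (τ - s)) = P * (τ - s) := by
      rw [hP]
      ring
    rw [e1]
    have e : X * (1 / 2 - amp θ s + (b + τ / (2 * h0))) - A * (P * (τ - s)) - 0 - 1 / 2 =
        (X * (1 / 2 + b) - 1 / 2 - amp θ s * (X - A)) + τ * (X * (1 / (2 * h0)) - A * P) := by
      rw [hEP]
      ring
    rw [e]
    have a1 : 0 ≤ τ * (X * (1 / (2 * h0)) - A * P) := by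
      apply mul_nonneg hτ0
      rcases le_total 0 A with h | h
      · have := mul_le_mul hXA hP1 hP0 hX
        linarith
      · have := mul_nonpos_of_nonpos_of_nonneg h hP0
        have : 0 ≤ X * (1 / (2 * h0)) := by positivity
        linarith
    have a4 := mul_le_mul_of_nonneg_right hE (sub_nonneg.2 hXA)
    linarith
  · obtain ⟨hM0, hEM⟩ := mean_pos hθ0 hθ hs0 hs1 hc hτh
    set M := mn (D s (kap θ s)) 0 τ
    have a1 : A * M ≤ X * M := mul_le_mul_of_nonneg_right hXA hM0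
    have a2 : 0 ≤ X * (τ / (2 * h0) - amp θ s - M) := mul_nonneg hX (by linarith)
    have a3 : 0 ≤ 1548 / 10000 * (X - A) := mul_nonneg (by norm_num) (sub_nonneg.2 hXA)
    nlinarith

/-- **Rows in the upper half of the first period.** -/
theorem S0_neg {θ s X T A : ℝ} (hθ0 : 0 < θ) (hθ : θ ≤ 1) (hs0 : 0 ≤ s) (hs1 : s < h0)
    (hT0 : h0 / 2 ≤ T) (hT : T ≤ h0) (hX : 1 ≤ X) (hA0 : 0 ≤ A) (hXA : A ≤ X) :
    0 ≤ S0 s (kap θ s) (1 / 2 - amp θ s) X T A 0 := by
  have hp := h0_pos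
  have w2 : √3 ^ 2 = 3 := Real.sq_sqrt (by norm_num)
  have w0 : 0 < √3 := Real.sqrt_pos.2 (by norm_num)
  have wu : √3 < 17321 / 10000 := by
    rw [Real.sqrt_lt' (by norm_num)]
    norm_num
  have hh : h0 = √3 / 2 := rfl
  have hκ : 0 ≤ kap θ s := (div_pos hθ0 (L0_pos hs1)).le
  obtain ⟨k1, k2⟩ := kap_bd hθ0 hθ hs0 hs1
  have hE := amp_max' hθ0 hθ hs0 hs1
  obtain ⟨hE0, _⟩ := amp_le hθ0.le hθ hs0 hs1
  have htau : tau T = T - h0 := by
    unfold tau jn
    rw [if_neg (by linarith), if_pos (by linarith)]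
    push_cast
    ring
  have hq : 1 / 4 ≤ T / (2 * h0) := by
    rw [le_div_iff₀ (by linarith)]
    linarith
  have hq1 : T / (2 * h0) ≤ 1 / 2 := by
    rw [div_le_iff₀ (by linarith)]
    linarith
  unfold S0
  rw [htau]
  have hM : mn (D s (kap θ s)) 0 (T - h0) ≤ amp θ s * (T / h0) := by
    rcases le_total s T with hc | hc
    · rw [mn_neg hs0 (by linarith) (by linarith)]
      have h1 : kap θ s * (s / (2 * h0) * (s - h0 - (T - h0))) ≤ 0 := by
        have : 0 ≤ kap θ s * (s / (2 * h0)) := by positivity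
        nlinarith
      have h2 : 0 ≤ amp θ s * (T / h0) := mul_nonneg hE0 (div_nonneg (by linarith) hp.le)
      linarith
    · have hlt : T < h0 := lt_of_le_of_lt hc hs1
      rw [mn_neg2 hs0 hs1 (by linarith) (by linarith)]
      have e : amp θ s * (T / h0) - kap θ s * ((h0 - s) / (2 * h0) *
          ((T - h0 + h0) * (s - h0 - (T - h0)) / (-(T - h0)))) =
          kap θ s * ((h0 - s) / (2 * h0)) * T * (T * (h0 - s)) / (h0 * (h0 - T)) := by
        unfold amp
        have : h0 - T ≠ 0 := by linarith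
        have h' : -(T - h0) = h0 - T := by ring
        rw [h']
        field_simp
        ring
      have h3 : 0 ≤ kap θ s * ((h0 - s) / (2 * h0)) * T * (T * (h0 - s)) / (h0 * (h0 - T)) := by
        have h4 : 0 ≤ h0 - s := by linarith
        have h5 : 0 ≤ h0 - T := by linarith
        have h6 : 0 ≤ T := by linarith
        positivity
      linarith
  set M := mn (D s (kap θ s)) 0 (T - h0)
  have e2 : T / h0 = 2 * (T / (2 * h0)) := by
    field_simp
  rw [e2] at hM
  set u := T / (2 * h0)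
  have h1 : A * M ≤ X * (amp θ s * (2 * u)) := by
    rcases le_total 0 M with h | h
    · exact mul_le_mul hXA hM h (by linarith)
    · have h2 : A * M ≤ 0 := mul_nonpos_of_nonneg_of_nonpos hA0 h
      have h3 : 0 ≤ X * (amp θ s * (2 * u)) := by positivity
      linarith
  have h2 : 1 / 2 ≤ 1 / 2 - amp θ s + u - amp θ s * (2 * u) := by nlinarith
  have h3 : 0 ≤ (X - 1) * (1 / 2 - amp θ s + u - amp θ s * (2 * u)) :=
    mul_nonneg (by linarith) (by linarith)
  nlinarith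

/-- The row from the crude bound, with the largest amplitude. -/
theorem SY_crude' {θ s X T A y : ℝ} (hθ0 : 0 < θ) (hθ : θ ≤ 1) (hs0 : 0 ≤ s) (hs1 : s < h0)
    (hX : 0 ≤ X) (hy : 0 ≤ y)
    (h : 1 / 2 + 1548 / 10000 * (X + |A|) ≤ X * (1 / 2 + T / (2 * h0))) :
    0 ≤ SY s (kap θ s) (1 / 2 - amp θ s) X T A y := by
  apply SY_crude hθ0 hs0 hs1 hX hy
  have hE := amp_max' hθ0 hθ hs0 hs1
  have h1 : 0 ≤ X + |A| := add_nonneg hX (abs_nonneg A)
  have := mul_le_mul_of_nonneg_right hE h1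
  linarith

end Pool.Agent.Strip051.LC.Line
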