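import Pool.Agent.Strip051.LC.Three
import Pool.Agent.Strip051.LC.Line.Modulus

/-! # From families of triangles to shape inequalities

The flux is a kernel `K X Y` times the increment of the primitive of a two-slope density `D`.  At
height differences which are multiples of `h0` the value of `K` is the residue and the flux is the
residue times `D`.  The inequality for all heights and all densities follows from one inequality
for the shape of the triangle. -/

namespace Pool.Agent.Strip051.LC.Line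

open Pool.Agent.StripNear Pool.Agent.Strip051.Sweep Pool.Agent.Strip051.LC
open MeasureTheory intervalIntegral

/-- `D` is a two-slope density of period `h0`, `κ` is the difference of the slopes, `s` the length
of the intervals with the large slope. -/
structure Saw (D : ℝ → ℝ) (κ s : ℝ) : Prop where
  κ0 : 0 ≤ κ
  ex : ∃ (P : ℝ → ℝ) (d : ℝ), Monotone P ∧ (∀ x y, x ≤ y → P y - P x ≤ y - x) ∧
    (∀ x, P (x + h0) = P x + s) ∧ ∀ x, D x = κ * (P x - s / h0 * x - d)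
  zero : ∀ a, ∫ x in a..(a + h0), D x = 0

variable {D : ℝ → ℝ} {κ s : ℝ}

theorem Saw.per (hS : Saw D κ s) (x : ℝ) : D (x + h0) = D x := by
  obtain ⟨P, d, -, -, h3, h4⟩ := hS.ex
  have hh := h0_pos
  rw [h4, h4, h3]
  field_simp
  ring

theorem Saw.periodic (hS : Saw D κ s) : Function.Periodic D h0 := hS.per

theorem Saw.per_int (hS : Saw D κ s) (n : ℤ) (x : ℝ) : D (x + n * h0) = D x :=
  hS.periodic.int_mul n x

theorem Saw.integrable (hS : Saw D κ s) (a b : ℝ) : IntervalIntegrable D volume a b := by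
  obtain ⟨P, d, h1, -, -, h4⟩ := hS.ex
  have hD : D = fun x => κ * (P x - s / h0 * x - d) := funext h4
  rw [hD]
  exact ((h1.intervalIntegrable.sub (Continuous.intervalIntegrable (by fun_prop) _ _)).sub
    (Continuous.intervalIntegrable (by fun_prop) _ _)).const_mul _

/-- the primitive -/
noncomputable def prim (D : ℝ → ℝ) (y : ℝ) : ℝ := ∫ x in (0 : ℝ)..y, D x

theorem Saw.prim_sub (hS : Saw D κ s) (a b : ℝ) : prim D b - prim D a = ∫ x in a..b, D x := by
  unfold prim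
  exact integral_interval_sub_left (hS.integrable _ _) (hS.integrable _ _)

theorem Saw.prim_periodic (hS : Saw D κ s) : Function.Periodic (prim D) h0 := by
  intro y
  have h1 := hS.prim_sub y (y + h0)
  rw [hS.zero] at h1
  linarith

theorem Saw.prim_int (hS : Saw D κ s) (n : ℤ) (x : ℝ) : prim D (x + n * h0) = prim D x :=
  hS.prim_periodic.int_mul n x

/-- the increment of the primitive from the lower to the upper height, and `D` at the poles -/
noncomputable def inc (D : ℝ → ℝ) (y z : ℝ) : ℝ :=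
  open Classical in
  if ∃ n : ℤ, z - y = n * h0 then D y else prim D (max y z) - prim D (min y z)

theorem Saw.inc_symm (hS : Saw D κ s) (y z : ℝ) : inc D z y = inc D y z := by
  unfold inc
  by_cases h : ∃ n : ℤ, z - y = n * h0
  · have h' : ∃ n : ℤ, y - z = n * h0 := by
      obtain ⟨n, hn⟩ := h
      exact ⟨-n, by push_cast; linarith⟩
    rw [if_pos h, if_pos h']
    obtain ⟨n, hn⟩ := h
    rw [← hS.per_int n y]
    congr 1
    linarith
  · have h' : ¬∃ n : ℤ, y - z = n * h0 := by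
      rintro ⟨n, hn⟩
      exact h ⟨-n, by push_cast; linarith⟩
    rw [if_neg h, if_neg h', max_comm, min_comm]

/-- the flux with kernel `K` and density `D` -/
noncomputable def Qf (K : ℝ → ℝ → ℝ) (D : ℝ → ℝ) (X y z : ℝ) : ℝ := K X (z - y) * inc D y z

/-- The coefficient of an edge with displacement `X`, `Y` over the arc of length `l`, the arc is
passed upwards. -/
noncomputable def kk (K : ℝ → ℝ → ℝ) (X Y l : ℝ) : ℝ :=
  if l = 0 then K X Y else (if 0 ≤ Y then K X Y else -K X Y) * l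

theorem mn_self (f : ℝ → ℝ) (a : ℝ) : mn f a a = f a := by
  unfold mn
  simp

theorem Saw.mn_mul (hS : Saw D κ s) (a l : ℝ) : l * mn D a (a + l) = prim D (a + l) - prim D a := by
  have := mul_mn D a (a + l)
  rw [hS.prim_sub]
  rw [add_sub_cancel_left] at this
  exact this

/-- An edge as an arc. -/
theorem Saw.edge (hS : Saw D κ s) {K : ℝ → ℝ → ℝ} {X y z l a : ℝ} {n m : ℤ} (hl : 0 ≤ l)
    (hl' : l < h0) (hY : z - y = l + n * h0) (ha : a = y + m * h0) :
    Qf K D X y z = kk K X (z - y) l * mn D a (a + l) := by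
  have hh := h0_pos
  unfold Qf kk inc
  rcases hl.eq_or_lt with h | h
  · subst h
    rw [if_pos ⟨n, by linarith⟩, if_pos rfl, add_zero, mn_self, ha, hS.per_int]
  · have hn : ¬∃ n' : ℤ, z - y = n' * h0 := by
      rintro ⟨n', hn'⟩
      have h1 : l = ((n' - n : ℤ) : ℝ) * h0 := by push_cast; linarith
      have h2 : (0 : ℝ) < ((n' - n : ℤ) : ℝ) := by
        by_contra hcon
        push Not at hcon
        nlinarith
      have h3 : ((n' - n : ℤ) : ℝ) < 1 := by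
        by_contra hcon
        push Not at hcon
        nlinarith
      have h4 : (0 : ℤ) < n' - n := by exact_mod_cast h2
      have h5 : n' - n < 1 := by exact_mod_cast h3
      omega
    rw [if_neg hn, if_neg h.ne', mul_assoc, hS.mn_mul]
    have e1 : prim D (a + l) = prim D z := by
      rw [← hS.prim_int (n - m) (a + l)]
      congr 1
      rw [ha]
      push_cast
      linarith
    have e2 : prim D a = prim D y := by
      rw [ha, hS.prim_int]
    rw [e1, e2]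
    split_ifs with h0
    · rw [max_eq_right (by linarith), min_eq_left (by linarith)]
    · push Not at h0
      rw [max_eq_left (by linarith), min_eq_right (by linarith)]
      ring

/-- The inequality for the shape of the triangle: coefficients `A₁ A₂ A₃` and lengths `l₁ l₂ l₃` of
the arcs. -/
def LineIneq (θ L0 L1 A1 A2 A3 l1 l2 l3 exc : ℝ) : Prop :=
  θ * (l1 * phi (pot h0 A1 A2 A3 l1 l2 l3 + exc * L1 / θ)
          (pot h0 A2 A3 A1 l2 l3 l1 + exc * L1 / θ) +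
       l2 * phi (pot h0 A2 A3 A1 l2 l3 l1 + exc * L1 / θ)
          (pot h0 A3 A1 A2 l3 l1 l2 + exc * L1 / θ) +
       l3 * phi (pot h0 A3 A1 A2 l3 l1 l2 + exc * L1 / θ)
          (pot h0 A1 A2 A3 l1 l2 l3 + exc * L1 / θ)) ≤ exc * L0

/-- The flux of a density whose difference of slopes is `θ / (L0 - L1 s)`. -/
theorem Saw.flux (hS : Saw D κ s) {θ L0 L1 : ℝ} (hθ : 0 < θ) (hL : 0 < L0 - L1 * s)
    (hκ : κ = θ / (L0 - L1 * s)) {A1 A2 A3 l1 l2 l3 exc a : ℝ} (h1 : 0 ≤ l1) (h2 : 0 ≤ l2)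
    (h3 : 0 ≤ l3) (hs : l1 + l2 + l3 = h0) (H : LineIneq θ L0 L1 A1 A2 A3 l1 l2 l3 exc) :
    A1 * mn D a (a + l1) + A2 * mn D (a + l1) (a + l1 + l2) +
      A3 * mn D (a + l1 + l2) (a + l1 + l2 + l3) ≤ exc := by
  obtain ⟨P, d, k1, k2, k3, k4⟩ := hS.ex
  have e : a + l1 + l2 + l3 = a + h0 := by linarith
  have key := flux_le (a := a) (b := a + l1) (c := a + l1 + l2) h0_pos hS.κ0 k1 k2 k3 k4
    (by linarith) (by linarith) (by linarith) (hS.zero a) A1 A2 A3 (-(exc * L1 / θ))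
  rw [e]
  refine key.trans ?_
  rw [show a + l1 - a = l1 by ring, show a + l1 + l2 - (a + l1) = l2 by ring,
    show a + h0 - (a + l1 + l2) = l3 by linarith]
  simp only [sub_neg_eq_add]
  unfold LineIneq at H
  rw [hκ, div_mul_eq_mul_div, div_le_iff₀ hL]
  have e2 : θ * (-(exc * L1 / θ) * s) = -(exc * L1 * s) := by field_simp
  rw [mul_add, e2]
  linarith

/-- The shape inequality for the triangles with two sides of length `√j` and `√k`, the heights of
the three vertices are in this cyclic order modulo `h0`. -/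
def Shape (θ L0 L1 : ℝ) (K : ℝ → ℝ → ℝ) (j k : ℝ) : Prop :=
  ∀ (X1 Y1 X2 Y2 l1 l2 l3 : ℝ) (n1 n2 n3 : ℤ), X1 ^ 2 + Y1 ^ 2 = j → X2 ^ 2 + Y2 ^ 2 = k →
    0 ≤ X1 * Y2 - Y1 * X2 → 1 ≤ (X1 + X2) ^ 2 + (Y1 + Y2) ^ 2 →
    (X1 + X2) ^ 2 + (Y1 + Y2) ^ 2 ≤ 3 → 0 ≤ l1 → l1 < h0 → 0 ≤ l2 → l2 < h0 → 0 ≤ l3 → l3 < h0 →
    l1 + l2 + l3 = h0 → Y1 = l1 + n1 * h0 → Y2 = l2 + n2 * h0 → -(Y1 + Y2) = l3 + n3 * h0 →
    LineIneq θ L0 L1 (-kk K X1 Y1 l1) (-kk K X2 Y2 l2) (-kk K (-(X1 + X2)) (-(Y1 + Y2)) l3)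
      l1 l2 l3 ((X1 * Y2 - Y1 * X2) / (2 * h0) - 1 / 2)

/-- The triangles all height differences of which are multiples of `h0`. -/
def Triple (θ L0 L1 : ℝ) (K : ℝ → ℝ → ℝ) (j k : ℝ) : Prop :=
  ∀ (X1 X2 : ℝ) (n1 n2 : ℤ), X1 ^ 2 + (n1 * h0) ^ 2 = j → X2 ^ 2 + (n2 * h0) ^ 2 = k →
    0 ≤ X1 * (n2 * h0) - (n1 * h0) * X2 → 1 ≤ (X1 + X2) ^ 2 + (n1 * h0 + n2 * h0) ^ 2 →
    (X1 + X2) ^ 2 + (n1 * h0 + n2 * h0) ^ 2 ≤ 3 →
    LineIneq θ L0 L1 (-(K X1 (n1 * h0) + K X2 (n2 * h0) +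
      K (-(X1 + X2)) (-(n1 * h0 + n2 * h0)))) 0 0 0 0 h0
      ((X1 * (n2 * h0) - (n1 * h0) * X2) / (2 * h0) - 1 / 2)

theorem kk_neg {K : ℝ → ℝ → ℝ} (hodd : ∀ X Y, K (-X) Y = -K X Y) (X Y l : ℝ) :
    kk K (-X) Y l = -kk K X Y l := by
  unfold kk
  rw [hodd]
  split_ifs <;> ring

/-- reflection in a horizontal line -/
theorem Shape.swap {θ L0 L1 : ℝ} {K : ℝ → ℝ → ℝ} (hodd : ∀ X Y, K (-X) Y = -K X Y) {j k : ℝ}
    (h : Shape θ L0 L1 K j k) : Shape θ L0 L1 K k j := by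
  intro X1 Y1 X2 Y2 l1 l2 l3 n1 n2 n3 h1 h2 h3 h4 h5 h6 h7 h8 h9 h10 h11 h12 h13 h14 h15
  have := h (-X2) Y2 (-X1) Y1 l2 l1 l3 n2 n1 n3 (by rw [neg_sq]; exact h2)
    (by rw [neg_sq]; exact h1) (by linarith)
    (by linarith [(by ring : (-X2 + -X1) ^ 2 + (Y2 + Y1) ^ 2 = (X1 + X2) ^ 2 + (Y1 + Y2) ^ 2)])
    (by linarith [(by ring : (-X2 + -X1) ^ 2 + (Y2 + Y1) ^ 2 = (X1 + X2) ^ 2 + (Y1 + Y2) ^ 2)])
    h8 h9 h6 h7 h10 h11 (by linarith) h14 h13 (by linarith)
  rw [kk_neg hodd, kk_neg hodd, show -(-X2 + -X1) = -(-(X1 + X2)) by ring, kk_neg hodd,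
    show -(Y2 + Y1) = -(Y1 + Y2) by ring,
    show -X2 * Y1 - Y2 * -X1 = X1 * Y2 - Y1 * X2 by ring] at this
  set A1 := -kk K X1 Y1 l1
  set A2 := -kk K X2 Y2 l2
  set A3 := -kk K (-(X1 + X2)) (-(Y1 + Y2)) l3
  unfold LineIneq at this ⊢
  have e1 : pot h0 (-A2) (-A1) (-A3) l2 l1 l3 = pot h0 A3 A1 A2 l3 l1 l2 := by
    unfold pot; ring
  have e2 : pot h0 (-A1) (-A3) (-A2) l1 l3 l2 = pot h0 A2 A3 A1 l2 l3 l1 := by
    unfold pot; ring
  have e3 : pot h0 (-A3) (-A2) (-A1) l3 l2 l1 = pot h0 A1 A2 A3 l1 l2 l3 := by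
    unfold pot; ring
  rw [e1, e2, e3] at this
  set c := ((X1 * Y2 - Y1 * X2) / (2 * h0) - 1 / 2) * L1 / θ
  rw [phi_comm (pot h0 A3 A1 A2 l3 l1 l2 + c) (pot h0 A2 A3 A1 l2 l3 l1 + c),
    phi_comm (pot h0 A2 A3 A1 l2 l3 l1 + c) (pot h0 A1 A2 A3 l1 l2 l3 + c),
    phi_comm (pot h0 A1 A2 A3 l1 l2 l3 + c) (pot h0 A3 A1 A2 l3 l1 l2 + c)] at this
  linarith

/-- a triangle in positive order -/
theorem Saw.pos (hS : Saw D κ s) {θ L0 L1 : ℝ} (hθ : 0 < θ) (hL : 0 < L0 - L1 * s)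
    (hκ : κ = θ / (L0 - L1 * s)) {K : ℝ → ℝ → ℝ} {X1 Y1 X2 Y2 l1 l2 l3 exc y : ℝ} {n1 n2 n3 : ℤ}
    (h1 : 0 ≤ l1) (h1' : l1 < h0) (h2 : 0 ≤ l2) (h2' : l2 < h0) (h3 : 0 ≤ l3) (h3' : l3 < h0)
    (hs : l1 + l2 + l3 = h0) (hY1 : Y1 = l1 + n1 * h0) (hY2 : Y2 = l2 + n2 * h0)
    (hY3 : -(Y1 + Y2) = l3 + n3 * h0)
    (H : LineIneq θ L0 L1 (-kk K X1 Y1 l1) (-kk K X2 Y2 l2)
      (-kk K (-(X1 + X2)) (-(Y1 + Y2)) l3) l1 l2 l3 exc) :
    0 ≤ exc + (Qf K D X1 y (y + Y1) + Qf K D X2 (y + Y1) (y + Y1 + Y2) +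
      Qf K D (-(X1 + X2)) (y + Y1 + Y2) y) := by
  have key := hS.flux hθ hL hκ h1 h2 h3 hs H (a := y)
  have g1 := hS.edge (K := K) (X := X1) (y := y) (z := y + Y1) (a := y) (n := n1) (m := 0) h1 h1'
    (by linarith) (by push_cast; ring)
  have g2 := hS.edge (K := K) (X := X2) (y := y + Y1) (z := y + Y1 + Y2) (a := y + l1) (n := n2)
    (m := -n1) h2 h2' (by linarith) (by push_cast; linarith)
  have g3 := hS.edge (K := K) (X := -(X1 + X2)) (y := y + Y1 + Y2) (z := y) (a := y + l1 + l2)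
    (n := n3) (m := -n1 - n2) h3 h3' (by linarith) (by push_cast; linarith)
  rw [show y + Y1 - y = Y1 by ring] at g1
  rw [show y + Y1 + Y2 - (y + Y1) = Y2 by ring] at g2
  rw [show y - (y + Y1 + Y2) = -(Y1 + Y2) by ring] at g3
  rw [g1, g2, g3]
  linarith

/-- the representation of a height difference -/
theorem exists_rem (Y : ℝ) : ∃ (l : ℝ) (n : ℤ), 0 ≤ l ∧ l < h0 ∧ Y = l + n * h0 := by
  have hh := h0_pos
  refine ⟨Y - ⌊Y / h0⌋ * h0, ⌊Y / h0⌋, ?_, ?_, by ring⟩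
  · have := Int.floor_le (Y / h0)
    rw [le_div_iff₀ hh] at this
    linarith
  · have := Int.lt_floor_add_one (Y / h0)
    rw [div_lt_iff₀ hh] at this
    linarith

/-- **Families of triangles from shape inequalities.** -/
theorem Saw.fam (hS : Saw D κ s) {θ L0 L1 : ℝ} (hθ : 0 < θ) (hL : 0 < L0 - L1 * s)
    (hκ : κ = θ / (L0 - L1 * s)) {K : ℝ → ℝ → ℝ} (hodd : ∀ X Y, K (-X) Y = -K X Y)
    (heven : ∀ X Y, K X (-Y) = K X Y) {j k : ℝ} (h : Shape θ L0 L1 K j k)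
    (h' : Triple θ L0 L1 K j k) : Fam (Qf K D) j k := by
  have hh := h0_pos
  have qodd : ∀ X y z, Qf K D (-X) y z = -Qf K D X y z := by
    intro X y z
    unfold Qf
    rw [hodd]
    ring
  have qsymm : ∀ X y z, Qf K D X z y = Qf K D X y z := by
    intro X y z
    unfold Qf
    rw [hS.inc_symm, show y - z = -(z - y) by ring, heven]
  intro y X1 Y1 X2 Y2 e1 e2 hc h3 h3'
  obtain ⟨t2, m2, a1, a2, a3⟩ := exists_rem Y1
  obtain ⟨t3, m3, b1, b2, b3⟩ := exists_rem (Y1 + Y2)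
  rcases le_or_gt t2 t3 with hle | hlt
  · rcases b1.eq_or_lt with hz | hz
    · -- all heights coincide
      have t20 : t2 = 0 := by linarith
      subst t20
      rw [zero_add] at a3
      have b3' : Y1 + Y2 = m3 * h0 := by rw [b3, ← hz]; ring
      have c3 : Y2 = ((m3 - m2 : ℤ) : ℝ) * h0 := by push_cast; linarith
      have H := h' X1 X2 m2 (m3 - m2) (by rw [← a3]; exact e1) (by rw [← c3]; exact e2)
        (by rw [← a3, ← c3]; exact hc) (by rw [← a3, ← c3]; exact h3) (by rw [← a3, ← c3]; exact h3')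
      have key := hS.flux hθ hL hκ le_rfl le_rfl hh.le (by ring) H (a := y)
      rw [← a3, ← c3] at key
      simp only [add_zero, zero_mul, mn_self] at key
      have g1 : Qf K D X1 y (y + Y1) = K X1 Y1 * D y := by
        unfold Qf inc
        rw [if_pos ⟨m2, by linarith⟩, show y + Y1 - y = Y1 by ring]
      have g2 : Qf K D X2 (y + Y1) (y + Y1 + Y2) = K X2 Y2 * D y := by
        unfold Qf inc
        rw [if_pos ⟨m3 - m2, by rw [← c3]; ring⟩, show y + Y1 + Y2 - (y + Y1) = Y2 by ring, a3,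
          hS.per_int]
      have g3 : Qf K D (-(X1 + X2)) (y + Y1 + Y2) y = K (-(X1 + X2)) (-(Y1 + Y2)) * D y := by
        unfold Qf inc
        rw [if_pos ⟨-m3, by push_cast; linarith⟩, show y - (y + Y1 + Y2) = -(Y1 + Y2) by ring,
          show y + Y1 + Y2 = y + m3 * h0 by linarith, hS.per_int]
      rw [g1, g2, g3]
      linarith
    · have := hS.pos hθ hL hκ (K := K) (X1 := X1) (Y1 := Y1) (X2 := X2) (Y2 := Y2) (y := y)
        (l1 := t2) (l2 := t3 - t2) (l3 := h0 - t3) (n1 := m2) (n2 := m3 - m2) (n3 := -m3 - 1)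
        a1 a2 (by linarith) (by linarith) (by linarith) (by linarith) (by ring) a3
        (by push_cast; linarith) (by push_cast; linarith)
        (h X1 Y1 X2 Y2 t2 (t3 - t2) (h0 - t3) m2 (m3 - m2) (-m3 - 1) e1 e2 hc h3 h3' a1 a2
          (by linarith) (by linarith) (by linarith) (by linarith) (by ring) a3
          (by push_cast; linarith) (by push_cast; linarith))
      linarith
  · -- reflection
    have h2 := h.swap hodd X2 (-Y2) X1 (-Y1) (t2 - t3) (h0 - t2) t3 (m2 - m3) (-m2 - 1) m3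
      (by rw [neg_sq]; exact e2) (by rw [neg_sq]; exact e1) (by linarith)
      (by linarith [(by ring : (X2 + X1) ^ 2 + (-Y2 + -Y1) ^ 2 = (X1 + X2) ^ 2 + (Y1 + Y2) ^ 2)])
      (by linarith [(by ring : (X2 + X1) ^ 2 + (-Y2 + -Y1) ^ 2 = (X1 + X2) ^ 2 + (Y1 + Y2) ^ 2)])
      (by linarith) (by linarith) (by linarith) (by linarith) b1 b2 (by ring)
      (by push_cast; linarith) (by push_cast; linarith) (by linarith)
    have := hS.pos hθ hL hκ (K := K) (X1 := X2) (Y1 := -Y2) (X2 := X1) (Y2 := -Y1)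
      (y := y + Y1 + Y2)
      (l1 := t2 - t3) (l2 := h0 - t2) (l3 := t3) (n1 := m2 - m3) (n2 := -m2 - 1) (n3 := m3)
      (by linarith) (by linarith) (by linarith) (by linarith) b1 b2 (by ring)
      (by push_cast; linarith) (by push_cast; linarith) (by linarith) h2
    rw [show y + Y1 + Y2 + -Y2 = y + Y1 by ring, show y + Y1 + -Y1 = y by ring,
      qsymm X2 (y + Y1) (y + Y1 + Y2), qsymm X1 y (y + Y1), qsymm (-(X2 + X1)) (y + Y1 + Y2) y,
      show X2 + X1 = X1 + X2 by ring,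
      show X2 * -Y1 - -Y2 * X1 = X1 * Y2 - Y1 * X2 by ring] at this
    linarith

end Pool.Agent.Strip051.LC.Line
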