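import Pool.Agent.Strip051.LC.Line.Modulus

/-! # The two-slope density

`Pp h s` is the primitive of the indicator of the intervals `[k h, k h + s]`, `Dd h s κ` is the
two-slope density of amplitude `κ s (h - s) / (2 h)`: periodic with period `h`, mean zero, odd about
`s / 2`. -/

namespace Pool.Agent.Strip051.LC.Line

open MeasureTheory intervalIntegral

/-- Primitive of the indicator of the cells `[k h, k h + s]`. -/
noncomputable def Pp (h s z : ℝ) : ℝ := s * ⌊z / h⌋ + min (z - h * ⌊z / h⌋) s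

/-- The two-slope density. -/
noncomputable def Dd (h s κ z : ℝ) : ℝ := κ * (Pp h s z - s / h * z - s * (h - s) / (2 * h))

section

variable {h s κ : ℝ}

theorem floor_bounds (hh : 0 < h) (z : ℝ) : 0 ≤ z - h * ⌊z / h⌋ ∧ z - h * ⌊z / h⌋ < h := by
  have h1 := Int.floor_le (z / h)
  have h2 := Int.lt_floor_add_one (z / h)
  rw [le_div_iff₀ hh] at h1
  rw [div_lt_iff₀ hh] at h2
  constructor <;> nlinarith

theorem Pp_monotone (hh : 0 < h) (hs : 0 ≤ s) : Monotone (Pp h s) := by
  intro x y hxy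
  have hx := floor_bounds hh x
  have hy := floor_bounds hh y
  have hf : ⌊x / h⌋ ≤ ⌊y / h⌋ := Int.floor_mono (div_le_div_of_nonneg_right hxy hh.le)
  unfold Pp
  rcases hf.eq_or_lt with e | l
  · rw [e] at hx ⊢
    have : min (x - h * ⌊y / h⌋) s ≤ min (y - h * ⌊y / h⌋) s := min_le_min (by linarith) le_rfl
    linarith
  · have l' : (⌊x / h⌋ : ℝ) + 1 ≤ ⌊y / h⌋ := by exact_mod_cast l
    have h1 : min (x - h * ⌊x / h⌋) s ≤ s := min_le_right _ _
    have h2 : 0 ≤ min (y - h * ⌊y / h⌋) s := le_min hy.1 hs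
    nlinarith

theorem Pp_lip (hh : 0 < h) (hs : s ≤ h) (x y : ℝ) (hxy : x ≤ y) :
    Pp h s y - Pp h s x ≤ y - x := by
  have hx := floor_bounds hh x
  have hy := floor_bounds hh y
  have hf : ⌊x / h⌋ ≤ ⌊y / h⌋ := Int.floor_mono (div_le_div_of_nonneg_right hxy hh.le)
  unfold Pp
  rcases hf.eq_or_lt with e | l
  · rw [e] at hx ⊢
    have : min (y - h * ⌊y / h⌋) s ≤ min (x - h * ⌊y / h⌋) s + (y - x) := by
      rcases min_cases (x - h * ⌊y / h⌋) s with ⟨h1, _⟩ | ⟨h1, _⟩
      · rw [h1]; exact (min_le_left _ _).trans (by linarith)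
      · rw [h1]; exact (min_le_right _ _).trans (by linarith)
    linarith
  · have l' : (⌊x / h⌋ : ℝ) + 1 ≤ ⌊y / h⌋ := by exact_mod_cast l
    have h1 : min (y - h * ⌊y / h⌋) s ≤ y - h * ⌊y / h⌋ := min_le_left _ _
    have h2 : x - h * ⌊x / h⌋ - (h - s) ≤ min (x - h * ⌊x / h⌋) s := by
      apply le_min <;> linarith
    nlinarith [mul_nonneg (sub_nonneg.2 hs) (by linarith : (0 : ℝ) ≤ ⌊y / h⌋ - ⌊x / h⌋ - 1)]

theorem Pp_add (hh : 0 < h) (s z : ℝ) : Pp h s (z + h) = Pp h s z + s := by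
  unfold Pp
  have : (z + h) / h = z / h + 1 := by field_simp
  rw [this, Int.floor_add_one]
  push_cast
  ring_nf

theorem Pp_of_cell (hh : 0 < h) (k : ℤ) {z : ℝ} (h0 : h * k ≤ z) (h1 : z < h * k + h) :
    Pp h s z = s * k + min (z - h * k) s := by
  have : ⌊z / h⌋ = k := by
    rw [Int.floor_eq_iff, le_div_iff₀ hh, div_lt_iff₀ hh]
    constructor <;> linarith
  unfold Pp
  rw [this]

theorem Pp_mirror (hh : 0 < h) (hs : 0 ≤ s) (hs' : s < h) (z : ℝ) :
    Pp h s (s - z) = s - Pp h s z := by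
  obtain ⟨h1, h2⟩ := floor_bounds hh z
  rcases le_or_gt (z - h * ⌊z / h⌋) s with h3 | h3
  · rw [Pp_of_cell (s := s) hh (-⌊z / h⌋) (by push_cast; linarith) (by push_cast; linarith)]
    unfold Pp
    rw [min_eq_left h3, min_eq_left (by push_cast; linarith)]
    push_cast
    ring
  · rw [Pp_of_cell (s := s) hh (-⌊z / h⌋ - 1) (by push_cast; linarith) (by push_cast; linarith)]
    unfold Pp
    rw [min_eq_right h3.le, min_eq_right (by push_cast; linarith)]
    push_cast
    ring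

theorem Dd_periodic (hh : 0 < h) : Function.Periodic (Dd h s κ) h := by
  intro z
  unfold Dd
  rw [Pp_add hh]
  field_simp
  ring

theorem Dd_add_int (hh : 0 < h) (z : ℝ) (k : ℤ) : Dd h s κ (z + k * h) = Dd h s κ z := by
  have := (Dd_periodic (s := s) (κ := κ) hh).int_mul k z
  exact this

theorem Dd_mirror (hh : 0 < h) (hs : 0 ≤ s) (hs' : s < h) (z : ℝ) :
    Dd h s κ (s - z) = -Dd h s κ z := by
  unfold Dd
  rw [Pp_mirror hh hs hs']
  field_simp
  ring

theorem Dd_cell (hh : 0 < h) (hs' : s < h) {z : ℝ} (h0 : 0 ≤ z) (h1 : z ≤ s) :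
    Dd h s κ z = κ * ((h - s) / (2 * h) * (2 * z - s)) := by
  unfold Dd
  rw [Pp_of_cell (s := s) hh 0 (by simpa using h0) (by simp; linarith), min_eq_left (by simpa using h1)]
  push_cast
  field_simp
  ring

theorem Dd_gap (hh : 0 < h) (hs : 0 ≤ s) {z : ℝ} (h0 : s ≤ z) (h1 : z ≤ h) :
    Dd h s κ z = κ * (s / (2 * h) * (h + s - 2 * z)) := by
  rcases h1.eq_or_lt with rfl | h1
  · have := Dd_periodic (s := s) (κ := κ) hh 0
    rw [zero_add] at this
    rw [this]
    unfold Dd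
    rw [Pp_of_cell (s := s) hh 0 (by simp) (by simpa using hh), min_eq_left (by simpa using hs)]
    push_cast
    field_simp
    ring
  · unfold Dd
    rw [Pp_of_cell (s := s) hh 0 (by simpa using hs.trans h0) (by simpa using h1),
      min_eq_right (by simpa using h0)]
    push_cast
    field_simp
    ring

theorem Dd_abs (hh : 0 < h) (hs : 0 ≤ s) (hs' : s < h) (hκ : 0 ≤ κ) (z : ℝ) :
    |Dd h s κ z| ≤ κ * (s * (h - s) / (2 * h)) := by
  obtain ⟨h1, h2⟩ := floor_bounds hh z
  have e : Dd h s κ z = Dd h s κ (z - h * ⌊z / h⌋) := by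
    have := Dd_add_int (s := s) (κ := κ) hh (z - h * ⌊z / h⌋) ⌊z / h⌋
    rw [← this]
    congr 1
    ring
  rw [e]
  set u := z - h * ⌊z / h⌋
  have hh2 : 0 < 2 * h := by linarith
  rcases le_total u s with h3 | h3
  · rw [Dd_cell hh hs' h1 h3, abs_mul, abs_of_nonneg hκ]
    apply mul_le_mul_of_nonneg_left _ hκ
    rw [abs_mul, abs_of_nonneg (div_nonneg (by linarith) hh2.le)]
    have : |2 * u - s| ≤ s := abs_le.2 ⟨by linarith, by linarith⟩
    calc (h - s) / (2 * h) * |2 * u - s| ≤ (h - s) / (2 * h) * s :=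
          mul_le_mul_of_nonneg_left this (div_nonneg (by linarith) hh2.le)
      _ = _ := by ring
  · rw [Dd_gap hh hs h3 h2.le, abs_mul, abs_of_nonneg hκ]
    apply mul_le_mul_of_nonneg_left _ hκ
    rw [abs_mul, abs_of_nonneg (div_nonneg hs hh2.le)]
    have : |h + s - 2 * u| ≤ h - s := abs_le.2 ⟨by linarith, by linarith⟩
    calc s / (2 * h) * |h + s - 2 * u| ≤ s / (2 * h) * (h - s) :=
          mul_le_mul_of_nonneg_left this (div_nonneg hs hh2.le)
      _ = _ := by ring

theorem Dd_integrable (hh : 0 < h) (hs : 0 ≤ s) (a b : ℝ) :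
    IntervalIntegrable (Dd h s κ) volume a b := by
  unfold Dd
  exact (((Pp_monotone hh hs).intervalIntegrable.sub
    (Continuous.intervalIntegrable (by fun_prop) _ _)).sub
    (Continuous.intervalIntegrable (by fun_prop) _ _)).const_mul _

theorem Dd_mean (hh : 0 < h) (hs : 0 ≤ s) (hs' : s < h) (a : ℝ) :
    ∫ x in a..(a + h), Dd h s κ x = 0 := by
  rw [(Dd_periodic (s := s) (κ := κ) hh).intervalIntegral_add_eq a (s / 2 - h / 2)]
  have h1 : ∫ x in (s / 2 - h / 2)..(s / 2 - h / 2 + h), Dd h s κ (s - x) =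
      ∫ x in (s - (s / 2 - h / 2 + h))..(s - (s / 2 - h / 2)), Dd h s κ x :=
    intervalIntegral.integral_comp_sub_left (Dd h s κ) s
  rw [show s - (s / 2 - h / 2 + h) = s / 2 - h / 2 by ring,
    show s - (s / 2 - h / 2) = s / 2 - h / 2 + h by ring] at h1
  have h2 : ∫ x in (s / 2 - h / 2)..(s / 2 - h / 2 + h), Dd h s κ (s - x) =
      -∫ x in (s / 2 - h / 2)..(s / 2 - h / 2 + h), Dd h s κ x := by
    rw [← intervalIntegral.integral_neg]
    congr 1
    funext x
    exact Dd_mirror hh hs hs' x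
  linarith

theorem Pp_continuous (hh : 0 < h) (hs : 0 ≤ s) (hs' : s ≤ h) : Continuous (Pp h s) := by
  have : LipschitzWith 1 (Pp h s) := by
    apply LipschitzWith.of_dist_le_mul
    intro x y
    rw [Real.dist_eq, Real.dist_eq, NNReal.coe_one, one_mul]
    rcases le_total x y with hxy | hxy
    · rw [abs_sub_comm, abs_sub_comm x y, abs_of_nonneg (sub_nonneg.2 (Pp_monotone hh hs hxy)),
        abs_of_nonneg (sub_nonneg.2 hxy)]
      exact Pp_lip hh hs' x y hxy
    · rw [abs_of_nonneg (sub_nonneg.2 (Pp_monotone hh hs hxy)), abs_of_nonneg (sub_nonneg.2 hxy)]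
      exact Pp_lip hh hs' y x hxy
  exact this.continuous

theorem Dd_continuous (hh : 0 < h) (hs : 0 ≤ s) (hs' : s ≤ h) : Continuous (Dd h s κ) := by
  have := Pp_continuous hh hs hs'
  unfold Dd
  fun_prop

/-- The mean depends continuously on the ends. -/
theorem mn_continuous {f : ℝ → ℝ} (hf : Continuous f) :
    Continuous (fun p : ℝ × ℝ => mn f p.1 p.2) := by
  unfold mn
  apply intervalIntegral.continuous_parametric_intervalIntegral_of_continuous'
  exact hf.comp (by fun_prop)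

theorem mn_abs {f : ℝ → ℝ} {M : ℝ} (hf : ∀ z, |f z| ≤ M) (a b : ℝ) : |mn f a b| ≤ M := by
  unfold mn
  have := intervalIntegral.norm_integral_le_of_norm_le_const (a := (0 : ℝ)) (b := 1) (C := M)
    (f := fun u => f (a + u * (b - a))) (fun u _ => by rw [Real.norm_eq_abs]; exact hf _)
  simpa using this

theorem mn_symm (f : ℝ → ℝ) (a b : ℝ) : mn f b a = mn f a b := by
  unfold mn
  have := intervalIntegral.integral_comp_sub_left (a := (0 : ℝ)) (b := 1)
    (fun u => f (a + u * (b - a))) 1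
  simp only [sub_self, sub_zero] at this
  rw [← this]
  congr 1
  funext u
  congr 1
  ring

theorem mn_shift {f : ℝ → ℝ} {c : ℝ} (hf : ∀ z, f (z + c) = f z) (a b : ℝ) :
    mn f (a + c) (b + c) = mn f a b := by
  unfold mn
  congr 1
  funext u
  rw [show a + c + u * (b + c - (a + c)) = a + u * (b - a) + c by ring, hf]

theorem mn_mirror {f : ℝ → ℝ} {c : ℝ} (hf : ∀ z, f (c - z) = -f z) (a b : ℝ) :
    mn f (c - a) (c - b) = -mn f a b := by
  unfold mn
  rw [← intervalIntegral.integral_neg]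
  congr 1
  funext u
  rw [show c - a + u * (c - b - (c - a)) = c - (a + u * (b - a)) by ring, hf]

/-- **Modulus lemma for the two-slope density.** -/
theorem flux_two (hh : 0 < h) (hs : 0 ≤ s) (hs' : s < h) (hκ : 0 ≤ κ) {a b c : ℝ} (hab : a ≤ b)
    (hbc : b ≤ c) (hca : c ≤ a + h) (A1 A2 A3 γ : ℝ) :
    A1 * mn (Dd h s κ) a b + A2 * mn (Dd h s κ) b c + A3 * mn (Dd h s κ) c (a + h) ≤
      κ * ((b - a) * phi (pot h A1 A2 A3 (b - a) (c - b) (a + h - c) - γ)
              (pot h A2 A3 A1 (c - b) (a + h - c) (b - a) - γ) +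
           (c - b) * phi (pot h A2 A3 A1 (c - b) (a + h - c) (b - a) - γ)
              (pot h A3 A1 A2 (a + h - c) (b - a) (c - b) - γ) +
           (a + h - c) * phi (pot h A3 A1 A2 (a + h - c) (b - a) (c - b) - γ)
              (pot h A1 A2 A3 (b - a) (c - b) (a + h - c) - γ) + γ * s) :=
  flux_le (P := Pp h s) (d := s * (h - s) / (2 * h)) hh hκ (Pp_monotone hh hs) (Pp_lip hh hs'.le)
    (Pp_add hh s) (fun _ => rfl) hab hbc hca (Dd_mean hh hs hs' a) A1 A2 A3 γ

/-- **One line.**  With the amplitude `θ s (h - s) / (2 h (L₀ - L₁ s))`, i.e. `κ = θ / (L₀ - L₁ s)`,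
the flux is at most `ex` for all positions and widths of the cell as soon as an inequality holds
which contains neither. -/
theorem flux_line (hh : 0 < h) (hs : 0 ≤ s) (hs' : s < h) {θ L0 L1 ex : ℝ} (hθ : 0 < θ)
    (hL : 0 < L0 - L1 * s) {a b c : ℝ} (hab : a ≤ b) (hbc : b ≤ c) (hca : c ≤ a + h)
    {A1 A2 A3 : ℝ}
    (H : (b - a) * phi (θ * pot h A1 A2 A3 (b - a) (c - b) (a + h - c) + ex * L1)
            (θ * pot h A2 A3 A1 (c - b) (a + h - c) (b - a) + ex * L1) +
         (c - b) * phi (θ * pot h A2 A3 A1 (c - b) (a + h - c) (b - a) + ex * L1)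
            (θ * pot h A3 A1 A2 (a + h - c) (b - a) (c - b) + ex * L1) +
         (a + h - c) * phi (θ * pot h A3 A1 A2 (a + h - c) (b - a) (c - b) + ex * L1)
            (θ * pot h A1 A2 A3 (b - a) (c - b) (a + h - c) + ex * L1) ≤ ex * L0) :
    A1 * mn (Dd h s (θ / (L0 - L1 * s))) a b + A2 * mn (Dd h s (θ / (L0 - L1 * s))) b c +
      A3 * mn (Dd h s (θ / (L0 - L1 * s))) c (a + h) ≤ ex := by
  refine (flux_two hh hs hs' (div_nonneg hθ.le hL.le) hab hbc hca A1 A2 A3
    (-(ex * L1 / θ))).trans ?_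
  have e : ∀ p q : ℝ, phi (p - -(ex * L1 / θ)) (q - -(ex * L1 / θ)) =
      phi (θ * p + ex * L1) (θ * q + ex * L1) / θ := by
    intro p q
    rw [eq_div_iff hθ.ne', mul_comm, ← phi_smul hθ.le]
    congr 1 <;> field_simp <;> ring
  simp only [e]
  rw [div_mul_eq_mul_div, div_le_iff₀ hL]
  have e2 : θ * (-(ex * L1 / θ) * s) = -(ex * L1 * s) := by field_simp
  have e3 : ∀ x y : ℝ, θ * (x * (y / θ)) = x * y := fun x y => by field_simp
  rw [mul_add, mul_add, mul_add, e2, e3, e3, e3]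
  linarith

end

end Pool.Agent.Strip051.LC.Line
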