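import Pool.Agent.Strip051.LC.Line.Sym
import Pool.Agent.Strip051.LC.Line.Tab

/-! # The families of the curves `c1`, `f1`, `f2`, `c3`

Ten families `FamAW` (nodes on the sides from the bottom to the middle and from the middle to the
top) and sixteen families `FamBW` (nodes on the sides from the bottom to the middle and from the
bottom to the top). -/

namespace Pool.Agent.Strip051.LC.Line

open Pool.Agent.StripNear Pool.Agent.StripSquare Pool.Agent.Strip051.Sweep

/-- The displacement `(X, T)` is on the curve `k`: `0` the circle of radius one, `1` the curve `f1`,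
`2` the curve `f2`, `3` the circle of radius `√3`. -/
def On (k : Fin 4) (X T : ℝ) : Prop :=
  match k with
  | 0 => X ^ 2 + T ^ 2 = 1 ∧ T < 1
  | 1 => |X| = f1 T ∧ 0 < T ∧ T ≠ h0
  | 2 => |X| = f2 T
  | 3 => X ^ 2 + T ^ 2 = 3

theorem On.neg {k : Fin 4} {X T : ℝ} (h : On k X T) : On k (-X) T := by
  fin_cases k <;> simp only [On, neg_sq, abs_neg] at h ⊢ <;> exact h

theorem on_of_node {X T : ℝ} (hT : 0 ≤ T) (h3 : X ^ 2 + T ^ 2 ≤ 3) (h : NdW X T) :
    ∃ k, On k X T := by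
  have e : |T| = T := abs_of_nonneg hT
  have hT3 : T ^ 2 ≤ 3 := by nlinarith [sq_nonneg X]
  rcases nodeAtW h with ⟨h1, h2⟩ | ⟨h1, h2, h4⟩ | ⟨h1, -⟩ | h1 | h1
  · rw [e] at h1 h2
    refine ⟨0, ?_, h2⟩
    rw [← sq_abs, h1]
    exact c1_sq hT h2.le
  · rw [e] at h1 h2 h4
    exact ⟨1, h1, h2, h4⟩
  · exact absurd h1 (by decide)
  · rw [e] at h1
    exact ⟨2, h1⟩
  · rw [e] at h1
    refine ⟨3, ?_⟩
    change X ^ 2 + T ^ 2 = 3
    rw [← sq_abs, h1]
    exact c3_sq hT3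

/-- Nodes on the sides from the bottom to the middle and from the middle to the top. -/
def FamAW (θ : ℝ) (R : ℝ → ℝ → ℝ) (j k : Fin 4) : Prop :=
  ∀ X12 X23 t t' : ℝ, 0 ≤ t → 0 ≤ t' → On j X12 t → On k X23 t' →
    0 ≤ X12 * t' - X23 * t → 1 ≤ (X12 + X23) ^ 2 + (t + t') ^ 2 →
    (X12 + X23) ^ 2 + (t + t') ^ 2 ≤ 3 → NF θ R X12 (X12 + X23) t t'

/-- Nodes on the sides from the bottom to the middle and from the bottom to the top. -/
def FamBW (θ : ℝ) (R : ℝ → ℝ → ℝ) (j k : Fin 4) : Prop :=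
  ∀ X12 X13 t t' : ℝ, 0 ≤ t → 0 ≤ t' → On j X12 t → On k X13 (t + t') →
    0 ≤ X12 * (t + t') - X13 * t → 1 ≤ (X13 - X12) ^ 2 + t' ^ 2 →
    (X13 - X12) ^ 2 + t' ^ 2 ≤ 3 → NF θ R X12 X13 t t'

variable {θ : ℝ} {R : ℝ → ℝ → ℝ}

theorem FamAW.swap (hR : ∀ X T, R (-X) T = -R X T) {j k : Fin 4} (h : FamAW θ R j k) :
    FamAW θ R k j := by
  intro X12 X23 t t' h1 h2 h3 h4 h5 h6 h7
  apply NF.mirror hR
  have e : (-X23 + -X12) ^ 2 + (t' + t) ^ 2 = (X12 + X23) ^ 2 + (t + t') ^ 2 := by ring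
  have := h (-X23) (-X12) t' t h2 h1 h4.neg h3.neg (by linarith) (by rw [e]; exact h6)
    (by rw [e]; exact h7)
  rw [show -X23 + -X12 = -(X12 + X23) by ring] at this
  rwa [show X12 - (X12 + X23) = -X23 by ring]

/-- The ten families `FamAW` and the sixteen families `FamBW` give all families. -/
theorem familiesW_of (hR : ∀ X T, R (-X) T = -R X T)
    (hA : ∀ j k : Fin 4, j ≤ k → FamAW θ R j k) (hB : ∀ j k : Fin 4, FamBW θ R j k) :
    Families θ R NdW := by
  have hA' : ∀ j k : Fin 4, FamAW θ R j k := by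
    intro j k
    rcases le_total j k with h | h
    · exact hA j k h
    · exact (hA k j h).swap hR
  intro X12 X13 t t' ht ht' hc g1 g2 g3 g4 g5 g6 hN
  rcases hN with ⟨n1, n2⟩ | ⟨n1, n2⟩ | ⟨n1, n2⟩
  · obtain ⟨j, e1⟩ := on_of_node ht g2 n1
    obtain ⟨k, e2⟩ := on_of_node ht' g4 n2
    have := hA' j k X12 (X13 - X12) t t' ht ht' e1 e2 (by linarith) (by
      rw [show X12 + (X13 - X12) = X13 by ring]
      exact g5) (by
      rw [show X12 + (X13 - X12) = X13 by ring]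
      exact g6)
    rwa [show X12 + (X13 - X12) = X13 by ring] at this
  · obtain ⟨j, e1⟩ := on_of_node ht g2 n1
    obtain ⟨k, e2⟩ := on_of_node (by linarith) g6 n2
    exact hB j k X12 X13 t t' ht ht' e1 e2 hc g3 g4
  · obtain ⟨j, e1⟩ := on_of_node ht' g4 n1
    obtain ⟨k, e2⟩ := on_of_node (by linarith) g6 n2
    apply NF.mirror hR
    have i0 : X12 - X13 = -(X13 - X12) := by ring
    exact hB j k (X12 - X13) (-X13) t' t ht' ht (by rw [i0]; exact e1.neg)
      (by rw [add_comm t' t]; exact e2.neg) (by linarith)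
      (by rw [show -X13 - (X12 - X13) = -X12 by ring, neg_sq]; exact g1)
      (by rw [show -X13 - (X12 - X13) = -X12 by ring, neg_sq]; exact g2)

end Pool.Agent.Strip051.LC.Line
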