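import Pool.Agent.Strip051.LC.Line.WallMono

/-! # The floor rows up to `√3` for the three-node kernel -/

namespace Pool.Agent.Strip051.LC.Line

open Pool.Agent.StripNear Pool.Agent.StripSquare Pool.Agent.Strip051.Sweep MeasureTheory
  intervalIntegral

/-- The largest amplitude. -/
theorem amp_max {θ s : ℝ} (hθ0 : 0 < θ) (hθ : θ ≤ 1) (hs0 : 0 ≤ s) (hs1 : s < h0) :
    amp θ s ≤ 2 / √3 - 1 := by
  have w2 : √3 ^ 2 = 3 := Real.sq_sqrt (by norm_num)
  have w0 : 0 < √3 := Real.sqrt_pos.2 (by norm_num)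
  have w1 : √3 < 2 := by nlinarith
  obtain ⟨h1, h2⟩ := amp_le hθ0.le hθ hs0 hs1
  obtain ⟨z, hz0, hz1, f1, f2⟩ := half_angle hs0 hs1.le
  have hz3 : 0 < 3 + z ^ 2 := by positivity
  have he : ee s = 2 * z * (1 - z) / (3 + z ^ 2) := by
    unfold ee
    rw [f2, f1]
    exact ee_half
  rw [he] at h2
  refine h2.trans ?_
  have e : 2 / √3 - 1 - 2 * z * (1 - z) / (3 + z ^ 2) =
      (2 + √3) * (z - √3 * (2 - √3)) ^ 2 / (√3 * (3 + z ^ 2)) := by
    field_simp
    ring_nf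
    have w3 : √3 ^ 3 = 3 * √3 := by rw [pow_succ, w2]
    have w4 : √3 ^ 4 = 9 := by nlinarith
    have w5 : √3 ^ 5 = 9 * √3 := by rw [pow_succ, w4]
    simp only [w2, w3, w4, w5]
    ring
  have : 0 ≤ (2 + √3) * (z - √3 * (2 - √3)) ^ 2 / (√3 * (3 + z ^ 2)) := by positivity
  linarith

theorem amp_max' {θ s : ℝ} (hθ0 : 0 < θ) (hθ : θ ≤ 1) (hs0 : 0 ≤ s) (hs1 : s < h0) :
    amp θ s ≤ 1548 / 10000 := by
  have w2 : √3 ^ 2 = 3 := Real.sq_sqrt (by norm_num)
  have w0 : 0 < √3 := Real.sqrt_pos.2 (by norm_num)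
  have w1 : 17320 / 10000 < √3 := by
    apply Real.lt_sqrt_of_sq_lt
    norm_num
  refine (amp_max hθ0 hθ hs0 hs1).trans ?_
  rw [sub_le_iff_le_add, div_le_iff₀ w0]
  nlinarith

/-- **The steep curve.** -/
theorem SY_steep {θ s T r X2 A2 y : ℝ} (hθ0 : 0 < θ) (hθ : θ ≤ 1) (hs0 : 0 ≤ s) (hs1 : s < h0)
    (hT0 : h0 ≤ T) (hT1 : T < 1) (hr : √(1 - T ^ 2) = r) (hX2 : √(2 - T ^ 2) = X2)
    (hA : Sz X2 A2) (hy : 0 ≤ y) :
    0 ≤ SY s (kap θ s) (1 / 2 - amp θ s) (1 - r) T (r + (A2 - r) * ((1 - r - r) / (X2 - r))) y := by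
  have w2 : √3 ^ 2 = 3 := Real.sq_sqrt (by norm_num)
  have w0 : 0 < √3 := Real.sqrt_pos.2 (by norm_num)
  have w1 : 17320 / 10000 < √3 := by
    apply Real.lt_sqrt_of_sq_lt
    norm_num
  have hp := h0_pos
  have hh : h0 = √3 / 2 := rfl
  have hTT : 3 / 4 ≤ T ^ 2 := by
    rw [← h0_sq]
    exact pow_le_pow_left₀ hp.le hT0 2
  have hT2 : T ^ 2 < 1 := by nlinarith
  have hr2 : r ^ 2 = 1 - T ^ 2 := by
    rw [← hr]
    exact Real.sq_sqrt (by linarith)
  have hr0 : 0 ≤ r := by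
    rw [← hr]
    exact Real.sqrt_nonneg _
  have hX22 : X2 ^ 2 = 2 - T ^ 2 := by
    rw [← hX2]
    exact Real.sq_sqrt (by linarith)
  have hX20 : 0 ≤ X2 := by
    rw [← hX2]
    exact Real.sqrt_nonneg _
  have hr1 : r ≤ 1 / 2 := by nlinarith
  have hX21 : 1 ≤ X2 := by nlinarith
  have hd : 0 < X2 - r := by linarith
  set t := (1 - r - r) / (X2 - r) with ht
  have htd : t * (X2 - r) = 1 - r - r := div_mul_cancel₀ _ hd.ne'
  have ht0 : 0 ≤ t := div_nonneg (by linarith) hd.le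
  have ht1 : t ≤ 1 := by
    rw [ht, div_le_one hd]
    linarith
  have hSr : Sz r r := ⟨le_rfl, by nlinarith⟩
  have hmix := hSr.mix hA ht0 ht1
  have hXe : r + (X2 - r) * t = 1 - r := by linarith
  rw [hXe] at hmix
  set A := r + (A2 - r) * t with hAd
  have hκ : 0 ≤ kap θ s := (div_pos hθ0 (L0_pos hs1)).le
  obtain ⟨k1, k2⟩ := kap_bd hθ0 hθ hs0 hs1
  have hE := amp_max' hθ0 hθ hs0 hs1
  refine SY_of_S0 hs0 hs1 hκ (hmix.mono (by linarith) hθ0 hθ hs0 hs1) ?_ hy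
  have htau : tau T = T - h0 := by
    unfold tau jn
    rw [if_neg (by linarith), if_pos (by nlinarith)]
    push_cast
    ring
  unfold S0
  rw [htau]
  set τ := T - h0 with hτ
  have hτ0 : 0 ≤ τ := by linarith
  have hTe : T / (2 * h0) = 1 / 2 + τ / (2 * h0) := by
    rw [hτ]
    field_simp
    ring
  have hXA : A ≤ 1 - r := hmix.1
  rcases le_or_gt τ s with hc | hc
  · rw [mn_low hs1 hτ0 hc]
    set P := kap θ s * ((h0 - s) / (2 * h0)) with hP
    have hP0 : 0 ≤ P := mul_nonneg hκ (div_nonneg (by linarith) (by linarith))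
    have hP1 : P ≤ 1 / (2 * h0) := by
      rw [hP, mul_div_assoc', div_le_div_iff_of_pos_right (by linarith)]
      exact k1
    have hEP : amp θ s = P * s := by
      rw [hP]
      unfold amp
      ring
    have e1 : kap θ s * ((h0 - s) / (2 * h0) * (τ - s)) = P * (τ - s) := by
      rw [hP]
      ring
    rw [e1, hTe]
    have e : (1 - r) * (1 / 2 - amp θ s + (1 / 2 + τ / (2 * h0))) - A * (P * (τ - s)) - 0 - 1 / 2 =
        (1 / 2 - r - amp θ s * (1 - r - A)) + τ * ((1 - r) * (1 / (2 * h0)) - A * P) := by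
      rw [hEP]
      ring
    rw [e]
    have a1 : 0 ≤ τ * ((1 - r) * (1 / (2 * h0)) - A * P) := by
      apply mul_nonneg hτ0
      rcases le_total 0 A with h | h
      · have := mul_le_mul hXA hP1 hP0 (by linarith)
        linarith
      · have := mul_nonpos_of_nonpos_of_nonneg h hP0
        have : 0 ≤ (1 - r) * (1 / (2 * h0)) := by
          have : 0 ≤ 1 - r := by linarith
          positivity
        linarith
    have a2 : 1 - r - A = t * (X2 - A2) := by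
      rw [hAd]
      linarith
    have a3 : X2 - A2 ≤ 1578 / 1000 * X2 := by
      have := hA.2
      by_contra hcon
      rw [not_le] at hcon
      nlinarith
    have a4 : amp θ s * (1 - r - A) ≤ 1 / 2 - r := by
      rw [a2]
      have b0 : 0 ≤ X2 - A2 := sub_nonneg.2 hA.1
      have b1 : amp θ s * (t * (X2 - A2)) ≤ 1548 / 10000 * (t * (1578 / 1000 * X2)) := by
        apply mul_le_mul hE (mul_le_mul_of_nonneg_left a3 ht0) (mul_nonneg ht0 b0) (by norm_num)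
      have b2 : X2 ≤ 2 * (X2 - r) := by linarith
      have b3 : t * X2 ≤ t * (2 * (X2 - r)) := mul_le_mul_of_nonneg_left b2 ht0
      nlinarith
    linarith
  · have hτp : 0 < τ := lt_of_le_of_lt hs0 hc
    have hτh : τ ≤ h0 := by linarith
    rw [mn_high hs0 hs1 hc.le hτh hτp]
    set M := kap θ s * (s / (2 * h0) * ((τ - s) * (h0 - τ) / τ)) with hM
    have hM0 : 0 ≤ M := by
      have h1 : 0 ≤ τ - s := by linarith
      have h2 : 0 ≤ h0 - τ := by linarith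
      rw [hM]
      positivity
    have hEM : amp θ s + M ≤ τ / (2 * h0) := by
      have e : amp θ s + M = (s * (kap θ s * ((h0 - s) * τ + (τ - s) * (h0 - τ)))) / τ /
          (2 * h0) := by
        rw [hM]
        unfold amp
        field_simp
      rw [e, div_le_div_iff_of_pos_right (by linarith), div_le_iff₀ hτp]
      have h1 : (h0 - s) * τ + (τ - s) * (h0 - τ) ≤ (h0 - s) * (2 * τ - s) := by
        nlinarith [mul_nonneg (sub_nonneg.2 hc.le) (sub_nonneg.2 hc.le)]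
      have h2 : kap θ s * ((h0 - s) * τ + (τ - s) * (h0 - τ)) ≤ 2 * τ - s := by
        refine (mul_le_mul_of_nonneg_left h1 hκ).trans ?_
        rw [← mul_assoc]
        have := mul_le_mul_of_nonneg_right k1 (by linarith : 0 ≤ 2 * τ - s)
        linarith
      have h3 := mul_le_mul_of_nonneg_left h2 hs0
      nlinarith [sq_nonneg (τ - s)]
    rw [hTe]
    have a1 : A * M ≤ (1 - r) * M := mul_le_mul_of_nonneg_right hXA hM0
    have a2 : 0 ≤ (1 - r) * (τ / (2 * h0) - amp θ s - M) :=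
      mul_nonneg (by linarith) (by linarith)
    nlinarith

/-- What a pair with the lower disc on the floor gives: the rows up to the length `√3`. -/
structure Nodes (θ : ℝ) (A2 A3 : ℝ → ℝ) : Prop where
  two : ∀ s T y, 0 ≤ s → s < h0 → 0 ≤ T → T ≤ 1 → 0 ≤ y →
    0 ≤ SY s (kap θ s) (1 / 2 - amp θ s) √(2 - T ^ 2) T (A2 T) y
  three : ∀ s T y, 0 ≤ s → s < h0 → 0 ≤ T → T ≤ 1 → 0 ≤ y →
    0 ≤ SY s (kap θ s) (1 / 2 - amp θ s) √(3 - T ^ 2) T (A3 T) y
  size : ∀ T, h0 ≤ T → T < 1 → Sz √(2 - T ^ 2) (A2 T)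

/-- **The rows up to `√3`.** -/
theorem Nodes.row {θ : ℝ} {A2 A3 : ℝ → ℝ} {B : ℝ → ℝ → ℝ} (h : Nodes θ A2 A3) (hθ0 : 0 < θ)
    (hθ : θ ≤ 1) {s X T y : ℝ} (hs0 : 0 ≤ s) (hs1 : s < h0) (hy : 0 ≤ y) (hT0 : 0 ≤ T)
    (h1 : 1 ≤ X ^ 2 + T ^ 2) (h3 : X ^ 2 + T ^ 2 ≤ 3) (h4 : X ^ 2 + T ^ 2 ≤ 2 * X) :
    0 ≤ SY s (kap θ s) (1 / 2 - amp θ s) X T (R3 A1u A2 A3 B X T) y := by
  have hp := h0_pos
  have hhs := h0_sq
  have hX : 1 / 2 ≤ X := by linarith
  have hT1 : T ^ 2 ≤ 1 := by nlinarith [sq_nonneg (X - 1)]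
  have hT1' : T ≤ 1 := by nlinarith
  set X1 := √(1 - T ^ 2) with hX1d
  set X2 := √(2 - T ^ 2) with hX2d
  set X3 := √(3 - T ^ 2) with hX3d
  have s1 : X1 ^ 2 = 1 - T ^ 2 := Real.sq_sqrt (by linarith)
  have s2 : X2 ^ 2 = 2 - T ^ 2 := Real.sq_sqrt (by linarith)
  have s3 : X3 ^ 2 = 3 - T ^ 2 := Real.sq_sqrt (by linarith)
  have n1 : 0 ≤ X1 := Real.sqrt_nonneg _
  have n2 : 0 < X2 := Real.sqrt_pos.2 (by linarith)
  have n3 : 0 < X3 := Real.sqrt_pos.2 (by linarith)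
  have o12 : X1 < X2 := Real.sqrt_lt_sqrt (by linarith) (by linarith)
  have o23 : X2 < X3 := Real.sqrt_lt_sqrt (by linarith) (by linarith)
  have hN2 := h.two s T y hs0 hs1 hT0 hT1' hy
  have hN3 := h.three s T y hs0 hs1 hT0 hT1' hy
  rw [← hX2d] at hN2
  rw [← hX3d] at hN3
  rcases le_total 2 (X ^ 2 + T ^ 2) with h2 | h2
  · -- between the nodes `√2` and `√3`
    have l2 : X2 ≤ X := by
      apply Real.sqrt_le_iff.2 ⟨by linarith, by linarith⟩
    have l3 : X ≤ X3 := Real.le_sqrt_of_sq_le (by linarith)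
    rw [R3_mid23 (by linarith) (by linarith) h2 h3, ← hX2d, ← hX3d]
    set t := (X - X2) / (X3 - X2) with ht
    have hd : 0 < X3 - X2 := by linarith
    have hXe : X = X2 + (X3 - X2) * t := by
      rw [ht]
      field_simp
      ring
    have := SY_mix hN2 hN3 (div_nonneg (sub_nonneg.2 l2) hd.le)
      ((div_le_one hd).2 (by linarith : X - X2 ≤ X3 - X2))
    rw [← ht, ← hXe] at this
    exact this
  · have l2 : X ≤ X2 := Real.le_sqrt_of_sq_le (by linarith)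
    rcases hT1.eq_or_lt with hT | hT
    · -- vertical limit
      have hX' : X = 1 := by nlinarith [sq_nonneg (X - 1)]
      have hXX : X ^ 2 + T ^ 2 = 2 := by rw [hX', hT]; norm_num
      rw [R3_two (by linarith) hXX]
      have : X2 = X := by
        rw [hX2d, show 2 - T ^ 2 = X ^ 2 by linarith]
        exact Real.sqrt_sq (by linarith)
      rw [← this]
      exact hN2
    have hTlt : T < 1 := by nlinarith
    have l1 : X1 ≤ X := Real.sqrt_le_iff.2 ⟨by linarith, by linarith⟩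
    rw [R3_mid12 (by linarith) hT h1 h2, ← hX1d, ← hX2d]
    have hd : 0 < X2 - X1 := by linarith
    rcases le_or_gt T h0 with hTh | hTh
    · set t := (X - X1) / (X2 - X1) with ht
      have hXe : X = X1 + (X2 - X1) * t := by
        rw [ht]
        field_simp
        ring
      have hN1 := SY_unit (T := T) hθ0 hθ hs0 hs1 hT0 hTh hy
      rw [← hX1d] at hN1
      have := SY_mix hN1 hN2 (div_nonneg (sub_nonneg.2 l1) hd.le)
        ((div_le_one hd).2 (by linarith : X - X1 ≤ X2 - X1))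
      rw [← ht, ← hXe] at this
      exact this
    · have hA1 : A1u T = X1 := by
        unfold A1u
        rw [if_neg (by linarith), if_neg hTh.not_ge]
      rw [hA1]
      have hst := SY_steep hθ0 hθ hs0 hs1 hTh.le hTlt hX1d.symm hX2d.symm (h.size T hTh.le hTlt) hy
      have hr0 : X1 ≤ 1 / 2 := by nlinarith
      have hlo : 1 - X1 ≤ X := by
        rcases le_total 1 X with h' | h'
        · linarith
        · nlinarith
      have hX21 : 1 ≤ X2 := by nlinarith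
      have hpos1 : 0 < X1 := Real.sqrt_pos.2 (by linarith)
      have hd2 : 0 < X2 - (1 - X1) := by linarith
      set t := (X - (1 - X1)) / (X2 - (1 - X1)) with ht
      have hXe : X = 1 - X1 + (X2 - (1 - X1)) * t := by
        rw [ht]
        field_simp
        ring
      have hAe : X1 + (A2 T - X1) * ((X - X1) / (X2 - X1)) =
          X1 + (A2 T - X1) * ((1 - X1 - X1) / (X2 - X1)) +
            (A2 T - (X1 + (A2 T - X1) * ((1 - X1 - X1) / (X2 - X1)))) * t := by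
        rw [ht]
        field_simp
        ring
      have := SY_mix hst hN2 (div_nonneg (sub_nonneg.2 hlo) hd2.le)
        ((div_le_one hd2).2 (by linarith : X - (1 - X1) ≤ X2 - (1 - X1)))
      rw [← ht, ← hXe, ← hAe] at this
      exact this

/-- The row of a floor pair in the variables `(X, T, y)`. -/
theorem row_eq {θ s : ℝ} {R : ℝ → ℝ → ℝ} (p q : Pt) :
    (q.1 - p.1) * (1 / 2 - amp θ s + (p.2 + q.2) / (2 * h0)) - ed (QL θ R s) p q =
      1 / 2 + SY s (kap θ s) (1 / 2 - amp θ s) (q.1 - p.1) |q.2 - p.2|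
        (R (q.1 - p.1) |q.2 - p.2|) (min p.2 q.2) := by
  have hmax : max p.2 q.2 = min p.2 q.2 + |q.2 - p.2| := by
    rcases le_total p.2 q.2 with h | h
    · rw [min_eq_left h, max_eq_right h, abs_of_nonneg (by linarith)]
      ring
    · rw [min_eq_right h, max_eq_left h, abs_of_nonpos (by linarith)]
      ring
  have hsum : p.2 + q.2 = 2 * min p.2 q.2 + |q.2 - p.2| := by
    have := min_add_max p.2 q.2
    linarith
  unfold SY ed QL Qd tau
  rw [hsum, hmax, show min p.2 q.2 + |q.2 - p.2| - jn |q.2 - p.2| * h0 =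
    min p.2 q.2 + (|q.2 - p.2| - jn |q.2 - p.2| * h0) by ring]
  ring

/-- **The floor, kernel beyond `√3`.** -/
theorem Nodes.wall {θ : ℝ} {A2 A3 : ℝ → ℝ} {B : ℝ → ℝ → ℝ} (h : Nodes θ A2 A3) (hθ0 : 0 < θ)
    (hθ : θ ≤ 1) {s : ℝ} (hs0 : 0 ≤ s) (hs1 : s < h0)
    (long : ∀ X T y, 0 ≤ T → 0 ≤ y → 3 < X ^ 2 + T ^ 2 → X ^ 2 + T ^ 2 ≤ 2 * X →
      0 ≤ SY s (kap θ s) (1 / 2 - amp θ s) X T (B X T) y)
    {p q : Pt} {m : ℝ} (hx : p.1 ≤ q.1) (hp : 0 ≤ p.2) (hq : 0 ≤ q.2) (hd : 1 ≤ ds p q)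
    (hc : (p.1 - m) ^ 2 + p.2 ^ 2 = (q.1 - m) ^ 2 + q.2 ^ 2)
    (hr : (p.1 - m) ^ 2 + p.2 ^ 2 ≤ 1) :
    1 / 2 ≤ (q.1 - p.1) * (1 / 2 - amp θ s + (p.2 + q.2) / (2 * h0)) -
      ed (QL θ (R3 A1u A2 A3 B) s) p q := by
  obtain ⟨g1, g2, g3⟩ := floor_geo hx hp hq hd hc hr
  rw [row_eq]
  have key : 0 ≤ SY s (kap θ s) (1 / 2 - amp θ s) (q.1 - p.1) |q.2 - p.2|
      (R3 A1u A2 A3 B (q.1 - p.1) |q.2 - p.2|) (min p.2 q.2) := by
    rcases le_or_gt ((q.1 - p.1) ^ 2 + |q.2 - p.2| ^ 2) 3 with h3 | h3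
    · exact h.row hθ0 hθ hs0 hs1 (le_min hp hq) (abs_nonneg _) g2 h3 g3
    · rw [R3_long g1 h3]
      exact long _ _ _ (abs_nonneg _) (le_min hp hq) h3 g3
  linarith

end Pool.Agent.Strip051.LC.Line
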