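import Pool.Agent.Strip051.LC.Line.LongRow
import Pool.Agent.Strip051.LC.Pieces
import Pool.Agent.Strip051.LC.Exact.NodesW

/-! # The floor rows for a kernel with node curves

Reduction to the nodes at a fixed height of the lower disc, and the steep curve for any kernel. -/

namespace Pool.Agent.Strip051.LC.Line

open Pool.Agent.StripNear Pool.Agent.StripSquare Pool.Agent.Strip051.Sweep
  Pool.Agent.Strip051.LC MeasureTheory intervalIntegral

/-- **The steep curve**, any kernel value `A`. -/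
theorem SY_steep' {θ s T r A y : ℝ} (hθ0 : 0 < θ) (hθ : θ ≤ 1) (hs0 : 0 ≤ s) (hs1 : s < h0)
    (hT0 : h0 ≤ T) (hT1 : T ≤ 1) (hr : √(1 - T ^ 2) = r) (hA : Sz (1 - r) A)
    (hd : 1548 / 10000 * (1 - r - A) ≤ 1 / 2 - r) (hy : 0 ≤ y) :
    0 ≤ SY s (kap θ s) (1 / 2 - amp θ s) (1 - r) T A y := by
  have hp := h0_pos
  have hTT : 3 / 4 ≤ T ^ 2 := by
    rw [← h0_sq]
    exact pow_le_pow_left₀ hp.le hT0 2
  have hT2 : T ^ 2 ≤ 1 := by nlinarith
  have hr2 : r ^ 2 = 1 - T ^ 2 := by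
    rw [← hr]
    exact Real.sq_sqrt (by linarith)
  have hr0 : 0 ≤ r := by
    rw [← hr]
    exact Real.sqrt_nonneg _
  have hr1 : r ≤ 1 / 2 := by nlinarith
  have hκ : 0 ≤ kap θ s := (div_pos hθ0 (L0_pos hs1)).le
  obtain ⟨k1, k2⟩ := kap_bd hθ0 hθ hs0 hs1
  have hE := amp_max' hθ0 hθ hs0 hs1
  obtain ⟨hE0, _⟩ := amp_le hθ0.le hθ hs0 hs1
  refine SY_of_S0 hs0 hs1 hκ (hA.mono (by linarith) hθ0 hθ hs0 hs1) ?_ hy
  have htau : tau T = T - h0 := by
    unfold tau jn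
    rw [if_neg (by linarith), if_pos (by nlinarith [h0_sq])]
    push_cast
    ring
  unfold S0
  rw [htau]
  set τ := T - h0 with hτ
  have hτ0 : 0 ≤ τ := by linarith
  have hTe : T / (2 * h0) = 1 / 2 + τ / (2 * h0) := by
    rw [hτ]
    field_simp
    ring
  have hXA : A ≤ 1 - r := hA.1
  rcases le_or_gt τ s with hc | hc
  · rw [mn_low hs1 hτ0 hc]
    set P := kap θ s * ((h0 - s) / (2 * h0)) with hP
    have hP0 : 0 ≤ P := mul_nonneg hκ (div_nonneg (by linarith) (by linarith))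
    have hP1 : P ≤ 1 / (2 * h0) := by
      rw [hP, mul_div_assoc', div_le_div_iff_of_pos_right (by linarith)]
      exact k1
    have hEP : amp θ s = P * s := by
      rw [hP]
      unfold amp
      ring
    have e1 : kap θ s * ((h0 - s) / (2 * h0) * (τ - s)) = P * (τ - s) := by
      rw [hP]
      ring
    rw [e1, hTe]
    have e : (1 - r) * (1 / 2 - amp θ s + (1 / 2 + τ / (2 * h0))) - A * (P * (τ - s)) - 0 - 1 / 2 =
        (1 / 2 - r - amp θ s * (1 - r - A)) + τ * ((1 - r) * (1 / (2 * h0)) - A * P) := by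
      rw [hEP]
      ring
    rw [e]
    have a1 : 0 ≤ τ * ((1 - r) * (1 / (2 * h0)) - A * P) := by
      apply mul_nonneg hτ0
      rcases le_total 0 A with h | h
      · have := mul_le_mul hXA hP1 hP0 (by linarith)
        linarith
      · have := mul_nonpos_of_nonpos_of_nonneg h hP0
        have : 0 ≤ (1 - r) * (1 / (2 * h0)) := by
          have : 0 ≤ 1 - r := by linarith
          positivity
        linarith
    have a4 : amp θ s * (1 - r - A) ≤ 1 / 2 - r := by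
      have := mul_le_mul_of_nonneg_right hE (sub_nonneg.2 hXA)
      linarith
    linarith
  · have hτp : 0 < τ := lt_of_le_of_lt hs0 hc
    have hτh : τ ≤ h0 := by nlinarith [h0_sq]
    rw [mn_high hs0 hs1 hc.le hτh hτp]
    set M := kap θ s * (s / (2 * h0) * ((τ - s) * (h0 - τ) / τ)) with hM
    have hM0 : 0 ≤ M := by
      have h1 : 0 ≤ τ - s := by linarith
      have h2 : 0 ≤ h0 - τ := by linarith
      rw [hM]
      positivity
    have hEM : amp θ s + M ≤ τ / (2 * h0) := by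
      have e : amp θ s + M = (s * (kap θ s * ((h0 - s) * τ + (τ - s) * (h0 - τ)))) / τ /
          (2 * h0) := by
        rw [hM]
        unfold amp
        field_simp
      rw [e, div_le_div_iff_of_pos_right (by linarith), div_le_iff₀ hτp]
      have h1 : (h0 - s) * τ + (τ - s) * (h0 - τ) ≤ (h0 - s) * (2 * τ - s) := by
        nlinarith [mul_nonneg (sub_nonneg.2 hc.le) (sub_nonneg.2 hc.le)]
      have h2 : kap θ s * ((h0 - s) * τ + (τ - s) * (h0 - τ)) ≤ 2 * τ - s := by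
        refine (mul_le_mul_of_nonneg_left h1 hκ).trans ?_
        rw [← mul_assoc]
        have := mul_le_mul_of_nonneg_right k1 (by linarith : 0 ≤ 2 * τ - s)
        linarith
      have h3 := mul_le_mul_of_nonneg_left h2 hs0
      nlinarith [sq_nonneg (τ - s)]
    rw [hTe]
    have a1 : A * M ≤ (1 - r) * M := mul_le_mul_of_nonneg_right hXA hM0
    have a2 : 0 ≤ (1 - r) * (τ / (2 * h0) - amp θ s - M) :=
      mul_nonneg (by linarith) (by linarith)
    nlinarith

/-- **Reduction to the nodes**, at a fixed height of the lower disc. -/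
theorem short_of_nodes {s κ w : ℝ} {R : ℝ → ℝ → ℝ} {Nd : ℝ → ℝ → Prop}
    (pieces : ∀ X T : ℝ, 0 ≤ T → 1 ≤ X ^ 2 + T ^ 2 → X ^ 2 + T ^ 2 ≤ 3 →
      ∃ a b : ℝ, a ≤ X ∧ X ≤ b ∧ Nd a T ∧ Nd b T ∧
        (∀ u, a ≤ u → u ≤ b → 1 ≤ u ^ 2 + T ^ 2 ∧ u ^ 2 + T ^ 2 ≤ 3) ∧
        ∃ α β : ℝ, ∀ u, a ≤ u → u ≤ b → R u T = α * u + β)
    (node : ∀ X T y, 0 ≤ T → T ≤ 1 → 0 < X → 1 ≤ X ^ 2 + T ^ 2 → X ^ 2 + T ^ 2 ≤ 3 → Nd X T →
      (T ≤ h0 ∨ 1 - √(1 - T ^ 2) ≤ X) → 0 ≤ y → 0 ≤ SY s κ w X T (R X T) y)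
    (steep : ∀ T y, h0 ≤ T → T ≤ 1 → 0 ≤ y → 0 ≤ SY s κ w (1 - √(1 - T ^ 2)) T
      (R (1 - √(1 - T ^ 2)) T) y) :
    ∀ X T y, 0 ≤ T → 0 ≤ y → 1 ≤ X ^ 2 + T ^ 2 → X ^ 2 + T ^ 2 ≤ 3 → X ^ 2 + T ^ 2 ≤ 2 * X →
      0 ≤ SY s κ w X T (R X T) y := by
  intro X T y hT hy h1 h3 h2
  have hX : 1 / 2 ≤ X := by linarith
  have hT1 : T ^ 2 ≤ 1 := by nlinarith [sq_nonneg (X - 1)]
  have hT1' : T ≤ 1 := by nlinarith
  obtain ⟨a, b, h4, h5, h6, h7, h8, α, β, h9⟩ := pieces X T hT h1 h3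
  have hb := h8 b (h4.trans h5) le_rfl
  have hb0 : 0 < b := by linarith
  have hr := Real.sqrt_nonneg (1 - T ^ 2)
  have hr2 := Real.sq_sqrt (show 0 ≤ 1 - T ^ 2 by linarith)
  set r := √(1 - T ^ 2) with hrd
  have hlo : 1 - r ≤ X := by
    rcases le_total 1 X with h | h
    · linarith
    · have : (1 - X) ^ 2 ≤ r ^ 2 := by rw [hr2]; nlinarith
      have := abs_le_of_sq_le_sq' this hr
      linarith [this.2]
  set M := mn (D s κ) y (y + tau T) with hM
  have hA : ∀ u, a ≤ u → u ≤ b → SY s κ w u T (R u T) y =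
      (w + (2 * y + T) / (2 * h0) - α * M) * u + (-(β * M) - 1 / 2) := by
    intro u hu1 hu2
    unfold SY
    rw [h9 u hu1 hu2, ← hM]
    ring
  have hbS : 0 ≤ SY s κ w b T (R b T) y :=
    node b T y hT hT1' hb0 hb.1 hb.2 h7 (Or.inr (hlo.trans h5)) hy
  rw [hA X h4 h5]
  rw [hA b (h4.trans h5) le_rfl] at hbS
  have ha1 := h8 a le_rfl (h4.trans h5)
  rcases le_or_gt T h0 with h10 | h10
  · have ha0 : 0 < a := by
      by_contra hneg
      have h11 := h8 0 (not_lt.1 hneg) (by linarith)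
      have h12 := h0_sq
      have hp := h0_pos
      nlinarith [h11.1]
    have haS := node a T y hT hT1' ha0 ha1.1 ha1.2 h6 (Or.inl h10) hy
    rw [hA a le_rfl (h4.trans h5)] at haS
    exact affine_nonneg h4 h5 haS hbS
  · rcases le_total a (1 - r) with h11 | h11
    · have h12 := steep T y h10.le hT1' hy
      rw [← hrd, hA (1 - r) h11 (hlo.trans h5)] at h12
      exact affine_nonneg hlo h5 h12 hbS
    · rcases lt_or_ge 0 a with h12 | h12
      · have haS := node a T y hT hT1' h12 ha1.1 ha1.2 h6 (Or.inr h11) hy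
        rw [hA a le_rfl (h4.trans h5)] at haS
        exact affine_nonneg h4 h5 haS hbS
      · have h13 : 1 ≤ r := by linarith
        have hp := h0_pos
        nlinarith [h0_sq]

end Pool.Agent.Strip051.LC.Line
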