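import Pool.Agent.Strip051.LC.Line.RowTools
import Pool.Agent.Strip051.LC.Line.Tab

/-! # The floor for a table on the curves `c1`, `f1`, `f2`, `c3` -/

namespace Pool.Agent.Strip051.LC.Line

open Pool.Agent.StripNear Pool.Agent.StripSquare Pool.Agent.Strip051.Sweep
  Pool.Agent.Strip051.LC MeasureTheory intervalIntegral

/-- The crude bound for a row. -/
def Crude (X T A : ℝ) : Prop := 1 / 2 + 1548 / 10000 * (X + |A|) ≤ X * (1 / 2 + T / (2 * h0))

/-- The bound for the rows just above the floor. -/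
def Near (X A : ℝ) : Prop := Sz X A ∧ 1548 / 10000 * (X - A) ≤ X * (1 / 2) - 1 / 2

/-- Simple bounds for a table which give all floor rows. -/
structure RowTab (v : ℝ → Fin 5 → ℝ) : Prop where
  unit : ∀ T, 0 ≤ T → T < 1 → v T 0 = A1u T
  a1 : ∀ T, 0 < T → T < h0 / 2 → Near (f1 T) (v T 1) ∨ Crude (f1 T) T (v T 1)
  b1 : ∀ T, h0 / 2 ≤ T → T < h0 → (0 ≤ v T 1 ∧ v T 1 ≤ f1 T) ∨ Crude (f1 T) T (v T 1)
  a2 : ∀ T, 0 ≤ T → T < h0 / 2 → Near (f2 T) (v T 3) ∨ Crude (f2 T) T (v T 3)
  b2 : ∀ T, h0 / 2 ≤ T → T < h0 → (0 ≤ v T 3 ∧ v T 3 ≤ f2 T) ∨ Crude (f2 T) T (v T 3)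
  c2 : ∀ T, h0 ≤ T → T ≤ 1 → Sz (f2 T) (v T 3)
  d : ∀ T, 0 ≤ T → T ≤ 1 → Crude (c3 T) T (v T 4)
  e : ∀ T, h0 ≤ T → T ≤ 1 → Sz (c3 T) (v T 4)
  g : ∀ T, h0 < T → T ≤ 1 → Sz (f1 T) (v T 1) ∧
    1548 / 10000 * ((f1 T - v T 1) * (f2 T - (1 - c1 T)) +
      (f2 T - v T 3) * (1 - c1 T - f1 T)) ≤ (1 / 2 - c1 T) * (f2 T - f1 T)

variable {v : ℝ → Fin 5 → ℝ}

theorem f2_ge {T : ℝ} (h0T : 0 ≤ T) (hT : T ≤ 1) : 9 / 10 ≤ f2 T := by
  have hp := h0_pos
  have hq := h0_sq
  have wl : 17320 / 10000 < √3 := by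
    apply Real.lt_sqrt_of_sq_lt
    norm_num
  have wu : √3 < 17321 / 10000 := by
    rw [Real.sqrt_lt' (by norm_num)]
    norm_num
  have hh : h0 = √3 / 2 := rfl
  have h3 : 1414 / 1000 ≤ c3 T := by
    unfold c3
    apply Real.le_sqrt_of_sq_le
    nlinarith
  unfold f2 Wc
  split_ifs with h
  · have := Real.sqrt_nonneg (1 - (T - h0) ^ 2)
    linarith
  · have : 99 / 100 ≤ √(1 - (T - h0) ^ 2) := by
      apply Real.le_sqrt_of_sq_le
      nlinarith
    linarith

theorem f2_ge_one {T : ℝ} (h0T : 0 ≤ T) (hT : T < h0) : 5 / 4 ≤ f2 T := by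
  have hp := h0_pos
  have hq := h0_sq
  have h3 : 3 / 2 ≤ c3 T := by
    unfold c3
    apply Real.le_sqrt_of_sq_le
    nlinarith
  unfold f2 Wc
  rw [if_pos hT]
  have : 1 / 2 ≤ √(1 - (T - h0) ^ 2) := by
    apply Real.le_sqrt_of_sq_le
    nlinarith
  linarith

theorem f1_ge_one {T : ℝ} (h0T : 0 ≤ T) (hT : T < h0) : 1 ≤ f1 T := by
  have hp := h0_pos
  have hq := h0_sq
  have w2 : √3 ^ 2 = 3 := Real.sq_sqrt (by norm_num)
  have hh : h0 = √3 / 2 := rfl
  -- both chords: `c1 T ≥ 1 - T / √3`, `√(1 - (T - h0)²) ≥ 1/2 + T / √3`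
  have h1 : 1 - T * (√3 / 3) ≤ c1 T := by
    unfold c1
    apply Real.le_sqrt_of_sq_le
    nlinarith [mul_nonneg h0T (sub_nonneg.2 hT.le), Real.sqrt_nonneg 3]
  have h2 : 1 / 2 + T * (√3 / 3) ≤ √(1 - (T - h0) ^ 2) := by
    apply Real.le_sqrt_of_sq_le
    nlinarith [mul_nonneg h0T (sub_nonneg.2 hT.le), Real.sqrt_nonneg 3]
  unfold f1 Wc
  rw [if_pos hT]
  linarith

/-- The kernel on the curves. -/
theorem RW_node {T : ℝ} (hT : 0 ≤ T) (hT3 : T ^ 2 < 3) {p : ℝ × Fin 5} (hp : p ∈ nodesW false T) :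
    RW v p.1 T = v T p.2 := ker_node (v := v) (B := fun _ _ => 0) (isNodesW false) hT hT3 hp

/-- The nodes below the height one. -/
theorem mem_nodes {T : ℝ} (hT1 : T ≤ 1) {p : ℝ × Fin 5} (hp : p ∈ nodesW false T) :
    (p = (c1 T, 0) ∧ T < 1) ∨ (p = (f1 T, 1) ∧ T ≠ 0 ∧ T ≠ h0) ∨ p = (f2 T, 3) ∨
      p = (c3 T, 4) := by
  unfold nodesW at hp
  by_cases h3 : 3 ≤ T ^ 2
  · rw [if_pos h3, List.mem_singleton] at hp
    tauto
  rw [if_neg h3] at hp
  by_cases hs : T = 0 ∨ T = h0
  · rw [if_pos hs] at hp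
    simp only [List.mem_cons, List.not_mem_nil, or_false] at hp
    rcases hp with rfl | rfl | rfl
    · refine Or.inl ⟨rfl, ?_⟩
      rcases hs with h | h
      · rw [h]
        exact one_pos
      · rw [h]
        nlinarith [h0_sq, h0_pos]
    · tauto
    · tauto
  · rw [if_neg hs] at hp
    push Not at hs
    simp only [List.mem_append, List.mem_cons, List.not_mem_nil, or_false, Bool.false_eq_true,
      if_false, List.nil_append] at hp
    rcases hp with hp | hp | hp | hp
    · split_ifs at hp with h1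
      · rw [List.mem_singleton] at hp
        exact Or.inl ⟨hp, h1⟩
      · simp at hp
    · tauto
    · tauto
    · tauto

/-- The value of the kernel above the height `h0`, between the curves `f1`, `f2`, `c3`. -/
theorem RW_mid {T u : ℝ} (hT : h0 < T) (hT1 : T ≤ 1) (hu : f1 T < u) :
    (u ≤ f2 T → RW v u T = v T 1 + (v T 3 - v T 1) * ((u - f1 T) / (f2 T - f1 T))) ∧
    (f2 T < u → u ≤ c3 T →
      RW v u T = v T 3 + (v T 4 - v T 3) * ((u - f2 T) / (c3 T - f2 T))) := by
  have hp := h0_pos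
  have hT0 : 0 < T := by linarith
  have hT3 : T ^ 2 < 3 := by nlinarith
  obtain ⟨s1, s2, s3⟩ := W_between hT0 hT.ne' hT3
  have c10 := c1_nonneg T
  have e1 : c1 T < f1 T := by unfold f1; linarith
  have e3 : f1 T < f2 T := by unfold f1 f2; linarith
  have e4 : f2 T < c3 T := by unfold f2; linarith
  have hu0 : 0 < u := by linarith
  have hns : ¬ (T = 0 ∨ T = h0) := by
    rintro (h | h) <;> linarith
  have hsq : u ≤ c3 T → ¬ 3 < u ^ 2 + T ^ 2 := by
    intro h
    have := c3_sq hT3.le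
    nlinarith
  have key : u ≤ c3 T → RW v u T = itp (v T) [(f1 T, (1 : Fin 5)), (f2 T, 3), (c3 T, 4)] u := by
    intro h3
    unfold RW ker
    rw [abs_of_pos hT0]
    unfold itpO
    rw [if_neg (by linarith)]
    unfold itpH
    rw [if_neg (hsq h3)]
    unfold nodesW
    rw [if_neg (by linarith), if_neg hns]
    rcases hT1.lt_or_eq with h1 | h1
    · rw [if_pos h1]
      simp only [List.cons_append, List.nil_append, Bool.false_eq_true, if_false]
      rw [if_neg (by linarith)]
      conv_lhs => unfold itp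
      rw [if_neg (by linarith)]
    · rw [if_neg (by linarith)]
      simp only [List.nil_append, Bool.false_eq_true, if_false]
      rw [if_neg (by linarith)]
  constructor
  · intro h2
    rw [key (by linarith)]
    unfold itp
    rw [if_pos h2]
  · intro h2 h3
    rw [key h3]
    unfold itp
    rw [if_neg (by linarith)]
    unfold itp
    rw [if_pos h3]

/-- The kernel on the steep curve. -/
theorem RowTab.steep (h : RowTab v) {T : ℝ} (hT : h0 ≤ T) (hT1 : T ≤ 1) :
    Sz (1 - c1 T) (RW v (1 - c1 T) T) ∧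
      1548 / 10000 * (1 - c1 T - RW v (1 - c1 T) T) ≤ 1 / 2 - c1 T := by
  have hp := h0_pos
  have hq := h0_sq
  have w0 : 0 < √3 := Real.sqrt_pos.2 (by norm_num)
  have wl : 17320 / 10000 < √3 := by
    apply Real.lt_sqrt_of_sq_lt
    norm_num
  rcases hT.eq_or_lt with he | hlt
  · subst he
    have h1 : h0 < 1 := by nlinarith
    have e := RW_node (v := v) hp.le (by nlinarith) (c1_mem hp.le h1)
    simp only at e
    rw [c1_h0] at e
    rw [c1_h0, show (1 : ℝ) - 1 / 2 = 1 / 2 by norm_num, e, h.unit h0 hp.le h1, A1u_h0]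
    refine ⟨⟨le_rfl, ?_⟩, ?_⟩
    · linarith
    · norm_num
  have hT0 : 0 < T := by linarith
  have hT3 : T ^ 2 < 3 := by nlinarith
  obtain ⟨s1, s2, s3⟩ := W_between hT0 hlt.ne' hT3
  have c10 := c1_nonneg T
  have c1s := c1_sq hT0.le hT1
  have c3s := c3_sq hT3.le
  have c1h : c1 T < 1 / 2 := by nlinarith
  have Wh : Wc T < 1 / 2 := by
    unfold Wc
    rw [if_neg (by linarith)]
    have : √(1 - (T - h0) ^ 2) < 1 := by
      rw [Real.sqrt_lt' one_pos]
      have : 0 < (T - h0) ^ 2 := by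
        have : 0 < T - h0 := by linarith
        positivity
      linarith
    linarith
  have f1h : f1 T < 1 / 2 := by unfold f1; linarith
  have e3 : f1 T < f2 T := by unfold f1 f2; linarith
  have e4 : f2 T < c3 T := by unfold f2; linarith
  have f29 := f2_ge hT0.le hT1
  have c3g : 1 < c3 T := by
    unfold c3
    apply Real.lt_sqrt_of_sq_lt
    nlinarith
  obtain ⟨m1, m2⟩ := RW_mid (v := v) hlt hT1 (u := 1 - c1 T) (by linarith)
  obtain ⟨g1, g2⟩ := h.g T hlt hT1
  have q2 := h.c2 T hT hT1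
  have q4 := h.e T hT hT1
  rcases le_or_gt (1 - c1 T) (f2 T) with hc | hc
  · rw [m1 hc]
    have hd : 0 < f2 T - f1 T := by linarith
    set t := (1 - c1 T - f1 T) / (f2 T - f1 T) with ht
    have htd : t * (f2 T - f1 T) = 1 - c1 T - f1 T := div_mul_cancel₀ _ hd.ne'
    have ht0 : 0 ≤ t := div_nonneg (by linarith) hd.le
    have ht1 : t ≤ 1 := by
      rw [ht, div_le_one hd]
      linarith
    have hm := g1.mix q2 ht0 ht1
    have hx : f1 T + (f2 T - f1 T) * t = 1 - c1 T := by linarith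
    rw [hx] at hm
    refine ⟨hm, ?_⟩
    have e : (1 - c1 T - (v T 1 + (v T 3 - v T 1) * t)) * (f2 T - f1 T) =
        (f1 T - v T 1) * (f2 T - (1 - c1 T)) + (f2 T - v T 3) * (1 - c1 T - f1 T) := by
      linear_combination (v T 1 - v T 3) * htd
    rw [← e] at g2
    have g3 : (1548 / 10000 * (1 - c1 T - (v T 1 + (v T 3 - v T 1) * t))) * (f2 T - f1 T) ≤
        (1 / 2 - c1 T) * (f2 T - f1 T) := by linarith
    exact le_of_mul_le_mul_right g3 hd
  · rw [m2 hc (by linarith)]
    have hd : 0 < c3 T - f2 T := by linarith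
    set t := (1 - c1 T - f2 T) / (c3 T - f2 T) with ht
    have htd : t * (c3 T - f2 T) = 1 - c1 T - f2 T := div_mul_cancel₀ _ hd.ne'
    have ht0 : 0 ≤ t := div_nonneg (by linarith) hd.le
    have ht1 : t ≤ 1 := by
      rw [ht, div_le_one hd]
      linarith
    have hm := q2.mix q4 ht0 ht1
    have hx : f2 T + (c3 T - f2 T) * t = 1 - c1 T := by linarith
    rw [hx] at hm
    refine ⟨hm, ?_⟩
    obtain ⟨m3, m4⟩ := hm
    set A := v T 3 + (v T 4 - v T 3) * t
    have : -A ≤ 1 := by
      by_contra hcon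
      rw [not_le] at hcon
      nlinarith
    linarith

/-- **The floor of a table.** -/
theorem RowTab.wall (h : RowTab v) {θ : ℝ} (hθ0 : 0 < θ) (hθ : θ ≤ 1) :
    ∀ s, 0 ≤ s → s < h0 → ∀ (p q : Pt) (m : ℝ), p.1 ≤ q.1 → 0 ≤ p.2 → 0 ≤ q.2 →
    1 ≤ ds p q → (p.1 - m) ^ 2 + p.2 ^ 2 = (q.1 - m) ^ 2 + q.2 ^ 2 →
    (p.1 - m) ^ 2 + p.2 ^ 2 ≤ 1 →
    1 / 2 ≤ (q.1 - p.1) * (1 / 2 - amp θ s + (p.2 + q.2) / (2 * h0)) -
      ed (QA θ (RW v) s) p q := by
  intro s hs0 hs1 p q m hx hp hq hd hc hr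
  have hp0 := h0_pos
  have hq0 := h0_sq
  have hκ : 0 ≤ kap θ s := (div_pos hθ0 (L0_pos hs1)).le
  refine wallAv_of (R := RW v) ?_ hθ0 hθ hs0 hs1 ?_ hx hp hq hd hc hr
  · intro X T hX hT hu
    rw [RW_unit hX hT hu, h.unit T hT (by nlinarith)]
  · refine short_of_nodes (Nd := NdW) (fun X T _ h1 h2 => ker_pieces (isNodesW false)
      (fun _ => rfl) X T h1 h2) ?_ ?_
    · intro X T y hT hT1 hX h1 h3 hN hor hy
      have hT3 : T ^ 2 < 3 := by nlinarith
      obtain ⟨n, hn, hn'⟩ := hN
      rw [abs_of_nonneg hT] at hn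
      rw [abs_of_pos hX] at hn'
      rw [hn', RW_node hT hT3 hn]
      have hτ1 : T < h0 / 2 → tau T = T ∧ T / (2 * h0) = 0 + tau T / (2 * h0) := by
        intro hh
        have : tau T = T := by
          unfold tau jn
          rw [if_pos hh]
          simp
        rw [this]
        exact ⟨rfl, by ring⟩
      have hτ2 : h0 / 2 ≤ T → tau T = T - h0 ∧ T / (2 * h0) = 1 / 2 + tau T / (2 * h0) := by
        intro hh
        have : tau T = T - h0 := by
          unfold tau jn
          rw [if_neg hh.not_gt, if_pos (by nlinarith)]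
          push_cast
          ring
        rw [this]
        refine ⟨rfl, ?_⟩
        field_simp
        ring
      rcases mem_nodes hT1 hn with ⟨rfl, hlt⟩ | ⟨rfl, hne0, hneh⟩ | rfl | rfl
      · -- the unit circle
        simp only at hn' ⊢
        have hTh : T ≤ h0 := by
          rcases hor with h' | h'
          · exact h'
          · have e : √(1 - T ^ 2) = X := by rw [hn']; rfl
            rw [e] at h'
            have := c1_sq hT hT1
            rw [← hn'] at this
            nlinarith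
        rw [h.unit T hT hlt]
        exact SY_unit hθ0 hθ hs0 hs1 hT hTh hy
      · -- the curve `f1`
        simp only at hn' ⊢
        have hTp : 0 < T := lt_of_le_of_ne hT (Ne.symm hne0)
        have hTh : T < h0 := by
          rcases hor with h' | h'
          · exact lt_of_le_of_ne h' hneh
          · by_contra hcon
            rw [not_lt] at hcon
            have hlt : h0 < T := lt_of_le_of_ne hcon (Ne.symm hneh)
            have e : √(1 - T ^ 2) = c1 T := rfl
            rw [e, hn'] at h'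
            have c1s := c1_sq hT hT1
            have c10 := c1_nonneg T
            have c1h : c1 T < 1 / 2 := by nlinarith
            have Wh : Wc T < 1 / 2 := by
              unfold Wc
              rw [if_neg (by linarith)]
              have : √(1 - (T - h0) ^ 2) < 1 := by
                rw [Real.sqrt_lt' one_pos]
                have : 0 < (T - h0) ^ 2 := by
                  have : 0 < T - h0 := by linarith
                  positivity
                linarith
              linarith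
            unfold f1 at h'
            linarith
        have hX1 := f1_ge_one hT hTh
        rcases lt_or_ge T (h0 / 2) with hh | hh
        · rcases h.a1 T hTp hh with ⟨k1, k2⟩ | k
          swap
          · exact SY_crude' hθ0 hθ hs0 hs1 (by linarith) hy k
          obtain ⟨t1, t2⟩ := hτ1 hh
          refine SY_of_S0 hs0 hs1 hκ (k1.mono (by linarith) hθ0 hθ hs0 hs1) ?_ hy
          exact S0_pos hθ0 hθ hs0 hs1 (by rw [t1]; exact hT) (by rw [t1]; exact hTh.le) t2
            (by linarith) k1.1 (by linarith)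
        · rcases h.b1 T hh hTh with ⟨k1, k2⟩ | k
          swap
          · exact SY_crude' hθ0 hθ hs0 hs1 (by linarith) hy k
          have hsz : Sz (f1 T) (v T 1) := ⟨k2, by
            have := mul_nonneg (Real.sqrt_nonneg 3) k1
            linarith⟩
          exact SY_of_S0 hs0 hs1 hκ (hsz.mono (by linarith) hθ0 hθ hs0 hs1)
            (S0_neg hθ0 hθ hs0 hs1 hh hTh.le hX1 k1 k2) hy
      · -- the curve `f2`
        simp only at hn' ⊢
        rcases lt_or_ge T (h0 / 2) with hh | hh
        · have hX1 := f2_ge_one hT (by linarith)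
          rcases h.a2 T hT hh with ⟨k1, k2⟩ | k
          swap
          · exact SY_crude' hθ0 hθ hs0 hs1 (by linarith) hy k
          obtain ⟨t1, t2⟩ := hτ1 hh
          refine SY_of_S0 hs0 hs1 hκ (k1.mono (by linarith) hθ0 hθ hs0 hs1) ?_ hy
          exact S0_pos hθ0 hθ hs0 hs1 (by rw [t1]; exact hT) (by rw [t1]; linarith) t2
            (by linarith) k1.1 (by linarith)
        rcases lt_or_ge T h0 with hh2 | hh2
        · have hX1 := f2_ge_one hT hh2
          rcases h.b2 T hh hh2 with ⟨k1, k2⟩ | k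
          swap
          · exact SY_crude' hθ0 hθ hs0 hs1 (by linarith) hy k
          have hsz : Sz (f2 T) (v T 3) := ⟨k2, by
            have := mul_nonneg (Real.sqrt_nonneg 3) k1
            linarith⟩
          exact SY_of_S0 hs0 hs1 hκ (hsz.mono (by linarith) hθ0 hθ hs0 hs1)
            (S0_neg hθ0 hθ hs0 hs1 hh hh2.le (by linarith) k1 k2) hy
        · have k1 := h.c2 T hh2 hT1
          have hX9 := f2_ge hT hT1
          obtain ⟨t1, t2⟩ := hτ2 hh
          refine SY_of_S0 hs0 hs1 hκ (k1.mono (by linarith) hθ0 hθ hs0 hs1) ?_ hy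
          refine S0_pos hθ0 hθ hs0 hs1 (by rw [t1]; linarith) (by rw [t1]; nlinarith) t2
            (by linarith) k1.1 ?_
          have w0 : 0 < √3 := Real.sqrt_pos.2 (by norm_num)
          have wl : 17320 / 10000 < √3 := by
            apply Real.lt_sqrt_of_sq_lt
            norm_num
          have : -v T 3 ≤ f2 T := by
            have := k1.2
            by_contra hcon
            rw [not_le] at hcon
            nlinarith
          linarith
      · -- the circle of radius `√3`
        simp only at hn' ⊢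
        exact SY_crude' hθ0 hθ hs0 hs1 (c3_nonneg T) hy (h.d T hT hT1)
    · intro T y hT hT1 hy
      obtain ⟨g1, g2⟩ := h.steep hT hT1
      have e : √(1 - T ^ 2) = c1 T := rfl
      rw [e]
      exact SY_steep' hθ0 hθ hs0 hs1 hT hT1 e g1 g2 hy

end Pool.Agent.Strip051.LC.Line
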