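import Pool.Agent.Strip051.LC.Line.Flux

/-! # From triangles to the star inequality

Every triangle has the normal form: bottom vertex, middle vertex (on the right), top vertex. -/

namespace Pool.Agent.Strip051.LC.Line

open Pool.Agent.StripNear Pool.Agent.StripSquare Pool.Agent.Strip051.Sweep

/-- The potential at the three nodes when the three short arcs cover the circle. -/
noncomputable def StarW (θ exc l1 l2 l3 A1 A2 A3 : ℝ) : Prop :=
  Star θ exc l1 l2 l3 (pot h0 A1 A2 A3 l1 l2 l3) (pot h0 A2 A3 A1 l2 l3 l1)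
    (pot h0 A3 A1 A2 l3 l1 l2)

/-- The potential at the three nodes when the longest short arc is the union of the others. -/
noncomputable def StarN (θ exc l1 l2 A1 A2 A3 : ℝ) : Prop :=
  Star θ exc l1 l2 (h0 - l1 - l2)
    ((A1 * (h0 - l1) + A2 * (h0 - 2 * l1 - l2) - A3 * (h0 - l1 - l2)) / (2 * h0))
    ((-A1 * (h0 - l1) + A2 * (h0 - l2) + A3 * (l1 - l2) / (l1 + l2) * (h0 - l1 - l2)) / (2 * h0))
    ((-A1 * (h0 - l1 - 2 * l2) - A2 * (h0 - l2) + A3 * (h0 - l1 - l2)) / (2 * h0))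

/-- The signed distance to the nearest multiple of `h0`. -/
noncomputable def tau (T : ℝ) : ℝ := T - jn T * h0

/-- The excess of the triangle with the displacements `(X12, t)` and `(X13, t + t')`. -/
noncomputable def exc (X12 X13 t t' : ℝ) : ℝ := (X12 * (t + t') - X13 * t) / (2 * h0) - 1 / 2

/-- The star inequality for a triangle in normal form (one of the eight cases). -/
inductive NF (θ : ℝ) (R : ℝ → ℝ → ℝ) (X12 X13 t t' : ℝ) : Prop
  | pp (hj : jn (t + t') = jn t + jn t') (h1 : 0 ≤ tau t) (h2 : 0 ≤ tau t')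
      (h : StarN θ (exc X12 X13 t t') (tau t) (tau t') (-R X12 t) (-R (X13 - X12) t')
        (-R X13 (t + t')))
  | nn (hj : jn (t + t') = jn t + jn t') (h1 : tau t ≤ 0) (h2 : tau t' ≤ 0)
      (h : StarN θ (exc X12 X13 t t') (-tau t') (-tau t) (-R (X13 - X12) t') (-R X12 t)
        (-R X13 (t + t')))
  | pnp (hj : jn (t + t') = jn t + jn t') (h1 : 0 ≤ tau t) (h2 : tau t' ≤ 0)
      (h3 : 0 ≤ tau (t + t'))
      (h : StarN θ (exc X12 X13 t t') (tau (t + t')) (-tau t') (R X13 (t + t'))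
        (-R (X13 - X12) t') (R X12 t))
  | pnn (hj : jn (t + t') = jn t + jn t') (h1 : 0 ≤ tau t) (h2 : tau t' ≤ 0)
      (h3 : tau (t + t') ≤ 0)
      (h : StarN θ (exc X12 X13 t t') (-tau (t + t')) (tau t) (R X13 (t + t')) (-R X12 t)
        (R (X13 - X12) t'))
  | npp (hj : jn (t + t') = jn t + jn t') (h1 : tau t ≤ 0) (h2 : 0 ≤ tau t')
      (h3 : 0 ≤ tau (t + t'))
      (h : StarN θ (exc X12 X13 t t') (-tau t) (tau (t + t')) (-R X12 t) (R X13 (t + t'))
        (R (X13 - X12) t'))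
  | npn (hj : jn (t + t') = jn t + jn t') (h1 : tau t ≤ 0) (h2 : 0 ≤ tau t')
      (h3 : tau (t + t') ≤ 0)
      (h : StarN θ (exc X12 X13 t t') (tau t') (-tau (t + t')) (-R (X13 - X12) t')
        (R X13 (t + t')) (R X12 t))
  | up (hj : jn (t + t') = jn t + jn t' + 1)
      (h : StarW θ (exc X12 X13 t t') (tau t) (tau t') (-tau (t + t')) (-R X12 t)
        (-R (X13 - X12) t') (R X13 (t + t')))
  | dn (hj : jn (t + t') + 1 = jn t + jn t')
      (h : StarW θ (exc X12 X13 t t') (tau (t + t')) (-tau t') (-tau t) (R X13 (t + t'))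
        (-R (X13 - X12) t') (-R X12 t))

theorem tau_bd {T : ℝ} (h0T : 0 ≤ T) (hT : T ≤ 2 * h0) : -(h0 / 2) ≤ tau T ∧ tau T < h0 / 2 := by
  have hp := h0_pos
  unfold tau jn
  split_ifs with h1 h2
  · push_cast
    constructor <;> linarith
  · push_cast
    constructor <;> linarith
  · push_cast
    constructor <;> linarith

theorem Qd_up (R : ℝ → ℝ → ℝ) (D : ℝ → ℝ) (X : ℝ) {y t : ℝ} (ht : 0 ≤ t) :
    Qd R D X y (y + t) = R X t * mn D y (y + tau t) := by
  unfold Qd tau
  rw [add_sub_cancel_left, abs_of_nonneg ht, min_eq_left (by linarith), max_eq_right (by linarith)]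
  congr 2
  ring

/-- The inequality for a triangle in normal form. -/
theorem nf_slack {θ s : ℝ} (hθ : 0 < θ) (hs0 : 0 ≤ s) (hs1 : s < h0) {R : ℝ → ℝ → ℝ}
    {X12 X13 t t' : ℝ} (ht : 0 ≤ t) (ht' : 0 ≤ t') (hT : t + t' ≤ 2 * h0)
    (hN : NF θ R X12 X13 t t') (y : ℝ) :
    1 / 2 ≤ (X12 * (t + t') - X13 * t) / (2 * h0) +
      (Qd R (D s (kap θ s)) X12 y (y + t) +
        Qd R (D s (kap θ s)) (X13 - X12) (y + t) (y + t + t') -
        Qd R (D s (kap θ s)) X13 y (y + (t + t'))) := by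
  have hp := h0_pos
  set f := D s (kap θ s) with hf
  have hshift : ∀ (k : ℕ) (a b : ℝ), mn f (a + k * h0) (b + k * h0) = mn f a b := fun k a b =>
    mn_shift (fun x => D_add_nat s (kap θ s) x k) a b
  rw [Qd_up R f X12 ht, Qd_up R f (X13 - X12) ht', Qd_up R f X13 (by linarith)]
  have e2 : mn f (y + t) (y + t + tau t') = mn f (y + tau t) (y + tau t + tau t') := by
    rw [← hshift (jn t) (y + tau t)]
    unfold tau
    congr 1 <;> ring
  rw [e2]
  obtain ⟨u1, u2⟩ := tau_bd ht (by linarith)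
  obtain ⟨v1, v2⟩ := tau_bd ht' (by linarith)
  obtain ⟨w1, w2⟩ := tau_bd (T := t + t') (by linarith) hT
  have hexc : (X12 * (t + t') - X13 * t) / (2 * h0) = exc X12 X13 t t' + 1 / 2 := by
    unfold exc
    ring
  rw [hexc]
  have hsum : tau t + tau t' - tau (t + t') =
      ((jn (t + t') : ℝ) - jn t - jn t') * h0 := by
    unfold tau
    ring
  set E := exc X12 X13 t t'
  have hw5 : jn (t + t') = jn t + jn t' → tau (t + t') = tau t + tau t' := by
    intro hm
    have h4 : (jn (t + t') : ℝ) = jn t + jn t' := by exact_mod_cast hm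
    have : (jn (t + t') : ℝ) - jn t - jn t' = 0 := by linarith
    rw [this, zero_mul] at hsum
    linarith
  obtain ⟨hm, hu0, hv0, n⟩ | ⟨hm, hu0, hv0, n⟩ | ⟨hm, hu0, hv0, hw0, n⟩ | ⟨hm, hu0, hv0, hw0, n⟩ |
    ⟨hm, hu0, hv0, hw0, n⟩ | ⟨hm, hu0, hv0, hw0, n⟩ | ⟨hm1, n⟩ | ⟨hm1, n⟩ := hN
  all_goals
    set R1 := R X12 t with hR1
    set R2 := R (X13 - X12) t' with hR2
    set R3 := R X13 (t + t') with hR3
    set u := tau t with hu
    set v := tau t' with hv
    set w := tau (t + t') with hw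
  · have h5 := hw5 hm
    have key := nonwrap (a := y) hθ hs0 hs1 (l1 := u) (l2 := v) hu0 hv0 (by linarith) n
    rw [← hf] at key
    rw [h5, ← add_assoc]
    linarith
  · have h5 := hw5 hm
    have key := nonwrap (a := y + w) hθ hs0 hs1 (l1 := -v) (l2 := -u) (by linarith)
      (by linarith) (by linarith) n
    rw [← hf] at key
    have i1 : mn f (y + w) (y + w + -v) = mn f (y + u) (y + u + v) := by
      rw [mn_symm, h5]
      congr 1 <;> ring
    have i2 : mn f (y + w + -v) (y + w + -v + -u) = mn f y (y + u) := by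
      rw [mn_symm, h5]
      congr 1 <;> ring
    have i3 : mn f (y + w) (y + w + -v + -u) = mn f y (y + w) := by
      rw [mn_symm, h5]
      congr 1
      ring
    rw [i1, i2, i3] at key
    linarith
  · have h5 := hw5 hm
    have key := nonwrap (a := y) hθ hs0 hs1 (l1 := w) (l2 := -v) hw0 (by linarith)
      (by linarith) n
    rw [← hf] at key
    have i2 : mn f (y + u) (y + u + v) = mn f (y + w) (y + w + -v) := by
      rw [mn_symm, h5]
      congr 1 <;> ring
    have i3 : mn f y (y + u) = mn f y (y + w + -v) := by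
      rw [h5]
      congr 1
      ring
    rw [i2, i3]
    linarith
  · have h5 := hw5 hm
    have key := nonwrap (a := y + w) hθ hs0 hs1 (l1 := -w) (l2 := u) (by linarith) hu0
      (by linarith) n
    rw [← hf] at key
    have i1 : mn f (y + w) (y + w + -w) = mn f y (y + w) := by
      rw [mn_symm]
      congr 1
      ring
    have i2 : mn f (y + w + -w) (y + w + -w + u) = mn f y (y + u) := by
      congr 1 <;> ring
    have i3 : mn f (y + w) (y + w + -w + u) = mn f (y + u) (y + u + v) := by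
      rw [mn_symm, h5]
      congr 1 <;> ring
    rw [i1, i2, i3] at key
    linarith
  · have h5 := hw5 hm
    have key := nonwrap (a := y + u) hθ hs0 hs1 (l1 := -u) (l2 := w) (by linarith) hw0
      (by linarith) n
    rw [← hf] at key
    have i1 : mn f (y + u) (y + u + -u) = mn f y (y + u) := by
      rw [mn_symm]
      congr 1
      ring
    have i2 : mn f (y + u + -u) (y + u + -u + w) = mn f y (y + w) := by
      congr 1 <;> ring
    have i3 : mn f (y + u) (y + u + -u + w) = mn f (y + u) (y + u + v) := by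
      rw [h5]
      congr 1
      ring
    rw [i1, i2, i3] at key
    linarith
  · have h5 := hw5 hm
    have key := nonwrap (a := y + u) hθ hs0 hs1 (l1 := v) (l2 := -w) hv0 (by linarith)
      (by linarith) n
    rw [← hf] at key
    have i2 : mn f (y + u + v) (y + u + v + -w) = mn f y (y + w) := by
      rw [mn_symm, h5]
      congr 1 <;> ring
    have i3 : mn f (y + u) (y + u + v + -w) = mn f y (y + u) := by
      rw [mn_symm, h5]
      congr 1
      ring
    rw [i2, i3] at key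
    linarith
  · -- the wrap upwards
    have h4 : (jn (t + t') : ℝ) = jn t + jn t' + 1 := by exact_mod_cast hm1
    have h5 : u + v - w = h0 := by
      rw [hsum]
      have : (jn (t + t') : ℝ) - jn t - jn t' = 1 := by linarith
      rw [this]
      ring
    have key := wrap (a := y) hθ hs0 hs1 (l1 := u) (l2 := v) (l3 := -w) (by linarith)
      (by linarith) (by linarith) (by linarith) n
    rw [← hf] at key
    have i3 : mn f y (y + w) = mn f (y + u + v) (y + h0) := by
      rw [← hshift 1 y, mn_symm]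
      push_cast
      congr 1 <;> linarith
    rw [i3]
    linarith
  · -- the wrap downwards
    have h4 : (jn (t + t') : ℝ) + 1 = jn t + jn t' := by exact_mod_cast hm1
    have h5 : u + v - w = -h0 := by
      rw [hsum]
      have : (jn (t + t') : ℝ) - jn t - jn t' = -1 := by linarith
      rw [this]
      ring
    have key := wrap (a := y) hθ hs0 hs1 (l1 := w) (l2 := -v) (l3 := -u) (by linarith)
      (by linarith) (by linarith) (by linarith) n
    rw [← hf] at key
    have i2 : mn f (y + u) (y + u + v) = mn f (y + w) (y + w + -v) := by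
      rw [← hshift 1 (y + u), mn_symm]
      push_cast
      congr 1 <;> linarith
    have i3 : mn f y (y + u) = mn f (y + w + -v) (y + h0) := by
      rw [← hshift 1 y, mn_symm]
      push_cast
      congr 1 <;> linarith
    rw [i2, i3]
    linarith

/-! ### Normal form of a triangle -/

/-- The displacement `(X, T)` (`T ≥ 0`) is a node: the edge functions are affine between nodes. -/
def Node (Nd : ℝ → ℝ → Prop) (X y z : ℝ) : Prop := Nd X |z - y|

/-- At least two sides are nodes. -/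
def Two (Nd : ℝ → ℝ → Prop) (p q r : Pt) : Prop :=
  (Node Nd (q.1 - p.1) p.2 q.2 ∧ Node Nd (r.1 - q.1) q.2 r.2) ∨
  (Node Nd (q.1 - p.1) p.2 q.2 ∧ Node Nd (r.1 - p.1) p.2 r.2) ∨
  (Node Nd (r.1 - q.1) q.2 r.2 ∧ Node Nd (r.1 - p.1) p.2 r.2)

/-- The hypothesis for the triangles in normal form with two nodes. -/
def Families (θ : ℝ) (R : ℝ → ℝ → ℝ) (Nd : ℝ → ℝ → Prop) : Prop :=
  ∀ X12 X13 t t' : ℝ, 0 ≤ t → 0 ≤ t' → 0 ≤ X12 * (t + t') - X13 * t →
    1 ≤ X12 ^ 2 + t ^ 2 → X12 ^ 2 + t ^ 2 ≤ 3 →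
    1 ≤ (X13 - X12) ^ 2 + t' ^ 2 → (X13 - X12) ^ 2 + t' ^ 2 ≤ 3 →
    1 ≤ X13 ^ 2 + (t + t') ^ 2 → X13 ^ 2 + (t + t') ^ 2 ≤ 3 →
    (Nd X12 t ∧ Nd (X13 - X12) t' ∨ Nd X12 t ∧ Nd X13 (t + t') ∨
      Nd (X13 - X12) t' ∧ Nd X13 (t + t')) → NF θ R X12 X13 t t'

section

variable {θ s : ℝ} {R : ℝ → ℝ → ℝ} {Nd : ℝ → ℝ → Prop}

/-- The inequality for one triangle. -/
def Tri (Q : ℝ → ℝ → ℝ → ℝ) (p q r : Pt) : Prop := 1 / 2 ≤ cr p q r / (2 * h0) + fl Q p q r

theorem Tri.rot {Q : ℝ → ℝ → ℝ → ℝ} {p q r : Pt} (h : Tri Q q r p) : Tri Q p q r := by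
  unfold Tri fl at *
  have : cr p q r = cr q r p := by
    unfold cr
    ring
  rw [this]
  linarith

/-- The reflection in the vertical axis. -/
def rx (p : Pt) : Pt := (-p.1, p.2)

theorem cr_rx (p q r : Pt) : cr (rx p) (rx q) (rx r) = -cr p q r := by
  unfold cr rx
  ring

theorem ds_rx (p q : Pt) : ds (rx p) (rx q) = ds p q := by
  unfold ds rx
  ring

theorem ds_symm (p q : Pt) : ds p q = ds q p := by
  unfold ds
  ring

theorem Tri.mirror {Q : ℝ → ℝ → ℝ → ℝ} (hanti : ∀ X y z, Q (-X) z y = -Q X y z)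
    (hcomm : ∀ X y z, Q X z y = Q X y z) {p q r : Pt} (h : Tri Q (rx p) (rx r) (rx q)) :
    Tri Q p q r := by
  unfold Tri at *
  have e1 : cr (rx p) (rx r) (rx q) = cr p q r := by
    rw [cr_rx]
    unfold cr
    ring
  have e2 : ∀ a b : Pt, ed Q (rx a) (rx b) = ed Q b a := by
    intro a b
    unfold ed rx
    simp only
    rw [show -b.1 - -a.1 = a.1 - b.1 by ring]
    exact (hcomm _ _ _).symm
  have e3 : fl Q (rx p) (rx r) (rx q) = fl Q p q r := by
    unfold fl
    rw [e2, e2, e2]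
    ring
  rwa [e1, e3] at h

/-- The base case of the reduction. -/
theorem tri_base (hθ : 0 < θ) (hs0 : 0 ≤ s) (hs1 : s < h0) (hR : ∀ X T, R (-X) T = -R X T)
    (hF : Families θ R Nd) {p q r : Pt} (h1 : p.2 ≤ q.2) (h2 : q.2 ≤ r.2) (h0c : 0 ≤ cr p q r)
    (a1 : 1 ≤ ds p q) (a2 : 1 ≤ ds q r) (a3 : 1 ≤ ds p r) (b1 : ds p q ≤ 3) (b2 : ds q r ≤ 3)
    (b3 : ds p r ≤ 3) (hN : Two Nd p q r) : Tri (Qd R (D s (kap θ s))) p q r := by
  have hh := h0_sq
  have hp := h0_pos
  unfold ds at a1 a2 a3 b1 b2 b3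
  have e12 : |q.2 - p.2| = q.2 - p.2 := abs_of_nonneg (by linarith)
  have e23 : |r.2 - q.2| = r.2 - q.2 := abs_of_nonneg (by linarith)
  have e13 : |r.2 - p.2| = r.2 - p.2 := abs_of_nonneg (by linarith)
  unfold Two Node at hN
  rw [e12, e23, e13] at hN
  have key := nf_slack hθ hs0 hs1 (R := R) (X12 := q.1 - p.1) (X13 := r.1 - p.1)
    (t := q.2 - p.2) (t' := r.2 - q.2) (by linarith) (by linarith) (by nlinarith)
    (hF _ _ _ _ (by linarith) (by linarith)
      (by
        unfold cr at h0c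
        nlinarith)
      (by nlinarith) (by nlinarith) (by nlinarith) (by nlinarith) (by nlinarith) (by nlinarith)
      (by
        rw [show r.1 - p.1 - (q.1 - p.1) = r.1 - q.1 by ring,
          show q.2 - p.2 + (r.2 - q.2) = r.2 - p.2 by ring]
        exact hN)) p.2
  rw [show p.2 + (q.2 - p.2) = q.2 by ring, show q.2 + (r.2 - q.2) = r.2 by ring,
    show p.2 + (q.2 - p.2 + (r.2 - q.2)) = r.2 by ring,
    show r.1 - p.1 - (q.1 - p.1) = r.1 - q.1 by ring] at key
  unfold Tri fl ed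
  have e : Qd R (D s (kap θ s)) (p.1 - r.1) r.2 p.2 =
      -Qd R (D s (kap θ s)) (r.1 - p.1) p.2 r.2 := by
    rw [← Qd_anti hR]
    congr 1
    ring
  have e' : cr p q r = (q.1 - p.1) * (q.2 - p.2 + (r.2 - q.2)) - (r.1 - p.1) * (q.2 - p.2) := by
    unfold cr
    ring
  rw [e, e']
  linarith

/-- All triangles with two nodes. -/
theorem tri_all (hθ : 0 < θ) (hs0 : 0 ≤ s) (hs1 : s < h0) (hR : ∀ X T, R (-X) T = -R X T)
    (hNd : ∀ X T, Nd X T → Nd (-X) T) (hF : Families θ R Nd) {p q r : Pt} (h0c : 0 ≤ cr p q r)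
    (a1 : 1 ≤ ds p q) (a2 : 1 ≤ ds q r) (a3 : 1 ≤ ds p r) (b1 : ds p q ≤ 3) (b2 : ds q r ≤ 3)
    (b3 : ds p r ≤ 3) (hN : Two Nd p q r) : Tri (Qd R (D s (kap θ s))) p q r := by
  have hflip : ∀ a b : Pt, Node Nd (b.1 - a.1) a.2 b.2 → Node Nd (a.1 - b.1) b.2 a.2 := by
    intro a b h
    unfold Node at *
    rw [abs_sub_comm, show a.1 - b.1 = -(b.1 - a.1) by ring]
    exact hNd _ _ h
  -- the lowest vertex is the first one
  have low : ∀ p q r : Pt, p.2 ≤ q.2 → p.2 ≤ r.2 → 0 ≤ cr p q r → 1 ≤ ds p q → 1 ≤ ds q r →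
      1 ≤ ds p r → ds p q ≤ 3 → ds q r ≤ 3 → ds p r ≤ 3 → Two Nd p q r →
      Tri (Qd R (D s (kap θ s))) p q r := by
    intro p q r h1 h2 h0c a1 a2 a3 b1 b2 b3 hN
    rcases le_total q.2 r.2 with h3 | h3
    · exact tri_base hθ hs0 hs1 hR hF h1 h3 h0c a1 a2 a3 b1 b2 b3 hN
    · apply Tri.mirror (Qd_anti hR _) (Qd_comm R _)
      apply tri_base hθ hs0 hs1 hR hF (p := rx p) (q := rx r) (r := rx q) h2 h3
      · rw [cr_rx]
        have : cr p r q = -cr p q r := by
          unfold cr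
          ring
        rw [this]
        linarith
      · rwa [ds_rx]
      · rwa [ds_rx, ds_symm]
      · rwa [ds_rx]
      · rwa [ds_rx]
      · rwa [ds_rx, ds_symm]
      · rwa [ds_rx]
      · have hrx : ∀ a b : Pt, Node Nd (b.1 - a.1) a.2 b.2 →
            Node Nd ((rx b).1 - (rx a).1) (rx a).2 (rx b).2 := by
          intro a b h
          unfold Node rx at *
          simp only
          rw [show -b.1 - -a.1 = -(b.1 - a.1) by ring]
          exact hNd _ _ h
        unfold Two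
        rcases hN with ⟨h4, h5⟩ | ⟨h4, h5⟩ | ⟨h4, h5⟩
        · exact Or.inr (Or.inr ⟨hrx _ _ (hflip _ _ h5), hrx _ _ h4⟩)
        · exact Or.inr (Or.inl ⟨hrx _ _ h5, hrx _ _ h4⟩)
        · exact Or.inl ⟨hrx _ _ h5, hrx _ _ (hflip _ _ h4)⟩
  have hrot : ∀ p q r : Pt, Two Nd p q r → Two Nd q r p := by
    intro p q r h
    rcases h with ⟨h4, h5⟩ | ⟨h4, h5⟩ | ⟨h4, h5⟩
    · exact Or.inr (Or.inl ⟨h5, hflip _ _ h4⟩)
    · exact Or.inr (Or.inr ⟨hflip _ _ h5, hflip _ _ h4⟩)
    · exact Or.inl ⟨h4, hflip _ _ h5⟩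
  have hcr : ∀ p q r : Pt, cr p q r = cr q r p := by
    intro p q r
    unfold cr
    ring
  rcases le_total p.2 q.2 with h1 | h1
  · rcases le_total p.2 r.2 with h2 | h2
    · exact low p q r h1 h2 h0c a1 a2 a3 b1 b2 b3 hN
    · -- `r` is the lowest vertex
      apply Tri.rot
      apply Tri.rot
      exact low r p q h2 (h2.trans h1) (by rw [hcr]; exact h0c) (by rwa [ds_symm]) a1
        (by rwa [ds_symm]) (by rwa [ds_symm]) b1 (by rwa [ds_symm]) (hrot _ _ _ (hrot _ _ _ hN))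
  · rcases le_total q.2 r.2 with h2 | h2
    · -- `q` is the lowest vertex
      apply Tri.rot
      exact low q r p h2 h1 (by rw [← hcr]; exact h0c) a2 (by rwa [ds_symm]) (by rwa [ds_symm])
        b2 (by rwa [ds_symm]) (by rwa [ds_symm]) (hrot _ _ _ hN)
    · apply Tri.rot
      apply Tri.rot
      exact low r p q (h2.trans h1) h2 (by rw [hcr]; exact h0c) (by rwa [ds_symm]) a1
        (by rwa [ds_symm]) (by rwa [ds_symm]) b1 (by rwa [ds_symm]) (hrot _ _ _ (hrot _ _ _ hN))

end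

end Pool.Agent.Strip051.LC.Line
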